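import Mathlib

/-!
# World Fin: definitions

`F` is an ordered field (later: the hyperreals), `G` its value group. All sets are subsets of the plane `F × F`.
-/

set_option autoImplicit false

namespace Pool.Agent.Lib.MP_8bcb9d_co.W

section Basic

variable {F : Type} [Field F] [LinearOrder F] [IsStrictOrderedRing F]

/-- `Sm x y`: `x` is infinitely smaller than `y` (in particular `y ≠ 0`). -/
def Sm (x y : F) : Prop := ∀ n : ℕ, (n : F) * |x| < |y|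

/-- `Bd x y`: `x` is at most a standard multiple of `y`. -/
def Bd (x y : F) : Prop := ∃ n : ℕ, |x| ≤ (n : F) * |y|

/-- cross product -/
def cr (a b : F × F) : F := a.1 * b.2 - a.2 * b.1

/-- maximum norm -/
def nrm (p : F × F) : F := max |p.1| |p.2|

/-- the closed triangle -/
def Tri (a b c : F × F) : Set (F × F) :=
  {w | ∃ x y z : F, 0 ≤ x ∧ 0 ≤ y ∧ 0 ≤ z ∧ x + y + z = 1 ∧ w = x • a + y • b + z • c}

/-- the third vertices of the empty triangles with side `a b` -/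
def Lnk (X : Set (F × F)) (a b : F × F) : Set (F × F) :=
  {z | z ∈ X ∧ z ≠ a ∧ z ≠ b ∧ ∀ w ∈ X, w ∈ Tri a b z → w = a ∨ w = b ∨ w = z}

/-- no three points on a line -/
def GP (X : Set (F × F)) : Prop :=
  ∀ a ∈ X, ∀ b ∈ X, ∀ c ∈ X, a ≠ b → a ≠ c → b ≠ c → cr (b - a) (c - a) ≠ 0

/-- no three points on a line, all pairs have degree at most `K` -/
structure KB (K : ℕ) (X : Set (F × F)) : Prop where
  gp : GP X
  deg : ∀ a ∈ X, ∀ b ∈ X, a ≠ b → (Lnk X a b).encard ≤ K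

/-- thin right class: direction infinitely near to `(1, 0)` -/
def TT (p : F × F) : Prop := 0 < p.1 ∧ Sm p.2 p.1

/-- fat upper class: real direction in the open upper half plane -/
def UU (p : F × F) : Prop := 0 < p.2 ∧ Bd p.1 p.2

/-- the linear form `l` at the point `(p, 1)` -/
def lin (l : F × F × F) (p : F × F) : F := l.1 * p.1 + l.2.1 * p.2 + l.2.2

/-- projective map with rows `l`, `m`, `n` -/
def pj (l m n : F × F × F) (p : F × F) : F × F := (lin l p / lin n p, lin m p / lin n p)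

/-- determinant of three rows -/
def det3 (l m n : F × F × F) : F :=
  l.1 * (m.2.1 * n.2.2 - m.2.2 * n.2.1) - l.2.1 * (m.1 * n.2.2 - m.2.2 * n.1) +
    l.2.2 * (m.1 * n.2.1 - m.2.1 * n.1)

/-- maximum norm in three coordinates -/
def nrm3 (w : F × F × F) : F := max |w.1| (max |w.2.1| |w.2.2|)

/-- scalar product in three coordinates -/
def dot3 (u w : F × F × F) : F := u.1 * w.1 + u.2.1 * w.2.1 + u.2.2 * w.2.2

/-- the linear map with rows `a`, `b`, `c` at the point `(p, 1)` -/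
def ap3 (a b c : F × F × F) (p : F × F) : F × F × F := (lin a p, lin b p, lin c p)

end Basic

/-- A world: ordered field, value group, internal finite sets, bound `K`, and the statement `WF`:
in every `K`-bounded internal set the limited points have finitely many positions. -/
structure World (F G : Type) [Field F] [LinearOrder F] [IsStrictOrderedRing F]
    [AddCommGroup G] [LinearOrder G] [IsOrderedAddMonoid G] where
  /-- the value map (its value at `0` is junk) -/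
  v : F → G
  v_mul : ∀ x y : F, x ≠ 0 → y ≠ 0 → v (x * y) = v x + v y
  v_le : ∀ x y : F, x ≠ 0 → y ≠ 0 → (v x ≤ v y ↔ Bd y x)
  v_surj : ∀ g : G, ∃ x : F, 0 < x ∧ v x = g
  /-- internal finite sets of points -/
  I : Set (Set (F × F))
  I_half : ∀ S ∈ I, ∀ a b c : F, {p ∈ S | a * p.1 + b * p.2 ≤ c} ∈ I
  I_union : ∀ S ∈ I, ∀ T ∈ I, S ∪ T ∈ I
  I_diff : ∀ S ∈ I, ∀ T ∈ I, S \ T ∈ I
  I_pj : ∀ S ∈ I, ∀ l m n : F × F × F, pj l m n '' S ∈ I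
  /-- a linear functional attains its minimum on an internal set -/
  argmin : ∀ S ∈ I, S.Nonempty → ∀ a b : F, ∃ p ∈ S, ∀ q ∈ S,
    a * p.1 + b * p.2 ≤ a * q.1 + b * q.2
  /-- right bridging edge of two sets separated by the line `y = 0` -/
  bridge : ∀ S ∈ I, ∀ T ∈ I, S.Nonempty → T.Nonempty → (∀ p ∈ S, 0 < p.2) → (∀ q ∈ T, q.2 < 0) →
    ∃ p ∈ S, ∃ q ∈ T, ∀ r, r ∈ S ∨ r ∈ T → 0 ≤ cr (p - q) (r - q)
  /-- the two hull edges at a highest point -/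
  hull : ∀ S ∈ I, (∃ p ∈ S, ∃ q ∈ S, p ≠ q) → ∃ p ∈ S, ∃ q ∈ S, ∃ r ∈ S, q ≠ p ∧ r ≠ p ∧
    (∀ d ∈ S, d.2 ≤ p.2) ∧ (∀ d ∈ S, 0 ≤ cr (q - p) (d - p)) ∧ (∀ d ∈ S, cr (r - p) (d - p) ≤ 0)
  /-- internal sets are uniformly discrete -/
  sep : ∀ S ∈ I, ∃ ρ : F, 0 < ρ ∧ ∀ p ∈ S, ∀ q ∈ S, p ≠ q → ρ ≤ nrm (p - q)
  /-- countable saturation -/
  sat : ∀ D : ℕ → Set (F × F), (∀ n, D n ∈ I) → (∀ n, (D n).Nonempty) →
    (∀ n, D (n + 1) ⊆ D n) → ∃ p, ∀ n, p ∈ D n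
  /-- radial isotropy (weak form) -/
  iso : ∀ X ∈ I, X.Infinite → GP X → ∃ a b c : F × F × F, det3 a b c ≠ 0 ∧
    ∀ w : F × F × F, w ≠ 0 →
      {p ∈ X | nrm3 w * nrm3 (ap3 a b c p) ≤ 100 * |dot3 w (ap3 a b c p)|}.Infinite
  /-- the bound for the degrees -/
  K : ℕ
  WF : ∀ X ∈ I, KB K X → ∃ Z : Set (F × F), Z.Finite ∧ Z ⊆ X ∧
    ∀ p ∈ X, Bd (nrm p) 1 → ∃ z ∈ Z, Sm (nrm (p - z)) 1

section Val

variable {F G : Type} [Field F] [LinearOrder F] [IsStrictOrderedRing F]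
  [AddCommGroup G] [LinearOrder G] [IsOrderedAddMonoid G]

/-- exponent of a point -/
def World.e (W : World F G) (p : F × F) : G := W.v (nrm p)

/-- slope of a point -/
def sl (p : F × F) : F := p.2 / p.1

/-- `σ` and `ω` are in the same class at precision `κ` -/
def Near (v : F → G) (κ : G) (ω σ : F) : Prop := σ = ω ∨ κ ≤ v (σ - ω)

/-- `σ` is above the class of `ω` at precision `κ` -/
def Above (v : F → G) (κ : G) (ω σ : F) : Prop := ω < σ ∧ v (σ - ω) < κ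

/-- finite net at resolution `y` -/
def World.FinNet (W : World F G) (A : Set (F × F)) (y : G) : Prop :=
  ∃ Z : Set (F × F), Z.Finite ∧ Z ⊆ A ∧ ∀ p ∈ A, ∃ z ∈ Z, p = z ∨ y ≤ W.e (p - z)

/-- a spine: the first exponents around the origin form the sequence `s 0 < s 1 < ...` -/
structure Spine (W : World F G) (X : Set (F × F)) (s : ℕ → G) : Prop where
  int : X ∈ W.I
  kb : KB W.K X
  zero : (0 : F × F) ∈ X
  mono : StrictMono s
  occ : ∀ j, ∃ p ∈ X, p ≠ 0 ∧ W.e p = s j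
  all : ∀ p ∈ X, p ≠ 0 → (∃ j, W.e p = s j) ∨ ∀ j, s j < W.e p
  T2 : ∃ a ∈ X, ∃ b ∈ X, a ≠ b ∧ TT a ∧ TT b ∧ W.e a = s 0 ∧ W.e b = s 0
  U2 : ∃ a ∈ X, ∃ b ∈ X, a ≠ b ∧ UU a ∧ UU b ∧ W.e a = s 0 ∧ W.e b = s 0

/-- `K₂ K` consecutive shells contain a shell of each of the two classes -/
def K2 (K : ℕ) : ℕ := K ^ 2 + 2 * K + 1

/-- The combinatorial data extracted from a spine. `TP` is the set of pairs (shell index, slope) of
the points of class `TT`, `UI` the set of indices of shells with a point of class `UU`. -/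
structure Comb (F G : Type) [Field F] [LinearOrder F] [IsStrictOrderedRing F]
    [AddCommGroup G] [LinearOrder G] [IsOrderedAddMonoid G] (K : ℕ) where
  v : F → G
  v_le : ∀ x y : F, x ≠ 0 → y ≠ 0 → (v x ≤ v y ↔ Bd y x)
  s : ℕ → G
  mono : StrictMono s
  TP : Set (ℕ × F)
  UI : Set ℕ
  hT : ∀ i, ∃ j σ, i < j ∧ j ≤ i + K2 K ∧ (j, σ) ∈ TP
  hU : ∀ i, ∃ j, i < j ∧ j ≤ i + K2 K ∧ j ∈ UI
  two : ∃ σ τ : F, σ ≠ τ ∧ (0, σ) ∈ TP ∧ (0, τ) ∈ TP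
  tu : ∀ i, {j | i < j ∧ (∃ σ, (j, σ) ∈ TP) ∧ ∀ l, i < l → l < j → l ∉ UI}.encard ≤ K
  n3 : ∀ (κ : G) (ω : F) (i₀ j j' : ℕ), i₀ ≤ j → j ∈ UI → j' ∈ UI → j < j' →
    (∀ l, j < l → l < j' → l ∉ UI) →
    (∀ l σ, (l, σ) ∈ TP → i₀ ≤ l → l < j' → ¬ Above v κ ω σ) →
    {i | i₀ ≤ i ∧ i < j ∧ s j' < s i + κ ∧ ∃ σ, (i, σ) ∈ TP ∧ Near v κ ω σ}.encard ≤ K
  bk : ∀ (κ : G) (ω : F) (t : G), 0 < κ →
    (∃ p ∈ TP, ∃ q ∈ TP, p ≠ q ∧ Near v κ ω p.2 ∧ Near v κ ω q.2 ∧ s p.1 ≤ t ∧ s q.1 ≤ t) →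
    {j | j ∈ UI ∧ t + κ < s j ∧
      ∀ i σ, (i, σ) ∈ TP → Near v κ ω σ → s i ≤ t ∨ s j ≤ s i + κ}.encard ≤ K
  dl : ∀ (j : ℕ) (Q : Finset (ℕ × F)), (∀ q ∈ Q, q ∈ TP ∧ q.1 ≤ j) →
    (∀ q ∈ Q, ∀ q' ∈ Q, q ≠ q' → ¬ Near v (s (j + 1) - s j) q.2 q'.2) → Q.card ≤ 2 * K
  split : ∀ (κ : G) (ω : F) (t e : G) (m : ℕ), 0 < κ → t < e →
    (∃ p ∈ TP, ∃ q ∈ TP, p ≠ q ∧ Near v κ ω p.2 ∧ Near v κ ω q.2 ∧ s p.1 ≤ t ∧ s q.1 ≤ t) →
    (∀ i σ, (i, σ) ∈ TP → Near v κ ω σ → s i ≤ t ∨ e ≤ s i) →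
    (∃ i σ, (i, σ) ∈ TP ∧ Near v κ ω σ ∧ e + κ ≤ s i) →
    {i | (∃ σ, (i, σ) ∈ TP ∧ Near v κ ω σ) ∧ e ≤ s i ∧ s i < e + κ}.encard ≤ m →
    ∃ δ : G, 0 < δ ∧ δ ≤ κ ∧ κ ≤ ((m + 1) * (K ^ 2 + 2 * K) + m + 1) • δ ∧
      ∀ Q : Finset (ℕ × F), (∀ q ∈ Q, q ∈ TP ∧ Near v κ ω q.2 ∧ s q.1 ≤ t) →
        (∀ q ∈ Q, ∀ q' ∈ Q, q ≠ q' → ¬ Near v (κ + δ) q.2 q'.2) → Q.card ≤ 2 * K

end Val

end Pool.Agent.Lib.MP_8bcb9d_co.W
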