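import Mathlib
import Pool.Agent.Lib.MP_8bcb9d_co.W.Def

/-!
# World Fin: calculus with `Sm`, `Bd`, `nrm`
-/

set_option autoImplicit false

namespace Pool.Agent.Lib.MP_8bcb9d_co.W

section Basic

variable {F : Type} [Field F] [LinearOrder F] [IsStrictOrderedRing F]

theorem not_Sm {x y : F} : ¬ Sm x y ↔ Bd y x := by
  unfold Sm Bd
  push Not
  rfl

theorem not_Bd {x y : F} : ¬ Bd x y ↔ Sm y x := by
  rw [← not_Sm, not_not]

theorem Sm.ne {x y : F} (h : Sm x y) : y ≠ 0 := by
  have := h 0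
  simp only [Nat.cast_zero, zero_mul, abs_pos] at this
  exact this

theorem Sm.lt {x y : F} (h : Sm x y) : |x| < |y| := by simpa using h 1

theorem Sm.bd {x y : F} (h : Sm x y) : Bd x y := ⟨1, by simpa using h.lt.le⟩

theorem Bd.refl (x : F) : Bd x x := ⟨1, by simp⟩

theorem Bd.of_le {x y : F} (h : |x| ≤ |y|) : Bd x y := ⟨1, by simpa using h⟩

theorem Bd.zero (y : F) : Bd 0 y := ⟨0, by simp⟩

theorem Sm.zero {y : F} (h : y ≠ 0) : Sm 0 y := fun n => by simpa using h

theorem Bd.trans {x y z : F} (h : Bd x y) (h' : Bd y z) : Bd x z := by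
  obtain ⟨n, hn⟩ := h
  obtain ⟨m, hm⟩ := h'
  refine ⟨n * m, hn.trans ?_⟩
  push_cast
  rw [mul_assoc]
  exact mul_le_mul_of_nonneg_left hm (Nat.cast_nonneg n)

theorem Sm.trans_bd {x y z : F} (h : Sm x y) (h' : Bd y z) : Sm x z := by
  obtain ⟨m, hm⟩ := h'
  intro n
  have hm0 : (0 : F) < m := by
    rcases Nat.eq_zero_or_pos m with rfl | h0
    · simp only [Nat.cast_zero, zero_mul, abs_nonpos_iff] at hm
      exact absurd hm h.ne
    · exact_mod_cast h0
  have h1 := h (m * n)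
  push_cast at h1
  have h2 : (m : F) * (n * |x|) < m * |z| := by rw [← mul_assoc]; exact h1.trans_le hm
  exact lt_of_mul_lt_mul_left h2 hm0.le

theorem Bd.trans_sm {x y z : F} (h : Bd x y) (h' : Sm y z) : Sm x z := by
  obtain ⟨m, hm⟩ := h
  intro n
  have h1 := h' (n * m)
  push_cast at h1
  refine lt_of_le_of_lt ?_ h1
  rw [mul_assoc]
  exact mul_le_mul_of_nonneg_left hm (Nat.cast_nonneg n)

theorem Sm.trans {x y z : F} (h : Sm x y) (h' : Sm y z) : Sm x z := h.trans_bd h'.bd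

theorem Bd.add {x y z : F} (h : Bd x z) (h' : Bd y z) : Bd (x + y) z := by
  obtain ⟨n, hn⟩ := h
  obtain ⟨m, hm⟩ := h'
  refine ⟨n + m, (abs_add_le _ _).trans ?_⟩
  push_cast
  linarith

theorem Sm.add {x y z : F} (h : Sm x z) (h' : Sm y z) : Sm (x + y) z := by
  intro n
  have h1 := h (2 * n)
  have h2 := h' (2 * n)
  push_cast at h1 h2
  have h3 := abs_add_le x y
  have h4 : (0 : F) ≤ n := Nat.cast_nonneg n
  nlinarith

theorem Bd.neg {x y : F} (h : Bd x y) : Bd (-x) y := by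
  obtain ⟨n, hn⟩ := h
  exact ⟨n, by simpa using hn⟩

theorem Bd.neg_right {x y : F} (h : Bd x y) : Bd x (-y) := by
  obtain ⟨n, hn⟩ := h
  exact ⟨n, by simpa using hn⟩

theorem Sm.neg {x y : F} (h : Sm x y) : Sm (-x) y := fun n => by simpa using h n

theorem Sm.neg_right {x y : F} (h : Sm x y) : Sm x (-y) := fun n => by simpa using h n

theorem Bd.sub {x y z : F} (h : Bd x z) (h' : Bd y z) : Bd (x - y) z := by
  rw [sub_eq_add_neg]; exact h.add h'.neg

theorem Sm.sub {x y z : F} (h : Sm x z) (h' : Sm y z) : Sm (x - y) z := by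
  rw [sub_eq_add_neg]; exact h.add h'.neg

theorem Bd.mul {x y z w : F} (h : Bd x z) (h' : Bd y w) : Bd (x * y) (z * w) := by
  obtain ⟨n, hn⟩ := h
  obtain ⟨m, hm⟩ := h'
  refine ⟨n * m, ?_⟩
  rw [abs_mul, abs_mul]
  push_cast
  calc |x| * |y| ≤ (n * |z|) * (m * |w|) :=
        mul_le_mul hn hm (abs_nonneg _) (by positivity)
    _ = _ := by ring

theorem Sm.mul_bd {x y z w : F} (h : Sm x z) (h' : Bd y w) (hw : w ≠ 0) :
    Sm (x * y) (z * w) := by
  obtain ⟨m, hm⟩ := h'
  intro n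
  rw [abs_mul, abs_mul]
  have h1 := h (n * m)
  push_cast at h1
  have hw' := abs_pos.2 hw
  calc (n : F) * (|x| * |y|) ≤ n * (|x| * (m * |w|)) := by
        gcongr
    _ = (n * m * |x|) * |w| := by ring
    _ < |z| * |w| := mul_lt_mul_of_pos_right h1 hw'

theorem Bd.mul_sm {x y z w : F} (h : Bd x z) (h' : Sm y w) (hz : z ≠ 0) :
    Sm (x * y) (z * w) := by
  rw [mul_comm x y, mul_comm z w]
  exact h'.mul_bd h hz

theorem Bd.abs_iff {x y : F} : Bd |x| |y| ↔ Bd x y := by simp [Bd]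

theorem Sm.abs_iff {x y : F} : Sm |x| |y| ↔ Sm x y := by simp [Sm]

/-- cancel a nonzero factor -/
theorem Bd.of_mul_left {x y z : F} (hz : z ≠ 0) (h : Bd (z * x) (z * y)) : Bd x y := by
  obtain ⟨n, hn⟩ := h
  refine ⟨n, ?_⟩
  rw [abs_mul, abs_mul] at hn
  have := abs_pos.2 hz
  nlinarith

theorem Sm.of_mul_left {x y z : F} (hz : z ≠ 0) (h : Sm (z * x) (z * y)) : Sm x y := by
  intro n
  have hn := h n
  rw [abs_mul, abs_mul] at hn
  have := abs_pos.2 hz
  nlinarith

theorem Bd.nat (n : ℕ) : Bd (n : F) 1 := ⟨n, by simp⟩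

theorem Sm.two {x y : F} (h : Sm x y) : 2 * |x| < |y| := by simpa using h 2

/-- adding something infinitely smaller does not change the size -/
theorem Bd.add_right_of_sm {x d : F} (h : Sm d x) : Bd x (x + d) := by
  refine ⟨2, ?_⟩
  have h1 := h.two
  have h2 : |x| - |d| ≤ |x + d| := by
    have := abs_sub_abs_le_abs_sub x (-d)
    rw [abs_neg, sub_neg_eq_add] at this
    exact this
  push_cast
  linarith

theorem Bd.add_left_of_sm {x d : F} (h : Sm d x) : Bd (x + d) x :=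
  (Bd.refl x).add h.bd

/-! ### the norm -/

theorem nrm_nonneg (p : F × F) : 0 ≤ nrm p := le_max_of_le_left (abs_nonneg _)

theorem abs_fst_le (p : F × F) : |p.1| ≤ nrm p := le_max_left _ _

theorem abs_snd_le (p : F × F) : |p.2| ≤ nrm p := le_max_right _ _

theorem nrm_le {p : F × F} {r : F} : nrm p ≤ r ↔ |p.1| ≤ r ∧ |p.2| ≤ r := max_le_iff

theorem nrm_eq_zero {p : F × F} : nrm p = 0 ↔ p = 0 := by
  constructor
  · intro h
    have h1 := abs_fst_le p
    have h2 := abs_snd_le p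
    rw [h, abs_nonpos_iff] at h1 h2
    exact Prod.ext h1 h2
  · rintro rfl
    simp [nrm]

theorem nrm_pos {p : F × F} : 0 < nrm p ↔ p ≠ 0 := by
  rw [(nrm_nonneg p).lt_iff_ne, ne_comm, Ne, nrm_eq_zero]

theorem nrm_add (p q : F × F) : nrm (p + q) ≤ nrm p + nrm q := by
  rw [nrm_le]
  constructor
  · exact (abs_add_le _ _).trans (add_le_add (abs_fst_le p) (abs_fst_le q))
  · exact (abs_add_le _ _).trans (add_le_add (abs_snd_le p) (abs_snd_le q))

theorem nrm_neg (p : F × F) : nrm (-p) = nrm p := by simp [nrm]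

theorem nrm_sub_comm (p q : F × F) : nrm (p - q) = nrm (q - p) := by
  rw [← nrm_neg, neg_sub]

theorem nrm_sub (p q : F × F) : nrm (p - q) ≤ nrm p + nrm q := by
  rw [sub_eq_add_neg, ← nrm_neg q]; exact nrm_add _ _

theorem nrm_smul (a : F) (p : F × F) : nrm (a • p) = |a| * nrm p := by
  simp only [nrm, Prod.smul_fst, Prod.smul_snd, smul_eq_mul, abs_mul]
  rw [mul_max_of_nonneg _ _ (abs_nonneg a)]

theorem abs_nrm (p : F × F) : |nrm p| = nrm p := abs_of_nonneg (nrm_nonneg p)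

theorem nrm_triangle (p q r : F × F) : nrm (p - r) ≤ nrm (p - q) + nrm (q - r) := by
  have := nrm_add (p - q) (q - r)
  rwa [sub_add_sub_cancel] at this

theorem cr_abs_le (p q : F × F) : |cr p q| ≤ 2 * (nrm p * nrm q) := by
  have h1 := mul_le_mul (abs_fst_le p) (abs_snd_le q) (abs_nonneg _) (nrm_nonneg p)
  have h2 := mul_le_mul (abs_snd_le p) (abs_fst_le q) (abs_nonneg _) (nrm_nonneg p)
  rw [← abs_mul] at h1 h2
  have := abs_sub (p.1 * q.2) (p.2 * q.1)
  unfold cr
  linarith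

theorem cr_add_left (a b c : F × F) : cr (a + b) c = cr a c + cr b c := by
  simp only [cr, Prod.fst_add, Prod.snd_add]; ring

theorem cr_add_right (a b c : F × F) : cr a (b + c) = cr a b + cr a c := by
  simp only [cr, Prod.fst_add, Prod.snd_add]; ring

theorem cr_smul_left (t : F) (a b : F × F) : cr (t • a) b = t * cr a b := by
  simp only [cr, Prod.smul_fst, Prod.smul_snd, smul_eq_mul]; ring

theorem cr_smul_right (t : F) (a b : F × F) : cr a (t • b) = t * cr a b := by
  simp only [cr, Prod.smul_fst, Prod.smul_snd, smul_eq_mul]; ring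

theorem cr_self (a : F × F) : cr a a = 0 := by simp only [cr]; ring

theorem cr_comm (a b : F × F) : cr a b = - cr b a := by simp only [cr]; ring

end Basic

end Pool.Agent.Lib.MP_8bcb9d_co.W
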