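import Mathlib
import Pool.Agent.Lib.MP_8bcb9d_co.W.Bas

section

/-!
# World Fin, combinatorial part: classes of slopes, nets
-/

set_option autoImplicit false

namespace Pool.Agent.Lib.MP_8bcb9d_co.W

section Near

variable {F G : Type} [Field F] [LinearOrder F] [IsStrictOrderedRing F]
  [AddCommGroup G] [LinearOrder G] [IsOrderedAddMonoid G]

/-- the hypothesis on the value map -/
def IsV (v : F → G) : Prop := ∀ x y : F, x ≠ 0 → y ≠ 0 → (v x ≤ v y ↔ Bd y x)

variable {v : F → G} (hv : IsV v)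

include hv

theorem v_neg' (x : F) : v (-x) = v x := by
  rcases eq_or_ne x 0 with rfl | hx
  · simp
  · apply le_antisymm
    · rw [hv _ _ (neg_ne_zero.2 hx) hx]; exact (Bd.refl x).neg_right
    · rw [hv _ _ hx (neg_ne_zero.2 hx)]; exact (Bd.refl x).neg

theorem v_le_of_abs {x y : F} (hx : x ≠ 0) (h : |x| ≤ |y|) : v y ≤ v x := by
  have hy : y ≠ 0 := by
    rintro rfl
    rw [abs_zero, abs_nonpos_iff] at h
    exact hx h
  rw [hv _ _ hy hx]
  exact Bd.of_le h

theorem v_lt_iff {x y : F} (hx : x ≠ 0) (hy : y ≠ 0) : v x < v y ↔ Sm y x := by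
  rw [← not_le, hv _ _ hy hx, not_Bd]

theorem v_add_ge {x y : F} {κ : G} (hx : x ≠ 0) (hy : y ≠ 0) (hxy : x + y ≠ 0)
    (h1 : κ ≤ v x) (h2 : κ ≤ v y) : κ ≤ v (x + y) := by
  rcases le_total |x| |y| with h | h
  · refine h2.trans ?_
    rw [hv _ _ hy hxy]
    exact (Bd.of_le h).add (Bd.refl y)
  · refine h1.trans ?_
    rw [hv _ _ hx hxy]
    exact (Bd.refl x).add (Bd.of_le h)

omit hv in
theorem near_refl (κ : G) (ω : F) : Near v κ ω ω := Or.inl rfl

theorem near_symm {κ : G} {ω σ : F} (h : Near v κ ω σ) : Near v κ σ ω := by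
  rcases h with h | h
  · exact Or.inl h.symm
  · right
    rw [← neg_sub, v_neg' hv]
    exact h

theorem near_trans {κ : G} {a b c : F} (h : Near v κ a b) (h' : Near v κ b c) :
    Near v κ a c := by
  rcases eq_or_ne c a with hca | hca
  · exact Or.inl hca
  rcases h with rfl | h
  · exact h'
  rcases h' with rfl | h'
  · exact Or.inr h
  rcases eq_or_ne b a with rfl | hab
  · exact Or.inr h'
  rcases eq_or_ne c b with rfl | hbc
  · exact Or.inr h
  right
  have := v_add_ge hv (sub_ne_zero.2 hbc) (sub_ne_zero.2 hab)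
    (by rw [sub_add_sub_cancel]; exact sub_ne_zero.2 hca) h' h
  rwa [sub_add_sub_cancel] at this

omit hv [IsOrderedAddMonoid G] in
theorem near_mono {κ κ' : G} (hκ : κ' ≤ κ) {a b : F} (h : Near v κ a b) : Near v κ' a b := by
  rcases h with h | h
  · exact Or.inl h
  · exact Or.inr (hκ.trans h)

/-- classes are convex -/
theorem near_convex {κ : G} {a b c : F} (hab : a ≤ b) (hbc : b ≤ c) (h : Near v κ a c) :
    Near v κ a b := by
  rcases eq_or_ne b a with hba | hba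
  · exact Or.inl hba
  right
  rcases h with rfl | h
  · exact absurd (le_antisymm hbc hab) hba
  refine h.trans (v_le_of_abs hv (sub_ne_zero.2 hba) ?_)
  rw [abs_of_nonneg (sub_nonneg.2 hab), abs_of_nonneg (sub_nonneg.2 (hab.trans hbc))]
  linarith

theorem above_iff {κ : G} {ω σ : F} : Above v κ ω σ ↔ ω < σ ∧ ¬ Near v κ ω σ := by
  unfold Above Near
  constructor
  · rintro ⟨h1, h2⟩
    exact ⟨h1, by push Not; exact ⟨h1.ne', h2⟩⟩
  · rintro ⟨h1, h2⟩
    push Not at h2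
    exact ⟨h1, h2.2⟩

/-- a slope near `ω' ≤ ω` is not above `ω` -/
theorem not_above_of_near {κ : G} {ω ω' σ : F} (h : ω' ≤ ω) (hn : Near v κ ω' σ) :
    ¬ Above v κ ω σ := by
  rw [above_iff hv]
  rintro ⟨h1, h2⟩
  apply h2
  have h3 : Near v κ ω' ω := near_convex hv h h1.le hn
  exact near_trans hv (near_symm hv h3) hn

/-- if `σ` is neither near `ω` nor above `ω` and `ω'` is near `ω`, then `σ` is not above `ω'`
at a finer precision -/
theorem not_above_refine {κ κ' : G} {ω ω' σ : F} (h : Near v κ ω ω') (h1 : ¬ Near v κ ω σ)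
    (h2 : ¬ Above v κ ω σ) : ¬ Above v κ' ω' σ := by
  rintro ⟨h3, -⟩
  rw [above_iff hv] at h2
  have h4 : σ ≤ ω := by
    by_contra hcon
    push Not at hcon
    exact h2 ⟨hcon, h1⟩
  apply h1
  have h5 : Near v κ ω' σ := near_convex hv h3.le h4 (near_symm hv h)
  exact near_trans hv h h5

end Near

section Nets

/-- Among `(K + 1) m` consecutive integers there are `m` consecutive ones outside a set with at
most `K` elements. Proof: `K + 1` disjoint blocks of length `m`, pigeonhole. -/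
theorem free_run {K : ℕ} {B : Set ℕ} (hB : B.encard ≤ K) (i₀ m : ℕ) :
    ∃ a, i₀ ≤ a ∧ a + m ≤ i₀ + (K + 1) * m ∧ ∀ l, a ≤ l → l < a + m → l ∉ B := by
  by_contra hcon
  push Not at hcon
  have h1 : ∀ k : ℕ, ∃ l, k < K + 1 → (i₀ + k * m ≤ l ∧ l < i₀ + k * m + m ∧ l ∈ B) := by
    intro k
    by_cases hk : k < K + 1
    · obtain ⟨l, hl⟩ := hcon (i₀ + k * m) (Nat.le_add_right _ _) (by nlinarith)
      exact ⟨l, fun _ => hl⟩
    · exact ⟨0, fun h => absurd h hk⟩
  choose f hf using h1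
  have hinj : Set.InjOn f (Finset.range (K + 1) : Set ℕ) := by
    intro a ha b hb hab
    simp only [Finset.coe_range, Set.mem_Iio] at ha hb
    obtain ⟨a1, a2, -⟩ := hf a ha
    obtain ⟨b1, b2, -⟩ := hf b hb
    rw [hab] at a1 a2
    rcases lt_trichotomy a b with h | h | h
    · exfalso; nlinarith
    · exact h
    · exfalso; nlinarith
  have hsub : ((Finset.range (K + 1)).image f : Set ℕ) ⊆ B := by
    intro x hx
    simp only [Finset.coe_image, Finset.coe_range, Set.mem_image, Set.mem_Iio] at hx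
    obtain ⟨k, hk, rfl⟩ := hx
    exact (hf k hk).2.2
  have h2 := Set.encard_le_encard hsub
  rw [Set.encard_coe_eq_coe_finsetCard, Finset.card_image_of_injOn hinj, Finset.card_range] at h2
  have h3 := h2.trans hB
  have h4 : K + 1 ≤ K := by exact_mod_cast h3
  omega

/-- maximal separated subsets are nets -/
theorem exists_net {α : Type} (A : Set α) (R : α → α → Prop) (hR : ∀ a b, R a b → R b a) (N : ℕ)
    (h : ∀ Q : Finset α, (∀ q ∈ Q, q ∈ A) → (∀ q ∈ Q, ∀ q' ∈ Q, q ≠ q' → ¬ R q q') →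
      Q.card ≤ N) :
    ∃ Q : Finset α, (∀ q ∈ Q, q ∈ A) ∧ Q.card ≤ N ∧ ∀ a ∈ A, ∃ q ∈ Q, a = q ∨ R q a := by
  classical
  let P : ℕ → Prop := fun n => ∃ Q : Finset α, (∀ q ∈ Q, q ∈ A) ∧
    (∀ q ∈ Q, ∀ q' ∈ Q, q ≠ q' → ¬ R q q') ∧ Q.card = n
  have hP0 : P 0 := ⟨∅, by simp, by simp, rfl⟩
  have hPN : ∀ n, P n → n ≤ N := by
    rintro n ⟨Q, h1, h2, h3⟩
    rw [← h3]
    exact h Q h1 h2
  obtain ⟨n, hn, hmax⟩ : ∃ n, P n ∧ ∀ m, P m → m ≤ n :=
    ⟨Nat.findGreatest P N, Nat.findGreatest_spec (Nat.zero_le N) hP0,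
      fun m hm => Nat.le_findGreatest (hPN m hm) hm⟩
  obtain ⟨Q, h1, h2, h3⟩ := hn
  refine ⟨Q, h1, h Q h1 h2, ?_⟩
  intro a ha
  by_contra hcon
  push Not at hcon
  have haQ : a ∉ Q := fun h => (hcon a h).1 rfl
  have := hmax (n + 1) ⟨insert a Q, ?_, ?_, ?_⟩
  · omega
  · intro q hq
    rcases Finset.mem_insert.1 hq with rfl | hq
    · exact ha
    · exact h1 q hq
  · intro q hq q' hq' hne
    rcases Finset.mem_insert.1 hq with hq1 | hq1
    · rcases Finset.mem_insert.1 hq' with hq2 | hq2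
      · exact absurd (hq1.trans hq2.symm) hne
      · rw [hq1]
        exact fun hr => (hcon q' hq2).2 (hR _ _ hr)
    · rcases Finset.mem_insert.1 hq' with hq2 | hq2
      · rw [hq2]
        exact (hcon q hq1).2
      · exact h2 q hq1 q' hq2 hne
  · rw [Finset.card_insert_of_notMem haQ, h3]

end Nets

section CombBasic

variable {F G : Type} [Field F] [LinearOrder F] [IsStrictOrderedRing F]
  [AddCommGroup G] [LinearOrder G] [IsOrderedAddMonoid G] {K : ℕ} (C : Comb F G K)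

theorem Comb.isV : IsV C.v := C.v_le

theorem Comb.lt_iff {i j : ℕ} : C.s i < C.s j ↔ i < j := C.mono.lt_iff_lt

theorem Comb.le_iff {i j : ℕ} : C.s i ≤ C.s j ↔ i ≤ j := C.mono.le_iff_le

/-- net form of `dl` -/
theorem Comb.dl_net (j : ℕ) : ∃ Ω : Finset F, Ω.card ≤ 2 * K ∧
    ∀ l σ, (l, σ) ∈ C.TP → l ≤ j → ∃ ω ∈ Ω, Near C.v (C.s (j + 1) - C.s j) ω σ := by
  classical
  obtain ⟨Q, h1, h2, h3⟩ := exists_net {q : ℕ × F | q ∈ C.TP ∧ q.1 ≤ j}
    (fun q q' => Near C.v (C.s (j + 1) - C.s j) q.2 q'.2)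
    (fun a b h => near_symm C.isV h) (2 * K) (fun Q hQ hQ' => C.dl j Q hQ hQ')
  refine ⟨Q.image Prod.snd, Finset.card_image_le.trans h2, ?_⟩
  intro l σ hl hlj
  obtain ⟨q, hq, h⟩ := h3 (l, σ) ⟨hl, hlj⟩
  refine ⟨q.2, Finset.mem_image_of_mem _ hq, ?_⟩
  rcases h with h | h
  · rw [← h]; exact near_refl _ _
  · exact h

/-- net form of `split` -/
theorem Comb.split_net {κ : G} {ω : F} {t e : G} {m : ℕ} (hκ : 0 < κ) (hte : t < e)
    (h2 : ∃ p ∈ C.TP, ∃ q ∈ C.TP, p ≠ q ∧ Near C.v κ ω p.2 ∧ Near C.v κ ω q.2 ∧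
      C.s p.1 ≤ t ∧ C.s q.1 ≤ t)
    (h3 : ∀ i σ, (i, σ) ∈ C.TP → Near C.v κ ω σ → C.s i ≤ t ∨ e ≤ C.s i)
    (h4 : ∃ i σ, (i, σ) ∈ C.TP ∧ Near C.v κ ω σ ∧ e + κ ≤ C.s i)
    (h5 : {i | (∃ σ, (i, σ) ∈ C.TP ∧ Near C.v κ ω σ) ∧ e ≤ C.s i ∧ C.s i < e + κ}.encard ≤ m) :
    ∃ δ : G, 0 < δ ∧ δ ≤ κ ∧ κ ≤ ((m + 1) * (K ^ 2 + 2 * K) + m + 1) • δ ∧
      ∃ Ω : Finset F, Ω.card ≤ 2 * K ∧ (∀ ω' ∈ Ω, Near C.v κ ω ω') ∧
        ∀ p ∈ C.TP, Near C.v κ ω p.2 → C.s p.1 ≤ t → ∃ ω' ∈ Ω, Near C.v (κ + δ) ω' p.2 := by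
  classical
  obtain ⟨δ, hδ, hδκ, hκδ, hQ⟩ := C.split κ ω t e m hκ hte h2 h3 h4 h5
  obtain ⟨Q, q1, q2, q3⟩ := exists_net {q : ℕ × F | q ∈ C.TP ∧ Near C.v κ ω q.2 ∧ C.s q.1 ≤ t}
    (fun q q' => Near C.v (κ + δ) q.2 q'.2)
    (fun a b h => near_symm C.isV h) (2 * K) (fun Q h h' => hQ Q h h')
  refine ⟨δ, hδ, hδκ, hκδ, Q.image Prod.snd, Finset.card_image_le.trans q2, ?_, ?_⟩
  · intro ω' hω'
    obtain ⟨q, hq, rfl⟩ := Finset.mem_image.1 hω'
    exact (q1 q hq).2.1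
  · intro p hp hp1 hp2
    obtain ⟨q, hq, h⟩ := q3 p ⟨hp, hp1, hp2⟩
    refine ⟨q.2, Finset.mem_image_of_mem _ hq, ?_⟩
    rcases h with h | h
    · rw [← h]; exact near_refl _ _
    · exact h

end CombBasic

end Pool.Agent.Lib.MP_8bcb9d_co.W
end

section

/-!
# World Fin, growth: counting the edges seen by the viewers
-/

set_option autoImplicit false

namespace Pool.Agent.Lib.MP_8bcb9d_co.W

variable {F : Type} [Field F] [LinearOrder F] [IsStrictOrderedRing F]

/-- the coordinates of a point of a triangle with respect to the first vertex -/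
private theorem tri_coord {a x x' w : F × F} (hw : w ∈ Tri a x x') :
    ∃ β γ : F, 0 ≤ β ∧ 0 ≤ γ ∧ β + γ ≤ 1 ∧ w.1 - a.1 = β * (x.1 - a.1) + γ * (x'.1 - a.1) ∧
      w.2 - a.2 = β * (x.2 - a.2) + γ * (x'.2 - a.2) := by
  obtain ⟨α, β, γ, hα, hβ, hγ, hsum, rfl⟩ := hw
  refine ⟨β, γ, hβ, hγ, by linarith, ?_, ?_⟩
  · simp only [Prod.fst_add, Prod.smul_fst, smul_eq_mul]
    have : α = 1 - β - γ := by linarith
    rw [this]; ring
  · simp only [Prod.snd_add, Prod.smul_snd, smul_eq_mul]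
    have : α = 1 - β - γ := by linarith
    rw [this]; ring

private theorem tri_swap {a b c w : F × F} (hw : w ∈ Tri a b c) : w ∈ Tri c a b := by
  obtain ⟨α, β, γ, hα, hβ, hγ, hsum, rfl⟩ := hw
  exact ⟨γ, α, β, hγ, hα, hβ, by linarith, by abel⟩

/-- Two triangles with apex `a` which are separated by a line through `a` have only `a` in common.

Proof. `w = a + β (x - a) + γ (x' - a)` and `w = a + β' (y - a) + γ' (y' - a)` with nonnegative
coefficients. `cr (x' - a) (w - a) = β * cr (x' - a) (x - a) ≥ 0`,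
`cr (w - a) (y - a) = γ' * cr (y' - a) (y - a) ≥ 0`, `0 < cr (y - a) (x' - a)`. All the first
coordinates of `x' - a`, `y - a` are negative, and `(w - a).1 < 0` unless `w = a`. The identity
`cr p s * q.1 + cr s q * p.1 + cr q p * s.1 = 0` for `p = x' - a`, `s = w - a`, `q = y - a` gives a
contradiction. -/
theorem tri_disj {a x x' y y' w : F × F} (hx : x.1 < a.1) (hx' : x'.1 < a.1) (hy : y.1 < a.1)
    (hy' : y'.1 < a.1) (h1 : 0 < cr (x' - a) (x - a)) (h2 : 0 < cr (y' - a) (y - a))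
    (h3 : 0 < cr (y - a) (x' - a)) (hw : w ∈ Tri a x x') (hw' : w ∈ Tri a y y') : w = a := by
  obtain ⟨β, γ, hβ, hγ, -, e1, e2⟩ := tri_coord hw
  obtain ⟨β', γ', hβ', hγ', -, f1, f2⟩ := tri_coord hw'
  simp only [cr, Prod.fst_sub, Prod.snd_sub] at h1 h2 h3
  have g1 : 0 ≤ (x'.1 - a.1) * (w.2 - a.2) - (x'.2 - a.2) * (w.1 - a.1) := by
    have : (x'.1 - a.1) * (w.2 - a.2) - (x'.2 - a.2) * (w.1 - a.1) =
        β * ((x'.1 - a.1) * (x.2 - a.2) - (x'.2 - a.2) * (x.1 - a.1)) := by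
      rw [e1, e2]; ring
    rw [this]
    exact mul_nonneg hβ h1.le
  have g2 : 0 ≤ (w.1 - a.1) * (y.2 - a.2) - (w.2 - a.2) * (y.1 - a.1) := by
    have : (w.1 - a.1) * (y.2 - a.2) - (w.2 - a.2) * (y.1 - a.1) =
        γ' * ((y'.1 - a.1) * (y.2 - a.2) - (y'.2 - a.2) * (y.1 - a.1)) := by
      rw [f1, f2]; ring
    rw [this]
    exact mul_nonneg hγ' h2.le
  have hw1 : w.1 - a.1 ≤ 0 := by
    rw [e1]
    have t1 := mul_nonneg hβ (by linarith : 0 ≤ a.1 - x.1)
    have t2 := mul_nonneg hγ (by linarith : 0 ≤ a.1 - x'.1)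
    nlinarith
  have hid : ((x'.1 - a.1) * (w.2 - a.2) - (x'.2 - a.2) * (w.1 - a.1)) * (y.1 - a.1) +
      ((w.1 - a.1) * (y.2 - a.2) - (w.2 - a.2) * (y.1 - a.1)) * (x'.1 - a.1) +
      ((y.1 - a.1) * (x'.2 - a.2) - (y.2 - a.2) * (x'.1 - a.1)) * (w.1 - a.1) = 0 := by ring
  have t1 := mul_nonneg g1 (by linarith : 0 ≤ a.1 - y.1)
  have t2 := mul_nonneg g2 (by linarith : 0 ≤ a.1 - x'.1)
  have t3 := mul_nonneg h3.le (by linarith : 0 ≤ a.1 - w.1)
  have t4 : ((y.1 - a.1) * (x'.2 - a.2) - (y.2 - a.2) * (x'.1 - a.1)) * (a.1 - w.1) = 0 := by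
    nlinarith
  have t5 : a.1 - w.1 = 0 := (mul_eq_zero.1 t4).resolve_left h3.ne'
  -- the coefficients vanish
  have s1 := mul_nonneg hβ (by linarith : 0 ≤ a.1 - x.1)
  have s2 := mul_nonneg hγ (by linarith : 0 ≤ a.1 - x'.1)
  have s3 : β * (a.1 - x.1) = 0 := by nlinarith
  have s4 : γ * (a.1 - x'.1) = 0 := by nlinarith
  have s5 : β = 0 := (mul_eq_zero.1 s3).resolve_right (by linarith)
  have s6 : γ = 0 := (mul_eq_zero.1 s4).resolve_right (by linarith)
  rw [s5, s6] at e2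
  apply Prod.ext
  · linarith
  · linarith

/-- Proof. Let `L = (K + 1) * A.card + 1`. For each `i < L` there is `a ∈ V` with `a` not in
`Lnk X (x i) (x' i)` (otherwise the `K + 1` points of `V` are in this link, which has at most `K`
elements; `x i ≠ x' i` by `hpos`). For such `a` (which is different from `x i`, `x' i` by `hleft`)
there is `w ∈ X`, `w ∈ Tri a (x i) (x' i)`, `w` different from the three vertices; `w ∈ A` by `hsel`
and `hclean`. Choose `a i`, `w i`. The map `i ↦ (a i, w i) ∈ V × A` on `Finset.range L` is injective: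
for `i < j` with the same image `tri_disj` gives `w i = a i`, contradiction. But
`L > V.card * A.card`. -/
theorem count_edges {K : ℕ} {X D : Set (F × F)} (hX : KB K X) (A V : Finset (F × F))
    (hVA : V ⊆ A) (hV : V.card = K + 1) (hAX : ∀ a ∈ A, a ∈ X) (hDX : D ⊆ X)
    (hsel : ∀ a ∈ V, ∀ d ∈ D, ∀ d' ∈ D, ∀ w ∈ X, w ∈ Tri a d d' → w ∈ A ∨ w ∈ D)
    (hleft : ∀ a ∈ V, ∀ d ∈ D, d.1 < a.1) (x x' : ℕ → F × F) (hx : ∀ i, x i ∈ D)
    (hx' : ∀ i, x' i ∈ D) (hpos : ∀ a ∈ V, ∀ i, 0 < cr (x' i - a) (x i - a))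
    (hord : ∀ a ∈ V, ∀ i j, i < j → 0 < cr (x j - a) (x' i - a))
    (hclean : ∀ a ∈ V, ∀ i, ∀ w ∈ D, w ∈ Tri a (x i) (x' i) → w = x i ∨ w = x' i) : False := by
  classical
  have hVne : V.Nonempty := by
    rw [← Finset.card_pos, hV]
    omega
  obtain ⟨a₀, ha₀⟩ := hVne
  have hex : ∀ i, ∃ a w : F × F, a ∈ V ∧ w ∈ A ∧ w ∈ Tri a (x i) (x' i) ∧ w ≠ a := by
    intro i
    have hne : x i ≠ x' i := by
      intro h
      have := hpos a₀ ha₀ i
      rw [h] at this
      simp [cr, mul_comm] at this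
    have hdeg := hX.deg (x i) (hDX (hx i)) (x' i) (hDX (hx' i)) hne
    have h1 : ¬ (V : Set (F × F)) ⊆ Lnk X (x i) (x' i) := by
      intro hsub
      have h2 := (Set.encard_le_encard hsub).trans hdeg
      rw [Set.encard_coe_eq_coe_finsetCard, hV] at h2
      have h3 : K + 1 ≤ K := by exact_mod_cast h2
      omega
    rw [Set.not_subset] at h1
    obtain ⟨a, haV, haL⟩ := h1
    have haV' : a ∈ V := haV
    have ha1 : a ≠ x i := by
      intro h
      have := hleft a haV' (x i) (hx i)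
      rw [← h] at this
      exact lt_irrefl _ this
    have ha2 : a ≠ x' i := by
      intro h
      have := hleft a haV' (x' i) (hx' i)
      rw [← h] at this
      exact lt_irrefl _ this
    have h2 : ¬ ∀ w ∈ X, w ∈ Tri (x i) (x' i) a → w = x i ∨ w = x' i ∨ w = a := fun h3 =>
      haL ⟨hAX a (hVA haV'), ha1, ha2, h3⟩
    push Not at h2
    obtain ⟨w, hwX, hwT, hw1, hw2, hw3⟩ := h2
    have hwT' : w ∈ Tri a (x i) (x' i) := tri_swap hwT
    refine ⟨a, w, haV', ?_, hwT', hw3⟩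
    rcases hsel a haV' (x i) (hx i) (x' i) (hx' i) w hwX hwT' with h3 | h3
    · exact h3
    · rcases hclean a haV' i w h3 hwT' with h4 | h4
      · exact absurd h4 hw1
      · exact absurd h4 hw2
  choose a w haV hwA hwT hwa using hex
  have hcard : (V ×ˢ A).card < (Finset.range (V.card * A.card + 1)).card := by
    rw [Finset.card_product, Finset.card_range]
    omega
  obtain ⟨i, -, j, -, hij, heq⟩ := Finset.exists_ne_map_eq_of_card_lt_of_maps_to hcard
    (f := fun i => (a i, w i)) (fun i _ => by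
      simp only [Finset.coe_product, Set.mem_prod, Finset.mem_coe]
      exact ⟨haV i, hwA i⟩)
  have key : ∀ i j, i < j → (a i, w i) = (a j, w j) → False := by
    intro i j hij heq
    rw [Prod.mk.injEq] at heq
    obtain ⟨h1, h2⟩ := heq
    have h3 := hwT j
    rw [← h1, ← h2] at h3
    exact hwa i (tri_disj (hleft _ (haV i) _ (hx i)) (hleft _ (haV i) _ (hx' i))
      (hleft _ (haV i) _ (hx j)) (hleft _ (haV i) _ (hx' j)) (hpos _ (haV i) i)
      (hpos _ (haV i) j) (hord _ (haV i) i j hij) (hwT i) h3)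
  rcases lt_or_gt_of_ne hij with h | h
  · exact key i j h heq
  · exact key j i h heq.symm

/-- A point `w` of the triangle `a x x'`, not above `x'`, not below `x` and to the left of the line
`x x'`, lies on the line. Proof: `w = x + α (a - x) + γ (x' - x)`,
`cr (x' - x) (w - x) = α * cr (x' - x) (a - x)` and `cr (x' - x) (a - x) = - cr (x' - a) (x - a)` is
negative, so `α = 0`; then `w`, `x`, `x'` are collinear, contradiction to `GP` unless `w = x` or
`w = x'`. -/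
theorem edge_clean {X : Set (F × F)} (hX : GP X) {a x x' w : F × F} (hx : x ∈ X) (hx' : x' ∈ X)
    (hw : w ∈ X) (hpos : 0 < cr (x' - a) (x - a)) (ht : w ∈ Tri a x x')
    (h : 0 ≤ cr (x' - x) (w - x)) : w = x ∨ w = x' := by
  obtain ⟨β, γ, hβ, hγ, hle, e1, e2⟩ := tri_coord ht
  have hne : x ≠ x' := by
    intro h0
    rw [h0] at hpos
    simp [cr, mul_comm] at hpos
  have hcr : cr (x' - x) (w - x) = -((1 - β - γ) * cr (x' - a) (x - a)) := by
    simp only [cr, Prod.fst_sub, Prod.snd_sub]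
    have g1 : w.1 = a.1 + (β * (x.1 - a.1) + γ * (x'.1 - a.1)) := by linarith
    have g2 : w.2 = a.2 + (β * (x.2 - a.2) + γ * (x'.2 - a.2)) := by linarith
    rw [g1, g2]
    ring
  have hα : 0 ≤ 1 - β - γ := by linarith
  have h1 := mul_nonneg hα hpos.le
  have h2 : cr (x' - x) (w - x) = 0 := by
    rw [hcr] at h ⊢
    linarith
  by_contra hcon
  push Not at hcon
  exact hX x hx x' hx' w hw hne (Ne.symm hcon.1) (Ne.symm hcon.2) h2

/-- the two signs for a point of the triangle -/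
theorem tri_signs {a x x' w : F × F} (hpos : 0 < cr (x' - a) (x - a)) (ht : w ∈ Tri a x x') :
    0 ≤ cr (x' - a) (w - a) ∧ 0 ≤ cr (w - a) (x - a) := by
  obtain ⟨β, γ, hβ, hγ, -, e1, e2⟩ := tri_coord ht
  constructor
  · have : cr (x' - a) (w - a) = β * cr (x' - a) (x - a) := by
      simp only [cr, Prod.fst_sub, Prod.snd_sub]
      rw [e1, e2]; ring
    rw [this]
    exact mul_nonneg hβ hpos.le
  · have : cr (w - a) (x - a) = γ * cr (x' - a) (x - a) := by
      simp only [cr, Prod.fst_sub, Prod.snd_sub]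
      rw [e1, e2]; ring
    rw [this]
    exact mul_nonneg hγ hpos.le

end Pool.Agent.Lib.MP_8bcb9d_co.W
end
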