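import Mathlib
import Pool.Agent.Lib.MP_8bcb9d_co.W.D4

/-!
# World Fin: values, exponents and the classes `TT`, `UU`
-/

set_option autoImplicit false

namespace Pool.Agent.Lib.MP_8bcb9d_co.W

variable {F G : Type} [Field F] [LinearOrder F] [IsStrictOrderedRing F]
  [AddCommGroup G] [LinearOrder G] [IsOrderedAddMonoid G] (W : World F G)

theorem World.isV : IsV W.v := W.v_le

theorem World.v_lt {x y : F} (hx : x ≠ 0) (hy : y ≠ 0) : W.v x < W.v y ↔ Sm y x :=
  v_lt_iff W.isV hx hy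

theorem World.v_neg (x : F) : W.v (-x) = W.v x := v_neg' W.isV x

theorem World.v_abs (x : F) : W.v |x| = W.v x := by
  rcases abs_choice x with h | h
  · rw [h]
  · rw [h, W.v_neg]

theorem World.v_one : W.v 1 = 0 := by
  have := W.v_mul 1 1 one_ne_zero one_ne_zero
  rw [mul_one] at this
  exact left_eq_add.1 this

theorem World.v_inv {x : F} (hx : x ≠ 0) : W.v x⁻¹ = -W.v x := by
  have := W.v_mul x x⁻¹ hx (inv_ne_zero hx)
  rw [mul_inv_cancel₀ hx, W.v_one] at this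
  exact (neg_eq_of_add_eq_zero_right this.symm).symm

theorem World.v_div {x y : F} (hx : x ≠ 0) (hy : y ≠ 0) : W.v (x / y) = W.v x - W.v y := by
  rw [div_eq_mul_inv, W.v_mul _ _ hx (inv_ne_zero hy), W.v_inv hy, sub_eq_add_neg]

theorem World.v_eq {x y : F} (hx : x ≠ 0) (hy : y ≠ 0) (h1 : Bd x y) (h2 : Bd y x) :
    W.v x = W.v y :=
  le_antisymm ((W.v_le _ _ hx hy).2 h2) ((W.v_le _ _ hy hx).2 h1)

theorem World.v_nat {n : ℕ} (hn : n ≠ 0) : W.v (n : F) = 0 := by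
  have h0 : (n : F) ≠ 0 := by exact_mod_cast hn
  rw [← W.v_one]
  refine W.v_eq h0 one_ne_zero (Bd.nat n) (Bd.of_le ?_)
  rw [abs_one, Nat.abs_cast]
  exact_mod_cast Nat.one_le_iff_ne_zero.2 hn

/-- if `d` is infinitely smaller than `x` then `x + d` has the value of `x` -/
theorem World.v_add_sm {x d : F} (h : Sm d x) : W.v (x + d) = W.v x := by
  have h1 : x + d ≠ 0 := by
    intro h0
    have h2 := h.lt
    rw [eq_neg_of_add_eq_zero_right h0, abs_neg] at h2
    exact lt_irrefl _ h2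
  exact W.v_eq h1 h.ne (Bd.add_left_of_sm h) (Bd.add_right_of_sm h)

/-! ### exponents -/

theorem World.e_le {p q : F × F} (hp : p ≠ 0) (hq : q ≠ 0) :
    W.e p ≤ W.e q ↔ Bd (nrm q) (nrm p) :=
  W.v_le _ _ (nrm_pos.2 hp).ne' (nrm_pos.2 hq).ne'

theorem World.e_lt {p q : F × F} (hp : p ≠ 0) (hq : q ≠ 0) :
    W.e p < W.e q ↔ Sm (nrm q) (nrm p) :=
  W.v_lt (nrm_pos.2 hp).ne' (nrm_pos.2 hq).ne'

theorem World.e_neg (p : F × F) : W.e (-p) = W.e p := by rw [World.e, World.e, nrm_neg]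

theorem World.e_smul {a : F} {p : F × F} (ha : a ≠ 0) (hp : p ≠ 0) :
    W.e (a • p) = W.v a + W.e p := by
  rw [World.e, nrm_smul, W.v_mul _ _ (abs_ne_zero.2 ha) (nrm_pos.2 hp).ne', W.v_abs]
  rfl

/-- Proof: `nrm (p + d)` and `nrm p` are bounded multiples of each other. -/
theorem World.e_add_sm {p d : F × F} (h : Sm (nrm d) (nrm p)) :
    p + d ≠ 0 ∧ W.e (p + d) = W.e p := by
  have hb1 : Bd (nrm p) (nrm (p + d)) := by
    refine ⟨2, ?_⟩
    have h1 := h.two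
    rw [abs_nrm, abs_nrm] at h1
    have h2 : nrm p ≤ nrm (p + d) + nrm d := by
      have := nrm_sub (p + d) d
      rwa [add_sub_cancel_right] at this
    rw [abs_nrm, abs_nrm]
    push_cast
    linarith
  have hb2 : Bd (nrm (p + d)) (nrm p) := by
    refine ⟨2, ?_⟩
    have h1 := h.two
    rw [abs_nrm, abs_nrm] at h1
    have h2 := nrm_add p d
    have h3 := nrm_nonneg d
    rw [abs_nrm, abs_nrm]
    push_cast
    linarith
  have hp : 0 < nrm p := lt_of_le_of_ne (nrm_nonneg p) (Ne.symm h.ne)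
  have hpd : 0 < nrm (p + d) := by
    obtain ⟨n, hn⟩ := hb1
    rw [abs_nrm, abs_nrm] at hn
    by_contra hcon
    have h0 : nrm (p + d) = 0 := le_antisymm (not_lt.1 hcon) (nrm_nonneg _)
    rw [h0, mul_zero] at hn
    exact absurd hp (not_lt.2 hn)
  exact ⟨nrm_pos.1 hpd, W.v_eq hpd.ne' hp.ne' hb2 hb1⟩

/-! ### classes -/

theorem TT.ne {p : F × F} (h : TT p) : p ≠ 0 := by
  rintro rfl; exact lt_irrefl _ h.1

theorem UU.ne {p : F × F} (h : UU p) : p ≠ 0 := by
  rintro rfl; exact lt_irrefl _ h.1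

theorem TT.nrm_eq {p : F × F} (h : TT p) : nrm p = p.1 := by
  have h1 := h.2.lt
  rw [abs_of_pos h.1] at h1
  rw [nrm, abs_of_pos h.1]
  exact max_eq_left h1.le

theorem UU.nrm_bd {p : F × F} (h : UU p) : Bd (nrm p) p.2 := by
  obtain ⟨n, hn⟩ := h.2
  refine ⟨n + 1, ?_⟩
  rw [abs_nrm]
  push_cast
  have h3 : 0 ≤ |p.2| := abs_nonneg _
  have h4 : (0 : F) ≤ n := Nat.cast_nonneg n
  have h5 := mul_nonneg h4 h3
  rw [nrm_le]
  constructor
  · linarith
  · linarith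

theorem World.e_TT {p : F × F} (h : TT p) : W.e p = W.v p.1 := by
  rw [World.e, h.nrm_eq]

theorem World.e_UU {p : F × F} (h : UU p) : W.e p = W.v p.2 := by
  exact W.v_eq (nrm_pos.2 h.ne).ne' h.1.ne' h.nrm_bd
    (Bd.of_le (by rw [abs_nrm]; exact abs_snd_le p))

theorem classes {p : F × F} (h : p ≠ 0) : TT p ∨ TT (-p) ∨ UU p ∨ UU (-p) := by
  by_cases hs : Sm p.2 p.1
  · rcases lt_or_gt_of_ne hs.ne with h1 | h1
    · right; left
      refine ⟨by simpa using h1, ?_⟩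
      have := hs.neg.neg_right
      simpa using this
    · exact Or.inl ⟨h1, hs⟩
  · rw [not_Sm] at hs
    have h2 : p.2 ≠ 0 := by
      intro h0
      obtain ⟨n, hn⟩ := hs
      rw [h0, abs_zero, mul_zero, abs_nonpos_iff] at hn
      exact h (Prod.ext hn h0)
    rcases lt_or_gt_of_ne h2 with h1 | h1
    · right; right; right
      refine ⟨by simpa using h1, ?_⟩
      have := hs.neg.neg_right
      simpa using this
    · exact Or.inr (Or.inr (Or.inl ⟨h1, hs⟩))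

theorem TT.not_UU {p : F × F} (h : TT p) : ¬ UU p ∧ ¬ UU (-p) ∧ ¬ TT (-p) := by
  refine ⟨fun hu => not_Bd.2 h.2 hu.2, fun hu => ?_, fun ht => ?_⟩
  · have h1 := hu.2.neg.neg_right
    simp only [Prod.fst_neg, Prod.snd_neg, neg_neg] at h1
    exact not_Bd.2 h.2 h1
  · have h1 := ht.1
    rw [Prod.fst_neg] at h1
    linarith [h.1]

theorem UU.not_TT {p : F × F} (h : UU p) : ¬ TT p ∧ ¬ TT (-p) ∧ ¬ UU (-p) := by
  refine ⟨fun ht => not_Bd.2 ht.2 h.2, fun ht => ?_, fun hu => ?_⟩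
  · have h1 := ht.2.neg.neg_right
    simp only [Prod.fst_neg, Prod.snd_neg, neg_neg] at h1
    exact not_Bd.2 h1 h.2
  · have h1 := hu.1
    rw [Prod.snd_neg] at h1
    linarith [h.1]

theorem TT.add {p q : F × F} (hp : TT p) (hq : TT q) : TT (p + q) := by
  have h1 := hp.1
  have h2 := hq.1
  refine ⟨by rw [Prod.fst_add]; exact add_pos h1 h2, ?_⟩
  rw [Prod.fst_add, Prod.snd_add]
  refine Sm.add (hp.2.trans_bd (Bd.of_le ?_)) (hq.2.trans_bd (Bd.of_le ?_))
  · rw [abs_of_pos h1, abs_of_pos (add_pos h1 h2)]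
    linarith
  · rw [abs_of_pos h2, abs_of_pos (add_pos h1 h2)]
    linarith

theorem UU.add {p q : F × F} (hp : UU p) (hq : UU q) : UU (p + q) := by
  have h1 := hp.1
  have h2 := hq.1
  refine ⟨by rw [Prod.snd_add]; exact add_pos h1 h2, ?_⟩
  rw [Prod.fst_add, Prod.snd_add]
  refine Bd.add (hp.2.trans (Bd.of_le ?_)) (hq.2.trans (Bd.of_le ?_))
  · rw [abs_of_pos h1, abs_of_pos (add_pos h1 h2)]
    linarith
  · rw [abs_of_pos h2, abs_of_pos (add_pos h1 h2)]
    linarith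

theorem TT.smul {a : F} {p : F × F} (ha : 0 < a) (hp : TT p) : TT (a • p) := by
  refine ⟨by rw [Prod.smul_fst, smul_eq_mul]; exact mul_pos ha hp.1, ?_⟩
  rw [Prod.smul_fst, Prod.smul_snd, smul_eq_mul, smul_eq_mul]
  exact (Bd.refl a).mul_sm hp.2 ha.ne'

theorem UU.smul {a : F} {p : F × F} (ha : 0 < a) (hp : UU p) : UU (a • p) := by
  refine ⟨by rw [Prod.smul_snd, smul_eq_mul]; exact mul_pos ha hp.1, ?_⟩
  rw [Prod.smul_fst, Prod.smul_snd, smul_eq_mul, smul_eq_mul]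
  exact (Bd.refl a).mul hp.2

theorem TT.pert {p d : F × F} (hp : TT p) (h : Sm (nrm d) (nrm p)) : TT (p + d) := by
  rw [hp.nrm_eq] at h
  have h1 : Sm d.1 p.1 := (Bd.of_le (by rw [abs_nrm]; exact abs_fst_le d)).trans_sm h
  have h2 : Sm d.2 p.1 := (Bd.of_le (by rw [abs_nrm]; exact abs_snd_le d)).trans_sm h
  refine ⟨?_, ?_⟩
  · rw [Prod.fst_add]
    have h3 := h1.lt
    rw [abs_of_pos hp.1] at h3
    have h4 := neg_abs_le d.1
    linarith
  · rw [Prod.fst_add, Prod.snd_add]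
    exact (hp.2.add h2).trans_bd (Bd.add_right_of_sm h1)

theorem UU.pert {p d : F × F} (hp : UU p) (h : Sm (nrm d) (nrm p)) : UU (p + d) := by
  have h := h.trans_bd hp.nrm_bd
  have h1 : Sm d.1 p.2 := (Bd.of_le (by rw [abs_nrm]; exact abs_fst_le d)).trans_sm h
  have h2 : Sm d.2 p.2 := (Bd.of_le (by rw [abs_nrm]; exact abs_snd_le d)).trans_sm h
  refine ⟨?_, ?_⟩
  · rw [Prod.snd_add]
    have h3 := h2.lt
    rw [abs_of_pos hp.1] at h3
    have h4 := neg_abs_le d.2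
    linarith
  · rw [Prod.fst_add, Prod.snd_add]
    exact (hp.2.add h1.bd).trans (Bd.add_right_of_sm h2)

/-- slopes are infinitesimal -/
theorem TT.sl_sm {p : F × F} (h : TT p) : Sm (sl p) 1 := by
  refine Sm.of_mul_left h.1.ne' ?_
  rw [mul_one, sl, mul_div_cancel₀ _ h.1.ne']
  exact h.2

/-- difference of slopes -/
theorem sl_sub {z w : F × F} (hz : z.1 ≠ 0) (hw : w.1 ≠ 0) :
    sl w - sl z = cr z w / (z.1 * w.1) := by
  unfold sl cr
  field_simp

/-- the cross product of a `TT` vector with a `UU` vector is positive, of the size of the product -/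
theorem World.cr_TU {z a : F × F} (hz : TT z) (ha : UU a) :
    0 < cr z a ∧ W.v (cr z a) = W.e z + W.e a := by
  have hz1 := hz.1
  have ha1 := ha.1
  have hs : Sm (z.2 * a.1) (z.1 * a.2) := hz.2.mul_bd ha.2 ha1.ne'
  have hpos : 0 < z.1 * a.2 := mul_pos hz1 ha1
  have hcr : cr z a = z.1 * a.2 + -(z.2 * a.1) := by unfold cr; ring
  refine ⟨?_, ?_⟩
  · have h1 := hs.lt
    rw [abs_of_pos hpos] at h1
    have h2 := le_abs_self (z.2 * a.1)
    rw [hcr]
    linarith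
  · rw [hcr, W.v_add_sm hs.neg, W.v_mul _ _ hz1.ne' ha1.ne', W.e_TT hz, W.e_UU ha]

end Pool.Agent.Lib.MP_8bcb9d_co.W
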