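import Mathlib
import Pool.Agent.Lib.MP_8bcb9d_co.W.D4

section

/-!
# World Fin, combinatorial part: Lemma L1

A long block of consecutive shells bounds all later jumps.
-/

set_option autoImplicit false

namespace Pool.Agent.Lib.MP_8bcb9d_co.W

variable {F G : Type} [Field F] [LinearOrder F] [IsStrictOrderedRing F]
  [AddCommGroup G] [LinearOrder G] [IsOrderedAddMonoid G] {K : ℕ}

/-- the recursion of Lemma L1 -/
def fL (K : ℕ) : ℕ → ℕ
  | 0 => K2 K
  | p + 1 => 2 * K2 K + (K + 1) * (fL K p + 1) + 1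

/-- the constant of Lemma L1 -/
def m1 (K : ℕ) : ℕ := fL K (2 * K) + 1

theorem K2_le_fL (K p : ℕ) : K2 K ≤ fL K p := by
  cases p with
  | zero => exact le_rfl
  | succ p =>
    simp only [fL]
    generalize (K + 1) * (fL K p + 1) = x
    omega

/-- Every block of shells shorter than `κ` in which the slopes of the `TT`-points lie in at most
`p` classes at precision `κ` has less than `fL K p + 1` shells.

Proof: induction on `p`, all variables universally quantified. If `Ω = ∅` (in particular if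
`p = 0`): `C.hT i₀` gives a `TP` index in `(i₀, i₀ + K2]`; if `i₀ + fL K p ≤ i` it is in the block
(`K2 K ≤ fL K p`), contradiction with `hΩ`. Otherwise let `ω` be the maximum of `Ω` and suppose
`i₀ + fL K (p+1) ≤ i`. By `C.hU` at `i - 2 K2` there is `j ∈ UI`, `i - 2 K2 < j ≤ i - K2`, and let
`j'` be the first element of `UI` after `j` (`Nat.find`), `j' ≤ j + K2 ≤ i` by `C.hU j`. Apply
`C.n3 κ ω i₀ j j'`: no slope of a `TP` index in `[i₀, j')` is above `ω` by `not_above_of_near`.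
As `s j' ≤ s i < s i₀ + κ ≤ s l + κ` for `l ≥ i₀`, the set of `n3` is the set `B` of all indices
`l ∈ [i₀, j)` of shells with a slope near `ω`; so `B.encard ≤ K`. `free_run` with `m = fL K p + 1`
gives `a ≥ i₀`, `a + m ≤ i₀ + (K+1) m ≤ j`, no `l ∈ [a, a+m)` in `B`. Apply the induction
hypothesis to the block `[a, a + fL K p]` and `Ω.erase ω`: it gives `a + fL K p < a + fL K p`. -/
theorem Comb.block_short (C : Comb F G K) (p : ℕ) : ∀ (κ : G) (Ω : Finset F) (i₀ i : ℕ),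
    Ω.card ≤ p → i₀ ≤ i → C.s i - C.s i₀ < κ →
    (∀ l σ, (l, σ) ∈ C.TP → i₀ ≤ l → l ≤ i → ∃ ω ∈ Ω, Near C.v κ ω σ) →
    i < i₀ + fL K p := by
  classical
  induction p with
  | zero =>
    intro κ Ω i₀ i hΩc hi hs hΩ
    by_contra hcon
    push Not at hcon
    obtain ⟨j, σ, h1, h2, h3⟩ := C.hT i₀
    have h4 : j ≤ i := by
      have := K2_le_fL K 0
      omega
    obtain ⟨ω, hω, -⟩ := hΩ j σ h3 h1.le h4
    have h5 : Ω = ∅ := Finset.card_eq_zero.1 (Nat.le_zero.1 hΩc)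
    rw [h5] at hω
    exact absurd hω (Finset.notMem_empty _)
  | succ p ih =>
    intro κ Ω i₀ i hΩc hi hs hΩ
    by_contra hcon
    push Not at hcon
    rcases Ω.eq_empty_or_nonempty with h5 | hne
    · obtain ⟨j, σ, h1, h2, h3⟩ := C.hT i₀
      have h4 : j ≤ i := by
        have := K2_le_fL K (p + 1)
        omega
      obtain ⟨ω, hω, -⟩ := hΩ j σ h3 h1.le h4
      rw [h5] at hω
      exact absurd hω (Finset.notMem_empty _)
    set ω : F := Ω.max' hne with hωdef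
    have hωmem : ω ∈ Ω := Finset.max'_mem Ω hne
    have hωmax : ∀ ω' ∈ Ω, ω' ≤ ω := fun ω' h => Finset.le_max' Ω ω' h
    have hf : fL K (p + 1) = 2 * K2 K + (K + 1) * (fL K p + 1) + 1 := rfl
    rw [hf] at hcon
    obtain ⟨j, hj1, hj2, hjU⟩ := C.hU (i - 2 * K2 K)
    have hex : ∃ l, j < l ∧ l ∈ C.UI := by
      obtain ⟨l, h1, -, h3⟩ := C.hU j
      exact ⟨l, h1, h3⟩
    set j' : ℕ := Nat.find hex with hj'
    obtain ⟨hjj', hj'U⟩ := Nat.find_spec hex
    have hj'min : ∀ l, j < l → l < j' → l ∉ C.UI := by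
      intro l h1 h2 h3
      exact Nat.find_min hex h2 ⟨h1, h3⟩
    have hj'le : j' ≤ j + K2 K := by
      obtain ⟨l, h1, h2, h3⟩ := C.hU j
      exact (Nat.find_min' hex ⟨h1, h3⟩).trans h2
    have hj'i : j' ≤ i := by omega
    have hi0j : i₀ + (K + 1) * (fL K p + 1) + 1 < j := by omega
    have h3 := C.n3 κ ω i₀ j j' (by omega) hjU hj'U hjj' hj'min (by
      intro l σ h1 h2 h3
      obtain ⟨ω', h4, h5⟩ := hΩ l σ h1 h2 (by omega)
      exact not_above_of_near C.isV (hωmax ω' h4) h5)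
    set B : Set ℕ := {l | i₀ ≤ l ∧ l < j ∧ ∃ σ, (l, σ) ∈ C.TP ∧ Near C.v κ ω σ} with hB
    have hBsub : B ⊆ {i | i₀ ≤ i ∧ i < j ∧ C.s j' < C.s i + κ ∧
        ∃ σ, (i, σ) ∈ C.TP ∧ Near C.v κ ω σ} := by
      rintro l ⟨h1, h2, h4⟩
      refine ⟨h1, h2, ?_, h4⟩
      have e1 : C.s j' ≤ C.s i := C.le_iff.2 hj'i
      have e2 : C.s i₀ ≤ C.s l := C.le_iff.2 h1
      have e3 : C.s i < C.s i₀ + κ := by
        rw [add_comm]
        exact sub_lt_iff_lt_add.1 hs
      exact e1.trans_lt (e3.trans_le (add_le_add_left e2 κ))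
    have hBK : B.encard ≤ K := (Set.encard_le_encard hBsub).trans h3
    obtain ⟨a, ha1, ha2, ha3⟩ := free_run hBK i₀ (fL K p + 1)
    have h6 := ih κ (Ω.erase ω) a (a + fL K p) (by
        rw [Finset.card_erase_of_mem hωmem]
        omega) (Nat.le_add_right _ _) (by
        have e1 : C.s (a + fL K p) ≤ C.s i := C.le_iff.2 (by omega)
        have e2 : C.s i₀ ≤ C.s a := C.le_iff.2 ha1
        exact (sub_le_sub e1 e2).trans_lt hs) (by
        intro l σ h1 h2 h4
        obtain ⟨ω', h5, h6⟩ := hΩ l σ h1 (by omega) (by omega)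
        refine ⟨ω', Finset.mem_erase.2 ⟨?_, h5⟩, h6⟩
        rintro rfl
        exact ha3 l h2 (by omega) ⟨by omega, by omega, σ, h1, h6⟩)
    omega

/-- Lemma L1. Proof: let `κ = s (j+1) - s j` and suppose `s i - s i₀ ≤ κ`. Let `Ω` be the net of
`C.dl_net j`. The block `[i₀ + 1, i]` has length `s i - s (i₀+1) < κ`; `block_short` with
`p = 2 K` gives `i < i₀ + 1 + fL K (2 K) = i₀ + m1 K`, contradiction. -/
theorem Comb.L1 (C : Comb F G K) {i₀ i j : ℕ} (h : i₀ + m1 K ≤ i) (hij : i ≤ j) :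
    C.s (j + 1) - C.s j < C.s i - C.s i₀ := by
  by_contra hcon
  push Not at hcon
  obtain ⟨Ω, hΩ1, hΩ2⟩ := C.dl_net j
  have hm : 1 ≤ m1 K := Nat.le_add_left _ _
  have h1 : C.s i - C.s (i₀ + 1) < C.s (j + 1) - C.s j := by
    refine lt_of_lt_of_le ?_ hcon
    exact sub_lt_sub_left (C.lt_iff.2 (Nat.lt_succ_self i₀)) _
  have h2 := C.block_short (2 * K) (C.s (j + 1) - C.s j) Ω (i₀ + 1) i hΩ1 (by omega) h1
    (fun l σ h3 _ h5 => hΩ2 l σ h3 (by omega))
  have h3 : m1 K = fL K (2 * K) + 1 := rfl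
  omega

end Pool.Agent.Lib.MP_8bcb9d_co.W
end

section

/-!
# World Fin, combinatorial part: stretches, density of the classes in a stretch
-/

set_option autoImplicit false

namespace Pool.Agent.Lib.MP_8bcb9d_co.W

variable {F G : Type} [Field F] [LinearOrder F] [IsStrictOrderedRing F]
  [AddCommGroup G] [LinearOrder G] [IsOrderedAddMonoid G] {K : ℕ}

/-- density constant of a class -/
def Lc (K : ℕ) : ℕ := (K + 1) * K2 K

/-- above `Bc K • g` the precision is contradictory -/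
def Bc (K : ℕ) : ℕ := (K + 1) * Lc K + 2 * K2 K

/-- safety margin at the end of a stretch -/
def Mb (K : ℕ) : ℕ := 4 * Bc K + Lc K + K2 K + 2

/-- A stretch: between the indices `a` and `b` all jumps are at most `g`, and each `m1 K`
consecutive jumps contain one which is at least `g / A`. -/
structure Str (C : Comb F G K) (g : G) (A a b : ℕ) : Prop where
  pos : 0 < g
  le : ∀ i, a ≤ i → i < b → C.s (i + 1) - C.s i ≤ g
  ge : ∀ i, a ≤ i → i + m1 K ≤ b → ∃ l, i ≤ l ∧ l < i + m1 K ∧ g ≤ A • (C.s (l + 1) - C.s l)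

/-- two points of the class with exponent `< c`, no point above the class in `[c, c + n • g]` -/
def Stage (C : Comb F G K) (g κ c : G) (n : ℕ) (ω : F) : Prop :=
  (∃ p ∈ C.TP, ∃ q ∈ C.TP, p ≠ q ∧ Near C.v κ ω p.2 ∧ Near C.v κ ω q.2 ∧
    C.s p.1 < c ∧ C.s q.1 < c) ∧
  ∀ p ∈ C.TP, c ≤ C.s p.1 → C.s p.1 ≤ c + n • g → ¬ Above C.v κ ω p.2

variable {C : Comb F G K} {g : G} {A a b : ℕ}

/-- Proof: induction on `j - i`. -/
theorem Str.le_nsmul (hS : Str C g A a b) {i j : ℕ} (h1 : a ≤ i) (h2 : i ≤ j) (h3 : j ≤ b) :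
    C.s j ≤ C.s i + (j - i) • g := by
  obtain ⟨k, rfl⟩ : ∃ k, j = i + k := ⟨j - i, by omega⟩
  rw [Nat.add_sub_cancel_left]
  induction k with
  | zero => simp
  | succ k ih =>
    have e1 := ih (by omega) (by omega)
    have e2 := hS.le (i + k) (by omega) (by omega)
    rw [succ_nsmul]
    have e3 : C.s (i + (k + 1)) = C.s (i + k + 1) := rfl
    rw [e3]
    grind

private theorem c3_mono {m n : ℕ} (hg : 0 ≤ g) (h : m ≤ n) : m • g ≤ n • g :=
  nsmul_le_nsmul_left hg h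

/-- the last index with exponent at most `x`, and the next `K2 K` indices -/
private theorem c3_step (hS : Str C g A a b) {x : G} (h1 : C.s a ≤ x)
    (h2 : x + K2 K • g < C.s b) :
    ∃ i, ∀ j, i < j → j ≤ i + K2 K → x < C.s j ∧ C.s j ≤ x + K2 K • g := by
  have hg := hS.pos
  have hK : (0 : G) ≤ K2 K • g := nsmul_nonneg hg.le _
  have hxb : x < C.s b := by grind
  have hab : a < b := by
    rw [← C.lt_iff]
    exact lt_of_le_of_lt h1 hxb
  have hex : ∃ i, x < C.s i := ⟨b, hxb⟩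
  classical
  set k := Nat.find hex with hk
  have hk1 : x < C.s k := Nat.find_spec hex
  have hak : a < k := by
    rw [← C.lt_iff]
    exact lt_of_le_of_lt h1 hk1
  have hkb : k ≤ b := Nat.find_min' hex hxb
  obtain ⟨i, hi⟩ : ∃ i, k = i + 1 := ⟨k - 1, by omega⟩
  have hi1 : C.s i ≤ x := by
    have := Nat.find_min hex (m := i) (by omega)
    exact not_lt.1 this
  refine ⟨i, fun j hj1 hj2 => ⟨?_, ?_⟩⟩
  · refine lt_of_lt_of_le hk1 (C.le_iff.2 (by omega))
  · rcases le_or_gt j b with hjb | hjb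
    · have e1 := hS.le_nsmul (i := i) (j := j) (by omega) hj1.le hjb
      have e2 := c3_mono (g := g) hg.le (show j - i ≤ K2 K by omega)
      grind
    · exfalso
      have e1 := hS.le_nsmul (i := i) (j := b) (by omega) (by omega) le_rfl
      have e2 := c3_mono (g := g) hg.le (show b - i ≤ K2 K by omega)
      grind

/-- `UI` is dense. Proof: let `i` be the largest index with `s i ≤ x` (`a ≤ i < b` because
`s a ≤ x < s b`; use `Nat.findGreatest`). `C.hU i` gives `j ∈ UI`, `i < j ≤ i + K2`. Then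
`x < s (i+1) ≤ s j`. If `j ≤ b` then `s j ≤ s i + (j - i) • g ≤ x + K2 • g` by `le_nsmul`. If
`b < j` then `s b ≤ s i + (b - i) • g ≤ x + K2 • g`, contradiction with `h2`. -/
theorem Str.Uden (hS : Str C g A a b) {x : G} (h1 : C.s a ≤ x) (h2 : x + K2 K • g < C.s b) :
    ∃ j ∈ C.UI, x < C.s j ∧ C.s j ≤ x + K2 K • g := by
  obtain ⟨i, hi⟩ := c3_step hS h1 h2
  obtain ⟨j, h3, h4, h5⟩ := C.hU i
  exact ⟨j, h5, hi j h3 h4⟩

/-- `TP` is dense: same proof with `C.hT`. -/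
theorem Str.Tden (hS : Str C g A a b) {x : G} (h1 : C.s a ≤ x) (h2 : x + K2 K • g < C.s b) :
    ∃ p ∈ C.TP, x < C.s p.1 ∧ C.s p.1 ≤ x + K2 K • g := by
  obtain ⟨i, hi⟩ := c3_step hS h1 h2
  obtain ⟨j, σ, h3, h4, h5⟩ := C.hT i
  exact ⟨(j, σ), h5, hi j h3 h4⟩

/-- Iteration of `Uden`: induction on `n`; the next element is found from `y + (n * K2) • g` and is
larger than all elements found before. -/
theorem Str.iterU (hS : Str C g A a b) (n : ℕ) {y : G} (h1 : C.s a ≤ y)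
    (h2 : y + (n * K2 K) • g < C.s b) :
    ∃ S : Finset ℕ, S.card = n ∧ ∀ j ∈ S, j ∈ C.UI ∧ y < C.s j ∧ C.s j ≤ y + (n * K2 K) • g := by
  have hg := hS.pos
  induction n with
  | zero => exact ⟨∅, rfl, by simp⟩
  | succ n ih =>
    have e0 : ((n + 1) * K2 K) • g = (n * K2 K) • g + K2 K • g := by
      rw [add_one_mul, add_nsmul]
    rw [e0] at h2 ⊢
    have e1 : (0 : G) ≤ K2 K • g := nsmul_nonneg hg.le _
    have e2 : (0 : G) ≤ (n * K2 K) • g := nsmul_nonneg hg.le _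
    obtain ⟨S, hS1, hS2⟩ := ih (by grind)
    obtain ⟨j, hj1, hj2, hj3⟩ := hS.Uden (x := y + (n * K2 K) • g) (by grind) (by grind)
    have hjS : j ∉ S := fun h => absurd (hS2 j h).2.2 (not_le.2 hj2)
    refine ⟨insert j S, by rw [Finset.card_insert_of_notMem hjS, hS1], ?_⟩
    intro l hl
    rcases Finset.mem_insert.1 hl with rfl | hl
    · exact ⟨hj1, by grind, by grind⟩
    · obtain ⟨h3, h4, h5⟩ := hS2 l hl
      exact ⟨h3, h4, by grind⟩

/-- Classes with two outer points are dense. Proof: suppose there is no such index. By `iterU` with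
`n = K + 1`, `y = x + κ` there are `K + 1` elements `j` of `UI` with
`x + κ < s j ≤ x + κ + Lc • g`. Each of them is in the set of `C.bk κ ω x`: a point `(i, σ)` of the
class has `s i ≤ x` or `x + Lc • g < s i`, and then `s j ≤ s i + κ`. So `K + 1 ≤ K`. -/
theorem Str.Cden (hS : Str C g A a b) {κ x : G} {ω : F} (hκ : 0 < κ)
    (h2 : ∃ p ∈ C.TP, ∃ q ∈ C.TP, p ≠ q ∧ Near C.v κ ω p.2 ∧ Near C.v κ ω q.2 ∧
      C.s p.1 ≤ x ∧ C.s q.1 ≤ x)
    (h3 : C.s a ≤ x) (h4 : x + κ + Lc K • g < C.s b) :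
    ∃ p ∈ C.TP, Near C.v κ ω p.2 ∧ x < C.s p.1 ∧ C.s p.1 ≤ x + Lc K • g := by
  by_contra hcon
  push Not at hcon
  have hg := hS.pos
  obtain ⟨S, hS1, hS2⟩ := hS.iterU (K + 1) (y := x + κ) (by grind) h4
  have hsub : (S : Set ℕ) ⊆ {j | j ∈ C.UI ∧ x + κ < C.s j ∧
      ∀ i σ, (i, σ) ∈ C.TP → Near C.v κ ω σ → C.s i ≤ x ∨ C.s j ≤ C.s i + κ} := by
    intro j hj
    obtain ⟨h5, h6, h7⟩ := hS2 j hj
    refine ⟨h5, h6, fun i σ hi hn => ?_⟩
    rcases le_or_gt (C.s i) x with h8 | h8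
    · exact Or.inl h8
    · right
      have h9 := hcon (i, σ) hi hn h8
      simp only at h9
      have h10 : (x + κ + ((K + 1) * K2 K) • g) = x + κ + Lc K • g := rfl
      rw [h10] at h7
      grind
  have h5 := (Set.encard_le_encard hsub).trans (C.bk κ ω x hκ h2)
  rw [Set.encard_coe_eq_coe_finsetCard, hS1] at h5
  have h6 : K + 1 ≤ K := by exact_mod_cast h5
  omega

/-- Iteration of `Cden`, as `iterU`. -/
theorem Str.iterC (hS : Str C g A a b) (n : ℕ) {κ x : G} {ω : F} (hκ : 0 < κ)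
    (h2 : ∃ p ∈ C.TP, ∃ q ∈ C.TP, p ≠ q ∧ Near C.v κ ω p.2 ∧ Near C.v κ ω q.2 ∧
      C.s p.1 ≤ x ∧ C.s q.1 ≤ x)
    (h3 : C.s a ≤ x) (h4 : x + κ + (n * Lc K) • g < C.s b) :
    ∃ S : Finset ℕ, S.card = n ∧ ∀ i ∈ S, (∃ σ, (i, σ) ∈ C.TP ∧ Near C.v κ ω σ) ∧
      x < C.s i ∧ C.s i ≤ x + (n * Lc K) • g := by
  have hg := hS.pos
  induction n with
  | zero => exact ⟨∅, rfl, by simp⟩
  | succ n ih =>
    have e0 : ((n + 1) * Lc K) • g = (n * Lc K) • g + Lc K • g := by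
      rw [add_one_mul, add_nsmul]
    rw [e0] at h4 ⊢
    have e1 : (0 : G) ≤ Lc K • g := nsmul_nonneg hg.le _
    have e2 : (0 : G) ≤ (n * Lc K) • g := nsmul_nonneg hg.le _
    obtain ⟨S, hS1, hS2⟩ := ih (by grind)
    obtain ⟨p, hp, q, hq, hpq, n1, n2, n3, n4⟩ := h2
    obtain ⟨r, hr1, hr2, hr3, hr4⟩ := hS.Cden (x := x + (n * Lc K) • g) hκ
      ⟨p, hp, q, hq, hpq, n1, n2, by grind, by grind⟩ (by grind) (by grind)
    have hjS : r.1 ∉ S := fun h => absurd (hS2 r.1 h).2.2 (not_le.2 hr3)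
    refine ⟨insert r.1 S, by rw [Finset.card_insert_of_notMem hjS, hS1], ?_⟩
    intro l hl
    rcases Finset.mem_insert.1 hl with rfl | hl
    · exact ⟨⟨r.2, hr1, hr2⟩, by grind, by grind⟩
    · obtain ⟨h3, h4, h5⟩ := hS2 l hl
      exact ⟨h3, h4, by grind⟩

end Pool.Agent.Lib.MP_8bcb9d_co.W
end
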