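import Mathlib
import Pool.Agent.Lib.MP_8bcb9d_co.W.C3

/-!
# World Fin, combinatorial part: few `UU`-shells in a window of length `κ`
-/

set_option autoImplicit false

namespace Pool.Agent.Lib.MP_8bcb9d_co.W

variable {F G : Type} [Field F] [LinearOrder F] [IsStrictOrderedRing F]
  [AddCommGroup G] [LinearOrder G] [IsOrderedAddMonoid G] {K : ℕ}
  {C : Comb F G K} {g : G}


theorem encard_biUnion_le_C5 {ι α : Type} (T : Finset ι) (f : ι → Set α) (k : ℕ)
    (h : ∀ t ∈ T, (f t).encard ≤ (k : ℕ∞)) :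
    (⋃ t ∈ T, f t).encard ≤ ((T.card * k : ℕ) : ℕ∞) := by
  classical
  induction T using Finset.induction_on with
  | empty => simp
  | insert a T ha ih =>
    rw [Finset.set_biUnion_insert, Finset.card_insert_of_notMem ha]
    refine (Set.encard_union_le _ _).trans ?_
    have h1 := h a (Finset.mem_insert_self a T)
    have h2 := ih fun t ht => h t (Finset.mem_insert_of_mem ht)
    refine (add_le_add h1 h2).trans ?_
    have h3 : (T.card + 1) * k = k + T.card * k := by ring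
    rw [h3]
    push_cast
    exact le_refl _

/-- Proof. Let `Us` be the set. If it has at most one element there is nothing to do. Let `j₁` be
its least element and `j₂` the next element of `UI` after `j₁` (it is in `Us`). Let `i₀` be the
least index with `c ≤ s i₀`; `i₀ ≤ j₁`. Let
`S = {i | i₀ ≤ i ∧ i < j₁ ∧ s j₂ < s i + κ ∧ ∃ σ, (i, σ) ∈ TP ∧ Near κ ω σ}`; `S.encard ≤ K` by
`C.n3 κ ω i₀ j₁ j₂` (the points of `TP` with index in `[i₀, j₂)` have exponent in `[c, c + n • g]`,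
so they are not above by the stage). Claim: every `j ∈ Us`, `j ≠ j₁, j₂` (so `j₂ < j`) satisfies
(A) `s j = s i + κ` for some `i ∈ S`, or (B) `j` is in the set of `C.bk κ ω t` for some `t` in the
finite set `{s j₂ - κ} ∪ s '' S`. Indeed, if not (A) let `t` be the maximum of `s j₂ - κ` and all
`s i`, `i ∈ S`, `s i + κ < s j`. Then `t + κ < s j`. Let `(i, σ) ∈ TP` be near `ω`. If
`s i + κ < s j` then either `s i + κ ≤ s j₂`, so `s i ≤ s j₂ - κ ≤ t`, or `s j₂ < s i + κ`; then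
`c ≤ s j₂ - κ < s i` gives `i₀ ≤ i`, and `s i < s j - κ < e ≤ s j₁` gives `i < j₁`, so `i ∈ S` and
`s i ≤ t`. Otherwise `s j ≤ s i + κ`. The hypothesis of `C.bk` (two points of the class with
exponent `≤ t`) holds because `c ≤ e - κ ≤ s j₂ - κ ≤ t`.
(A) is an injection of a set of `j`'s into `S`: at most `K`; (B): at most `(K + 1) * K`. Total
`2 + K + (K + 1) K = K ^ 2 + 2 * K + 2`. -/
theorem Comb.countU {κ c e : G} {n : ℕ} {ω : F} (hg : 0 ≤ g) (hst : Stage C g κ c n ω)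
    (hκ : 0 < κ) (h1 : c + κ ≤ e) (h2 : e + κ ≤ c + n • g) :
    {j | j ∈ C.UI ∧ e ≤ C.s j ∧ C.s j < e + κ}.encard ≤ ((K ^ 2 + 2 * K + 2 : ℕ) : ℕ∞) := by
  classical
  set Us : Set ℕ := {j | j ∈ C.UI ∧ e ≤ C.s j ∧ C.s j < e + κ} with hUs
  obtain ⟨⟨p, hp, q, hq, hpq, hpn, hqn, hpc, hqc⟩, hab⟩ := hst
  have hmono := C.mono
  rcases Set.eq_empty_or_nonempty Us with he | hne
  · rw [he, Set.encard_empty]
    exact zero_le
  have hex : ∃ j, j ∈ Us := hne
  set j₁ := Nat.find hex with hj₁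
  have hj₁U : j₁ ∈ Us := Nat.find_spec hex
  have hj₁min : ∀ j ∈ Us, j₁ ≤ j := fun j hj => Nat.find_min' hex hj
  by_cases hsub : ∀ j ∈ Us, j = j₁
  · have h3 : Us ⊆ {j₁} := fun j hj => hsub j hj
    refine (Set.encard_le_encard h3).trans ?_
    rw [Set.encard_singleton]
    have : (1 : ℕ) ≤ K ^ 2 + 2 * K + 2 := by omega
    exact_mod_cast this
  push Not at hsub
  obtain ⟨j', hj', hj'ne⟩ := hsub
  have hj'lt : j₁ < j' := lt_of_le_of_ne (hj₁min j' hj') (Ne.symm hj'ne)
  have hex2 : ∃ j, j ∈ C.UI ∧ j₁ < j := ⟨j', hj'.1, hj'lt⟩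
  set j₂ := Nat.find hex2 with hj₂
  have hj₂U : j₂ ∈ C.UI ∧ j₁ < j₂ := Nat.find_spec hex2
  have hj₂min : ∀ j, j ∈ C.UI → j₁ < j → j₂ ≤ j := fun j h3 h4 => Nat.find_min' hex2 ⟨h3, h4⟩
  have hs12 : C.s j₁ < C.s j₂ := hmono hj₂U.2
  have hs2 : C.s j₂ < e + κ := (hmono.monotone (hj₂min j' hj'.1 hj'lt)).trans_lt hj'.2.2
  have hs1 : e ≤ C.s j₁ := hj₁U.2.1
  have hex3 : ∃ i, c ≤ C.s i := ⟨j₁, by
    have : c ≤ c + κ := le_add_of_nonneg_right hκ.le
    exact (this.trans h1).trans hs1⟩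
  set i₀ := Nat.find hex3 with hi₀
  have hi₀s : c ≤ C.s i₀ := Nat.find_spec hex3
  have hi₀min : ∀ i, c ≤ C.s i → i₀ ≤ i := fun i h3 => Nat.find_min' hex3 h3
  have hi₀j : i₀ ≤ j₁ := hi₀min j₁ (by
    have : c ≤ c + κ := le_add_of_nonneg_right hκ.le
    exact (this.trans h1).trans hs1)
  set S : Set ℕ := {i | i₀ ≤ i ∧ i < j₁ ∧ C.s j₂ < C.s i + κ ∧
    ∃ σ, (i, σ) ∈ C.TP ∧ Near C.v κ ω σ} with hS
  have hScard : S.encard ≤ K := by
    refine C.n3 κ ω i₀ j₁ j₂ hi₀j hj₁U.1 hj₂U.1 hj₂U.2 ?_ ?_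
    · intro l hl1 hl2 hl3
      have := hj₂min l hl3 hl1
      omega
    · intro l σ hl hl1 hl2
      refine hab (l, σ) hl (hi₀s.trans (hmono.monotone hl1)) ?_
      exact ((hmono hl2).trans hs2).le.trans h2
  have hSfin : S.Finite := Set.finite_of_encard_le_coe hScard
  set Sf : Finset ℕ := hSfin.toFinset with hSf
  have hSfcard : Sf.card ≤ K := by
    have h3 : S.encard = (Sf.card : ℕ∞) := hSfin.encard_eq_coe_toFinset_card
    rw [h3] at hScard
    exact_mod_cast hScard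
  set T : Finset G := insert (C.s j₂ - κ) (Sf.image C.s) with hT
  have hTcard : T.card ≤ K + 1 := by
    refine (Finset.card_insert_le _ _).trans ?_
    have := Finset.card_image_le (s := Sf) (f := C.s)
    omega
  have hTge : ∀ t ∈ T, C.s j₂ - κ ≤ t := by
    intro t ht
    rw [hT, Finset.mem_insert] at ht
    rcases ht with rfl | ht
    · exact le_refl _
    · obtain ⟨i, hi, rfl⟩ := Finset.mem_image.1 ht
      rw [hSf, Set.Finite.mem_toFinset] at hi
      have := hi.2.2.1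
      exact (sub_lt_iff_lt_add.2 this).le
  have hce : c ≤ C.s j₂ - κ := by
    rw [le_sub_iff_add_le]
    exact h1.trans (hs1.trans hs12.le)
  set Bk : G → Set ℕ := fun t => {j | j ∈ C.UI ∧ t + κ < C.s j ∧
    ∀ i σ, (i, σ) ∈ C.TP → Near C.v κ ω σ → C.s i ≤ t ∨ C.s j ≤ C.s i + κ} with hBk
  have hBkcard : ∀ t ∈ T, (Bk t).encard ≤ (K : ℕ∞) := by
    intro t ht
    have h3 : c ≤ t := hce.trans (hTge t ht)
    exact C.bk κ ω t hκ ⟨p, hp, q, hq, hpq, hpn, hqn, (hpc.trans_le h3).le, (hqc.trans_le h3).le⟩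
  have hcover : Us ⊆ ({j₁, j₂} : Set ℕ) ∪ ⋃ t ∈ T, Bk t := by
    intro j hj
    by_cases hj1 : j = j₁
    · left; left; exact hj1
    by_cases hj2 : j = j₂
    · left; right; exact hj2
    right
    have h3 : j₁ < j := lt_of_le_of_ne (hj₁min j hj) (Ne.symm hj1)
    have h4 : j₂ < j := lt_of_le_of_ne (hj₂min j hj.1 h3) (Ne.symm hj2)
    have h5 : C.s j₂ < C.s j := hmono h4
    set T' : Finset G := T.filter (fun t => t + κ < C.s j) with hT'
    have hne' : T'.Nonempty := ⟨C.s j₂ - κ, by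
      rw [hT', Finset.mem_filter]
      refine ⟨Finset.mem_insert_self _ _, ?_⟩
      rw [sub_add_cancel]
      exact h5⟩
    obtain ⟨t, htT', htmax⟩ := T'.exists_max_image id hne'
    simp only [id] at htmax
    rw [hT', Finset.mem_filter] at htT'
    rw [Set.mem_iUnion₂]
    refine ⟨t, htT'.1, hj.1, htT'.2, ?_⟩
    intro i σ hi hn
    by_cases h6 : C.s i + κ < C.s j
    · left
      by_cases h7 : C.s i + κ ≤ C.s j₂
      · exact (le_sub_iff_add_le.2 h7).trans (hTge t htT'.1)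
      · push Not at h7
        have h8 : c ≤ C.s i := hce.trans (sub_lt_iff_lt_add.2 h7).le
        have h9 : C.s i < C.s j₁ := by
          have h10 : C.s i + κ < e + κ := h6.trans hj.2.2
          exact (lt_of_add_lt_add_right h10).trans_le hs1
        have h11 : i ∈ S := ⟨hi₀min i h8, hmono.lt_iff_lt.1 h9, h7, σ, hi, hn⟩
        refine htmax (C.s i) ?_
        rw [hT', Finset.mem_filter]
        refine ⟨?_, h6⟩
        rw [hT, Finset.mem_insert]
        right
        refine Finset.mem_image_of_mem _ ?_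
        rw [hSf, Set.Finite.mem_toFinset]
        exact h11
    · right
      push Not at h6
      exact h6
  refine (Set.encard_le_encard hcover).trans ((Set.encard_union_le _ _).trans ?_)
  have h3 : ({j₁, j₂} : Set ℕ).encard ≤ 2 := by
    refine (Set.encard_insert_le _ _).trans ?_
    rw [Set.encard_singleton]
    norm_num
  have h4 := encard_biUnion_le_C5 T Bk K hBkcard
  have h5 : ((T.card * K : ℕ) : ℕ∞) ≤ (((K + 1) * K : ℕ) : ℕ∞) := by
    exact_mod_cast Nat.mul_le_mul_right K hTcard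
  refine (add_le_add h3 (h4.trans h5)).trans ?_
  have h6 : 2 + (K + 1) * K ≤ K ^ 2 + 2 * K + 2 := by nlinarith
  exact_mod_cast h6

end Pool.Agent.Lib.MP_8bcb9d_co.W
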