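import Mathlib
import Pool.Agent.Lib.MP_8bcb9d_co.W.C3
import Pool.Agent.Lib.MP_8bcb9d_co.W.C5

section

section

/-!
# World Fin, combinatorial part: few `TT`-shells in a window with few `UU`-shells
-/

set_option autoImplicit false

namespace Pool.Agent.Lib.MP_8bcb9d_co.W

variable {F G : Type} [Field F] [LinearOrder F] [IsStrictOrderedRing F]
  [AddCommGroup G] [LinearOrder G] [IsOrderedAddMonoid G] {K : ℕ}

/-- union bound -/
theorem countT_union {A : ℕ → Set ℕ} {K : ℕ} (hA : ∀ l, (A l).encard ≤ K) (S : Finset ℕ) :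
    (⋃ l ∈ S, A l).encard ≤ ((S.card * K : ℕ) : ℕ∞) := by
  classical
  induction S using Finset.induction_on with
  | empty => simp
  | insert a S ha ih =>
    rw [Finset.set_biUnion_insert, Finset.card_insert_of_notMem ha]
    refine (Set.encard_union_le _ _).trans ((add_le_add (hA a) ih).trans ?_)
    have : ((S.card + 1) * K : ℕ) = K + S.card * K := by ring
    rw [this]
    push_cast
    exact le_rfl

/-- Proof. Let `Us = {j ∈ UI | e ≤ s j < e'}` (finite, at most `N` elements) and let `l₀` be the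
largest index in `UI` with `s l₀ < e` (exists: `hl`, and `s l < e` bounds `l` as soon as the set on
the left is nonempty: its elements `i` satisfy `s l < e ≤ s i`, so `l < i`). Let `i` be in the set
on the left. Either `i ∈ UI`, so `i ∈ Us`: at most `N` such `i`. Or let `l` be the largest element
of `UI` with `l < i` (exists because `l₀ < i`); `l = l₀` or `l ∈ Us`, and `i` is in the set of
`C.tu l`. So the set is contained in the union of `Us` and of at most `N + 1` sets with at most `K`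
elements. -/
theorem Comb.countT (C : Comb F G K) {e e' : G} {N : ℕ}
    (hN : {j | j ∈ C.UI ∧ e ≤ C.s j ∧ C.s j < e'}.encard ≤ N)
    (hl : ∃ l ∈ C.UI, C.s l < e) :
    {i | (∃ σ, (i, σ) ∈ C.TP) ∧ e ≤ C.s i ∧ C.s i < e'}.encard ≤ ((N + (N + 1) * K : ℕ) : ℕ∞) := by
  classical
  rcases Set.eq_empty_or_nonempty {i | (∃ σ, (i, σ) ∈ C.TP) ∧ e ≤ C.s i ∧ C.s i < e'} with h0 | h0
  · rw [h0]
    simp
  obtain ⟨i₁, -, hi₁, -⟩ := h0
  -- the largest index `l₀` of `UI` below `e`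
  have hbd : ∀ l, C.s l < e → l < i₁ := fun l h => C.lt_iff.1 (h.trans_le hi₁)
  obtain ⟨l₁, hl₁, hl₁e⟩ := hl
  let P : ℕ → Prop := fun l => l ∈ C.UI ∧ C.s l < e
  obtain ⟨l₀, hl₀, hmax⟩ : ∃ l₀, P l₀ ∧ ∀ l, P l → l ≤ l₀ :=
    ⟨Nat.findGreatest P i₁, Nat.findGreatest_spec (P := P) (hbd l₁ hl₁e).le ⟨hl₁, hl₁e⟩,
      fun l h => Nat.le_findGreatest (hbd l h.2).le h⟩
  set Us : Set ℕ := {j | j ∈ C.UI ∧ e ≤ C.s j ∧ C.s j < e'} with hUs
  have hfin : Us.Finite := Set.finite_of_encard_le_coe hN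
  set U : Finset ℕ := hfin.toFinset with hU
  have hUcard : U.card ≤ N := by
    have h1 : Us.encard = (U.card : ℕ∞) := by
      rw [hU, hfin.encard_eq_coe_toFinset_card]
    rw [h1] at hN
    exact_mod_cast hN
  let A : ℕ → Set ℕ := fun l =>
    {j | l < j ∧ (∃ σ, (j, σ) ∈ C.TP) ∧ ∀ l', l < l' → l' < j → l' ∉ C.UI}
  have hsub : {i | (∃ σ, (i, σ) ∈ C.TP) ∧ e ≤ C.s i ∧ C.s i < e'} ⊆
      Us ∪ ⋃ l ∈ insert l₀ U, A l := by
    rintro i ⟨hi1, hi2, hi3⟩
    by_cases hiU : i ∈ C.UI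
    · exact Or.inl ⟨hiU, hi2, hi3⟩
    right
    have hl₀i : l₀ < i := C.lt_iff.1 (hl₀.2.trans_le hi2)
    let P' : ℕ → Prop := fun l => l ∈ C.UI ∧ l < i
    obtain ⟨l, hl, hlmax⟩ : ∃ l, P' l ∧ ∀ l', P' l' → l' ≤ l :=
      ⟨Nat.findGreatest P' i, Nat.findGreatest_spec (P := P') hl₀i.le ⟨hl₀.1, hl₀i⟩,
        fun l h => Nat.le_findGreatest h.2.le h⟩
    have hlA : i ∈ A l := by
      refine ⟨hl.2, hi1, ?_⟩
      intro l' h1 h2 h3
      have := hlmax l' ⟨h3, h2⟩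
      omega
    have hlU : l ∈ insert l₀ U := by
      rw [Finset.mem_insert]
      by_cases hle : C.s l < e
      · left
        exact le_antisymm (hmax l ⟨hl.1, hle⟩) (hlmax l₀ ⟨hl₀.1, hl₀i⟩)
      · right
        rw [hU, Set.Finite.mem_toFinset]
        push Not at hle
        exact ⟨hl.1, hle, (C.lt_iff.2 hl.2).trans hi3⟩
    exact Set.mem_biUnion hlU hlA
  refine (Set.encard_le_encard hsub).trans ((Set.encard_union_le _ _).trans ?_)
  have h1 : (⋃ l ∈ insert l₀ U, A l).encard ≤ (((N + 1) * K : ℕ) : ℕ∞) := by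
    refine (countT_union (fun l => C.tu l) _).trans ?_
    have h2 : (insert l₀ U).card ≤ N + 1 := (Finset.card_insert_le _ _).trans (by omega)
    exact_mod_cast Nat.mul_le_mul_right K h2
  calc Us.encard + (⋃ l ∈ insert l₀ U, A l).encard ≤ (N : ℕ∞) + (((N + 1) * K : ℕ) : ℕ∞) :=
        add_le_add hN h1
    _ = _ := by push_cast; rfl

end Pool.Agent.Lib.MP_8bcb9d_co.W
end

section

/-!
# World Fin, combinatorial part: a stage with large precision is impossible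
-/

set_option autoImplicit false

namespace Pool.Agent.Lib.MP_8bcb9d_co.W

variable {F G : Type} [Field F] [LinearOrder F] [IsStrictOrderedRing F]
  [AddCommGroup G] [LinearOrder G] [IsOrderedAddMonoid G] {K : ℕ}
  {C : Comb F G K} {g : G} {A a b : ℕ}

/-- Proof. `iterC` with `n' = K + 1`, `x = c` gives `K + 1` indices `i` of shells with a slope near
`ω` and `c < s i ≤ c + ((K+1) Lc) • g =: y`. `Uden` at `y` gives `j ∈ UI`, `y < s j ≤ y + K2 • g`;
`Uden` at `s j` gives an element of `UI` after `j`; let `j'` be the first element of `UI` after `j`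
(`Nat.find`), so `s j' ≤ s j + K2 • g ≤ c + Bc • g`. Let `i₀` be the smallest index with
`c ≤ s i₀` (`Nat.find`; `i₀ ≤ j`). Apply `C.n3 κ ω i₀ j j'`: the points of `TP` with index in
`[i₀, j')` have exponent in `[c, c + Bc • g] ⊆ [c, c + n • g]`, so they are not above by the stage.
All `K + 1` indices `i` are in the set of `n3`: `i₀ ≤ i` by minimality, `i < j` as `s i ≤ y < s j`,
and `s j' ≤ c + Bc • g ≤ c + κ < s i + κ`. So `K + 1 ≤ K`. All side conditions of `iterC`, `Uden`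
follow from `hb`, `hκ2` (`grind` or: `nsmul` inequalities, `Mb K = 4 * Bc K + ...`). -/
theorem Str.endStage (hS : Str C g A a b) {κ c : G} {n : ℕ} {ω : F} (hst : Stage C g κ c n ω)
    (hκ : Bc K • g ≤ κ) (hκ2 : κ ≤ (2 * Bc K) • g) (hn : Bc K ≤ n) (ha : C.s a ≤ c)
    (hb : c + (n + Mb K) • g ≤ C.s b) : False := by
  classical
  have hg := hS.pos
  have hK2 : 1 ≤ K2 K := by unfold K2; omega
  have hBc : Bc K = (K + 1) * Lc K + 2 * K2 K := rfl
  have hMb : Mb K = 4 * Bc K + Lc K + K2 K + 2 := rfl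
  have hmono : ∀ {m n : ℕ}, m ≤ n → m • g ≤ n • g := fun h => nsmul_le_nsmul_left hg.le h
  have hκ0 : 0 < κ := by
    have h1 : (1 : ℕ) • g ≤ Bc K • g := hmono (by omega)
    rw [one_nsmul] at h1
    exact lt_of_lt_of_le hg (h1.trans hκ)
  have hlt : (4 * Bc K) • g < (n + Mb K) • g := nsmul_lt_nsmul_left hg (by omega)
  have e4 : (4 * Bc K) • g = (2 * Bc K) • g + Bc K • g + Bc K • g := by
    rw [← add_nsmul, ← add_nsmul]
    congr 1
    omega
  have e5 : Bc K • g = ((K + 1) * Lc K) • g + K2 K • g + K2 K • g := by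
    rw [← add_nsmul, ← add_nsmul, hBc]
    congr 1
    omega
  have p1 : (0 : G) ≤ K2 K • g := nsmul_nonneg hg.le _
  have p2 : (0 : G) ≤ ((K + 1) * Lc K) • g := nsmul_nonneg hg.le _
  have p3 : (0 : G) ≤ Bc K • g := nsmul_nonneg hg.le _
  have p4 : (0 : G) ≤ (2 * Bc K) • g := nsmul_nonneg hg.le _
  obtain ⟨⟨p, hp, q, hq, hpq, n1, n2, n3, n4⟩, hst2⟩ := hst
  obtain ⟨S, hS1, hS2⟩ := hS.iterC (K + 1) (x := c) hκ0
    ⟨p, hp, q, hq, hpq, n1, n2, n3.le, n4.le⟩ ha (by grind)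
  obtain ⟨j, hj1, hj2, hj3⟩ := hS.Uden (x := c + ((K + 1) * Lc K) • g) (by grind) (by grind)
  obtain ⟨j2, hj4, hj5, hj6⟩ := hS.Uden (x := C.s j) (by grind) (by grind)
  have hex : ∃ l, j < l ∧ l ∈ C.UI := ⟨j2, C.lt_iff.1 hj5, hj4⟩
  set j' := Nat.find hex with hj'
  obtain ⟨hjj', hj'U⟩ : j < j' ∧ j' ∈ C.UI := Nat.find_spec hex
  have hj'2 : j' ≤ j2 := Nat.find_min' hex ⟨C.lt_iff.1 hj5, hj4⟩
  have hj'3 : ∀ l, j < l → l < j' → l ∉ C.UI := fun l h1 h2 h3 => Nat.find_min hex h2 ⟨h1, h3⟩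
  have hsj' : C.s j' ≤ c + Bc K • g := by
    have := C.le_iff.2 hj'2
    grind
  have hex2 : ∃ i, c ≤ C.s i := ⟨j, by grind⟩
  set i₀ := Nat.find hex2 with hi₀
  have hi1 : c ≤ C.s i₀ := Nat.find_spec hex2
  have hi2 : ∀ l, c ≤ C.s l → i₀ ≤ l := fun l h => Nat.find_min' hex2 h
  have hcount := C.n3 κ ω i₀ j j' (hi2 j (by grind)) hj1 hj'U hjj' hj'3 (by
    intro l σ hl h1 h2
    have h3 := C.le_iff.2 h1
    have h4 := C.lt_iff.2 h2
    have h5 : Bc K • g ≤ n • g := hmono hn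
    exact hst2 (l, σ) hl (by simp only; grind) (by simp only; grind))
  have hsub : (S : Set ℕ) ⊆ {i | i₀ ≤ i ∧ i < j ∧ C.s j' < C.s i + κ ∧
      ∃ σ, (i, σ) ∈ C.TP ∧ Near C.v κ ω σ} := by
    intro i hi
    obtain ⟨h1, h2, h3⟩ := hS2 i hi
    refine ⟨hi2 i h2.le, C.lt_iff.1 (lt_of_le_of_lt h3 hj2), by grind, h1⟩
  have h5 := (Set.encard_le_encard hsub).trans hcount
  rw [Set.encard_coe_eq_coe_finsetCard, hS1] at h5
  have h6 : K + 1 ≤ K := by exact_mod_cast h5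
  omega

end Pool.Agent.Lib.MP_8bcb9d_co.W
end
end

section

section

/-!
# World Fin, combinatorial part: the halving lemma
-/

set_option autoImplicit false

namespace Pool.Agent.Lib.MP_8bcb9d_co.W

variable {F G : Type} [Field F] [LinearOrder F] [IsStrictOrderedRing F]
  [AddCommGroup G] [LinearOrder G] [IsOrderedAddMonoid G] {K : ℕ}

/-- length needed to find a stage of length `n'` when there are `p` classes -/
def Lam (L : ℕ) : ℕ → ℕ → ℕ
  | 0, _ => L + 1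
  | p + 1, n' => 2 * Lam L p n' + 2 + n'

theorem le_Lam (L p n' : ℕ) : L + 1 ≤ Lam L p n' := by
  induction p with
  | zero => exact le_rfl
  | succ p ih =>
    have h : Lam L (p + 1) n' = 2 * Lam L p n' + 2 + n' := rfl
    omega

/-- Halving lemma. `P` is the parent class, `Ω` represents the classes at the new precision `κ'`.

Proof: induction on `p`. If `Ω = ∅`: `h3` at `x = c` (`L ≤ Lam L p n' ≤ n`) gives `w ∈ P` in the
interval, and `h1` gives an element of `∅`. Otherwise let `ω₁` be the maximum of `Ω` and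
`m = Lam L p n'`, so `2 m + 2 + n' ≤ n`. Let
`X = {w ∈ P | Near κ' ω₁ w.2 ∧ c ≤ s w.1 ∧ s w.1 < c + (2 m + 2) • g}`.
Case 1: `X` has two different elements. Take `ω' = ω₁`, `c' = c + (2 m + 2) • g`. A point
`w ∈ TP` with exponent in `[c', c' + n' • g] ⊆ [c, c + n • g]` is not above: if `w ∈ P` by `h1` and
`not_above_of_near` (`ω' ≤ ω₁`), if `w ∉ P` by `h2`.
Case 2: `X` has at most one element. If it has an element `w` with `c + (m+1) • g ≤ s w.1` let
`c₁ = c`, otherwise `c₁ = c + (m + 1) • g`. In both cases no element of `X` has exponent in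
`[c₁, c₁ + m • g]`, and `c₁ + m • g ≤ c + (2 m + 1) • g`. So the induction hypothesis applies to
`c₁`, `n₁ = m`, `Ω.erase ω₁`. -/
theorem Comb.lemH (C : Comb F G K) {g κ' : G} (hg : 0 < g) (L : ℕ) (P : Set (ℕ × F))
    (hP : P ⊆ C.TP) (n' : ℕ) (p : ℕ) : ∀ (Ω : Finset F) (c : G) (n : ℕ), Ω.card ≤ p →
    Lam L p n' ≤ n →
    (∀ w ∈ P, c ≤ C.s w.1 → C.s w.1 ≤ c + n • g → ∃ ω' ∈ Ω, Near C.v κ' ω' w.2) →
    (∀ w ∈ C.TP, w ∉ P → c ≤ C.s w.1 → C.s w.1 ≤ c + n • g →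
      ∀ ω' ∈ Ω, ¬ Above C.v κ' ω' w.2) →
    (∀ x, c ≤ x → x + L • g ≤ c + n • g → ∃ w ∈ P, x < C.s w.1 ∧ C.s w.1 ≤ x + L • g) →
    ∃ ω' ∈ Ω, ∃ c', c ≤ c' ∧ c' + n' • g ≤ c + n • g ∧ Stage C g κ' c' n' ω' := by
  have hlt : ∀ {i j : ℕ}, i ≤ j → i • g ≤ j • g := fun h => nsmul_le_nsmul_left hg.le h
  -- the set `Ω` is not empty
  have hempty : ∀ (c : G) (n : ℕ), L ≤ n →
      (∀ w ∈ P, c ≤ C.s w.1 → C.s w.1 ≤ c + n • g → ∃ ω' ∈ (∅ : Finset F),
        Near C.v κ' ω' w.2) →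
      (∀ x, c ≤ x → x + L • g ≤ c + n • g → ∃ w ∈ P, x < C.s w.1 ∧ C.s w.1 ≤ x + L • g) →
      False := by
    intro c n hLn h1 h3
    have h4 : c + L • g ≤ c + n • g := by
      have := hlt hLn
      gcongr
    obtain ⟨w, hw, hw1, hw2⟩ := h3 c le_rfl h4
    obtain ⟨ω', hω', -⟩ := h1 w hw hw1.le (hw2.trans h4)
    simp at hω'
  induction p with
  | zero =>
    intro Ω c n hΩ hn h1 h2 h3
    have hΩ' : Ω = ∅ := Finset.card_eq_zero.1 (Nat.le_zero.1 hΩ)
    subst hΩ'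
    have hn' : L + 1 ≤ n := hn
    exact (hempty c n (by omega) h1 h3).elim
  | succ p ih =>
    intro Ω c n hΩ hn h1 h2 h3
    have hLm := le_Lam L p n'
    have hn1 : 2 * Lam L p n' + 2 + n' ≤ n := hn
    generalize Lam L p n' = m at ih hLm hn1
    rcases Finset.eq_empty_or_nonempty Ω with hΩ' | hne
    · subst hΩ'
      exact (hempty c n (by omega) h1 h3).elim
    obtain ⟨ω₁, hω₁, hmax⟩ : ∃ ω₁ ∈ Ω, ∀ ω' ∈ Ω, ω' ≤ ω₁ :=
      ⟨Ω.max' hne, Ω.max'_mem hne, fun ω' h => Ω.le_max' ω' h⟩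
    have hbig : c + (2 * m + 2) • g + n' • g ≤ c + n • g := by
      have := hlt hn1
      rw [add_assoc, ← add_nsmul]
      gcongr
    by_cases hX : ∃ w ∈ P, ∃ w' ∈ P, w ≠ w' ∧ (Near C.v κ' ω₁ w.2 ∧ c ≤ C.s w.1 ∧
        C.s w.1 < c + (2 * m + 2) • g) ∧ (Near C.v κ' ω₁ w'.2 ∧ c ≤ C.s w'.1 ∧
        C.s w'.1 < c + (2 * m + 2) • g)
    · obtain ⟨w, hw, w', hw', hne', ⟨a1, a2, a3⟩, ⟨b1, b2, b3⟩⟩ := hX
      have hc' : c ≤ c + (2 * m + 2) • g := le_add_of_nonneg_right (nsmul_nonneg hg.le _)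
      refine ⟨ω₁, hω₁, c + (2 * m + 2) • g, hc', hbig,
        ⟨w, hP hw, w', hP hw', hne', a1, b1, a3, b3⟩, ?_⟩
      intro q hq hq1 hq2
      by_cases hqP : q ∈ P
      · obtain ⟨ω', hω', hnear⟩ := h1 q hqP (hc'.trans hq1) (hq2.trans hbig)
        exact not_above_of_near C.v_le (hmax ω' hω') hnear
      · exact h2 q hq hqP (hc'.trans hq1) (hq2.trans hbig) ω₁ hω₁
    · -- the interval without points near `ω₁`
      obtain ⟨c₁, hc₁, hc₁', hfree⟩ : ∃ c₁, c ≤ c₁ ∧ c₁ + m • g ≤ c + (2 * m + 1) • g ∧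
          ∀ w ∈ P, c₁ ≤ C.s w.1 → C.s w.1 ≤ c₁ + m • g → ¬ Near C.v κ' ω₁ w.2 := by
        have hm1 : m • g < (m + 1) • g := by
          rw [succ_nsmul]
          exact lt_add_of_pos_right _ hg
        have hm2 : (2 * m + 1) • g < (2 * m + 2) • g := by
          rw [show 2 * m + 2 = 2 * m + 1 + 1 by ring, succ_nsmul (n := 2 * m + 1)]
          exact lt_add_of_pos_right _ hg
        by_cases hw : ∃ w ∈ P, (Near C.v κ' ω₁ w.2 ∧ c ≤ C.s w.1 ∧
            C.s w.1 < c + (2 * m + 2) • g) ∧ c + (m + 1) • g ≤ C.s w.1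
        · obtain ⟨w, hwP, hwX, hwge⟩ := hw
          have h5 : c + m • g ≤ c + (2 * m + 1) • g := by
            have := hlt (show m ≤ 2 * m + 1 by omega)
            gcongr
          refine ⟨c, le_rfl, h5, ?_⟩
          intro w' hw' h6 h7 h8
          have h9 : C.s w'.1 < c + (2 * m + 2) • g :=
            (h7.trans h5).trans_lt (by gcongr)
          apply hX
          refine ⟨w, hwP, w', hw', ?_, hwX, h8, h6, h9⟩
          rintro rfl
          have h10 : c + m • g < c + (m + 1) • g := by gcongr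
          exact absurd (hwge.trans h7) (not_le.2 h10)
        · have h5 : c ≤ c + (m + 1) • g := le_add_of_nonneg_right (nsmul_nonneg hg.le _)
          have h5' : c + (m + 1) • g + m • g ≤ c + (2 * m + 1) • g := by
            rw [add_assoc, ← add_nsmul, show m + 1 + m = 2 * m + 1 by ring]
          refine ⟨c + (m + 1) • g, h5, h5', ?_⟩
          intro w' hw' h6 h7 h8
          exact hw ⟨w', hw', ⟨h8, h5.trans h6, (h7.trans h5').trans_lt (by gcongr)⟩, h6⟩
      have hc₁n : c₁ + m • g ≤ c + n • g := by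
        refine hc₁'.trans ?_
        have := hlt (show 2 * m + 1 ≤ n by omega)
        gcongr
      obtain ⟨ω', hω', c', h6, h7, h8⟩ := ih (Ω.erase ω₁) c₁ m
        (by rw [Finset.card_erase_of_mem hω₁]; omega) le_rfl
        (by
          intro w hw h6 h7
          obtain ⟨ω', hω', h8⟩ := h1 w hw (hc₁.trans h6) (h7.trans hc₁n)
          refine ⟨ω', Finset.mem_erase.2 ⟨?_, hω'⟩, h8⟩
          rintro rfl
          exact hfree w hw h6 h7 h8)
        (fun w hw hwP h6 h7 ω' hω' =>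
          h2 w hw hwP (hc₁.trans h6) (h7.trans hc₁n) ω' (Finset.mem_of_mem_erase hω'))
        (fun x h6 h7 => h3 x (hc₁.trans h6) (h7.trans hc₁n))
      exact ⟨ω', Finset.mem_of_mem_erase hω', c', hc₁.trans h6, h7.trans hc₁n, h8⟩

end Pool.Agent.Lib.MP_8bcb9d_co.W
end

section

/-!
# World Fin, combinatorial part: splitting of a class
-/

set_option autoImplicit false

namespace Pool.Agent.Lib.MP_8bcb9d_co.W

variable {F G : Type} [Field F] [LinearOrder F] [IsStrictOrderedRing F]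
  [AddCommGroup G] [LinearOrder G] [IsOrderedAddMonoid G] {K : ℕ}
  {C : Comb F G K} {g : G} {A a b : ℕ}

/-- bound for the number of shells of the class in a window -/
def C4 (K : ℕ) : ℕ := (K ^ 2 + 2 * K + 2) + (K ^ 2 + 2 * K + 2 + 1) * K

/-- `κ / Nq` is the gain of precision -/
def Nq (K : ℕ) : ℕ := (C4 K + 1) * (K ^ 2 + 2 * K) + C4 K + 1

/-- Proof. Let `e = c + n' • g`. Then `c + κ ≤ e` and `e + κ ≤ c + n • g` (as `κ ≤ Bc • g`).
`countU` and `countT` (the hypothesis `hl` of `countT`: `Uden` at `c` gives `j ∈ UI` with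
`s j ≤ c + K2 • g < e` because `K2 K < Bc K ≤ n'`) give at most `C4 K` indices of shells with a
point of the class in `[e, e + κ)` (monotonicity of `encard`). Let `t` be the largest exponent
`< e` of a shell with a point of the class (exists: by the stage there is one `< c ≤ e`, and
`s i < e ≤ s b` bounds `i`, `Nat.findGreatest`). Two points of the class have exponent `≤ t` (both
points of the stage). `Cden` at `x = e + κ` gives a point of the class with exponent `> e + κ`.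
`C.split_net` with `m = C4 K` gives `δ` and `Ω`; points of the class with exponent `< e` have
exponent `≤ t` by the choice of `t`. -/
theorem Str.split' (hS : Str C g A a b) {κ c : G} {n n' : ℕ} {ω : F} (hst : Stage C g κ c n ω)
    (hκ : 0 < κ) (hκB : κ ≤ Bc K • g) (hn' : Bc K ≤ n') (hn : n' + Bc K ≤ n) (ha : C.s a ≤ c)
    (hb : c + (n + Mb K) • g ≤ C.s b) :
    ∃ δ : G, 0 < δ ∧ δ ≤ κ ∧ κ ≤ Nq K • δ ∧
      ∃ Ω : Finset F, Ω.card ≤ 2 * K ∧ (∀ ω' ∈ Ω, Near C.v κ ω ω') ∧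
        ∀ p ∈ C.TP, Near C.v κ ω p.2 → C.s p.1 < c + n' • g →
          ∃ ω' ∈ Ω, Near C.v (κ + δ) ω' p.2 := by
  classical
  have hg := hS.pos
  have hmono : ∀ {x y : ℕ}, x ≤ y → x • g ≤ y • g := fun h => nsmul_le_nsmul_left hg.le h
  have hmono' : ∀ {x y : ℕ}, x < y → x • g < y • g := fun h => nsmul_lt_nsmul_left hg h
  have hK2 : 1 ≤ K2 K := by unfold K2; omega
  have hLc : K2 K ≤ Lc K := by
    unfold Lc
    exact Nat.le_mul_of_pos_left _ (by omega)
  have hBc : K2 K < Bc K := by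
    unfold Bc
    have : 0 ≤ (K + 1) * Lc K := Nat.zero_le _
    omega
  have hMb : Mb K = 4 * Bc K + Lc K + K2 K + 2 := rfl
  set e : G := c + n' • g with he
  have h1 : c + κ ≤ e := by
    rw [he]
    exact add_le_add_right (hκB.trans (hmono hn')) c
  have h2 : e + κ ≤ c + n • g := by
    have h3 := hmono hn
    rw [add_nsmul] at h3
    rw [he, add_assoc]
    exact add_le_add_right ((add_le_add_right hκB _).trans h3) c
  have hce : c ≤ e := by
    have : 0 ≤ n' • g := nsmul_nonneg hg.le n'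
    rw [he]
    exact le_add_of_nonneg_right this
  have hU := C.countU hg.le hst hκ h1 h2
  have hl : ∃ l ∈ C.UI, C.s l < e := by
    obtain ⟨j, hj1, _, hj3⟩ := hS.Uden ha (x := c) (by
      refine lt_of_lt_of_le ?_ hb
      exact add_lt_add_right (hmono' (by omega)) c)
    refine ⟨j, hj1, lt_of_le_of_lt hj3 ?_⟩
    rw [he]
    exact add_lt_add_right (hmono' (by omega)) c
  have hT := C.countT hU hl
  have heb : e + κ + κ + Lc K • g < C.s b := by
    refine lt_of_lt_of_le ?_ hb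
    have h3 : (n' + Bc K + Bc K + Lc K) • g < (n + Mb K) • g := hmono' (by omega)
    rw [add_nsmul, add_nsmul, add_nsmul] at h3
    have h4 : e + κ + κ + Lc K • g ≤ c + (n' • g + Bc K • g + Bc K • g + Lc K • g) := by
      have h5 : e + κ + κ + Lc K • g ≤ e + Bc K • g + Bc K • g + Lc K • g := by
        gcongr
      refine h5.trans (le_of_eq ?_)
      rw [he]
      abel
    exact lt_of_le_of_lt h4 (add_lt_add_right h3 c)
  have heb' : e ≤ C.s b := by
    have h3 : 0 ≤ κ + κ + Lc K • g := by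
      have := nsmul_nonneg hg.le (Lc K)
      positivity
    have h4 : e ≤ e + (κ + κ + Lc K • g) := le_add_of_nonneg_right h3
    refine h4.trans (le_trans (le_of_eq ?_) heb.le)
    abel
  obtain ⟨⟨p, hp, q, hq, hpq, hpn, hqn, hpc, hqc⟩, _⟩ := hst
  -- the largest shell of the class below `e`
  let P : ℕ → Prop := fun i => (∃ σ, (i, σ) ∈ C.TP ∧ Near C.v κ ω σ) ∧ C.s i < e
  have hPb : ∀ i, P i → i ≤ b := by
    intro i hi
    have := lt_of_lt_of_le hi.2 heb'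
    exact (C.lt_iff.1 this).le
  have hPp : P p.1 := ⟨⟨p.2, hp, hpn⟩, lt_of_lt_of_le hpc hce⟩
  have hPq : P q.1 := ⟨⟨q.2, hq, hqn⟩, lt_of_lt_of_le hqc hce⟩
  have hi0 : P (Nat.findGreatest P b) := Nat.findGreatest_spec (hPb _ hPp) hPp
  have hmax : ∀ i, P i → C.s i ≤ C.s (Nat.findGreatest P b) := by
    intro i hi
    exact C.le_iff.2 (Nat.le_findGreatest (hPb _ hi) hi)
  obtain ⟨δ, hδ, hδκ, hκδ, Ω, hΩ1, hΩ2, hΩ3⟩ := C.split_net (κ := κ) (ω := ω)
    (t := C.s (Nat.findGreatest P b)) (e := e) (m := C4 K) hκ hi0.2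
    ⟨p, hp, q, hq, hpq, hpn, hqn, hmax _ hPp, hmax _ hPq⟩
    (by
      intro i σ hi hn1
      rcases lt_or_ge (C.s i) e with h | h
      · exact Or.inl (hmax i ⟨⟨σ, hi, hn1⟩, h⟩)
      · exact Or.inr h)
    (by
      obtain ⟨r, hr1, hr2, hr3, _⟩ := hS.Cden (κ := κ) (x := e + κ) (ω := ω) hκ
        ⟨p, hp, q, hq, hpq, hpn, hqn,
          (hpc.le.trans hce).trans (le_add_of_nonneg_right hκ.le),
          (hqc.le.trans hce).trans (le_add_of_nonneg_right hκ.le)⟩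
        ((ha.trans hce).trans (le_add_of_nonneg_right hκ.le)) heb
      exact ⟨r.1, r.2, hr1, hr2, hr3.le⟩)
    (by
      refine le_trans (Set.encard_le_encard ?_) hT
      rintro i ⟨⟨σ, hi, _⟩, hi1, hi2⟩
      exact ⟨⟨σ, hi⟩, hi1, hi2⟩)
  refine ⟨δ, hδ, hδκ, hκδ, Ω, hΩ1, hΩ2, ?_⟩
  intro r hr hr1 hr2
  exact hΩ3 r hr hr1 (hmax _ ⟨⟨r.2, hr, hr1⟩, hr2⟩)

end Pool.Agent.Lib.MP_8bcb9d_co.W
end

section

/-!
# World Fin, combinatorial part: one step, the start
-/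

set_option autoImplicit false

namespace Pool.Agent.Lib.MP_8bcb9d_co.W

variable {F G : Type} [Field F] [LinearOrder F] [IsStrictOrderedRing F]
  [AddCommGroup G] [LinearOrder G] [IsOrderedAddMonoid G] {K : ℕ}
  {C : Comb F G K} {g : G} {A a b : ℕ}

/-- length needed for one step -/
def stepN (K n' : ℕ) : ℕ := Lam (Lc K) (2 * K) n' + 2 * Bc K + 1

/-- length needed for the start -/
def startN (K n' : ℕ) : ℕ := Lam (K2 K) (2 * K) n' + m1 K + Mb K + 1

/-- Proof. `split'` with `n₁ = n - Bc K` (so `Bc K ≤ n₁`, `n₁ + Bc K ≤ n`) gives `δ`, `Ω`. Let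
`κ' = κ + δ`, `P = {w ∈ TP | Near κ ω w.2}` and apply `Comb.lemH` with `L = Lc K`, `p = 2 K` on the
interval `[c, c + (n₁ - 1) • g]`: first hypothesis: `split'`, because `(n₁ - 1) • g < n₁ • g`;
second hypothesis: `w ∉ P` is not near, not above by the stage, so `not_above_refine`; third:
`Str.Cden` (the two points of the stage have exponent `< c ≤ x`). -/
theorem Str.step (hS : Str C g A a b) {κ c : G} {n : ℕ} {ω : F} (hst : Stage C g κ c n ω)
    (hκ : 0 < κ) (hκB : κ ≤ Bc K • g) (n' : ℕ) (hn : stepN K n' ≤ n) (ha : C.s a ≤ c)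
    (hb : c + (n + Mb K) • g ≤ C.s b) :
    ∃ (κ' : G) (ω' : F) (c' : G), κ < κ' ∧ κ' ≤ 2 • κ ∧ κ ≤ Nq K • (κ' - κ) ∧ C.s a ≤ c' ∧
      c' + (n' + Mb K) • g ≤ C.s b ∧ Stage C g κ' c' n' ω' := by
  have hg := hS.pos
  obtain ⟨k, hk⟩ : ∃ k : ℕ, n = k + 1 + Bc K := ⟨n - (Bc K + 1), by unfold stepN at hn; omega⟩
  have hk1 : Lam (Lc K) (2 * K) n' + Bc K ≤ k := by unfold stepN at hn; omega
  obtain ⟨δ, hδ, hδκ, hκδ, Ω, hΩc, hΩn, hΩ⟩ := hS.split' (n' := k + 1) hst hκ hκB (by omega)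
    (by omega) ha hb
  have hkg : k • g < (k + 1) • g := by
    rw [succ_nsmul]
    exact lt_add_of_pos_right _ hg
  have hkn : (k + 1) • g ≤ n • g := nsmul_le_nsmul_left hg.le (by omega)
  have hBk : (k + 1) • g + Bc K • g = n • g := by rw [hk]; exact (add_nsmul _ _ _).symm
  have hnM : (n + Mb K) • g = n • g + Mb K • g := add_nsmul _ _ _
  have hM : 0 ≤ Mb K • g := nsmul_nonneg hg.le _
  obtain ⟨hst1, hst2⟩ := hst
  obtain ⟨ω', -, c', hc', hcn', hst'⟩ := C.lemH (κ' := κ + δ) hg (Lc K)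
    {w ∈ C.TP | Near C.v κ ω w.2} (fun w hw => hw.1) n' (2 * K) Ω c k hΩc (by omega)
    (fun w hw _ h2 => hΩ w hw.1 hw.2 (by grind))
    (fun w hw hwP h1 h2 ω' hω' => not_above_refine C.isV (hΩn ω' hω') (fun h => hwP ⟨hw, h⟩)
      (hst2 w hw h1 (by grind)))
    (fun x hx hx2 => by
      obtain ⟨p, hp, q, hq, hpq, hpn, hqn, hpc, hqc⟩ := hst1
      obtain ⟨w, hw, hwn, hw1, hw2⟩ := hS.Cden (x := x) (ω := ω) hκ
        ⟨p, hp, q, hq, hpq, hpn, hqn, hpc.le.trans hx, hqc.le.trans hx⟩ (ha.trans hx)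
        (by grind)
      exact ⟨w, ⟨hw, hwn⟩, hw1, hw2⟩)
  refine ⟨κ + δ, ω', c', lt_add_of_pos_right _ hδ, ?_, ?_, ha.trans hc', ?_, hst'⟩
  · rw [two_nsmul]
    gcongr
  · rw [add_sub_cancel_left]
    exact hκδ
  · rw [add_nsmul]
    grind

/-- Proof. By `hlen` and `le_nsmul` (`s b ≤ s a + (b - a) • g`) we have `startN K n' ≤ b - a`, so
`a ≤ b - m1 K`; `hS.ge` gives `l` with `b - m1 K ≤ l < b` and `g ≤ A • κ` for
`κ = s (l+1) - s l ≤ g`. Let `n = Lam (K2 K) (2 K) n'`, `c = s a`; `c + n • g ≤ s (b - m1) ≤ s l`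
(`s b ≤ s (b - m1) + m1 • g`). Let `Ω` be the net of `C.dl_net l`. `Comb.lemH` with `P = TP`,
`L = K2 K`, `κ' = κ`: first hypothesis: exponent `≤ c + n • g ≤ s l` means index `≤ l`; third
hypothesis: `Tden`. -/
theorem Str.start (hS : Str C g A a b) (hab : a ≤ b) (n' : ℕ)
    (hlen : C.s a + startN K n' • g ≤ C.s b) :
    ∃ (κ : G) (ω : F) (c : G), g ≤ A • κ ∧ κ ≤ g ∧ 0 < κ ∧ C.s a ≤ c ∧
      c + (n' + Mb K) • g ≤ C.s b ∧ Stage C g κ c n' ω := by
  have hg := hS.pos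
  have h1 := hS.le_nsmul le_rfl hab le_rfl
  have h2 : startN K n' ≤ b - a := by
    by_contra hcon
    push Not at hcon
    have h3 : (b - a) • g < startN K n' • g := nsmul_lt_nsmul_left hg hcon
    grind
  have h3 : a + m1 K ≤ b := by unfold startN at h2; omega
  obtain ⟨i, hi⟩ : ∃ i : ℕ, b = i + m1 K := ⟨b - m1 K, by omega⟩
  have hai : a ≤ i := by omega
  obtain ⟨l, hl1, hl2, hl3⟩ := hS.ge i hai (by omega)
  have hlb : l < b := by omega
  have hκg := hS.le l (hai.trans hl1) hlb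
  have hκ0 : 0 < C.s (l + 1) - C.s l := sub_pos.2 (C.mono (Nat.lt_succ_self l))
  have h4 := hS.le_nsmul hai (show i ≤ b by omega) le_rfl
  have h5 : b - i = m1 K := by omega
  rw [h5] at h4
  obtain ⟨n, hn⟩ : ∃ n : ℕ, n = Lam (K2 K) (2 * K) n' := ⟨_, rfl⟩
  have h6 : startN K n' • g = n • g + m1 K • g + Mb K • g + g := by
    unfold startN
    rw [← hn, succ_nsmul, add_nsmul, add_nsmul]
  have hM : 0 ≤ Mb K • g := nsmul_nonneg hg.le _
  have hm : 0 ≤ m1 K • g := nsmul_nonneg hg.le _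
  rw [h6] at hlen
  have h7 : C.s i ≤ C.s l := C.le_iff.2 hl1
  have h8 : C.s a + n • g ≤ C.s l := by grind
  have h9 : C.s l < C.s b := C.lt_iff.2 hlb
  obtain ⟨Ω, hΩc, hΩ⟩ := C.dl_net l
  obtain ⟨ω', -, c', hc', hcn', hst'⟩ := C.lemH (κ' := C.s (l + 1) - C.s l) hg (K2 K)
    C.TP subset_rfl n' (2 * K) Ω (C.s a) n hΩc (by omega)
    (fun w hw _ hw2 => hΩ w.1 w.2 hw (C.le_iff.1 (hw2.trans h8)))
    (fun w hw hwP => absurd hw hwP)
    (fun x hx hx2 => hS.Tden hx (by grind))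
  refine ⟨C.s (l + 1) - C.s l, ω', c', hl3, hκg, hκ0, hc', ?_, hst'⟩
  rw [add_nsmul]
  grind

end Pool.Agent.Lib.MP_8bcb9d_co.W
end

section

/-!
# World Fin, combinatorial part: Theorem F
-/

set_option autoImplicit false

namespace Pool.Agent.Lib.MP_8bcb9d_co.W

variable {F G : Type} [Field F] [LinearOrder F] [IsStrictOrderedRing F]
  [AddCommGroup G] [LinearOrder G] [IsOrderedAddMonoid G] {K : ℕ}

/-- lengths, counted from the end -/
def nseq (K : ℕ) : ℕ → ℕ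
  | 0 => Bc K
  | k + 1 => stepN K (nseq K k)

/-- Proof: induction on `k`. If `Bc K • g ≤ κ`: `endStage` (`Bc K ≤ nseq K k`; `κ ≤ 2 Bc • g`).
Otherwise `k ≠ 0` (for `k = 0` the hypothesis `hg` says `Bc K • g ≤ κ`) and `κ < Bc K • g`;
`Str.step` gives `κ'` with `κ' ≤ 2 • κ ≤ (2 Bc) • g` and `κ ≤ Nq • (κ' - κ)`, i.e.
`(Nq + 1) • κ ≤ Nq • κ'`. Then
`Nq • ((Bc * Nq ^ k) • g) ≤ (Nq+1)^(k+1) • κ ≤ (Nq+1)^k • (Nq • κ') = Nq • ((Nq+1)^k • κ')`
and `Nq > 0` can be cancelled (`nsmul_le_nsmul_iff_right` or by contradiction). -/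
theorem Str.noStage {C : Comb F G K} {g : G} {A a b : ℕ} (hS : Str C g A a b) (k : ℕ) :
    ∀ (κ c : G) (ω : F), 0 < κ → κ ≤ (2 * Bc K) • g →
    (Bc K * Nq K ^ k) • g ≤ (Nq K + 1) ^ k • κ → C.s a ≤ c →
    c + (nseq K k + Mb K) • g ≤ C.s b → Stage C g κ c (nseq K k) ω → False := by
  have hBn : ∀ k, Bc K ≤ nseq K k := by
    intro k
    cases k with
    | zero => exact le_rfl
    | succ k =>
      show Bc K ≤ Lam (Lc K) (2 * K) (nseq K k) + 2 * Bc K + 1
      omega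
  have hq : Nq K ≠ 0 := by
    unfold Nq
    omega
  induction k with
  | zero =>
    intro κ c ω hκ hκ2 hg ha hb hst
    rw [pow_zero, pow_zero, mul_one, one_smul] at hg
    exact hS.endStage hst hg hκ2 (hBn 0) ha hb
  | succ k ih =>
    intro κ c ω hκ hκ2 hg ha hb hst
    rcases le_or_gt (Bc K • g) κ with h1 | h1
    · exact hS.endStage hst h1 hκ2 (hBn (k + 1)) ha hb
    · obtain ⟨κ', ω', c', h2, h3, h4, h5, h6, h7⟩ :=
        hS.step hst hκ h1.le (nseq K k) le_rfl ha hb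
      refine ih κ' c' ω' (hκ.trans h2) ?_ ?_ h5 h6 h7
      · refine h3.trans ?_
        rw [mul_smul]
        exact nsmul_le_nsmul_right h1.le 2
      · rw [← nsmul_le_nsmul_iff_right hq]
        have h8 : (Nq K + 1) • κ ≤ Nq K • κ' := by
          rw [add_smul, one_smul]
          have h9 : Nq K • κ' = Nq K • κ + Nq K • (κ' - κ) := by
            rw [← nsmul_add]
            congr 1
            abel
          rw [h9]
          exact add_le_add le_rfl h4
        calc Nq K • (Bc K * Nq K ^ k) • g = (Bc K * Nq K ^ (k + 1)) • g := by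
              rw [smul_smul]
              congr 1
              ring
          _ ≤ (Nq K + 1) ^ (k + 1) • κ := hg
          _ = (Nq K + 1) ^ k • (Nq K + 1) • κ := by rw [smul_smul, pow_succ]
          _ ≤ (Nq K + 1) ^ k • Nq K • κ' := nsmul_le_nsmul_right h8 _
          _ = Nq K • (Nq K + 1) ^ k • κ' := by rw [smul_smul, smul_smul, mul_comm]

/-- Theorem F. Proof: choose `N` with `Bc K * Nq K ^ N * A ≤ (Nq K + 1) ^ N` (exponential growth of
`(1 + 1 / Nq) ^ N`, e.g. `tendsto_pow_atTop_atTop_of_one_lt` over `ℚ` or Bernoulli) and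
`n₀ = startN K (nseq K N)`. If `s a + n₀ • g ≤ s b`, `Str.start` gives `κ` with `g ≤ A • κ`,
`κ ≤ g ≤ (2 Bc) • g`, and
`(Bc Nq^N) • g ≤ (Bc Nq^N) • (A • κ) ≤ (Nq+1)^N • κ`; contradiction with `noStage`. -/
theorem thmF (K A : ℕ) : ∃ n₀ : ℕ, ∀ (F G : Type) [Field F] [LinearOrder F]
    [IsStrictOrderedRing F] [AddCommGroup G] [LinearOrder G] [IsOrderedAddMonoid G]
    (C : Comb F G K) (g : G) (a b : ℕ), Str C g A a b → a ≤ b → C.s b < C.s a + n₀ • g := by
  have hq : 0 < Nq K := by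
    unfold Nq
    omega
  have hB : 1 ≤ 2 * Bc K := by
    unfold Bc K2
    omega
  obtain ⟨N, hN⟩ : ∃ N : ℕ, Bc K * Nq K ^ N * A ≤ (Nq K + 1) ^ N := by
    have hq' : (0 : ℚ) < Nq K := by exact_mod_cast hq
    have h1 : (1 : ℚ) < 1 + 1 / Nq K := by
      have : (0 : ℚ) < 1 / Nq K := by positivity
      linarith
    obtain ⟨N, hN⟩ := pow_unbounded_of_one_lt ((Bc K : ℚ) * A) h1
    refine ⟨N, ?_⟩
    have h2 : ((Bc K * Nq K ^ N * A : ℕ) : ℚ) ≤ (((Nq K + 1) ^ N : ℕ) : ℚ) := by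
      push_cast
      calc (Bc K : ℚ) * Nq K ^ N * A = (Bc K : ℚ) * A * Nq K ^ N := by ring
        _ ≤ (1 + 1 / (Nq K : ℚ)) ^ N * Nq K ^ N := by gcongr
        _ = ((Nq K : ℚ) + 1) ^ N := by
          rw [← mul_pow]
          congr 1
          field_simp
    exact_mod_cast h2
  refine ⟨startN K (nseq K N), ?_⟩
  intro F G _ _ _ _ _ _ C g a b hS hab
  by_contra h
  have h' : C.s a + startN K (nseq K N) • g ≤ C.s b := not_lt.1 h
  obtain ⟨κ, ω, c, h1, h2, h3, h4, h5, h6⟩ := hS.start hab (nseq K N) h'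
  have hg := hS.pos
  refine hS.noStage N κ c ω h3 ?_ ?_ h4 h5 h6
  · calc κ ≤ g := h2
      _ = 1 • g := (one_smul _ _).symm
      _ ≤ (2 * Bc K) • g := nsmul_le_nsmul_left hg.le hB
  · calc (Bc K * Nq K ^ N) • g ≤ (Bc K * Nq K ^ N) • A • κ := nsmul_le_nsmul_right h1 _
      _ = (Bc K * Nq K ^ N * A) • κ := by rw [smul_smul]
      _ ≤ (Nq K + 1) ^ N • κ := nsmul_le_nsmul_left h3.le hN

end Pool.Agent.Lib.MP_8bcb9d_co.W
end

section

/-!
# World Fin, combinatorial part: the exponents of a spine are bounded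
-/

set_option autoImplicit false

namespace Pool.Agent.Lib.MP_8bcb9d_co.W

variable {F G : Type} [Field F] [LinearOrder F] [IsStrictOrderedRing F]
  [AddCommGroup G] [LinearOrder G] [IsOrderedAddMonoid G] {K : ℕ}

theorem m1_pos (K : ℕ) : 0 < m1 K := Nat.succ_pos _

/-- the largest of the `m1 K` jumps starting at `i` -/
def Comb.Lm (C : Comb F G K) (i : ℕ) : G :=
  (Finset.range (m1 K)).sup' ⟨0, Finset.mem_range.2 (m1_pos K)⟩
    (fun l => C.s (i + l + 1) - C.s (i + l))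

/-- Proof: `Finset.le_sup'`. -/
theorem Comb.le_Lm (C : Comb F G K) {i j : ℕ} (h1 : i ≤ j) (h2 : j < i + m1 K) :
    C.s (j + 1) - C.s j ≤ C.Lm i := by
  obtain ⟨l, rfl⟩ : ∃ l, j = i + l := ⟨j - i, by omega⟩
  exact Finset.le_sup' (fun l => C.s (i + l + 1) - C.s (i + l))
    (Finset.mem_range.2 (by omega : l < m1 K))

/-- Proof: `Finset.exists_mem_eq_sup'`. -/
theorem Comb.Lm_eq (C : Comb F G K) (i : ℕ) :
    ∃ l, i ≤ l ∧ l < i + m1 K ∧ C.Lm i = C.s (l + 1) - C.s l := by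
  obtain ⟨l, hl, h⟩ := Finset.exists_mem_eq_sup' ⟨0, Finset.mem_range.2 (m1_pos K)⟩
    (fun l => C.s (i + l + 1) - C.s (i + l))
  rw [Finset.mem_range] at hl
  exact ⟨i + l, by omega, by omega, h⟩

private theorem Comb.Lm_pos (C : Comb F G K) (i : ℕ) : 0 < C.Lm i := by
  obtain ⟨l, -, -, h⟩ := C.Lm_eq i
  rw [h]
  exact sub_pos.2 (C.mono (Nat.lt_succ_self l))

private theorem Comb.block_le (C : Comb F G K) (i n : ℕ) (hn : n ≤ m1 K) :
    C.s (i + n) - C.s i ≤ n • C.Lm i := by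
  induction n with
  | zero => simp
  | succ n ih =>
    have h1 := ih (by omega)
    have h2 := C.le_Lm (i := i) (j := i + n) (by omega) (by omega)
    rw [succ_nsmul, show i + (n + 1) = i + n + 1 by omega]
    grind

/-- All jumps after `i` are at most `m1 K • Lm i`. Proof: for `j < i + m1 K` by `le_Lm`
(`1 ≤ m1 K`, `0 < Lm i`); for `i + m1 K ≤ j` Lemma `L1` with `i₀ = i`, `i = i + m1 K` gives
`s (j+1) - s j < s (i + m1 K) - s i ≤ m1 K • Lm i` (sum of `m1 K` jumps, induction). -/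
theorem Comb.jump_le (C : Comb F G K) {i j : ℕ} (h : i ≤ j) :
    C.s (j + 1) - C.s j ≤ m1 K • C.Lm i := by
  have hpos := C.Lm_pos i
  rcases lt_or_ge j (i + m1 K) with h1 | h1
  · have h2 := C.le_Lm h h1
    refine h2.trans ?_
    calc C.Lm i = 1 • C.Lm i := (one_nsmul _).symm
      _ ≤ m1 K • C.Lm i := nsmul_le_nsmul_left hpos.le (m1_pos K)
  · have h2 := C.L1 (i₀ := i) (i := i + m1 K) (j := j) le_rfl h1
    exact h2.le.trans (C.block_le i (m1 K) le_rfl)

/-- Halving. Let `n₀` be the constant of `thmF K (2 * m1 K)`.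

Proof. Let `g = m1 K • Lm i`, `A = 2 * m1 K` and suppose the contrary:
(*) for all `j > i` with `s j - s i ≤ (n₀ * m1 K) • Lm i` we have `Lm i < 2 • Lm j`.
If `s j < s i + n₀ • g` for all `j`: then for all `k`, `s (i + k * m1 K)` is at least
`s i` plus `k` times half of `Lm i`, precisely `k • Lm i ≤ 2 • (s (i + k * m1 K) - s i)` (induction:
the block of `m1 K` jumps starting at `j = i + k * m1 K` contains a jump equal to `Lm j`, and
`Lm i ≤ 2 • Lm j`); for `k = 2 * n₀ * m1 K` this gives `2 • (n₀ • g) ≤ 2 • (s _ - s i)`,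
contradiction. So let `b` be the least index `≥ i` with `s i + n₀ • g ≤ s b`. Then `Str C g A i b`:
jumps are `≤ g` by `jump_le`; if `i ≤ j`, `j + m1 K ≤ b` then `j < b`, so
`s j < s i + n₀ • g`, so `Lm i ≤ 2 • Lm j` (trivial for `j = i`, else (*)), and the jump `l` of
`Lm_eq j` satisfies `g = m1 • Lm i ≤ (2 m1) • (s (l+1) - s l)`. `thmF` contradicts the choice
of `b`. -/
theorem Comb.halve (C : Comb F G K) {n₀ : ℕ}
    (hF : ∀ (g : G) (a b : ℕ), Str C g (2 * m1 K) a b → a ≤ b → C.s b < C.s a + n₀ • g) (i : ℕ) :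
    ∃ j, i < j ∧ 2 • C.Lm j ≤ C.Lm i ∧ C.s j ≤ C.s i + (n₀ * m1 K) • C.Lm i := by
  by_contra hcon
  push Not at hcon
  have hpos := C.Lm_pos i
  have hg : 0 < m1 K • C.Lm i := nsmul_pos hpos (m1_pos K).ne'
  have hng : n₀ • (m1 K • C.Lm i) = (n₀ * m1 K) • C.Lm i := by
    rw [← mul_nsmul', mul_comm]
  have hstar : ∀ j, i < j → C.s j ≤ C.s i + (n₀ * m1 K) • C.Lm i → C.Lm i < 2 • C.Lm j := by
    intro j hj hs
    by_contra hc
    push Not at hc
    exact absurd hs (not_le.2 (hcon j hj hc))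
  have hstar' : ∀ j, i ≤ j → C.s j ≤ C.s i + (n₀ * m1 K) • C.Lm i → C.Lm i ≤ 2 • C.Lm j := by
    intro j hj hs
    rcases hj.eq_or_lt with rfl | hj
    · rw [two_nsmul]
      exact le_add_of_nonneg_left hpos.le
    · exact (hstar j hj hs).le
  have hex : ∃ j, i ≤ j ∧ C.s i + n₀ • (m1 K • C.Lm i) ≤ C.s j := by
    by_contra hno
    push Not at hno
    have hgrow : ∀ k : ℕ, k • C.Lm i ≤ 2 • (C.s (i + k * m1 K) - C.s i) := by
      intro k
      induction k with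
      | zero => simp
      | succ k ih =>
        obtain ⟨l, hl1, hl2, hl3⟩ := C.Lm_eq (i + k * m1 K)
        have h1 : C.Lm i ≤ 2 • C.Lm (i + k * m1 K) := by
          refine hstar' _ (by omega) ?_
          rw [← hng]
          exact (hno _ (by omega)).le
        have h2 : C.s (i + k * m1 K) ≤ C.s l := C.le_iff.2 hl1
        have h3 : C.s (l + 1) ≤ C.s (i + (k + 1) * m1 K) := C.le_iff.2 (by
          rw [Nat.succ_mul]; omega)
        rw [succ_nsmul]
        rw [hl3] at h1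
        grind
    have h1 := hgrow (2 * n₀ * m1 K)
    have h2 := hno (i + (2 * n₀ * m1 K) * m1 K) (by omega)
    have h3 : (2 * n₀ * m1 K) • C.Lm i = 2 • (n₀ • (m1 K • C.Lm i)) := by
      rw [hng, ← mul_nsmul']
      congr 1
      ring
    rw [h3] at h1
    grind
  classical
  obtain ⟨b, ⟨hb1, hb2⟩, hb3⟩ : ∃ b, (i ≤ b ∧ C.s i + n₀ • (m1 K • C.Lm i) ≤ C.s b) ∧
      ∀ j, j < b → ¬ (i ≤ j ∧ C.s i + n₀ • (m1 K • C.Lm i) ≤ C.s j) :=
    ⟨Nat.find hex, Nat.find_spec hex, fun j hj => Nat.find_min hex hj⟩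
  have hStr : Str C (m1 K • C.Lm i) (2 * m1 K) i b := by
    refine ⟨hg, fun j hj _ => C.jump_le hj, fun j hj hjb => ?_⟩
    obtain ⟨l, hl1, hl2, hl3⟩ := C.Lm_eq j
    refine ⟨l, hl1, hl2, ?_⟩
    have hjb' : j < b := by
      have := m1_pos K
      omega
    have h1 := hb3 j hjb'
    have h2 : C.s j ≤ C.s i + (n₀ * m1 K) • C.Lm i := by
      by_contra hc
      push Not at hc
      exact h1 ⟨hj, by rw [hng]; exact hc.le⟩
    have h3 := hstar' j hj h2
    rw [← hl3]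
    calc m1 K • C.Lm i ≤ m1 K • (2 • C.Lm j) := nsmul_le_nsmul_right h3 _
      _ = (2 * m1 K) • C.Lm j := by rw [← mul_nsmul', mul_comm]
  have := hF _ i b hStr hb1
  exact absurd hb2 (not_le.2 this)

/-- Theorem S. Proof. Let `n₀` be the constant of `thmF K (2 * m1 K)`, `c = n₀ * m1 K`. By
iteration of `halve` from `i = 0`: for every `n` there is `j ≥ n` with
`s j + (2 * c) • Lm j ≤ s 0 + (2 * c) • Lm 0` (induction:
`s j' + (2c) • Lm j' ≤ s j + c • Lm j + c • (2 • Lm j') ≤ s j + (2c) • Lm j`). As `Lm j > 0` and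
`s` is monotone, `s n ≤ s 0 + (2 * c) • Lm 0` for all `n`. Let `k` be the index of `Lm_eq 0`:
`Lm 0 = s (k+1) - s k`, `s 0 ≤ s k`. -/
theorem Comb.main (C : Comb F G K) :
    ∃ k N : ℕ, ∀ j, C.s j ≤ C.s k + N • (C.s (k + 1) - C.s k) := by
  obtain ⟨n₀, hn₀⟩ := thmF K (2 * m1 K)
  obtain ⟨c, hc⟩ : ∃ c : ℕ, c = n₀ * m1 K := ⟨_, rfl⟩
  have hit : ∀ n : ℕ, ∃ j, n ≤ j ∧
      C.s j + (2 * c) • C.Lm j ≤ C.s 0 + (2 * c) • C.Lm 0 := by
    intro n
    induction n with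
    | zero => exact ⟨0, le_rfl, le_rfl⟩
    | succ n ih =>
      obtain ⟨j, hj, h1⟩ := ih
      obtain ⟨j', hj', h2, h3⟩ := C.halve (n₀ := n₀)
        (fun g a b hS hab => hn₀ F G C g a b hS hab) j
      refine ⟨j', by omega, ?_⟩
      rw [← hc] at h3
      have h4 : c • (2 • C.Lm j') ≤ c • C.Lm j := nsmul_le_nsmul_right h2 _
      have h5 : (2 * c) • C.Lm j' = c • (2 • C.Lm j') := by rw [← mul_nsmul', mul_comm]
      have h6 : (2 * c) • C.Lm j = c • C.Lm j + c • C.Lm j := by rw [← add_nsmul, two_mul]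
      grind
  obtain ⟨k, -, -, hk⟩ := C.Lm_eq 0
  refine ⟨k, 2 * c, fun j => ?_⟩
  obtain ⟨j', hj', h1⟩ := hit j
  have h2 : C.s j ≤ C.s j' := C.le_iff.2 hj'
  have h3 : 0 ≤ (2 * c) • C.Lm j' := nsmul_nonneg (C.Lm_pos j').le _
  have h4 : C.s 0 ≤ C.s k := C.le_iff.2 (Nat.zero_le k)
  rw [← hk]
  grind

end Pool.Agent.Lib.MP_8bcb9d_co.W
end
end
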