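import Mathlib
import Pool.Agent.Lib.MP_8bcb9d_co.W.D4

/-!
# World Fin: triangles and projective maps
-/

set_option autoImplicit false

namespace Pool.Agent.Lib.MP_8bcb9d_co.W

variable {F : Type} [Field F] [LinearOrder F] [IsStrictOrderedRing F]

section KB

variable {K : ℕ}

/-- A point of a triangle with nonzero first weight pattern: if `w ∈ Tri a b z` and the three
points `a b w` are not collinear, `w = x • a + y • b + t • z` with `0 < t`, and
`cr (b - a) (w - a) = t * cr (b - a) (z - a)`. -/
theorem Tri.cr_eq {a b z w : F × F} {x y t : F} (h : x + y + t = 1)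
    (hw : w = x • a + y • b + t • z) : cr (b - a) (w - a) = t * cr (b - a) (z - a) := by
  subst hw
  have hx : x = 1 - y - t := by linarith
  subst hx
  simp only [cr, Prod.fst_sub, Prod.snd_sub, Prod.fst_add, Prod.snd_add, Prod.smul_fst,
    Prod.smul_snd, smul_eq_mul]
  ring

private theorem kbp_lin {n : F × F × F} {p q r w : F × F} {x y z : F} (h : x + y + z = 1)
    (hw : w = x • p + y • q + z • r) : lin n w = x * lin n p + y * lin n q + z * lin n r := by
  subst hw
  have hx : x = 1 - y - z := by linarith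
  subst hx
  simp only [lin, Prod.fst_add, Prod.snd_add, Prod.smul_fst, Prod.smul_snd, smul_eq_mul]
  ring

private theorem kbp_cramer {l m n : F × F × F} (hd : det3 l m n ≠ 0) {v1 v2 v3 : F}
    (h1 : l.1 * v1 + l.2.1 * v2 + l.2.2 * v3 = 0) (h2 : m.1 * v1 + m.2.1 * v2 + m.2.2 * v3 = 0)
    (h3 : n.1 * v1 + n.2.1 * v2 + n.2.2 * v3 = 0) : v1 = 0 ∧ v2 = 0 ∧ v3 = 0 := by
  refine ⟨?_, ?_, ?_⟩
  · apply mul_left_cancel₀ hd
    rw [mul_zero]
    unfold det3
    linear_combination (m.2.1 * n.2.2 - m.2.2 * n.2.1) * h1 -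
      (l.2.1 * n.2.2 - l.2.2 * n.2.1) * h2 + (l.2.1 * m.2.2 - l.2.2 * m.2.1) * h3
  · apply mul_left_cancel₀ hd
    rw [mul_zero]
    unfold det3
    linear_combination -(m.1 * n.2.2 - m.2.2 * n.1) * h1 +
      (l.1 * n.2.2 - l.2.2 * n.1) * h2 - (l.1 * m.2.2 - l.2.2 * m.1) * h3
  · apply mul_left_cancel₀ hd
    rw [mul_zero]
    unfold det3
    linear_combination (m.1 * n.2.1 - m.2.1 * n.1) * h1 -
      (l.1 * n.2.1 - l.2.1 * n.1) * h2 + (l.1 * m.2.1 - l.2.1 * m.1) * h3

/-- Projective maps with positive denominator respect triangles. Proof: if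
`w = x a + y b + z c` then with `n` the denominator form, `n(w) = x n(a) + y n(b) + z n(c)` and
`pj w = (x n(a) / n(w)) pj a + ...`. -/
theorem pj_tri {l m n : F × F × F} {a b c w : F × F} (ha : 0 < lin n a) (hb : 0 < lin n b)
    (hc : 0 < lin n c) (hw : w ∈ Tri a b c) : pj l m n w ∈ Tri (pj l m n a) (pj l m n b) (pj l m n c) := by
  obtain ⟨x, y, z, hx, hy, hz, hs, hw⟩ := hw
  have e1 := kbp_lin (n := l) hs hw
  have e2 := kbp_lin (n := m) hs hw
  have e3 := kbp_lin (n := n) hs hw
  have hN : 0 < lin n w := by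
    rw [e3]
    rcases hx.eq_or_lt with h0 | h0
    · rcases hy.eq_or_lt with h1 | h1
      · have h2 : z = 1 := by rw [← h0, ← h1] at hs; linarith
        rw [← h0, ← h1, h2]
        linarith
      · have h3 := mul_pos h1 hb
        have h4 := mul_nonneg hx ha.le
        have h5 := mul_nonneg hz hc.le
        linarith
    · have h3 := mul_pos h0 ha
      have h4 := mul_nonneg hy hb.le
      have h5 := mul_nonneg hz hc.le
      linarith
  refine ⟨x * lin n a / lin n w, y * lin n b / lin n w, z * lin n c / lin n w,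
    by positivity, by positivity, by positivity, ?_, ?_⟩
  · rw [← add_div, ← add_div, ← e3, div_self hN.ne']
  · have ha' := ha.ne'
    have hb' := hb.ne'
    have hc' := hc.ne'
    have hN' := hN.ne'
    apply Prod.ext
    · simp only [pj, Prod.fst_add, Prod.smul_fst, smul_eq_mul]
      rw [e1]
      field_simp
    · simp only [pj, Prod.snd_add, Prod.smul_snd, smul_eq_mul]
      rw [e2]
      field_simp

/-- cross products under projective maps -/
theorem pj_cr {l m n : F × F × F} {a b c : F × F} (ha : 0 < lin n a) (hb : 0 < lin n b)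
    (hc : 0 < lin n c) :
    cr (pj l m n b - pj l m n a) (pj l m n c - pj l m n a) =
      det3 l m n * cr (b - a) (c - a) / (lin n a * lin n b * lin n c) := by
  have ha' := ha.ne'
  have hb' := hb.ne'
  have hc' := hc.ne'
  simp only [pj, cr, Prod.fst_sub, Prod.snd_sub]
  rw [eq_div_iff (by positivity)]
  field_simp
  simp only [lin, det3]
  ring

/-- conversely, `w ∈ Tri a b c` can be recovered from the images. Proof: `Tri` of a nondegenerate
triangle is described by the three signs of `cr`; use `pj_cr` (all three signs are multiplied by the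
sign of `det3 l m n`). -/
theorem pj_tri_iff {l m n : F × F × F} {a b c w : F × F} (hd : det3 l m n ≠ 0)
    (ha : 0 < lin n a) (hb : 0 < lin n b) (hc : 0 < lin n c) (hw : 0 < lin n w)
    (hne : cr (b - a) (c - a) ≠ 0) :
    pj l m n w ∈ Tri (pj l m n a) (pj l m n b) (pj l m n c) ↔ w ∈ Tri a b c := by
  refine ⟨?_, pj_tri ha hb hc⟩
  rintro ⟨x, y, z, hx, hy, hz, hs, he⟩
  have ha' := ha.ne'
  have hb' := hb.ne'
  have hc' := hc.ne'
  have hw' := hw.ne'
  have e1 : lin l w / lin n w = x * (lin l a / lin n a) + y * (lin l b / lin n b) +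
      z * (lin l c / lin n c) := congrArg Prod.fst he
  have e2 : lin m w / lin n w = x * (lin m a / lin n a) + y * (lin m b / lin n b) +
      z * (lin m c / lin n c) := congrArg Prod.snd he
  have e3 : lin n w / lin n w = x * (lin n a / lin n a) + y * (lin n b / lin n b) +
      z * (lin n c / lin n c) := by
    rw [div_self ha', div_self hb', div_self hc', div_self hw']
    linarith
  have key : ∀ k : F × F × F, lin k w / lin n w = x * (lin k a / lin n a) +
      y * (lin k b / lin n b) + z * (lin k c / lin n c) →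
      k.1 * (w.1 / lin n w - (x * (a.1 / lin n a) + y * (b.1 / lin n b) + z * (c.1 / lin n c))) +
      k.2.1 * (w.2 / lin n w - (x * (a.2 / lin n a) + y * (b.2 / lin n b) + z * (c.2 / lin n c))) +
      k.2.2 * (1 / lin n w - (x * (1 / lin n a) + y * (1 / lin n b) + z * (1 / lin n c))) = 0 := by
    intro k hk
    generalize lin n w = N at *
    generalize lin n a = A at *
    generalize lin n b = B at *
    generalize lin n c = C at *
    simp only [lin] at hk
    linear_combination hk
  obtain ⟨v1, v2, v3⟩ := kbp_cramer hd (key l e1) (key m e2) (key n e3)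
  refine ⟨lin n w * x / lin n a, lin n w * y / lin n b, lin n w * z / lin n c,
    by positivity, by positivity, by positivity, ?_, ?_⟩
  · have h1 : lin n w * (1 / lin n w) = lin n w * (x * (1 / lin n a) + y * (1 / lin n b) +
        z * (1 / lin n c)) := by
      rw [sub_eq_zero.1 v3]
    rw [mul_one_div_cancel hw'] at h1
    rw [h1]
    ring
  · apply Prod.ext
    · simp only [Prod.fst_add, Prod.smul_fst, smul_eq_mul]
      have h1 : lin n w * (w.1 / lin n w) = lin n w * (x * (a.1 / lin n a) + y * (b.1 / lin n b) +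
          z * (c.1 / lin n c)) := by
        rw [sub_eq_zero.1 v1]
      rw [mul_div_cancel₀ _ hw'] at h1
      rw [h1]
      ring
    · simp only [Prod.snd_add, Prod.smul_snd, smul_eq_mul]
      have h1 : lin n w * (w.2 / lin n w) = lin n w * (x * (a.2 / lin n a) + y * (b.2 / lin n b) +
          z * (c.2 / lin n c)) := by
        rw [sub_eq_zero.1 v2]
      rw [mul_div_cancel₀ _ hw'] at h1
      rw [h1]
      ring

/-- `pj` is injective where the denominator is positive. -/
theorem pj_inj {l m n : F × F × F} {a b : F × F} (hd : det3 l m n ≠ 0)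
    (ha : 0 < lin n a) (hb : 0 < lin n b) (h : pj l m n a = pj l m n b) : a = b := by
  have ha' := ha.ne'
  have hb' := hb.ne'
  have e1 : lin l a / lin n a = lin l b / lin n b := congrArg Prod.fst h
  have e2 : lin m a / lin n a = lin m b / lin n b := congrArg Prod.snd h
  have e3 : lin n a / lin n a = lin n b / lin n b := by rw [div_self ha', div_self hb']
  have key : ∀ k : F × F × F, lin k a / lin n a = lin k b / lin n b →
      k.1 * (a.1 / lin n a - b.1 / lin n b) + k.2.1 * (a.2 / lin n a - b.2 / lin n b) +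
      k.2.2 * (1 / lin n a - 1 / lin n b) = 0 := by
    intro k hk
    generalize lin n a = A at *
    generalize lin n b = B at *
    simp only [lin] at hk
    linear_combination hk
  obtain ⟨v1, v2, v3⟩ := kbp_cramer hd (key l e1) (key m e2) (key n e3)
  have h3 : lin n a = lin n b := by
    have := sub_eq_zero.1 v3
    rwa [one_div, one_div, inv_inj] at this
  rw [h3] at v1 v2
  apply Prod.ext
  · have := sub_eq_zero.1 v1
    exact (div_left_inj' hb').1 this
  · have := sub_eq_zero.1 v2
    exact (div_left_inj' hb').1 this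

/-- Projective invariance. Proof: `pj_cr` for `GP`; the links correspond under the injective map
`pj` by `pj_tri_iff` (for pairwise different points of `X` the triangle is nondegenerate); injective
images have the same `encard`. -/
theorem KB.proj {X : Set (F × F)} (hX : KB K X) {l m n : F × F × F} (hd : det3 l m n ≠ 0)
    (hn : ∀ p ∈ X, 0 < lin n p) : KB K (pj l m n '' X) := by
  constructor
  · rintro _ ⟨a, ha, rfl⟩ _ ⟨b, hb, rfl⟩ _ ⟨c, hc, rfl⟩ hab hac hbc
    rw [pj_cr (hn a ha) (hn b hb) (hn c hc)]
    have h1 := hX.gp a ha b hb c hc (fun h => hab (by rw [h])) (fun h => hac (by rw [h]))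
      (fun h => hbc (by rw [h]))
    have h2 := (hn a ha).ne'
    have h3 := (hn b hb).ne'
    have h4 := (hn c hc).ne'
    exact div_ne_zero (mul_ne_zero hd h1) (mul_ne_zero (mul_ne_zero h2 h3) h4)
  · rintro _ ⟨a, ha, rfl⟩ _ ⟨b, hb, rfl⟩ hab
    have hab' : a ≠ b := fun h => hab (by rw [h])
    have hsub : Lnk (pj l m n '' X) (pj l m n a) (pj l m n b) ⊆ pj l m n '' Lnk X a b := by
      rintro z' ⟨⟨z, hz, rfl⟩, hza, hzb, hall⟩
      refine ⟨z, ⟨hz, fun h => hza (by rw [h]), fun h => hzb (by rw [h]), ?_⟩, rfl⟩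
      intro w hw hwt
      rcases hall _ ⟨w, hw, rfl⟩ (pj_tri (hn a ha) (hn b hb) (hn z hz) hwt) with h | h | h
      · exact Or.inl (pj_inj hd (hn w hw) (hn a ha) h)
      · exact Or.inr (Or.inl (pj_inj hd (hn w hw) (hn b hb) h))
      · exact Or.inr (Or.inr (pj_inj hd (hn w hw) (hn z hz) h))
    calc (Lnk (pj l m n '' X) (pj l m n a) (pj l m n b)).encard
        ≤ (pj l m n '' Lnk X a b).encard := Set.encard_le_encard hsub
      _ ≤ (Lnk X a b).encard := Set.encard_image_le _ _
      _ ≤ K := hX.deg a ha b hb hab'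

/-- Affine invariance, from `KB.proj` with `n = (0, 0, 1)`. -/
theorem KB.affine {X : Set (F × F)} (hX : KB K X) {a b c a' b' c' : F}
    (hd : a * b' - b * a' ≠ 0) :
    KB K ((fun p : F × F => (a * p.1 + b * p.2 + c, a' * p.1 + b' * p.2 + c')) '' X) := by
  have h1 := hX.proj (l := (a, b, c)) (m := (a', b', c')) (n := (0, 0, 1)) (by
    have h2 : det3 (a, b, c) (a', b', c') ((0, 0, 1) : F × F × F) = a * b' - b * a' := by
      simp only [det3]
      ring
    rw [h2]
    exact hd) (fun p _ => by simp [lin])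
  have h3 : pj (a, b, c) (a', b', c') ((0, 0, 1) : F × F × F) =
      fun p : F × F => (a * p.1 + b * p.2 + c, a' * p.1 + b' * p.2 + c') := by
    funext p
    simp [pj, lin]
  rwa [h3] at h1

/-- A window of a `K`-bounded set is `K`-bounded: triangles with vertices in `C` stay in `C`. -/
theorem KB.window {X C : Set (F × F)} (hX : KB K X)
    (hC : ∀ a ∈ C, ∀ b ∈ C, ∀ c ∈ C, Tri a b c ⊆ C) : KB K (X ∩ C) := by
  constructor
  · intro a ha b hb c hc
    exact hX.gp a ha.1 b hb.1 c hc.1
  · intro a ha b hb hab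
    refine le_trans (Set.encard_le_encard ?_) (hX.deg a ha.1 b hb.1 hab)
    rintro z ⟨hz, hza, hzb, hall⟩
    exact ⟨hz.1, hza, hzb, fun w hw hwt => hall w ⟨hw, hC a ha.2 b hb.2 z hz.2 hwt⟩ hwt⟩

end KB

end Pool.Agent.Lib.MP_8bcb9d_co.W
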