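import Mathlib
import Pool.Agent.Lib.MP_8bcb9d_co.PI.ArcFin
import Pool.Agent.Lib.MP_8bcb9d_co.W.KBp

section

/-!
# World Fin: the basic device
-/

set_option autoImplicit false

namespace Pool.Agent.Lib.MP_8bcb9d_co.W

variable {F G : Type} [Field F] [LinearOrder F] [IsStrictOrderedRing F]
  [AddCommGroup G] [LinearOrder G] [IsOrderedAddMonoid G] (W : World F G)

omit [LinearOrder F] [IsStrictOrderedRing F] in
/-- a combination in coordinates -/
theorem par_comb {a b z w : F × F} {x y t : F} (h : x + y + t = 1)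
    (hw : w = x • a + y • b + t • z) :
    cr (b - a) (w - a) = t * cr (b - a) (z - a) ∧ cr (w - a) (z - a) = y * cr (b - a) (z - a) := by
  have hx : x = 1 - y - t := by
    rw [← h]
    ring
  subst hw
  subst hx
  simp only [cr, Prod.fst_sub, Prod.snd_sub, Prod.fst_add, Prod.snd_add, Prod.smul_fst,
    Prod.smul_snd, smul_eq_mul]
  constructor <;> ring

/-- a nondegenerate triangle in terms of signs -/
theorem par_mem_iff {a b z w : F × F} (hD : cr (b - a) (z - a) ≠ 0) :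
    w ∈ Tri a b z ↔ 0 ≤ cr (b - a) (z - a) * cr (b - a) (w - a) ∧
      0 ≤ cr (b - a) (z - a) * cr (w - a) (z - a) ∧
      0 ≤ cr (b - a) (z - a) * (cr (b - a) (z - a) - cr (b - a) (w - a) - cr (w - a) (z - a)) := by
  set D := cr (b - a) (z - a) with hDd
  have hDD : 0 < D * D := mul_self_pos.2 hD
  constructor
  · rintro ⟨x, y, t, hx, hy, ht, hsum, hw⟩
    obtain ⟨h1, h2⟩ := par_comb hsum hw
    rw [h1, h2, ← hDd]
    refine ⟨?_, ?_, ?_⟩
    · have : D * (t * D) = t * (D * D) := by ring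
      rw [this]
      exact mul_nonneg ht hDD.le
    · have : D * (y * D) = y * (D * D) := by ring
      rw [this]
      exact mul_nonneg hy hDD.le
    · have : D * (D - t * D - y * D) = x * (D * D) := by
        have hx' : x = 1 - y - t := by
          rw [← hsum]
          ring
        rw [hx']
        ring
      rw [this]
      exact mul_nonneg hx hDD.le
  · rintro ⟨h1, h2, h3⟩
    refine ⟨1 - cr (w - a) (z - a) / D - cr (b - a) (w - a) / D, cr (w - a) (z - a) / D,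
      cr (b - a) (w - a) / D, ?_, ?_, ?_, by ring, ?_⟩
    · have : 1 - cr (w - a) (z - a) / D - cr (b - a) (w - a) / D =
          (D * (D - cr (b - a) (w - a) - cr (w - a) (z - a))) / (D * D) := by
        field_simp
        ring
      rw [this]
      exact div_nonneg h3 hDD.le
    · have : cr (w - a) (z - a) / D = (D * cr (w - a) (z - a)) / (D * D) := by
        field_simp
      rw [this]
      exact div_nonneg h2 hDD.le
    · have : cr (b - a) (w - a) / D = (D * cr (b - a) (w - a)) / (D * D) := by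
        field_simp
      rw [this]
      exact div_nonneg h1 hDD.le
    · have e1 : D * w.1 = D * ((1 - cr (w - a) (z - a) / D - cr (b - a) (w - a) / D) * a.1 +
          cr (w - a) (z - a) / D * b.1 + cr (b - a) (w - a) / D * z.1) := by
        have : D * ((1 - cr (w - a) (z - a) / D - cr (b - a) (w - a) / D) * a.1 +
          cr (w - a) (z - a) / D * b.1 + cr (b - a) (w - a) / D * z.1) =
          (D - cr (w - a) (z - a) - cr (b - a) (w - a)) * a.1 + cr (w - a) (z - a) * b.1 +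
            cr (b - a) (w - a) * z.1 := by
          field_simp
        rw [this, hDd]
        simp only [cr, Prod.fst_sub, Prod.snd_sub]
        ring
      have e2 : D * w.2 = D * ((1 - cr (w - a) (z - a) / D - cr (b - a) (w - a) / D) * a.2 +
          cr (w - a) (z - a) / D * b.2 + cr (b - a) (w - a) / D * z.2) := by
        have : D * ((1 - cr (w - a) (z - a) / D - cr (b - a) (w - a) / D) * a.2 +
          cr (w - a) (z - a) / D * b.2 + cr (b - a) (w - a) / D * z.2) =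
          (D - cr (w - a) (z - a) - cr (b - a) (w - a)) * a.2 + cr (w - a) (z - a) * b.2 +
            cr (b - a) (w - a) * z.2 := by
          field_simp
        rw [this, hDd]
        simp only [cr, Prod.fst_sub, Prod.snd_sub]
        ring
      refine Prod.ext ?_ ?_
      · simp only [Prod.fst_add, Prod.smul_fst, smul_eq_mul]
        exact mul_left_cancel₀ hD e1
      · simp only [Prod.snd_add, Prod.smul_snd, smul_eq_mul]
        exact mul_left_cancel₀ hD e2

/-- triangles are internal -/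
theorem World.par_Tri {X : Set (F × F)} (hI : X ∈ W.I) {a b z : F × F}
    (hD : cr (b - a) (z - a) ≠ 0) : {w ∈ X | w ∈ Tri a b z} ∈ W.I := by
  set D := cr (b - a) (z - a) with hDd
  have h1 := W.I_ge hI (D * -(b.2 - a.2)) (D * (b.1 - a.1))
    (D * ((b.1 - a.1) * a.2 - (b.2 - a.2) * a.1))
  have h2 := W.I_ge h1 (D * (z.2 - a.2)) (D * -(z.1 - a.1))
    (D * (a.1 * (z.2 - a.2) - a.2 * (z.1 - a.1)))
  have h3 := W.I_ge h2 (D * ((b.2 - a.2) - (z.2 - a.2))) (D * (-(b.1 - a.1) + (z.1 - a.1)))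
    (D * (-D - ((b.1 - a.1) * a.2 - (b.2 - a.2) * a.1) - (a.1 * (z.2 - a.2) - a.2 * (z.1 - a.1))))
  convert h3 using 1
  ext w
  simp only [Set.mem_ofPred_eq]
  rw [par_mem_iff hD, ← hDd]
  simp only [cr, Prod.fst_sub, Prod.snd_sub]
  constructor
  · rintro ⟨hw, k1, k2, k3⟩
    exact ⟨⟨⟨hw, by linarith⟩, by linarith⟩, by linarith⟩
  · rintro ⟨⟨⟨hw, k1⟩, k2⟩, k3⟩
    exact ⟨hw, by linarith, by linarith, by linarith⟩

/-- The basic device. Proof: let `S` be the set of the points of `X` in `Tri a b z` other than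
`a`, `b` (internal: three half planes, given by the signs of `cr`, minus two points; `z ∈ S`), and
let `y` be the point of `S` where `|cr (b - a) (y - a)|` (a linear functional times a fixed sign) is
smallest (`argmin`). If `w ∈ X`, `w ∈ Tri a b y`, `w ≠ a, b, y` then `w ∈ S` and
`|cr (b - a) (w - a)| < |cr (b - a) (y - a)|` (`Tri.cr_eq`, the weight of `y` is `< 1` as otherwise
`w = y`). -/
theorem World.partner {X : Set (F × F)} (hI : X ∈ W.I) (hX : GP X) {a b z : F × F} (ha : a ∈ X)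
    (hb : b ∈ X) (hz : z ∈ X) (hab : a ≠ b) (hza : z ≠ a) (hzb : z ≠ b) :
    ∃ y ∈ Lnk X a b, y ∈ Tri a b z := by
  have hD : cr (b - a) (z - a) ≠ 0 := hX a ha b hb z hz hab hza.symm hzb.symm
  set D := cr (b - a) (z - a) with hDd
  set S : Set (F × F) := {w ∈ X | w ∈ Tri a b z} \ {a, b} with hS
  have hSI : S ∈ W.I := W.I_diff_finite (W.par_Tri hI hD) (Set.toFinite _)
  have hzS : z ∈ S := by
    refine ⟨⟨hz, 0, 0, 1, le_rfl, le_rfl, zero_le_one, by ring, by simp⟩, ?_⟩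
    simp only [Set.mem_insert_iff, Set.mem_singleton_iff, not_or]
    exact ⟨hza, hzb⟩
  obtain ⟨y, hyS, hmin⟩ := W.argmin S hSI ⟨z, hzS⟩ (D * -(b.2 - a.2)) (D * (b.1 - a.1))
  have hmin' : ∀ q ∈ S, D * cr (b - a) (y - a) ≤ D * cr (b - a) (q - a) := by
    intro q hq
    have h1 := hmin q hq
    simp only [cr, Prod.fst_sub, Prod.snd_sub]
    linarith
  obtain ⟨⟨hyX, hyT⟩, hyab⟩ := hyS
  simp only [Set.mem_insert_iff, Set.mem_singleton_iff, not_or] at hyab
  have hy0 : 0 ≤ D * cr (b - a) (y - a) := ((par_mem_iff hD).1 hyT).1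
  have hy1 : cr (b - a) (y - a) ≠ 0 := hX a ha b hb y hyX hab (Ne.symm hyab.1) (Ne.symm hyab.2)
  have hypos : 0 < D * cr (b - a) (y - a) := lt_of_le_of_ne hy0 (mul_ne_zero hD hy1).symm
  refine ⟨y, ⟨hyX, hyab.1, hyab.2, ?_⟩, hyT⟩
  intro w hw hwT
  by_contra hcon
  push Not at hcon
  obtain ⟨hwa, hwb, hwy⟩ := hcon
  obtain ⟨x, v, t, hx, hv, ht, hsum, hwe⟩ := hwT
  obtain ⟨x', v', t', hx', hv', ht', hsum', hye⟩ := hyT
  have hwz : w ∈ Tri a b z := by
    refine ⟨x + t * x', v + t * v', t * t', by positivity, by positivity, by positivity, ?_, ?_⟩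
    · calc x + t * x' + (v + t * v') + t * t' = x + v + t * (x' + v' + t') := by ring
        _ = 1 := by rw [hsum', mul_one]; exact hsum
    · rw [hwe, hye]
      refine Prod.ext ?_ ?_
      · simp only [Prod.fst_add, Prod.smul_fst, smul_eq_mul]
        ring
      · simp only [Prod.snd_add, Prod.smul_snd, smul_eq_mul]
        ring
  have hwS : w ∈ S := by
    refine ⟨⟨hw, hwz⟩, ?_⟩
    simp only [Set.mem_insert_iff, Set.mem_singleton_iff, not_or]
    exact ⟨hwa, hwb⟩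
  have h1 := hmin' w hwS
  rw [(par_comb hsum hwe).1] at h1
  have h2 : D * (t * cr (b - a) (y - a)) = t * (D * cr (b - a) (y - a)) := by ring
  rw [h2] at h1
  have ht1 : 1 ≤ t := by
    by_contra hlt
    push Not at hlt
    have h3 : t * (D * cr (b - a) (y - a)) < 1 * (D * cr (b - a) (y - a)) :=
      mul_lt_mul_of_pos_right hlt hypos
    linarith
  have hx0 : x = 0 := by linarith
  have hv0 : v = 0 := by linarith
  have ht0 : t = 1 := by linarith
  apply hwy
  rw [hwe, hx0, hv0, ht0]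
  simp

end Pool.Agent.Lib.MP_8bcb9d_co.W
end

section

/-!
# World Fin: consequences of `WF`: gaps, shells are internal
-/

set_option autoImplicit false

namespace Pool.Agent.Lib.MP_8bcb9d_co.W

variable {F G : Type} [Field F] [LinearOrder F] [IsStrictOrderedRing F]
  [AddCommGroup G] [LinearOrder G] [IsOrderedAddMonoid G] (W : World F G)

private theorem i1_bd_div {x ρ : F} (hρ : 0 < ρ) (h : Bd x ρ) : Bd (x / ρ) 1 := by
  obtain ⟨n, hn⟩ := h
  refine ⟨n, ?_⟩
  rw [abs_div, abs_of_pos hρ, abs_one, mul_one, div_le_iff₀ hρ]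
  rwa [abs_of_pos hρ] at hn

private theorem i1_sm_div {x ρ : F} (hρ : 0 < ρ) (h : Sm (x / ρ) 1) : Sm x ρ := by
  intro n
  have h1 := h n
  rw [abs_div, abs_of_pos hρ, abs_one] at h1
  rw [abs_of_pos hρ]
  have h2 : (n : F) * (|x| / ρ) = (n * |x|) / ρ := by ring
  rw [h2, div_lt_one hρ] at h1
  exact h1

private theorem i1_sm_of_le {x y z : F} (h : |x| ≤ |y|) (h' : Sm y z) : Sm x z :=
  (Bd.of_le h).trans_sm h'

private theorem i1_sm_nrm {p : F × F} {ρ : F} (h1 : Sm p.1 ρ) (h2 : Sm p.2 ρ) :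
    Sm (nrm p) ρ := by
  rcases le_total |p.1| |p.2| with h | h
  · have e : nrm p = |p.2| := max_eq_right h
    rw [e]
    exact i1_sm_of_le (by rw [abs_abs]) h2
  · have e : nrm p = |p.1| := max_eq_left h
    rw [e]
    exact i1_sm_of_le (by rw [abs_abs]) h1

/-- `WF` in an anisotropic frame centred at `z₀`: apply `W.WF` to the image under
`p ↦ ((p.1 - z₀.1) / ρ, (p.2 - z₀.2) / ε)`. -/
theorem World.WF_aniso {X : Set (F × F)} (hI : X ∈ W.I) (hX : KB W.K X) {ρ ε : F} (hρ : 0 < ρ)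
    (hε : 0 < ε) (z₀ : F × F) :
    ∃ Z : Set (F × F), Z.Finite ∧ Z ⊆ X ∧ ∀ p ∈ X, Bd (p.1 - z₀.1) ρ → Bd (p.2 - z₀.2) ε →
      ∃ z ∈ Z, Sm (p.1 - z.1) ρ ∧ Sm (p.2 - z.2) ε := by
  set f : F × F → F × F := fun p => (ρ⁻¹ * p.1 + 0 * p.2 + (-z₀.1 / ρ),
    0 * p.1 + ε⁻¹ * p.2 + (-z₀.2 / ε)) with hf
  have h1 : f '' X ∈ W.I := W.I_affine hI _ _ _ _ _ _
  have h2 : KB W.K (f '' X) := by
    refine hX.affine ?_
    rw [zero_mul, sub_zero]
    exact mul_ne_zero (inv_ne_zero hρ.ne') (inv_ne_zero hε.ne')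
  have hf1 : ∀ p, (f p).1 = (p.1 - z₀.1) / ρ := fun p => by
    rw [hf]
    simp only
    ring
  have hf2 : ∀ p, (f p).2 = (p.2 - z₀.2) / ε := fun p => by
    rw [hf]
    simp only
    ring
  have hinj : Function.Injective f := by
    intro p q hpq
    have e1 := congrArg Prod.fst hpq
    have e2 := congrArg Prod.snd hpq
    rw [hf1, hf1, div_left_inj' hρ.ne', sub_left_inj] at e1
    rw [hf2, hf2, div_left_inj' hε.ne', sub_left_inj] at e2
    exact Prod.ext e1 e2
  obtain ⟨Z', hZf, hZs, hZ⟩ := W.WF _ h1 h2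
  refine ⟨{z ∈ X | f z ∈ Z'}, ?_, fun z hz => hz.1, ?_⟩
  · exact (hZf.preimage hinj.injOn).subset fun z hz => hz.2
  · intro p hp hp1 hp2
    have hb : Bd (nrm (f p)) 1 := by
      obtain ⟨n, hn⟩ := i1_bd_div hρ hp1
      obtain ⟨m, hm⟩ := i1_bd_div hε hp2
      refine ⟨n + m, ?_⟩
      rw [abs_nrm, nrm_le, hf1, hf2]
      rw [abs_one, mul_one] at hn hm ⊢
      push_cast
      have : (0 : F) ≤ n := Nat.cast_nonneg n
      have : (0 : F) ≤ m := Nat.cast_nonneg m
      constructor <;> linarith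
    obtain ⟨z', hz', hs⟩ := hZ (f p) ⟨p, hp, rfl⟩ hb
    obtain ⟨z, hz, rfl⟩ := hZs hz'
    have e1 : (f p - f z).1 = (p.1 - z.1) / ρ := by
      rw [Prod.fst_sub, hf1, hf1]
      ring
    have e2 : (f p - f z).2 = (p.2 - z.2) / ε := by
      rw [Prod.snd_sub, hf2, hf2]
      ring
    refine ⟨z, ⟨hz, hz'⟩, i1_sm_div hρ ?_, i1_sm_div hε ?_⟩
    · rw [← e1]
      exact i1_sm_of_le (by rw [abs_nrm]; exact abs_fst_le _) hs
    · rw [← e2]
      exact i1_sm_of_le (by rw [abs_nrm]; exact abs_snd_le _) hs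

/-- `WF` at scale `ρ`. Proof: apply `W.WF` to the image of `X` under `p ↦ ρ⁻¹ • p` (internal,
`K`-bounded by `KB.affine`), `nrm (ρ⁻¹ • p) = ρ⁻¹ * nrm p`. -/
theorem World.WF_scale {X : Set (F × F)} (hI : X ∈ W.I) (hX : KB W.K X) {ρ : F} (hρ : 0 < ρ) :
    ∃ Z : Set (F × F), Z.Finite ∧ Z ⊆ X ∧ ∀ p ∈ X, Bd (nrm p) ρ → ∃ z ∈ Z, Sm (nrm (p - z)) ρ := by
  obtain ⟨Z, h1, h2, h3⟩ := W.WF_aniso hI hX hρ hρ 0
  refine ⟨Z, h1, h2, fun p hp hb => ?_⟩
  have e1 : Bd (p.1 - (0 : F × F).1) ρ := by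
    refine (Bd.of_le ?_).trans hb
    rw [abs_nrm, Prod.fst_zero, sub_zero]
    exact abs_fst_le p
  have e2 : Bd (p.2 - (0 : F × F).2) ρ := by
    refine (Bd.of_le ?_).trans hb
    rw [abs_nrm, Prod.snd_zero, sub_zero]
    exact abs_snd_le p
  obtain ⟨z, hz, hs1, hs2⟩ := h3 p hp e1 e2
  exact ⟨z, hz, i1_sm_nrm hs1 hs2⟩

/-- Proof: `WF_scale` with finite set `Z`. For `z ∈ Z` with `¬ Sm (nrm z) ρ` choose `n` with
`ρ ≤ n * nrm z`; take `2 n + 1` for the maximum of these `n`. If `(2n+1) * nrm p ≤ ρ` then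
`Bd (nrm p) ρ`, so `Sm (nrm (p - z)) ρ` for some `z ∈ Z`; if `ρ ≤ n * nrm z` then
`nrm z ≤ nrm p + nrm (p - z)` gives a contradiction; so `Sm (nrm z) ρ` and `Sm (nrm p) ρ`. -/
theorem World.gap_small {X : Set (F × F)} (hI : X ∈ W.I) (hX : KB W.K X) {ρ : F} (hρ : 0 < ρ) :
    ∃ n : ℕ, 0 < n ∧ ∀ p ∈ X, (n : F) * nrm p ≤ ρ → Sm (nrm p) ρ := by
  classical
  obtain ⟨Z, hZf, hZs, hZ⟩ := W.WF_scale hI hX hρ
  have hex : ∀ z : F × F, ∃ n : ℕ, ¬ Sm (nrm z) ρ → ρ ≤ n * nrm z := by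
    intro z
    by_cases h : Sm (nrm z) ρ
    · exact ⟨0, fun h' => absurd h h'⟩
    · obtain ⟨n, hn⟩ := not_Sm.1 h
      rw [abs_of_pos hρ, abs_nrm] at hn
      exact ⟨n, fun _ => hn⟩
  choose N hN using hex
  set M : ℕ := hZf.toFinset.sup N with hM
  refine ⟨2 * M + 1, by omega, fun p hp hle => ?_⟩
  have hp0 := nrm_nonneg p
  have hM0 : (0 : F) ≤ M := Nat.cast_nonneg M
  push_cast at hle
  have hMp : 0 ≤ (M : F) * nrm p := mul_nonneg hM0 hp0
  have hple : nrm p ≤ ρ := by linarith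
  obtain ⟨z, hz, hs⟩ := hZ p hp (Bd.of_le (by rw [abs_nrm, abs_of_pos hρ]; exact hple))
  have hpz0 := nrm_nonneg (p - z)
  by_cases h : Sm (nrm z) ρ
  · have h1 : nrm p ≤ nrm z + nrm (p - z) := by
      have := nrm_add z (p - z)
      rwa [add_sub_cancel] at this
    refine i1_sm_of_le ?_ (h.add hs)
    rw [abs_nrm, abs_of_nonneg (add_nonneg (nrm_nonneg z) hpz0)]
    exact h1
  · exfalso
    have h1 := hN z h
    have h2 : N z ≤ M := Finset.le_sup (f := N) (hZf.mem_toFinset.2 hz)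
    have h3 : (N z : F) ≤ M := by exact_mod_cast h2
    have h4 : nrm z ≤ nrm p + nrm (p - z) := by
      have := nrm_sub p (p - z)
      rwa [sub_sub_cancel] at this
    have h5 := hs (2 * M)
    rw [abs_nrm, abs_of_pos hρ] at h5
    push_cast at h5
    have h6 : (N z : F) * nrm z ≤ M * (nrm p + nrm (p - z)) :=
      mul_le_mul h3 h4 (nrm_nonneg z) hM0
    linarith

/-- Proof: `WF_scale`; `m = 1 +` the maximum of bounds `nrm z ≤ m_z * ρ` over those `z ∈ Z` with
`Bd (nrm z) ρ`. -/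
theorem World.gap_big {X : Set (F × F)} (hI : X ∈ W.I) (hX : KB W.K X) {ρ : F} (hρ : 0 < ρ) :
    ∃ m : ℕ, ∀ p ∈ X, Bd (nrm p) ρ → nrm p ≤ m * ρ := by
  classical
  obtain ⟨Z, hZf, hZs, hZ⟩ := W.WF_scale hI hX hρ
  have hex : ∀ z : F × F, ∃ n : ℕ, Bd (nrm z) ρ → nrm z ≤ n * ρ := by
    intro z
    by_cases h : Bd (nrm z) ρ
    · obtain ⟨n, hn⟩ := h
      rw [abs_of_pos hρ, abs_nrm] at hn
      exact ⟨n, fun _ => hn⟩
    · exact ⟨0, fun h' => absurd h' h⟩
  choose N hN using hex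
  refine ⟨hZf.toFinset.sup N + 1, fun p hp hb => ?_⟩
  obtain ⟨z, hz, hs⟩ := hZ p hp hb
  have hpz0 := nrm_nonneg (p - z)
  have h4 : nrm z ≤ nrm p + nrm (p - z) := by
    have := nrm_sub p (p - z)
    rwa [sub_sub_cancel] at this
  have h1 : nrm p ≤ nrm z + nrm (p - z) := by
    have := nrm_add z (p - z)
    rwa [add_sub_cancel] at this
  have h5 : Bd (nrm z) ρ := by
    refine (Bd.of_le ?_).trans (hb.add hs.bd)
    rw [abs_nrm, abs_of_nonneg (add_nonneg (nrm_nonneg p) hpz0)]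
    exact h4
  have h6 := hN z h5
  have h7 : N z ≤ hZf.toFinset.sup N := Finset.le_sup (f := N) (hZf.mem_toFinset.2 hz)
  have h8 : (N z : F) * ρ ≤ (hZf.toFinset.sup N : ℕ) * ρ :=
    mul_le_mul_of_nonneg_right (by exact_mod_cast h7) hρ.le
  have h9 := hs.lt
  rw [abs_nrm, abs_of_pos hρ] at h9
  push_cast
  linarith

end Pool.Agent.Lib.MP_8bcb9d_co.W
end
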