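import Mathlib
import Pool.Agent.Lib.MP_8bcb9d_co.W.V0
import Pool.Agent.Lib.MP_8bcb9d_co.W.I1

section

/-!
# World Fin: Lemma V (blockers of a bridging pair seen from the right)
-/

set_option autoImplicit false

namespace Pool.Agent.Lib.MP_8bcb9d_co.W

variable {F G : Type} [Field F] [LinearOrder F] [IsStrictOrderedRing F]
  [AddCommGroup G] [LinearOrder G] [IsOrderedAddMonoid G] (W : World F G)

/-- The pair `x, x'` is seen from the right by `z`: Proof: `x - x'` is `UU` (`UU.pert`, as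
`Sm (nrm x') (nrm x)`), `z - x'` is `TT` (`TT.pert`), so `cr (z - x') (x - x') > 0` by `cr_TU`. -/
theorem World.cr_neg_TU {x x' z : F × F} (hx : UU x) (hx' : UU x') (hlt : W.e x < W.e x')
    (hz : TT z) (hze : W.e z < W.e x) : cr (x - x') (z - x') < 0 := by
  have h1 : Sm (nrm (-x')) (nrm x) := by
    rw [nrm_neg, ← W.e_lt hx.ne hx'.ne]
    exact hlt
  have h2 : Sm (nrm (-x')) (nrm z) := by
    rw [nrm_neg, ← W.e_lt hz.ne hx'.ne]
    exact hze.trans hlt
  have h3 := hx.pert h1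
  have h4 := hz.pert h2
  rw [← sub_eq_add_neg] at h3 h4
  rw [cr_comm]
  have h5 := (W.cr_TU h4 h3).1
  linarith

/-- Lemma V. `w = α x + β x' + γ z` is a point of `X` in the triangle of the bridging pair `x, x'`
and a `TT` point `z` farther away.

Proof. Let `A = α x + β x'`. If `α = β = 0` then `w = z`. So `A` is `UU` (`UU.add`, `UU.smul`; a
zero weight is trivial), `A.2 = α x.2 + β x'.2 > 0`. If `γ = 0` then `x, x', w` are collinear
(`w - x' = α (x - x')`), contradiction to `GP`. So `0 < γ`. `cr z w = cr z A` (`cr_self`), so by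
`cr_TU`: `0 < cr z w` and `v (cr z w) = e z + v A.2`. `A.2 ≤ x.2 + x'.2` is a bounded multiple of
`x.2`, so `l ≤ v A.2`: third and fourth claim.
(*) If `Sm γ 1` then `α + β ≥ 1/2`, `x'.2 ≤ x.2`, so `x'.2 / 2 ≤ A.2` and `v A.2 ≤ l'`.
Case 1: `Bd (γ z.1) A.2`. Then `γ z.1` is a bounded multiple of `x.2` and `Sm x.2 z.1`
(`e z < l`), so `Sm γ 1`. `w` is `UU` with `e w = v A.2`: `w.2 = A.2 + γ z.2` with
`Sm (γ z.2) (γ z.1)`, so `Sm (γ z.2) A.2`; `|w.1| ≤ |A.1| + γ z.1`. So `l ≤ e w ≤ l'` by (*), and by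
`hcons` `e w = l` or `e w = l'`; `hhull` gives `0 ≤ cr (x - x') (w - x')`. But
`w - x' = α (x - x') + γ (z - x')`, so this is `γ * cr (x - x') (z - x') < 0` (`cr_neg_TU`).
Contradiction.
Case 2: `Sm A.2 (γ z.1)`. Then `γ z` is `TT`, `Sm (nrm A) (nrm (γ z))`, so `w` is `TT` and
`e w = v γ + e z ≥ e z` (`γ ≤ 1`). If `Sm γ 1`: `e w = v (γ z.1) < v A.2 ≤ l'` by (*), and
`v (cr z w) ≤ l' + e z`. Otherwise `v γ = 0` and `e w = e z < l < l'`; then the last claim is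
vacuous. -/
theorem World.lemV {X : Set (F × F)} (hX : GP X) {l l' : G} (hlt : l < l') {x x' : F × F}
    (hxX : x ∈ X) (hx'X : x' ∈ X) (hx : UU x) (hxe : W.e x = l) (hx' : UU x') (hxe' : W.e x' = l')
    (hhull : ∀ r ∈ X, UU r → (W.e r = l ∨ W.e r = l') → 0 ≤ cr (x - x') (r - x'))
    (hcons : ∀ r ∈ X, UU r → W.e r ≤ l ∨ l' ≤ W.e r)
    {z : F × F} (hzX : z ∈ X) (hz : TT z) (hze : W.e z < l) {w : F × F} (hwX : w ∈ X)
    (hwt : w ∈ Tri x x' z) (hwx : w ≠ x) (hwx' : w ≠ x') (hwz : w ≠ z) :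
    TT w ∧ W.e z ≤ W.e w ∧ W.e w < l' ∧ 0 < cr z w ∧ l + W.e z ≤ W.v (cr z w) ∧
      (W.e z < W.e w → W.v (cr z w) ≤ l' + W.e z) := by
  obtain ⟨α, β, γ, hα, hβ, hγ, hsum, hw⟩ := hwt
  have hαβ : 0 < α ∨ 0 < β := by
    by_contra hcon
    push Not at hcon
    have h1 : α = 0 := le_antisymm hcon.1 hα
    have h2 : β = 0 := le_antisymm hcon.2 hβ
    have h3 : γ = 1 := by rw [h1, h2] at hsum; linarith
    apply hwz
    rw [hw, h1, h2, h3]
    simp
  have hxx' : Sm (nrm x') (nrm x) := by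
    rw [← W.e_lt hx.ne hx'.ne, hxe, hxe']
    exact hlt
  have hzx : Sm (nrm x) (nrm z) := by
    rw [← W.e_lt hz.ne hx.ne, hxe]
    exact hze
  have hnez : x ≠ x' := by
    rintro rfl
    rw [hxe] at hxe'
    exact hlt.ne hxe'
  set A : F × F := α • x + β • x' with hAdef
  have hAU : UU A := by
    rcases hα.eq_or_lt with h0 | h0
    · have hβ' : 0 < β := by
        rcases hαβ with h | h
        · exact absurd h (by rw [← h0]; exact lt_irrefl _)
        · exact h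
      rw [hAdef, ← h0, zero_smul, zero_add]
      exact hx'.smul hβ'
    · rcases hβ.eq_or_lt with h1 | h1
      · rw [hAdef, ← h1, zero_smul, add_zero]
        exact hx.smul h0
      · exact (hx.smul h0).add (hx'.smul h1)
  have hγ0 : 0 < γ := by
    rcases hγ.eq_or_lt with h0 | h0
    · exfalso
      have h1 := hX x hxX x' hx'X w hwX hnez hwx.symm hwx'.symm
      apply h1
      have h2 : w - x = β • (x' - x) := by
        have h3 : α = 1 - β := by linarith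
        rw [hw, ← h0, hAdef, h3]
        module
      rw [h2, cr_smul_right, cr_self, mul_zero]
    · exact h0
  have hγ1 : γ ≤ 1 := by linarith
  have hα1 : α ≤ 1 := by linarith
  have hβ1 : β ≤ 1 := by linarith
  have hcrw : cr z w = cr z A := by
    rw [hw, cr_add_right, cr_smul_right, cr_self, mul_zero, add_zero]
  obtain ⟨hcr1, hcr2⟩ := W.cr_TU hz hAU
  -- (i)
  have hAx : Bd (nrm A) (nrm x) := by
    have h1 : nrm A ≤ nrm x + nrm x' := by
      refine (nrm_add _ _).trans ?_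
      rw [nrm_smul, nrm_smul, abs_of_nonneg hα, abs_of_nonneg hβ]
      have h2 := nrm_nonneg x
      have h3 := nrm_nonneg x'
      nlinarith
    have h2 : Bd (nrm A) (nrm x + nrm x') := by
      apply Bd.of_le
      rw [abs_nrm]
      exact h1.trans (le_abs_self _)
    exact h2.trans ((Bd.refl _).add hxx'.bd)
  have hi : l ≤ W.e A := by
    rw [← hxe, W.e_le hx.ne hAU.ne]
    exact hAx
  -- (ii)
  have hii : Sm γ 1 → W.e A ≤ l' := by
    intro hsm
    rw [← hxe', W.e_le hAU.ne hx'.ne]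
    have h1 : Sm x'.2 x.2 := by
      have h2 : Bd x'.2 (nrm x') := by
        apply Bd.of_le
        rw [abs_nrm]
        exact abs_snd_le x'
      exact (h2.trans_sm hxx').trans_bd hx.nrm_bd
    have h2 := h1.lt
    rw [abs_of_pos hx.1, abs_of_pos hx'.1] at h2
    have h3 := hsm.two
    rw [abs_of_pos hγ0, abs_one] at h3
    have h4 : A.2 = α * x.2 + β * x'.2 := rfl
    have h5 : x'.2 ≤ 2 * A.2 := by
      rw [h4]
      have h6 : α * x'.2 ≤ α * x.2 := mul_le_mul_of_nonneg_left h2.le hα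
      have h7 : 1 ≤ 2 * (α + β) := by linarith
      have h8 : 1 * x'.2 ≤ 2 * (α + β) * x'.2 := mul_le_mul_of_nonneg_right h7 hx'.1.le
      linarith
    have h6 : Bd x'.2 A.2 := by
      refine ⟨2, ?_⟩
      rw [abs_of_pos hx'.1, abs_of_pos hAU.1]
      push_cast
      exact h5
    have h7 : Bd A.2 (nrm A) := by
      apply Bd.of_le
      rw [abs_nrm]
      exact abs_snd_le A
    exact (hx'.nrm_bd.trans h6).trans h7
  have hAnrm : Bd A.2 (nrm A) := by
    apply Bd.of_le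
    rw [abs_nrm]
    exact abs_snd_le A
  by_cases hcase : Bd (γ * z.1) A.2
  · exfalso
    have hsm : Sm γ 1 := by
      apply Sm.of_mul_left hz.1.ne'
      rw [mul_one, mul_comm, ← hz.nrm_eq]
      rw [← hz.nrm_eq] at hcase
      exact ((hcase.trans hAnrm).trans hAx).trans_sm hzx
    have hw2 : w.2 = A.2 + γ * z.2 := by
      rw [hw]
      rfl
    have hw1 : w.1 = A.1 + γ * z.1 := by
      rw [hw]
      rfl
    have h1 : Sm (γ * z.2) A.2 :=
      ((Bd.refl γ).mul_sm hz.2 hγ0.ne').trans_bd hcase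
    have h2 : 0 < w.2 := by
      have h3 := h1.lt
      rw [abs_of_pos hAU.1] at h3
      have h4 := neg_abs_le (γ * z.2)
      rw [hw2]
      linarith
    have h3 : UU w := by
      refine ⟨h2, ?_⟩
      have h4 : Bd w.1 A.2 := by
        rw [hw1]
        exact hAU.2.add hcase
      rw [hw2]
      exact h4.trans (Bd.add_right_of_sm h1)
    have h4 : W.e w = W.e A := by
      rw [W.e_UU h3, W.e_UU hAU, hw2, W.v_add_sm h1]
    have h5 : W.e w = l ∨ W.e w = l' := by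
      rcases hcons w hwX h3 with h | h
      · left
        exact le_antisymm h (by rw [h4]; exact hi)
      · right
        exact le_antisymm (by rw [h4]; exact hii hsm) h
    have h6 := hhull w hwX h3 h5
    have h7 : w - x' = α • (x - x') + γ • (z - x') := by
      have h8 : β = 1 - α - γ := by linarith
      rw [hw, hAdef, h8]
      module
    rw [h7, cr_add_right, cr_smul_right, cr_smul_right, cr_self, mul_zero, zero_add] at h6
    have h8 := W.cr_neg_TU hx hx' (by rw [hxe, hxe']; exact hlt) hz (by rw [hxe]; exact hze)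
    have h9 := mul_neg_of_pos_of_neg hγ0 h8
    linarith
  · rw [not_Bd] at hcase
    have hγz := hz.smul hγ0
    have h1 : nrm (γ • z) = γ * z.1 := hγz.nrm_eq
    have h2 : Sm (nrm A) (nrm (γ • z)) := by
      rw [h1]
      exact hAU.nrm_bd.trans_sm hcase
    have hw' : w = γ • z + A := by rw [hw, add_comm]
    have hTw : TT w := by
      rw [hw']
      exact hγz.pert h2
    have hew : W.e w = W.v γ + W.e z := by
      rw [hw', (W.e_add_sm h2).2, W.e_smul hγ0.ne' hz.ne]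
    have hvγ : 0 ≤ W.v γ := by
      rw [← W.v_one, W.v_le _ _ one_ne_zero hγ0.ne']
      apply Bd.of_le
      rw [abs_of_pos hγ0, abs_one]
      exact hγ1
    have hez : W.e z ≤ W.e w := by
      rw [hew]
      exact le_add_of_nonneg_left hvγ
    have hvcr : W.v (cr z w) = W.e z + W.e A := by rw [hcrw, hcr2]
    have hlow : l + W.e z ≤ W.v (cr z w) := by
      rw [hvcr, add_comm]
      exact add_le_add_right hi _
    refine ⟨hTw, hez, ?_, by rw [hcrw]; exact hcr1, hlow, ?_⟩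
    · by_cases hsm : Sm γ 1
      · have h3 : W.e w < W.e A := by
          rw [W.e_lt hTw.ne hAU.ne, hw']
          have h4 := W.e_add_sm h2
          refine h2.trans_bd ?_
          rw [← W.e_le h4.1 hγz.ne, h4.2]
        exact h3.trans_le (hii hsm)
      · rw [not_Sm] at hsm
        have h3 : W.v γ ≤ 0 := by
          rw [← W.v_one, W.v_le _ _ hγ0.ne' one_ne_zero]
          exact hsm
        have h4 : W.v γ = 0 := le_antisymm h3 hvγ
        rw [hew, h4, zero_add]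
        exact hze.trans hlt
    · intro h5
      by_cases hsm : Sm γ 1
      · rw [hvcr, add_comm]
        exact add_le_add_left (hii hsm) _
      · exfalso
        rw [not_Sm] at hsm
        have h3 : W.v γ ≤ 0 := by
          rw [← W.v_one, W.v_le _ _ hγ0.ne' one_ne_zero]
          exact hsm
        have h4 : W.v γ = 0 := le_antisymm h3 hvγ
        rw [hew, h4, zero_add] at h5
        exact lt_irrefl _ h5

end Pool.Agent.Lib.MP_8bcb9d_co.W
end

section

/-!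
# World Fin: gaps
-/

set_option autoImplicit false

namespace Pool.Agent.Lib.MP_8bcb9d_co.W

variable {F G : Type} [Field F] [LinearOrder F] [IsStrictOrderedRing F]
  [AddCommGroup G] [LinearOrder G] [IsOrderedAddMonoid G] (W : World F G)

/-- auxiliary: the points with exponent `> t` form a box cut -/
theorem World.I2_deep_iff {X : Set (F × F)} (hI : X ∈ W.I) (hX : KB W.K X) (t : G) :
    ∃ (ρ : F) (n : ℕ), 0 < ρ ∧ W.v ρ = t ∧ 0 < n ∧ (∀ p ∈ X, (n : F) * nrm p ≤ ρ → Sm (nrm p) ρ) ∧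
      ∀ p ∈ X, nrm p ≤ ρ / n ↔ (p = 0 ∨ t < W.e p) := by
  obtain ⟨ρ, hρ, hv⟩ := W.v_surj t
  obtain ⟨n, hn, hs⟩ := W.gap_small hI hX hρ
  have hn' : (0 : F) < n := by exact_mod_cast hn
  refine ⟨ρ, n, hρ, hv, hn, hs, ?_⟩
  intro p hp
  constructor
  · intro h
    rcases eq_or_ne p 0 with h0 | h0
    · exact Or.inl h0
    · right
      rw [le_div_iff₀ hn', mul_comm] at h
      have h1 := hs p hp h
      rw [← hv]
      exact (W.v_lt hρ.ne' (nrm_pos.2 h0).ne').2 h1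
  · rintro (h | h)
    · rw [h, nrm_eq_zero.2 rfl]
      positivity
    · rcases eq_or_ne p 0 with h0 | h0
      · rw [h0, nrm_eq_zero.2 rfl]
        positivity
      · rw [← hv] at h
        have h1 := (W.v_lt hρ.ne' (nrm_pos.2 h0).ne').1 h n
        rw [abs_nrm, abs_of_pos hρ] at h1
        rw [le_div_iff₀ hn', mul_comm]
        exact h1.le

/-- The points with exponent `> t` form an internal set. Proof: `ρ > 0` with `v ρ = t`; by
`gap_small` the set is `{p ∈ X | nrm p ≤ ρ / n}` (box at `0`); for `p ≠ 0`, `t < e p` iff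
`Sm (nrm p) ρ`. -/
theorem World.I_deep {X : Set (F × F)} (hI : X ∈ W.I) (hX : KB W.K X) (t : G) :
    {p ∈ X | p = 0 ∨ t < W.e p} ∈ W.I := by
  obtain ⟨ρ, n, -, -, -, -, h⟩ := W.I2_deep_iff hI hX t
  have h1 := W.I_box hI 0 (ρ / n)
  have h2 : {p ∈ X | p = 0 ∨ t < W.e p} = {p ∈ X | nrm (p - 0) ≤ ρ / n} := by
    ext p
    simp only [Set.mem_setOf_eq, sub_zero]
    constructor
    · rintro ⟨hp, h3⟩
      exact ⟨hp, (h p hp).2 h3⟩
    · rintro ⟨hp, h3⟩
      exact ⟨hp, (h p hp).1 h3⟩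
  rw [h2]
  exact h1

/-- The points with exponent `≥ t` form an internal set: by `gap_big` it is
`{p ∈ X | nrm p ≤ m ρ}`. -/
theorem World.I_deep' {X : Set (F × F)} (hI : X ∈ W.I) (hX : KB W.K X) (t : G) :
    {p ∈ X | p = 0 ∨ t ≤ W.e p} ∈ W.I := by
  obtain ⟨ρ, hρ, hv⟩ := W.v_surj t
  obtain ⟨m, hm⟩ := W.gap_big hI hX hρ
  have h1 := W.I_box hI 0 (m * ρ)
  have h2 : {p ∈ X | p = 0 ∨ t ≤ W.e p} = {p ∈ X | nrm (p - 0) ≤ m * ρ} := by
    ext p
    simp only [Set.mem_setOf_eq, sub_zero]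
    constructor
    · rintro ⟨hp, h3⟩
      refine ⟨hp, ?_⟩
      rcases eq_or_ne p 0 with h0 | h0
      · rw [h0, nrm_eq_zero.2 rfl]
        positivity
      · apply hm p hp
        rcases h3 with h3 | h3
        · exact absurd h3 h0
        · rw [← hv] at h3
          exact (W.v_le _ _ hρ.ne' (nrm_pos.2 h0).ne').1 h3
    · rintro ⟨hp, h3⟩
      refine ⟨hp, ?_⟩
      rcases eq_or_ne p 0 with h0 | h0
      · exact Or.inl h0
      · right
        rw [← hv]
        refine (W.v_le _ _ hρ.ne' (nrm_pos.2 h0).ne').2 ⟨m, ?_⟩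
        rw [abs_nrm, abs_of_pos hρ]
        exact h3
  rw [h2]
  exact h1

/-- The gap below an exponent `t₁`: `X` is the union of an inner part in the box of radius `ρ₁` and
an outer part outside the box of radius `ρ₂`, `ρ₁` infinitely smaller than `ρ₂`. Proof: let
`v ρ = t₁`, `0 < ρ`, `n` from `gap_small`, `ρ₂ = ρ / n`; the inner part
`{p ∈ X | nrm p ≤ ρ / n}` is internal and contains the point of `hf`; `ρ₁` is the largest norm of its
points (`argmax_nrm`). `v n = 0` (`World.v_nat`). For outer points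
`¬ n * nrm p ≤ ρ`, so `ρ₂ ≤ nrm p`, and `¬ Sm (nrm p) ρ₂`, so `e p ≤ t₁`. -/
theorem World.gap {X : Set (F × F)} (hI : X ∈ W.I) (hX : KB W.K X) {t₁ : G}
    (hf : ∃ f ∈ X, f ≠ 0 ∧ t₁ < W.e f) :
    ∃ ρ₁ ρ₂ : F, 0 < ρ₁ ∧ 0 < ρ₂ ∧ Sm ρ₁ ρ₂ ∧ W.v ρ₂ = t₁ ∧
      ∀ x ∈ X, (nrm x ≤ ρ₁ ∧ (x = 0 ∨ t₁ < W.e x)) ∨ (ρ₂ ≤ nrm x ∧ x ≠ 0 ∧ W.e x ≤ t₁) := by
  obtain ⟨ρ, n, hρ, hv, hn, hs, h⟩ := W.I2_deep_iff hI hX t₁
  have hn' : (0 : F) < n := by exact_mod_cast hn
  obtain ⟨f, hfX, hf0, hft⟩ := hf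
  have h1 := W.I_box hI 0 (ρ / n)
  have hfS : f ∈ {p ∈ X | nrm (p - 0) ≤ ρ / n} := by
    refine ⟨hfX, ?_⟩
    rw [sub_zero]
    exact (h f hfX).2 (Or.inr hft)
  obtain ⟨p, hp, hmax⟩ := W.argmax_nrm h1 ⟨f, hfS⟩
  obtain ⟨hpX, hpn⟩ := hp
  rw [sub_zero] at hpn
  have hp0 : 0 < nrm p := (nrm_pos.2 hf0).trans_le (hmax f hfS)
  have hρ2 : 0 < ρ / n := by positivity
  refine ⟨nrm p, ρ / n, hp0, hρ2, ?_, ?_, ?_⟩
  · have h2 := hs p hpX (by rw [le_div_iff₀ hn', mul_comm] at hpn; exact hpn)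
    intro m
    have h3 := h2 (n * m)
    rw [abs_of_pos hρ2, lt_div_iff₀ hn']
    rw [abs_of_pos hρ] at h3
    push_cast at h3
    calc (m : F) * |nrm p| * n = n * m * |nrm p| := by ring
      _ < ρ := h3
  · rw [W.v_div hρ.ne' hn'.ne', W.v_nat hn.ne', sub_zero]
    exact hv
  · intro x hx
    by_cases hxn : nrm x ≤ ρ / n
    · left
      refine ⟨hmax x ⟨hx, by rw [sub_zero]; exact hxn⟩, (h x hx).1 hxn⟩
    · right
      have h4 : ¬ (x = 0 ∨ t₁ < W.e x) := fun h5 => hxn ((h x hx).2 h5)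
      push Not at h4 hxn
      exact ⟨hxn.le, h4.1, h4.2⟩

end Pool.Agent.Lib.MP_8bcb9d_co.W
end

section

section

/-!
# World Fin: shell classes are internal
-/

set_option autoImplicit false

namespace Pool.Agent.Lib.MP_8bcb9d_co.W

variable {F G : Type} [Field F] [LinearOrder F] [IsStrictOrderedRing F]
  [AddCommGroup G] [LinearOrder G] [IsOrderedAddMonoid G] (W : World F G)

/-- Shell classes are internal: if the predicate `C` is invariant under infinitely small relative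
perturbations then the `C`-points with exponent `t` form an internal set. Proof: `v ρ = t`,
`0 < ρ`, `Z` the finite set of `WF_scale`, `Z' = {z ∈ Z | z ≠ 0 ∧ e z = t ∧ C z}`. For `p ∈ X` with
`e p = t` and `C p` there is `z ∈ Z` with `Sm (nrm (p - z)) ρ`; then `z ≠ 0`, `e z = t` and `C z`
(`World.e_add_sm`, `hC` for `z = p + (z - p)`). Choose `n` such that any two elements `z, z'` of `Z`
with `¬ Sm (nrm (z - z')) ρ` satisfy `ρ < n * nrm (z - z')`, and such that `ρ < n * nrm z` for the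
elements of `Z'`. Then the set is `{p ∈ X | ∃ z ∈ Z', nrm (p - z) ≤ ρ / (2 n)}` (`I_boxes`): if
`nrm (p - z) ≤ ρ / (2n)` then `Bd (nrm p) ρ`, so `Sm (nrm (p - z'')) ρ` for some `z'' ∈ Z`, and
`Sm (nrm (z - z'')) ρ` by the choice of `n`; so `Sm (nrm (p - z)) ρ`, `e p = t`, `C p`. -/
theorem World.I_shell {X : Set (F × F)} (hI : X ∈ W.I) (hX : KB W.K X) (t : G)
    (C : F × F → Prop) (hC : ∀ p d, C p → Sm (nrm d) (nrm p) → C (p + d)) :
    {p ∈ X | p ≠ 0 ∧ C p ∧ W.e p = t} ∈ W.I := by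
  classical
  obtain ⟨ρ, hρ, hρt⟩ := W.v_surj t
  obtain ⟨Z, hZf, hZX, hZ⟩ := W.WF_scale hI hX hρ
  -- points with exponent `t`
  have he : ∀ p : F × F, p ≠ 0 → W.e p = t → Bd (nrm p) ρ ∧ Bd ρ (nrm p) := by
    intro p hp h
    have hp0 : nrm p ≠ 0 := (nrm_pos.2 hp).ne'
    have h1 : W.v (nrm p) = W.v ρ := by rw [hρt]; exact h
    exact ⟨(W.v_le _ _ hρ.ne' hp0).1 h1.ge, (W.v_le _ _ hp0 hρ.ne').1 h1.le⟩
  -- the number `n`
  have hex : ∀ q : (F × F) × (F × F), ∃ m : ℕ, ¬ Sm (nrm (q.1 - q.2)) ρ →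
      ρ ≤ m * nrm (q.1 - q.2) := by
    intro q
    by_cases h : Sm (nrm (q.1 - q.2)) ρ
    · exact ⟨0, fun h' => absurd h h'⟩
    · obtain ⟨m, hm⟩ := not_Sm.1 h
      rw [abs_of_pos hρ, abs_nrm] at hm
      exact ⟨m, fun _ => hm⟩
  choose g hg using hex
  set Zf : Finset (F × F) := hZf.toFinset with hZfdef
  obtain ⟨N, hN⟩ : ∃ N : ℕ, ∀ z ∈ Z, ∀ z' ∈ Z, ¬ Sm (nrm (z - z')) ρ → ρ ≤ N * nrm (z - z') := by
    refine ⟨(Zf ×ˢ Zf).sup g, fun z hz z' hz' h => ?_⟩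
    have h1 : g (z, z') ≤ (Zf ×ˢ Zf).sup g :=
      Finset.le_sup (f := g) (Finset.mem_product.2 ⟨hZf.mem_toFinset.2 hz, hZf.mem_toFinset.2 hz'⟩)
    refine (hg (z, z') h).trans ?_
    exact mul_le_mul_of_nonneg_right (by exact_mod_cast h1) (nrm_nonneg _)
  set n : F := ((N + 1 : ℕ) : F) with hn
  have hn0 : 0 < n := by
    rw [hn]
    exact_mod_cast Nat.succ_pos N
  set Z' : Finset (F × F) := Zf.filter (fun z => z ≠ 0 ∧ C z ∧ W.e z = t) with hZ'
  have key : {p ∈ X | p ≠ 0 ∧ C p ∧ W.e p = t} = {p ∈ X | ∃ z ∈ Z', nrm (p - z) ≤ ρ / (2 * n)} := by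
    ext p
    constructor
    · rintro ⟨hpX, hp0, hCp, hep⟩
      obtain ⟨h1, h2⟩ := he p hp0 hep
      obtain ⟨z, hz, hzs⟩ := hZ p hpX h1
      have h3 : Sm (nrm (z - p)) (nrm p) := by
        rw [nrm_sub_comm]
        exact hzs.trans_bd h2
      have h4 := W.e_add_sm h3
      have h5 := hC p (z - p) hCp h3
      rw [add_sub_cancel] at h4 h5
      refine ⟨hpX, z, ?_, ?_⟩
      · rw [hZ', Finset.mem_filter]
        exact ⟨hZf.mem_toFinset.2 hz, h4.1, h5, h4.2.trans hep⟩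
      · have h6 := hzs (2 * (N + 1))
        rw [abs_nrm, abs_of_pos hρ] at h6
        rw [le_div_iff₀ (by linarith)]
        have h7 : ((2 * (N + 1) : ℕ) : F) = 2 * n := by
          rw [hn]
          push_cast
          ring
        rw [h7] at h6
        linarith
    · rintro ⟨hpX, z, hz, hpz⟩
      rw [hZ', Finset.mem_filter] at hz
      obtain ⟨hzZ, hz0, hCz, hez⟩ := hz
      have hzZ' : z ∈ Z := hZf.mem_toFinset.1 hzZ
      obtain ⟨h1, h2⟩ := he z hz0 hez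
      have hle : ρ / (2 * n) ≤ ρ := by
        apply div_le_self hρ.le
        have : (1 : F) ≤ n := by
          rw [hn]
          exact_mod_cast Nat.succ_le_succ (Nat.zero_le N)
        linarith
      have h3 : Bd (nrm (p - z)) ρ := Bd.of_le (by
        rw [abs_nrm, abs_of_pos hρ]
        exact hpz.trans hle)
      have h4 : Bd (nrm p) ρ := by
        refine Bd.trans (Bd.of_le (y := nrm z + nrm (p - z)) ?_) (h1.add h3)
        rw [abs_nrm, abs_of_nonneg (add_nonneg (nrm_nonneg _) (nrm_nonneg _))]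
        have := nrm_add z (p - z)
        rwa [add_sub_cancel] at this
      obtain ⟨z'', hz'', hs⟩ := hZ p hpX h4
      have h5 : nrm (z - z'') ≤ nrm (p - z) + nrm (p - z'') := by
        have := nrm_triangle z p z''
        rwa [nrm_sub_comm z p] at this
      have h6 := hs (2 * (N + 1))
      rw [abs_nrm, abs_of_pos hρ] at h6
      have h7 : ((2 * (N + 1) : ℕ) : F) = 2 * n := by
        rw [hn]
        push_cast
        ring
      rw [h7] at h6
      have h8 : Sm (nrm (z - z'')) ρ := by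
        by_contra hcon
        have h9 := hN z hzZ' z'' hz'' hcon
        have h10 : n * nrm (z - z'') = N * nrm (z - z'') + nrm (z - z'') := by
          rw [hn]
          push_cast
          ring
        have h11 : 2 * n * nrm (p - z) ≤ ρ := by
          rw [le_div_iff₀ (by linarith)] at hpz
          linarith
        have h12 : 2 * (n * nrm (z - z'')) < 2 * ρ := by
          have := mul_le_mul_of_nonneg_left h5 hn0.le
          nlinarith
        have h13 := nrm_nonneg (z - z'')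
        have h14 : nrm (z - z'') = 0 := by
          by_contra hne
          have : 0 < nrm (z - z'') := lt_of_le_of_ne h13 (Ne.symm hne)
          linarith
        rw [h14, mul_zero] at h9
        linarith
      have h9 : Sm (nrm (p - z)) ρ := by
        refine Bd.trans_sm (Bd.of_le (y := nrm (p - z'') + nrm (z - z'')) ?_) (hs.add h8)
        rw [abs_nrm, abs_of_nonneg (add_nonneg (nrm_nonneg _) (nrm_nonneg _))]
        have := nrm_triangle p z'' z
        rwa [nrm_sub_comm z'' z] at this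
      have h10 : Sm (nrm (p - z)) (nrm z) := h9.trans_bd h2
      have h11 := W.e_add_sm h10
      have h12 := hC z (p - z) hCz h10
      rw [add_sub_cancel] at h11 h12
      exact ⟨hpX, h11.1, h12, h11.2.trans hez⟩
  rw [key]
  exact W.I_boxes hI Z' _

end Pool.Agent.Lib.MP_8bcb9d_co.W
end

section

/-!
# World Fin: the bridging pair of two shells of class `UU`
-/

set_option autoImplicit false

namespace Pool.Agent.Lib.MP_8bcb9d_co.W

variable {F G : Type} [Field F] [LinearOrder F] [IsStrictOrderedRing F]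
  [AddCommGroup G] [LinearOrder G] [IsOrderedAddMonoid G] (W : World F G)

/-- General bridging edge for two internal sets separated by a horizontal line `y = c`.
Proof: `W.bridge` for the images under `p ↦ (p.1, p.2 - c)` (`I_affine`). -/
theorem World.bridge' {S T : Set (F × F)} (hS : S ∈ W.I) (hT : T ∈ W.I) (hSn : S.Nonempty)
    (hTn : T.Nonempty) {c : F} (h1 : ∀ p ∈ S, c < p.2) (h2 : ∀ q ∈ T, q.2 < c) :
    ∃ p ∈ S, ∃ q ∈ T, ∀ r, r ∈ S ∨ r ∈ T → 0 ≤ cr (p - q) (r - q) := by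
  have hf : ∀ p : F × F, ((1 * p.1 + 0 * p.2 + 0, 0 * p.1 + 1 * p.2 + -c) : F × F) =
      (p.1, p.2 - c) := by
    intro p
    refine Prod.ext ?_ ?_
    · simp only
      ring
    · simp only
      ring
  have hS' := W.I_affine hS 1 0 0 0 1 (-c)
  have hT' := W.I_affine hT 1 0 0 0 1 (-c)
  simp only [hf] at hS' hT'
  obtain ⟨_, ⟨p, hp, rfl⟩, _, ⟨q, hq, rfl⟩, h⟩ := W.bridge _ hS' _ hT' (hSn.image _) (hTn.image _)
    (by
      rintro _ ⟨p, hp, rfl⟩
      exact sub_pos.2 (h1 p hp))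
    (by
      rintro _ ⟨q, hq, rfl⟩
      exact sub_neg.2 (h2 q hq))
  refine ⟨p, hp, q, hq, fun r hr => ?_⟩
  have h3 := h (r.1, r.2 - c) (hr.imp (fun h => ⟨r, h, rfl⟩) (fun h => ⟨r, h, rfl⟩))
  simp only [cr, Prod.fst_sub, Prod.snd_sub] at h3 ⊢
  have e1 : p.2 - c - (q.2 - c) = p.2 - q.2 := by ring
  have e2 : r.2 - c - (q.2 - c) = r.2 - q.2 := by ring
  rw [e1, e2] at h3
  exact h3

/-- Proof. `S = {p ∈ X | p ≠ 0 ∧ UU p ∧ e p = l}` and the same set `T` for `l'` are internal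
(`I_shell` with `UU.pert`). Let `p₀` be a point of `S` with smallest second coordinate
(`argmin`), `c = p₀.2 / 2`. For `q ∈ T`: `v q.2 = l' > l = v p₀.2` (`e_UU`), so `q.2 < c`. Apply
`bridge'`. -/
theorem World.bridgePair {X : Set (F × F)} (hI : X ∈ W.I) (hX : KB W.K X) {l l' : G} (hlt : l < l')
    (h1 : ∃ p ∈ X, UU p ∧ W.e p = l) (h2 : ∃ p ∈ X, UU p ∧ W.e p = l') :
    ∃ x ∈ X, ∃ x' ∈ X, UU x ∧ W.e x = l ∧ UU x' ∧ W.e x' = l' ∧
      ∀ r ∈ X, UU r → (W.e r = l ∨ W.e r = l') → 0 ≤ cr (x - x') (r - x') := by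
  have hS := W.I_shell hI hX l UU (fun p d h h' => h.pert h')
  have hT := W.I_shell hI hX l' UU (fun p d h h' => h.pert h')
  obtain ⟨a, haX, ha, hae⟩ := h1
  obtain ⟨b, hbX, hb, hbe⟩ := h2
  obtain ⟨p₀, hp₀, hmin⟩ := W.argmin _ hS ⟨a, haX, ha.ne, ha, hae⟩ 0 1
  obtain ⟨hp₀X, -, hp₀U, hp₀e⟩ := hp₀
  have hpos : 0 < p₀.2 := hp₀U.1
  obtain ⟨x, hx, x', hx', h⟩ := W.bridge' (c := p₀.2 / 2) hS hT ⟨a, haX, ha.ne, ha, hae⟩
    ⟨b, hbX, hb.ne, hb, hbe⟩
    (by
      intro p hp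
      have h3 := hmin p hp
      linarith)
    (by
      rintro q ⟨-, hq0, hqU, hqe⟩
      have h4 : W.v q.2 = l' := by rw [← hqe, W.e_UU hqU]
      have h5 : W.v p₀.2 = l := by rw [← hp₀e, W.e_UU hp₀U]
      have h6 : Sm q.2 p₀.2 := by
        rw [← W.v_lt hpos.ne' hqU.1.ne', h4, h5]
        exact hlt
      have h7 := h6.two
      rw [abs_of_pos hpos, abs_of_pos hqU.1] at h7
      linarith)
  refine ⟨x, hx.1, x', hx'.1, hx.2.2.1, hx.2.2.2, hx'.2.2.1, hx'.2.2.2, fun r hrX hrU hr => ?_⟩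
  exact h r (hr.imp (fun h => ⟨hrX, hrU.ne, hrU, h⟩) (fun h => ⟨hrX, hrU.ne, hrU, h⟩))

end Pool.Agent.Lib.MP_8bcb9d_co.W
end

section

/-!
# World Fin: Lemma N3
-/

set_option autoImplicit false

namespace Pool.Agent.Lib.MP_8bcb9d_co.W

variable {F G : Type} [Field F] [LinearOrder F] [IsStrictOrderedRing F]
  [AddCommGroup G] [LinearOrder G] [IsOrderedAddMonoid G] (W : World F G)

/-- Lemma N3. Proof. Let `x, x'` be the pair of `bridgePair`. For `s` in the set choose `z ∈ X`,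
`TT z`, `e z = s`, `Near κ ω (sl z)`. `x, x', z` are different (classes, exponents).
`World.partner` gives `y ∈ Lnk X x x'`, `y ∈ Tri x x' z`. Claim: `e y = s`. If `y = z` this is
clear. Otherwise `lemV` applies to `w = y`: `TT y`, `s ≤ e y < l'`, `0 < cr z y`. Suppose
`s < e y`. Then `v (cr z y) ≤ l' + s`. By `sl_sub`, `sl y - sl z = cr z y / (z.1 * y.1) > 0` has value
`v (cr z y) - s - e y ≤ l' - e y < l' - s < κ`. Then `y` is above: `sl y - ω = (sl y - sl z) +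
(sl z - ω)`, where `sl z - ω` is `0` or has value `≥ κ`, so is infinitely smaller than
`sl y - sl z`; so `ω < sl y` and `v (sl y - ω) = v (sl y - sl z) < κ`. This contradicts `habove`
(`s₀ ≤ s < e y < l'`). So `e y = s`, and the set is contained in the image of `Lnk X x x'` under
`e`. -/
theorem World.N3 {X : Set (F × F)} (hI : X ∈ W.I) (hX : KB W.K X) {l l' κ s₀ : G} {ω : F}
    (hlt : l < l') (h1 : ∃ p ∈ X, UU p ∧ W.e p = l) (h2 : ∃ p ∈ X, UU p ∧ W.e p = l')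
    (hcons : ∀ r ∈ X, UU r → W.e r ≤ l ∨ l' ≤ W.e r)
    (habove : ∀ w ∈ X, TT w → s₀ ≤ W.e w → W.e w < l' → ¬ Above W.v κ ω (sl w)) :
    {s | s₀ ≤ s ∧ s < l ∧ l' < s + κ ∧
      ∃ z ∈ X, TT z ∧ W.e z = s ∧ Near W.v κ ω (sl z)}.encard ≤ W.K := by
  obtain ⟨x, hxX, x', hx'X, hx, hxe, hx', hxe', hhull⟩ := W.bridgePair hI hX hlt h1 h2
  have hxx : x ≠ x' := by
    rintro rfl
    rw [hxe] at hxe'
    exact hlt.ne hxe'
  refine le_trans ?_ (hX.deg x hxX x' hx'X hxx)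
  refine le_trans (Set.encard_le_encard ?_) (Set.encard_image_le W.e _)
  rintro s ⟨hs0, hsl, hsk, z, hzX, hz, hze, hnear⟩
  have hzx : z ≠ x := by
    rintro rfl
    exact hz.not_UU.1 hx
  have hzx' : z ≠ x' := by
    rintro rfl
    exact hz.not_UU.1 hx'
  obtain ⟨y, hyL, hyT⟩ := W.partner hI hX.gp hxX hx'X hzX hxx hzx hzx'
  refine ⟨y, hyL, ?_⟩
  by_cases hyz : y = z
  · rw [hyz, hze]
  obtain ⟨k1, k2, k3, k4, -, k6⟩ := W.lemV hX.gp hlt hxX hx'X hx hxe hx' hxe' hhull hcons hzX hz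
    (by rw [hze]; exact hsl) hyL.1 hyT hyL.2.1 hyL.2.2.1 hyz
  rw [hze] at k2 k6
  rcases eq_or_lt_of_le k2 with h | h
  · exact h.symm
  exfalso
  have k7 := k6 h
  have hz1 : 0 < z.1 := hz.1
  have hy1 : 0 < y.1 := k1.1
  have hD := sl_sub (z := z) (w := y) hz1.ne' hy1.ne'
  have hzy : (0 : F) < z.1 * y.1 := mul_pos hz1 hy1
  have hDpos : 0 < sl y - sl z := by
    rw [hD]
    exact div_pos k4 hzy
  have hDv : W.v (sl y - sl z) < κ := by
    rw [hD, W.v_div k4.ne' hzy.ne', W.v_mul _ _ hz1.ne' hy1.ne', ← W.e_TT hz, ← W.e_TT k1, hze]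
    grind
  have hab : Above W.v κ ω (sl y) := by
    by_cases hE : sl z - ω = 0
    · have e1 : sl y - ω = sl y - sl z := by
        have : sl z = ω := sub_eq_zero.1 hE
        rw [this]
      refine ⟨?_, ?_⟩
      · rw [← sub_pos, e1]
        exact hDpos
      · rw [e1]
        exact hDv
    · have hE2 : κ ≤ W.v (sl z - ω) := by
        rcases hnear with h' | h'
        · exact absurd (sub_eq_zero.2 h') hE
        · exact h'
      have hSm : Sm (sl z - ω) (sl y - sl z) :=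
        (W.v_lt hDpos.ne' hE).1 (hDv.trans_le hE2)
      have e1 : sl y - ω = (sl y - sl z) + (sl z - ω) := by ring
      refine ⟨?_, ?_⟩
      · rw [← sub_pos, e1]
        have h3 := hSm.lt
        rw [abs_of_pos hDpos] at h3
        have h4 := neg_abs_le (sl z - ω)
        linarith
      · rw [e1, W.v_add_sm hSm]
        exact hDv
  exact habove y hyL.1 k1 (hs0.trans h.le) k3 hab

end Pool.Agent.Lib.MP_8bcb9d_co.W
end

section

/-!
# World Fin, growth: the chain of level classes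

`Y` is an internal `K`-bounded set, its points have first coordinate `O(ρ)`; the level of a point is
its second coordinate. Two levels are in the same class if their difference is `O(ε)`.
-/

set_option autoImplicit false

namespace Pool.Agent.Lib.MP_8bcb9d_co.W

variable {F G : Type} [Field F] [LinearOrder F] [IsStrictOrderedRing F]
  [AddCommGroup G] [LinearOrder G] [IsOrderedAddMonoid G] (W : World F G)

/-- Each class is bounded by a standard multiple of `ε`. Proof: `World.WF_aniso` with `z₀ = p₀` (the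
first coordinates of all points of `Y` differ from `p₀.1` by `O(ρ)`) gives a finite set `Z`. For
`z ∈ Z` with `Bd (z.2 - p₀.2) ε` choose `n_z` with `|z.2 - p₀.2| ≤ n_z * ε`; `n = 1 +` the maximum of
these `n_z`. -/
theorem World.lvl {Y : Set (F × F)} (hI : Y ∈ W.I) (hY : KB W.K Y) {ρ ε : F} (hρ : 0 < ρ)
    (hε : 0 < ε) (hb : ∀ p ∈ Y, Bd p.1 ρ) {p₀ : F × F} (hp₀ : p₀ ∈ Y) :
    ∃ n : ℕ, ∀ p ∈ Y, Bd (p.2 - p₀.2) ε → |p.2 - p₀.2| ≤ n * ε := by
  classical
  obtain ⟨Z, hZf, hZs, hZ⟩ := W.WF_aniso hI hY hρ hε p₀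
  have hex : ∀ z : F × F, ∃ n : ℕ, Bd (z.2 - p₀.2) ε → |z.2 - p₀.2| ≤ n * ε := by
    intro z
    by_cases h : Bd (z.2 - p₀.2) ε
    · obtain ⟨n, hn⟩ := h
      rw [abs_of_pos hε] at hn
      exact ⟨n, fun _ => hn⟩
    · exact ⟨0, fun h' => absurd h' h⟩
  choose N hN using hex
  refine ⟨hZf.toFinset.sup N + 1, fun p hp hbd => ?_⟩
  obtain ⟨z, hz, -, hs⟩ := hZ p hp ((hb p hp).sub (hb p₀ hp₀)) hbd
  have h5 : Bd (z.2 - p₀.2) ε := by
    have := hbd.sub hs.bd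
    rwa [sub_sub_sub_cancel_left] at this
  have h6 := hN z h5
  have h7 : N z ≤ hZf.toFinset.sup N := Finset.le_sup (f := N) (hZf.mem_toFinset.2 hz)
  have h8 : (N z : F) * ε ≤ (hZf.toFinset.sup N : ℕ) * ε :=
    mul_le_mul_of_nonneg_right (by exact_mod_cast h7) hε.le
  have h9 := hs.lt
  rw [abs_of_pos hε] at h9
  have h10 : |p.2 - p₀.2| ≤ |p.2 - z.2| + |z.2 - p₀.2| := by
    have := abs_add_le (p.2 - z.2) (z.2 - p₀.2)
    rwa [sub_add_sub_cancel] at this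
  push_cast
  linarith

/-- the lowest point above a closed half plane -/
private theorem d2_low_ge {Y : Set (F × F)} (hI : Y ∈ W.I) (c : F) (h : ∃ p ∈ Y, c ≤ p.2) :
    ∃ p₀ ∈ Y, c ≤ p₀.2 ∧ ∀ q ∈ Y, c ≤ q.2 → p₀.2 ≤ q.2 := by
  have h1 := W.I_ge hI 0 1 c
  obtain ⟨p, hp, hpc⟩ := h
  obtain ⟨p₀, ⟨h2, h3⟩, h4⟩ := W.argmin _ h1 ⟨p, hp, by linarith⟩ 0 1
  refine ⟨p₀, h2, by linarith, fun q hq hqc => ?_⟩
  have := h4 q ⟨hq, by linarith⟩
  linarith

/-- the lowest point above an open half plane -/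
private theorem d2_low_gt {Y : Set (F × F)} (hI : Y ∈ W.I) (c : F) (h : ∃ p ∈ Y, c < p.2) :
    ∃ p₀ ∈ Y, c < p₀.2 ∧ ∀ q ∈ Y, c < q.2 → p₀.2 ≤ q.2 := by
  have h1 := W.I_gt hI 0 1 c
  obtain ⟨p, hp, hpc⟩ := h
  obtain ⟨p₀, ⟨h2, h3⟩, h4⟩ := W.argmin _ h1 ⟨p, hp, by linarith⟩ 0 1
  refine ⟨p₀, h2, by linarith, fun q hq hqc => ?_⟩
  have := h4 q ⟨hq, by linarith⟩
  linarith

/-- the bridging edge for two sets separated by the line of height `h` -/
private theorem d2_bridge {S T : Set (F × F)} (hS : S ∈ W.I) (hT : T ∈ W.I) (hSn : S.Nonempty)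
    (hTn : T.Nonempty) (h : F) (h1 : ∀ p ∈ S, h < p.2) (h2 : ∀ p ∈ T, p.2 < h) :
    ∃ x' ∈ S, ∃ x ∈ T, ∀ r, r ∈ S ∨ r ∈ T → 0 ≤ cr (x' - x) (r - x) := by
  set f : F × F → F × F := fun p => (1 * p.1 + 0 * p.2 + 0, 0 * p.1 + 1 * p.2 + (-h)) with hf
  have f2 : ∀ p, (f p).2 = p.2 - h := fun p => by
    rw [hf]
    simp only
    ring
  have fs : ∀ p q, f p - f q = p - q := fun p q => by
    rw [hf]
    refine Prod.ext ?_ ?_
    · simp only [Prod.fst_sub]
      ring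
    · simp only [Prod.snd_sub]
      ring
  obtain ⟨p, hp, q, hq, hpq⟩ := W.bridge (f '' S) (W.I_affine hS _ _ _ _ _ _) (f '' T)
    (W.I_affine hT _ _ _ _ _ _) (hSn.image f) (hTn.image f)
    (by
      rintro _ ⟨p, hp, rfl⟩
      rw [f2]
      linarith [h1 p hp])
    (by
      rintro _ ⟨p, hp, rfl⟩
      rw [f2]
      linarith [h2 p hp])
  obtain ⟨x', hx', rfl⟩ := hp
  obtain ⟨x, hx, rfl⟩ := hq
  refine ⟨x', hx', x, hx, fun r hr => ?_⟩
  have := hpq (f r) (hr.imp (fun h => ⟨r, h, rfl⟩) (fun h => ⟨r, h, rfl⟩))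
  rwa [fs, fs] at this

/-- a cut between classes -/
def Cut (Y : Set (F × F)) (ε c : F) : Prop :=
  ∀ p ∈ Y, ∀ q ∈ Y, p.2 < c → c ≤ q.2 → Sm ε (q.2 - p.2)

/-- above the height `c` there are infinitely many classes -/
def NF (Y : Set (F × F)) (ε c : F) : Prop :=
  ¬ ∃ Z : Set (F × F), Z.Finite ∧ Z ⊆ Y ∧ ∀ p ∈ Y, c ≤ p.2 → ∃ z ∈ Z, Bd (p.2 - z.2) ε

/-- the properties of a bridging edge of two consecutive classes -/
structure Edge (Y : Set (F × F)) (ε : F) (x x' : F × F) : Prop where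
  mem : x ∈ Y
  mem' : x' ∈ Y
  lt : x.2 < x'.2
  sm : Sm ε (x'.2 - x.2)
  clean : ∀ r ∈ Y, (r.2 < x.2 ∧ Sm ε (x.2 - r.2)) ∨ (x'.2 < r.2 ∧ Sm ε (r.2 - x'.2)) ∨
    0 ≤ cr (x' - x) (r - x)

/-- One step of the chain.

Proof. Let `p₀` be the lowest point with `c ≤ p₀.2` (`I_ge`, `argmin` with the functional `p.2`; there
is such a point, otherwise `Z = ∅` contradicts `NF`), `n₀` from `lvl` for `p₀`;
`T = {p ∈ Y | c ≤ p.2 ≤ p₀.2 + n₀ ε}` (internal). Let `p₁` be the lowest point with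
`p₀.2 + n₀ ε < p₁.2` (exists, otherwise `Z = {p₀}` contradicts `NF`), `n₁` from `lvl` for `p₁`,
`S = {p ∈ Y | p₁.2 ≤ p.2 ≤ p₁.2 + n₁ ε}`. Let `p₂` be the lowest point with `p₁.2 + n₁ ε < p₂.2`
(exists, otherwise `Z = {p₀, p₁}`), `c' = p₂.2`.

`h = (p₀.2 + n₀ ε + p₁.2) / 2` separates `T` and `S`. `W.bridge` for the translates of `S`, `T` by
`(0, -h)` (`I_affine`) gives, after translating back, `x' ∈ S`, `x ∈ T` with
`0 ≤ cr (x' - x) (r - x)` for all `r ∈ S ∪ T`.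

`sm`: otherwise `Bd (x'.2 - x.2) ε`, hence `Bd (p₁.2 - p₀.2) ε` and `|p₁.2 - p₀.2| ≤ n₀ ε`, contradiction.
`clean`: if `r.2 < c` use `Cut`; if `c ≤ r.2 ≤ p₀.2 + n₀ ε` then `r ∈ T`; if `p₀.2 + n₀ ε < r.2` then
`p₁.2 ≤ r.2`, and either `r ∈ S` or `p₁.2 + n₁ ε < r.2`; in the last case `Bd (r.2 - x'.2) ε` would
give `Bd (r.2 - p₁.2) ε` and `|r.2 - p₁.2| ≤ n₁ ε`, contradiction.
`Cut Y ε c'`: let `p.2 < c' ≤ q.2`; then `p.2 ≤ p₁.2 + n₁ ε < q.2`; if `Bd (q.2 - p.2) ε` then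
`Bd (q.2 - p₁.2) ε` (if `p₁.2 ≤ p.2` because `p.2 - p₁.2 ≤ n₁ ε`, else because
`0 < q.2 - p₁.2 < q.2 - p.2`), contradiction as before. `NF Y ε c'`: if `Z` covers the points above
`c'` then `insert p₀ (insert p₁ Z)` covers the points above `c`. -/
theorem World.edge_step {Y : Set (F × F)} (hI : Y ∈ W.I) (hY : KB W.K Y) {ρ ε c : F}
    (hρ : 0 < ρ) (hε : 0 < ε) (hb : ∀ p ∈ Y, Bd p.1 ρ) (hc : Cut Y ε c) (hN : NF Y ε c) :
    ∃ x x' c', Edge Y ε x x' ∧ c ≤ x.2 ∧ x'.2 < c' ∧ Cut Y ε c' ∧ NF Y ε c' := by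
  have bdd : ∀ {u : F} {n : ℕ}, 0 ≤ u → u ≤ n * ε → Bd u ε := fun {u n} h0 h1 =>
    ⟨n, by rw [abs_of_nonneg h0, abs_of_pos hε]; exact h1⟩
  -- the lowest class above `c`
  obtain ⟨p₀, hp₀, hp₀c, hp₀m⟩ := d2_low_ge W hI c (by
    by_contra hcon
    push Not at hcon
    refine hN ⟨∅, Set.finite_empty, Set.empty_subset _, fun p hp hpc => ?_⟩
    exact absurd (hcon p hp) (not_lt.2 hpc))
  obtain ⟨n₀, hn₀⟩ := W.lvl hI hY hρ hε hb hp₀
  set a : F := p₀.2 + n₀ * ε with ha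
  have hn0 : (0 : F) ≤ n₀ * ε := mul_nonneg (Nat.cast_nonneg _) hε.le
  -- the next class
  obtain ⟨p₁, hp₁, hp₁a, hp₁m⟩ := d2_low_gt W hI a (by
    by_contra hcon
    push Not at hcon
    refine hN ⟨{p₀}, Set.finite_singleton _, Set.singleton_subset_iff.2 hp₀, fun p hp hpc => ?_⟩
    refine ⟨p₀, rfl, bdd (n := n₀) (by linarith [hp₀m p hp hpc]) ?_⟩
    linarith [hcon p hp])
  obtain ⟨n₁, hn₁⟩ := W.lvl hI hY hρ hε hb hp₁
  set b : F := p₁.2 + n₁ * ε with hb'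
  have hn1 : (0 : F) ≤ n₁ * ε := mul_nonneg (Nat.cast_nonneg _) hε.le
  obtain ⟨p₂, hp₂, hp₂b, hp₂m⟩ := d2_low_gt W hI b (by
    by_contra hcon
    push Not at hcon
    refine hN ⟨{p₀, p₁}, (Set.finite_singleton _).insert _, ?_, fun p hp hpc => ?_⟩
    · rintro z (rfl | rfl)
      · exact hp₀
      · exact hp₁
    · rcases le_or_gt p.2 a with h | h
      · exact ⟨p₀, Or.inl rfl, bdd (n := n₀) (by linarith [hp₀m p hp hpc]) (by linarith)⟩
      · refine ⟨p₁, Or.inr rfl, bdd (n := n₁) (by linarith [hp₁m p hp h]) ?_⟩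
        linarith [hcon p hp])
  -- the two classes
  have hTI : {p ∈ {p ∈ Y | c ≤ 0 * p.1 + 1 * p.2} | 0 * p.1 + 1 * p.2 ≤ a} ∈ W.I :=
    W.I_half _ (W.I_ge hI 0 1 c) 0 1 a
  have hSI : {p ∈ {p ∈ Y | a < 0 * p.1 + 1 * p.2} | 0 * p.1 + 1 * p.2 ≤ b} ∈ W.I :=
    W.I_half _ (W.I_gt hI 0 1 a) 0 1 b
  have hTm : ∀ p, p ∈ {p ∈ {p ∈ Y | c ≤ 0 * p.1 + 1 * p.2} | 0 * p.1 + 1 * p.2 ≤ a} ↔
      p ∈ Y ∧ c ≤ p.2 ∧ p.2 ≤ a := by
    intro p
    constructor
    · rintro ⟨⟨h1, h2⟩, h3⟩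
      exact ⟨h1, by linarith, by linarith⟩
    · rintro ⟨h1, h2, h3⟩
      exact ⟨⟨h1, by linarith⟩, by linarith⟩
  have hSm : ∀ p, p ∈ {p ∈ {p ∈ Y | a < 0 * p.1 + 1 * p.2} | 0 * p.1 + 1 * p.2 ≤ b} ↔
      p ∈ Y ∧ a < p.2 ∧ p.2 ≤ b := by
    intro p
    constructor
    · rintro ⟨⟨h1, h2⟩, h3⟩
      exact ⟨h1, by linarith, by linarith⟩
    · rintro ⟨h1, h2, h3⟩
      exact ⟨⟨h1, by linarith⟩, by linarith⟩
  obtain ⟨x', hx', x, hx, hbr⟩ := d2_bridge W hSI hTI ⟨p₁, (hSm p₁).2 ⟨hp₁, hp₁a, by linarith⟩⟩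
    ⟨p₀, (hTm p₀).2 ⟨hp₀, hp₀c, by linarith⟩⟩ ((a + p₁.2) / 2)
    (fun p hp => by
      obtain ⟨h1, h2, -⟩ := (hSm p).1 hp
      linarith [hp₁m p h1 h2])
    (fun p hp => by
      obtain ⟨-, -, h2⟩ := (hTm p).1 hp
      linarith)
  obtain ⟨y1, y2, y3⟩ := (hSm x').1 hx'
  obtain ⟨z1, z2, z3⟩ := (hTm x).1 hx
  have y4 := hp₁m x' y1 y2
  -- points above `b` are far from the class of `p₁`
  have far : ∀ r ∈ Y, b < r.2 → ∀ u : F, u ≤ b → Sm ε (r.2 - u) := by
    intro r hr hrb u hu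
    by_contra hcon
    obtain ⟨m, hm⟩ := not_Sm.1 hcon
    rw [abs_of_pos hε, abs_of_pos (by linarith)] at hm
    have h1 : Bd (r.2 - p₁.2) ε := bdd (n := m + n₁) (by linarith) (by push_cast; linarith)
    have h2 := hn₁ r hr h1
    linarith [le_abs_self (r.2 - p₁.2)]
  refine ⟨x, x', p₂.2, ⟨z1, y1, by linarith, ?_, fun r hr => ?_⟩, z2, by linarith, ?_, ?_⟩
  · by_contra hcon
    obtain ⟨m, hm⟩ := not_Sm.1 hcon
    rw [abs_of_pos hε, abs_of_pos (by linarith)] at hm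
    have h1 : Bd (p₁.2 - p₀.2) ε := bdd (n := m + n₀) (by linarith) (by push_cast; linarith)
    have h2 := hn₀ p₁ hp₁ h1
    linarith [le_abs_self (p₁.2 - p₀.2)]
  · rcases lt_or_ge r.2 c with h | h
    · exact Or.inl ⟨by linarith, hc r hr x z1 h z2⟩
    · rcases le_or_gt r.2 a with h1 | h1
      · exact Or.inr (Or.inr (hbr r (Or.inr ((hTm r).2 ⟨hr, h, h1⟩))))
      · rcases le_or_gt r.2 b with h2 | h2
        · exact Or.inr (Or.inr (hbr r (Or.inl ((hSm r).2 ⟨hr, h1, h2⟩))))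
        · exact Or.inr (Or.inl ⟨by linarith, far r hr h2 _ y3⟩)
  · intro p hp q hq hpc hqc
    refine far q hq (by linarith) _ ?_
    by_contra hcon
    push Not at hcon
    exact absurd (hp₂m p hp hcon) (not_le.2 hpc)
  · rintro ⟨Z, hZf, hZs, hZ⟩
    refine hN ⟨insert p₀ (insert p₁ Z), (hZf.insert _).insert _, ?_, fun p hp hpc => ?_⟩
    · rintro z (rfl | rfl | hz)
      · exact hp₀
      · exact hp₁
      · exact hZs hz
    · rcases le_or_gt p.2 a with h | h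
      · exact ⟨p₀, Or.inl rfl, bdd (n := n₀) (by linarith [hp₀m p hp hpc]) (by linarith)⟩
      · rcases le_or_gt p.2 b with h1 | h1
        · exact ⟨p₁, Or.inr (Or.inl rfl), bdd (n := n₁) (by linarith [hp₁m p hp h]) (by linarith)⟩
        · obtain ⟨z, hz, hz2⟩ := hZ p hp (hp₂m p hp h1)
          exact ⟨z, Or.inr (Or.inr hz), hz2⟩

/-- The chain. Proof: start with `c` = the smallest level of `Y` (`Y` is nonempty, otherwise
`Z = ∅`), for which `Cut` holds trivially; dependent choice with `edge_step`, giving `c i`, `x i`,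
`x' i` with `c i ≤ (x i).2 < (x' i).2 < c (i + 1)`; for `i < j`: `(x' i).2 < c (i+1) ≤ c j ≤ (x j).2`
and `Cut` at `c (i + 1)`. -/
theorem World.chain {Y : Set (F × F)} (hI : Y ∈ W.I) (hY : KB W.K Y) {ρ ε : F}
    (hρ : 0 < ρ) (hε : 0 < ε) (hb : ∀ p ∈ Y, Bd p.1 ρ)
    (hN : ¬ ∃ Z : Set (F × F), Z.Finite ∧ Z ⊆ Y ∧ ∀ p ∈ Y, ∃ z ∈ Z, Bd (p.2 - z.2) ε) :
    ∃ x x' : ℕ → F × F, (∀ i, Edge Y ε (x i) (x' i)) ∧
      ∀ i j, i < j → (x' i).2 < (x j).2 ∧ Sm ε ((x j).2 - (x' i).2) := by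
  have hne : Y.Nonempty := by
    by_contra hcon
    rw [Set.not_nonempty_iff_eq_empty] at hcon
    refine hN ⟨∅, Set.finite_empty, Set.empty_subset _, fun p hp => ?_⟩
    rw [hcon] at hp
    exact absurd hp (Set.notMem_empty p)
  obtain ⟨p₀, hp₀, hmin⟩ := W.argmin Y hI hne 0 1
  have hmin' : ∀ q ∈ Y, p₀.2 ≤ q.2 := fun q hq => by linarith [hmin q hq]
  have hC0 : Cut Y ε p₀.2 := fun p hp q _ h _ => absurd (hmin' p hp) (not_le.2 h)
  have hN0 : NF Y ε p₀.2 := by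
    rintro ⟨Z, hZf, hZs, hZ⟩
    exact hN ⟨Z, hZf, hZs, fun p hp => hZ p hp (hmin' p hp)⟩
  have step : ∀ s : {c : F // Cut Y ε c ∧ NF Y ε c}, ∃ (x x' : F × F)
      (s' : {c : F // Cut Y ε c ∧ NF Y ε c}), Edge Y ε x x' ∧ s.1 ≤ x.2 ∧ x'.2 < s'.1 := by
    rintro ⟨c, hc, hcN⟩
    obtain ⟨x, x', c', h1, h2, h3, h4, h5⟩ := W.edge_step hI hY hρ hε hb hc hcN
    exact ⟨x, x', ⟨c', h4, h5⟩, h1, h2, h3⟩
  choose fx fx' fs h using step
  let sq : ℕ → {c : F // Cut Y ε c ∧ NF Y ε c} := fun n => Nat.rec ⟨p₀.2, hC0, hN0⟩ (fun _ s => fs s) n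
  have hsq : ∀ n, sq (n + 1) = fs (sq n) := fun _ => rfl
  have hmono : StrictMono fun n => (sq n).1 := by
    refine strictMono_nat_of_lt_succ fun n => ?_
    have h1 := h (sq n)
    rw [hsq]
    exact h1.2.1.trans_lt (h1.1.lt.trans h1.2.2)
  refine ⟨fun i => fx (sq i), fun i => fx' (sq i), fun i => (h (sq i)).1, fun i j hij => ?_⟩
  have h1 : (fx' (sq i)).2 < (sq (i + 1)).1 := by
    rw [hsq]
    exact (h (sq i)).2.2
  have h2 : (sq (i + 1)).1 ≤ (sq j).1 := hmono.monotone hij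
  have h3 := (h (sq j)).2.1
  refine ⟨by linarith, ?_⟩
  exact (sq (i + 1)).2.1 _ (h (sq i)).1.mem' _ (h (sq j)).1.mem h1 (h2.trans h3)

end Pool.Agent.Lib.MP_8bcb9d_co.W
end
end
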