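import Mathlib
import Pool.Agent.Lib.MP_8bcb9d_co.W.I1
import Pool.Agent.Lib.MP_8bcb9d_co.W.D2

section

/-!
# World Fin: selection of two outer points whose hull with the inner box is clean
-/

set_option autoImplicit false

namespace Pool.Agent.Lib.MP_8bcb9d_co.W

variable {F G : Type} [Field F] [LinearOrder F] [IsStrictOrderedRing F]
  [AddCommGroup G] [LinearOrder G] [IsOrderedAddMonoid G] (W : World F G)

/-- The region `R = {w | |w.2| ≤ τ (w.1 + ρ₁) + ρ₁, -ρ₁ ≤ w.1}` is convex, contains the box of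
radius `ρ₁`, and its points outside the box satisfy `ρ₁ < w.1` if they have norm `≥ ρ₂`. -/
def Reg (τ ρ : F) : Set (F × F) :=
  {w | w.2 ≤ τ * (w.1 + ρ) + ρ ∧ -(τ * (w.1 + ρ) + ρ) ≤ w.2 ∧ -ρ ≤ w.1}

/-- Proof: linear inequalities. -/
theorem Reg.tri {τ ρ : F} {a b c : F × F} (ha : a ∈ Reg τ ρ) (hb : b ∈ Reg τ ρ)
    (hc : c ∈ Reg τ ρ) : Tri a b c ⊆ Reg τ ρ := by
  rintro w ⟨x, y, z, hx, hy, hz, hsum, rfl⟩
  obtain ⟨a1, a2, a3⟩ := ha
  obtain ⟨b1, b2, b3⟩ := hb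
  obtain ⟨c1, c2, c3⟩ := hc
  have e : x = 1 - y - z := by linarith
  have hf : (x • a + y • b + z • c).1 = x * a.1 + y * b.1 + z * c.1 := by
    simp [smul_eq_mul]
  have hs : (x • a + y • b + z • c).2 = x * a.2 + y * b.2 + z * c.2 := by
    simp [smul_eq_mul]
  refine ⟨?_, ?_, ?_⟩
  · rw [hf, hs]
    have h1 := mul_le_mul_of_nonneg_left a1 hx
    have h2 := mul_le_mul_of_nonneg_left b1 hy
    have h3 := mul_le_mul_of_nonneg_left c1 hz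
    have h4 : x * (τ * (a.1 + ρ) + ρ) + y * (τ * (b.1 + ρ) + ρ) + z * (τ * (c.1 + ρ) + ρ) =
        τ * (x * a.1 + y * b.1 + z * c.1 + ρ) + ρ := by
      rw [e]; ring
    linarith
  · rw [hf, hs]
    have h1 := mul_le_mul_of_nonneg_left a2 hx
    have h2 := mul_le_mul_of_nonneg_left b2 hy
    have h3 := mul_le_mul_of_nonneg_left c2 hz
    have h4 : x * -(τ * (a.1 + ρ) + ρ) + y * -(τ * (b.1 + ρ) + ρ) +
        z * -(τ * (c.1 + ρ) + ρ) = -(τ * (x * a.1 + y * b.1 + z * c.1 + ρ) + ρ) := by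
      rw [e]; ring
    linarith
  · rw [hf]
    have h1 := mul_le_mul_of_nonneg_left a3 hx
    have h2 := mul_le_mul_of_nonneg_left b3 hy
    have h3 := mul_le_mul_of_nonneg_left c3 hz
    have h4 : x * -ρ + y * -ρ + z * -ρ = -ρ := by rw [e]; ring
    linarith

private theorem g1_n {τ : F} (hτ : 0 ≤ τ) (hτ1 : Bd τ 1) : ∃ n : ℕ, τ ≤ n := by
  obtain ⟨n, hn⟩ := hτ1
  rw [abs_one, mul_one, abs_of_nonneg hτ] at hn
  exact ⟨n, hn⟩

theorem Reg.box {τ ρ : F} (hτ : 0 ≤ τ) (hρ : 0 ≤ ρ) {d : F × F} (hd : nrm d ≤ ρ) :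
    d ∈ Reg τ ρ := by
  obtain ⟨h1, h2⟩ := nrm_le.1 hd
  obtain ⟨h3, h4⟩ := abs_le.1 h1
  obtain ⟨h5, h6⟩ := abs_le.1 h2
  have h7 : 0 ≤ τ * (d.1 + ρ) := mul_nonneg hτ (by linarith)
  exact ⟨by linarith, by linarith, h3⟩

/-- Proof: if `w.1 ≤ ρ₁` then `nrm w ≤ (2 τ + 1) ρ₁`, and `Sm ρ₁ ρ₂`, `Bd τ 1` give
`(2 τ + 1) ρ₁ < ρ₂`. -/
theorem Reg.out {τ ρ₁ ρ₂ : F} (hτ : 0 ≤ τ) (hτ1 : Bd τ 1) (hρ₁ : 0 < ρ₁) (hρ₂ : 0 < ρ₂)
    (hsm : Sm ρ₁ ρ₂) {w : F × F} (hw : w ∈ Reg τ ρ₁) (hn : ρ₂ ≤ nrm w) : ρ₁ < w.1 := by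
  obtain ⟨n, hn1⟩ := g1_n hτ hτ1
  by_contra hcon
  push Not at hcon
  obtain ⟨h1, h2, h3⟩ := hw
  have h4 : τ * (w.1 + ρ₁) ≤ n * (2 * ρ₁) :=
    mul_le_mul hn1 (by linarith) (by linarith) (Nat.cast_nonneg n)
  have h5 := hsm (2 * n + 1)
  rw [abs_of_pos hρ₁, abs_of_pos hρ₂] at h5
  push_cast at h5
  have h6 : nrm w ≤ (2 * n + 1) * ρ₁ := by
    rw [nrm_le]
    have h7 : 0 ≤ (n : F) * ρ₁ := mul_nonneg (Nat.cast_nonneg n) hρ₁.le
    constructor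
    · rw [abs_le]
      constructor <;> linarith
    · rw [abs_le]
      constructor <;> linarith
  linarith

/-- Outer points of `Reg` for limited `τ`: `|w.2| ≤ (2 τ + small) w.1`; in particular
`Bd w.2 w.1`. Proof: `ρ₁ < w.1` gives `|w.2| ≤ (2 τ + 1) w.1`. -/
theorem Reg.fat {τ ρ₁ ρ₂ : F} (hτ : 0 ≤ τ) (hτ1 : Bd τ 1) (hρ₁ : 0 < ρ₁) (hρ₂ : 0 < ρ₂)
    (hsm : Sm ρ₁ ρ₂) {w : F × F} (hw : w ∈ Reg τ ρ₁) (hn : ρ₂ ≤ nrm w) :
    0 < w.1 ∧ Bd w.2 w.1 := by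
  obtain ⟨n, hn1⟩ := g1_n hτ hτ1
  have h0 := Reg.out hτ hτ1 hρ₁ hρ₂ hsm hw hn
  have hw1 : 0 < w.1 := hρ₁.trans h0
  refine ⟨hw1, 2 * n + 1, ?_⟩
  obtain ⟨h1, h2, h3⟩ := hw
  have h4 : τ * (w.1 + ρ₁) ≤ n * (2 * w.1) :=
    mul_le_mul hn1 (by linarith) (by linarith) (Nat.cast_nonneg n)
  rw [abs_of_pos hw1, abs_le]
  push_cast
  constructor <;> linarith

/-- Outer points of `Reg` for infinitesimal `τ` are of class `TT`. Proof: `|w.2| ≤ 2 τ w.1 + ρ₁`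
(`ρ₁ < w.1`); if `nrm w = |w.2|` then `ρ₂ ≤ |w.2| ≤ 2 τ w.1 + ρ₁` gives `Bd w.2 (τ w.1)`, so
`Sm w.2 w.1`; if `nrm w = w.1` then `ρ₁` is infinitely smaller than `w.1`. -/
theorem Reg.thin {τ ρ₁ ρ₂ : F} (hτ : 0 ≤ τ) (hτ1 : Sm τ 1) (hρ₁ : 0 < ρ₁) (hρ₂ : 0 < ρ₂)
    (hsm : Sm ρ₁ ρ₂) {w : F × F} (hw : w ∈ Reg τ ρ₁) (hn : ρ₂ ≤ nrm w) : TT w := by
  have h0 := Reg.out hτ hτ1.bd hρ₁ hρ₂ hsm hw hn
  have hw1 : 0 < w.1 := hρ₁.trans h0
  refine ⟨hw1, fun n => ?_⟩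
  obtain ⟨h1, h2, h3⟩ := hw
  have hn0 : (0 : F) ≤ n := Nat.cast_nonneg n
  have h4 : τ * (w.1 + ρ₁) ≤ 2 * τ * w.1 := by
    have := mul_le_mul_of_nonneg_left h0.le hτ
    linarith
  have h5 : |w.2| ≤ 2 * τ * w.1 + ρ₁ := by
    rw [abs_le]
    constructor <;> linarith
  have h6 := hτ1 (4 * n + 4)
  rw [abs_one, abs_of_nonneg hτ] at h6
  push_cast at h6
  have h7 : (4 * n + 4) * τ * w.1 < w.1 := by
    have := mul_lt_mul_of_pos_right h6 hw1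
    linarith
  have h8 : 0 ≤ τ * w.1 := mul_nonneg hτ hw1.le
  have h9 : n * |w.2| ≤ n * (2 * τ * w.1 + ρ₁) := mul_le_mul_of_nonneg_left h5 hn0
  rw [abs_of_pos hw1]
  rcases le_total |w.2| |w.1| with h | h
  · have e : nrm w = w.1 := by
      have : nrm w = |w.1| := max_eq_left h
      rw [this, abs_of_pos hw1]
    rw [e] at hn
    have h10 := hsm (2 * n + 2)
    rw [abs_of_pos hρ₁, abs_of_pos hρ₂] at h10
    push_cast at h10
    linarith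
  · have e : nrm w = |w.2| := max_eq_right h
    rw [e] at hn
    have h10 := hsm 2
    rw [abs_of_pos hρ₁, abs_of_pos hρ₂] at h10
    push_cast at h10
    have h11 : |w.2| ≤ 4 * τ * w.1 := by linarith
    have h12 : n * |w.2| ≤ n * (4 * τ * w.1) := mul_le_mul_of_nonneg_left h11 hn0
    linarith

/-- The outer part of `Reg` is internal: half planes, and `ρ₁ < w.1`. -/
theorem World.I_reg {X : Set (F × F)} (hI : X ∈ W.I) (τ ρ : F) :
    {w ∈ X | w ∈ Reg τ ρ ∧ ρ < w.1} ∈ W.I := by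
  have h1 := W.I_half _ hI (-τ) 1 (τ * ρ + ρ)
  have h2 := W.I_half _ h1 (-τ) (-1) (τ * ρ + ρ)
  have h3 := W.I_half _ h2 (-1) 0 ρ
  have h4 := W.I_gt h3 1 0 ρ
  convert h4 using 1
  ext w
  simp only [Reg, Set.mem_setOf_eq]
  constructor
  · rintro ⟨k0, ⟨k1, k2, k3⟩, k4⟩
    exact ⟨⟨⟨⟨k0, by linarith⟩, by linarith⟩, by linarith⟩, by linarith⟩
  · rintro ⟨⟨⟨⟨k0, k1⟩, k2⟩, k3⟩, k4⟩
    exact ⟨k0, ⟨by linarith, by linarith, by linarith⟩, by linarith⟩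

/-- Selection of two outer points. `a₀`, `b₀` lie in the wedge `|p.2| ≤ τ * p.1`.

Proof. `S = {w ∈ X | w ∈ Reg τ ρ₁ ∧ ρ₁ < w.1}` is internal and contains `a₀`, `b₀` (they are in
`Reg` and outer: `Reg.out`). Let `a` be a point of `S` with smallest first coordinate (`argmin`) and
`b` such a point of `S \ {a}`. Their norms are `> ρ₁`, so `≥ ρ₂` by `hgap`. Let `nrm d ≤ ρ₁`,
`w ∈ X`, `w = x a + y b + z d`, `w ≠ a, b`, and suppose `ρ₁ < nrm w`. Then `w ∈ Reg` (`Reg.tri`,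
`Reg.box`), `ρ₂ ≤ nrm w`, `ρ₁ < w.1`, so `w ∈ S \ {a, b}` and `a.1 ≤ b.1 ≤ w.1`. But
`w.1 ≤ (x + y) b.1 + z ρ₁`, so `z = 0` (as `ρ₁ < b.1`); then `a, b, w` are collinear
(`w - a = y (b - a)`), contradiction to `GP`. -/
theorem World.sel {X : Set (F × F)} (hI : X ∈ W.I) (hX : GP X) {τ ρ₁ ρ₂ : F} (hτ : 0 ≤ τ)
    (hτ1 : Bd τ 1) (hρ₁ : 0 < ρ₁) (hρ₂ : 0 < ρ₂) (hsm : Sm ρ₁ ρ₂)
    (hgap : ∀ x ∈ X, nrm x ≤ ρ₁ ∨ ρ₂ ≤ nrm x) {a₀ b₀ : F × F} (ha₀ : a₀ ∈ X) (hb₀ : b₀ ∈ X)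
    (hab : a₀ ≠ b₀) (ha1 : |a₀.2| ≤ τ * a₀.1) (hb1 : |b₀.2| ≤ τ * b₀.1) (ha2 : 0 < a₀.1)
    (hb2 : 0 < b₀.1) (ha3 : ρ₂ ≤ nrm a₀) (hb3 : ρ₂ ≤ nrm b₀) :
    ∃ a ∈ X, ∃ b ∈ X, a ≠ b ∧ a ∈ Reg τ ρ₁ ∧ b ∈ Reg τ ρ₁ ∧ ρ₂ ≤ nrm a ∧ ρ₂ ≤ nrm b ∧
      ∀ d, nrm d ≤ ρ₁ → ∀ w ∈ X, w ∈ Tri a b d → w = a ∨ w = b ∨ nrm w ≤ ρ₁ := by
  have hin : ∀ p ∈ X, |p.2| ≤ τ * p.1 → 0 < p.1 → ρ₂ ≤ nrm p →
      p ∈ {w ∈ X | w ∈ Reg τ ρ₁ ∧ ρ₁ < w.1} := by
    intro p hp h1 h2 h3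
    have h4 : 0 ≤ τ * ρ₁ := mul_nonneg hτ hρ₁.le
    obtain ⟨h5, h6⟩ := abs_le.1 h1
    have hr : p ∈ Reg τ ρ₁ := ⟨by linarith, by linarith, by linarith⟩
    exact ⟨hp, hr, Reg.out hτ hτ1 hρ₁ hρ₂ hsm hr h3⟩
  have hSI := W.I_reg hI τ ρ₁
  have haS := hin a₀ ha₀ ha1 ha2 ha3
  have hbS := hin b₀ hb₀ hb1 hb2 hb3
  obtain ⟨S, hS⟩ : ∃ S, S = {w ∈ X | w ∈ Reg τ ρ₁ ∧ ρ₁ < w.1} := ⟨_, rfl⟩
  have hSm : ∀ w, w ∈ S ↔ w ∈ X ∧ w ∈ Reg τ ρ₁ ∧ ρ₁ < w.1 := fun w => by rw [hS]; rfl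
  rw [← hS] at hSI haS hbS
  obtain ⟨a, ha, hamin⟩ := W.argmin S hSI ⟨a₀, haS⟩ 1 0
  have hS'I := W.I_diff_finite hSI (Set.finite_singleton a)
  have hS'ne : (S \ {a}).Nonempty := by
    by_cases h : a₀ = a
    · exact ⟨b₀, hbS, fun h' => hab (h.trans (Set.mem_singleton_iff.1 h').symm)⟩
    · exact ⟨a₀, haS, h⟩
  obtain ⟨b, hb, hbmin⟩ := W.argmin _ hS'I hS'ne 1 0
  have hba : b ≠ a := hb.2
  obtain ⟨haX, haR, haρ⟩ := (hSm a).1 ha
  obtain ⟨hbX, hbR, hbρ⟩ := (hSm b).1 hb.1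
  have hbig : ∀ p ∈ X, ρ₁ < p.1 → ρ₂ ≤ nrm p := by
    intro p hp h1
    rcases hgap p hp with h | h
    · exact absurd (((le_abs_self p.1).trans (abs_fst_le p)).trans h) (not_le.2 h1)
    · exact h
  refine ⟨a, haX, b, hbX, hba.symm, haR, hbR, hbig a haX haρ, hbig b hbX hbρ, ?_⟩
  intro d hd w hwX hw
  by_contra hcon
  push Not at hcon
  obtain ⟨hwa, hwb, hwn⟩ := hcon
  have hwR : w ∈ Reg τ ρ₁ := Reg.tri haR hbR (Reg.box hτ hρ₁.le hd) hw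
  have hw2 : ρ₂ ≤ nrm w := (hgap w hwX).resolve_left (not_le.2 hwn)
  have hw1 := Reg.out hτ hτ1 hρ₁ hρ₂ hsm hwR hw2
  have hwS : w ∈ S := (hSm w).2 ⟨hwX, hwR, hw1⟩
  have h1 := hbmin w ⟨hwS, hwa⟩
  have h2 := hamin b hb.1
  obtain ⟨x, y, z, hx, hy, hz, hsum, hweq⟩ := hw
  have hf : w.1 = x * a.1 + y * b.1 + z * d.1 := by
    rw [hweq]; simp [smul_eq_mul]
  have hd1 : d.1 ≤ ρ₁ := ((le_abs_self _).trans (abs_fst_le d)).trans hd
  have h3 : x * a.1 ≤ x * b.1 := mul_le_mul_of_nonneg_left (by linarith) hx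
  have h4 : z * d.1 ≤ z * ρ₁ := mul_le_mul_of_nonneg_left hd1 hz
  have h5 : x = 1 - y - z := by linarith
  have hz0 : z = 0 := by
    have h6 : z * (b.1 - ρ₁) ≤ 0 := by
      have h7 : x * b.1 + y * b.1 = (1 - z) * b.1 := by rw [h5]; ring
      have h8 : b.1 ≤ w.1 := by linarith
      linarith
    by_contra h0
    have h7 : 0 < z := lt_of_le_of_ne hz (Ne.symm h0)
    have h8 : 0 < z * (b.1 - ρ₁) := mul_pos h7 (by linarith)
    linarith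
  have hx1 : x = 1 - y := by rw [h5, hz0]; ring
  have hwab : w - a = y • (b - a) := by
    rw [hweq, hz0, hx1, zero_smul, add_zero, sub_smul, one_smul, smul_sub]
    abel
  apply hX a haX b hbX w hwX hba.symm (Ne.symm hwa) (Ne.symm hwb)
  rw [hwab, cr_smul_right, cr_self, mul_zero]

end Pool.Agent.Lib.MP_8bcb9d_co.W
end

section

section

/-!
# World Fin: Lemma B (few shells with a point off the direction of two outer points)
-/

set_option autoImplicit false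

namespace Pool.Agent.Lib.MP_8bcb9d_co.W

variable {F G : Type} [Field F] [LinearOrder F] [IsStrictOrderedRing F]
  [AddCommGroup G] [LinearOrder G] [IsOrderedAddMonoid G] (W : World F G)

/-- A cone class: closed under addition and positive multiples, and invariant under infinitely
small relative perturbations. -/
structure ConeC (P : F × F → Prop) : Prop where
  ne : ∀ p, P p → p ≠ 0
  add : ∀ p q, P p → P q → P (p + q)
  smul : ∀ (a : F) (p : F × F), 0 < a → P p → P (a • p)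
  pert : ∀ p d, P p → Sm (nrm d) (nrm p) → P (p + d)

theorem coneTT : ConeC (F := F) TT where
  ne _ h := h.ne
  add _ _ h h' := h.add h'
  smul _ _ ha h := h.smul ha
  pert _ _ h h' := h.pert h'

theorem coneUU : ConeC (F := F) UU where
  ne _ h := h.ne
  add _ _ h h' := h.add h'
  smul _ _ ha h := h.smul ha
  pert _ _ h h' := h.pert h'

/-- No cancellation in a cone class. Proof: otherwise `nrm (p + q)` is infinitely smaller than
`nrm p` (if not, we are done); then `-q = p - (p + q)` is in the class by `pert`, and so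
`0 = q + (-q)` is, contradiction to `ne`. -/
theorem ConeC.bd {P : F × F → Prop} (hP : ConeC P) {p q : F × F} (hp : P p) (hq : P q) :
    Bd (nrm p) (nrm (p + q)) := by
  by_contra hcon
  rw [not_Bd] at hcon
  have h1 : P (p + -(p + q)) := hP.pert p (-(p + q)) hp (by rw [nrm_neg]; exact hcon)
  have h2 : p + -(p + q) = -q := by abel
  rw [h2] at h1
  have h3 := hP.add q (-q) hq h1
  rw [add_neg_cancel] at h3
  exact hP.ne 0 h3 rfl

private theorem g1b_sm {P : F × F → Prop} (hP : ConeC P) {ρ₁ ρ₂ α : F} (hρ₂ : 0 < ρ₂)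
    (hsm : Sm ρ₁ ρ₂) {a r : F × F} (ha : P a) (ha2 : ρ₂ ≤ nrm a) (hα : 0 ≤ α)
    (hr : r = 0 ∨ P r) (hb : Bd (nrm (α • a + r)) ρ₁) : Sm α 1 := by
  rcases hα.eq_or_lt with h0 | h0
  · rw [← h0]
    exact Sm.zero one_ne_zero
  have hPa : P (α • a) := hP.smul α a h0 ha
  have h1 : Bd (nrm (α • a)) (nrm (α • a + r)) := by
    rcases hr with rfl | hr
    · rw [add_zero]
      exact Bd.refl _
    · exact hP.bd hPa hr
  have h2 : Sm (nrm (α • a)) ρ₂ := (h1.trans hb).trans_sm hsm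
  have h3 : Sm (ρ₂ * α) (ρ₂ * 1) := by
    rw [mul_one]
    refine (Bd.of_le ?_).trans_sm h2
    rw [abs_nrm, nrm_smul, abs_mul, abs_of_pos hρ₂, abs_of_pos h0, mul_comm]
    exact mul_le_mul_of_nonneg_left ha2 h0.le
  exact h3.of_mul_left hρ₂.ne'

/-- The core of Lemma B: `a`, `b` are far points of the class, `f` a near point, neither in the
class nor opposite to it, `y` a near point of the triangle `a b f`. Then `y` has the exponent of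
`f`, or `y` is in the class and farther away than `f`.

Proof. `y = α a + β b + γ f`. Let `g = α a + β b`. `nrm g ≤ nrm y + nrm f ≤ 2 ρ₁`. By `ConeC.bd`
(applied to `α a` and `β b` and conversely; a zero weight is trivial) `α * nrm a` and `β * nrm b`
are bounded multiples of `nrm g`, so `Sm α 1`, `Sm β 1` and `γ = 1 - α - β` satisfies `1/2 ≤ γ ≤ 1`.
If `g = 0` then `y = γ f` and `e y = e f`. Otherwise `P g`. If `Sm (nrm g) (nrm f)`: `e y = e f`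
(`e_add_sm`, `e_smul`, `v γ = 0`). Otherwise `Bd (nrm f) (nrm g)`.
Claim `Bd (nrm f) (nrm y)`: if not, `Sm (nrm y) (nrm f)`, hence `Sm (nrm y) (nrm g)`, and
`-(γ f) = g - y` is in the class (`pert`), so `P (-f)` (`smul`), contradiction. If also
`Bd (nrm y) (nrm f)` then `e y = e f`. Otherwise `Sm (nrm f) (nrm y)`; then `e y < e f`, and
`g = y - γ f` has `Bd (nrm y) (nrm g)`, so `Sm (nrm (γ f)) (nrm g)` and `P y` (`pert`). -/
theorem World.lb_core {P : F × F → Prop} (hP : ConeC P) {ρ₁ ρ₂ : F} (hρ₁ : 0 < ρ₁)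
    (hρ₂ : 0 < ρ₂) (hsm : Sm ρ₁ ρ₂) {a b f y : F × F} (ha : P a) (hb : P b) (ha2 : ρ₂ ≤ nrm a)
    (hb2 : ρ₂ ≤ nrm b) (hf0 : f ≠ 0) (hf : nrm f ≤ ρ₁) (hf1 : ¬ P f) (hf2 : ¬ P (-f))
    (hy : nrm y ≤ ρ₁) (hyt : y ∈ Tri a b f) :
    y ≠ 0 ∧ (W.e y = W.e f ∨ (P y ∧ W.e y < W.e f)) := by
  obtain ⟨α, β, γ, hα, hβ, hγ, hsum, hye⟩ := hyt
  set g : F × F := α • a + β • b with hg
  have hyg : y = γ • f + g := by rw [hye, hg, add_comm]
  have hfn := nrm_nonneg f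
  have hfpos : 0 < nrm f := nrm_pos.2 hf0
  have hγ1 : γ ≤ 1 := by linarith
  have hgf : nrm (γ • f) ≤ nrm f := by
    rw [nrm_smul, abs_of_nonneg hγ]
    nlinarith
  have hgle : nrm g ≤ 2 * ρ₁ := by
    have h1 : g = y - γ • f := by rw [hyg, add_sub_cancel_left]
    rw [h1]
    have := nrm_sub y (γ • f)
    linarith
  have hgb : Bd (nrm g) ρ₁ := ⟨2, by rw [abs_nrm, abs_of_pos hρ₁]; push_cast; exact hgle⟩
  have hra : (β • b : F × F) = 0 ∨ P (β • b) := by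
    rcases hβ.eq_or_lt with h | h
    · left
      rw [← h, zero_smul]
    · exact Or.inr (hP.smul β b h hb)
  have hrb : (α • a : F × F) = 0 ∨ P (α • a) := by
    rcases hα.eq_or_lt with h | h
    · left
      rw [← h, zero_smul]
    · exact Or.inr (hP.smul α a h ha)
  have hsa : Sm α 1 := g1b_sm hP hρ₂ hsm ha ha2 hα hra hgb
  have hsb : Sm β 1 := g1b_sm hP hρ₂ hsm hb hb2 hβ hrb (by rw [add_comm]; exact hgb)
  have hγ2 : 1 ≤ 2 * γ := by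
    have h1 := (hsa.add hsb).two
    rw [abs_one, abs_of_nonneg (add_nonneg hα hβ)] at h1
    linarith
  have hγ0 : 0 < γ := by linarith
  have hvγ : W.v γ = 0 := by
    rw [← W.v_one]
    refine W.v_eq hγ0.ne' one_ne_zero (Bd.of_le ?_) ⟨2, ?_⟩
    · rw [abs_one, abs_of_pos hγ0]
      exact hγ1
    · rw [abs_one, abs_of_pos hγ0]
      push_cast
      exact hγ2
  have heγ : W.e (γ • f) = W.e f := by rw [W.e_smul hγ0.ne' hf0, hvγ, zero_add]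
  have hγf0 : γ • f ≠ 0 := smul_ne_zero hγ0.ne' hf0
  have hbf : Bd (nrm f) (nrm (γ • f)) := by
    refine ⟨2, ?_⟩
    rw [abs_nrm, abs_nrm, nrm_smul, abs_of_pos hγ0]
    push_cast
    nlinarith
  by_cases hg0 : g = 0
  · rw [hg0, add_zero] at hyg
    rw [hyg]
    exact ⟨hγf0, Or.inl heγ⟩
  have hPg : P g := by
    rcases hrb with h | h
    · rcases hra with h' | h'
      · exact absurd (by rw [hg, h, h', add_zero]) hg0
      · rw [hg, h, zero_add]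
        exact h'
    · rcases hra with h' | h'
      · rw [hg, h', add_zero]
        exact h
      · exact hP.add _ _ h h'
  by_cases hsg : Sm (nrm g) (nrm f)
  · have h1 := W.e_add_sm (hsg.trans_bd hbf)
    rw [hyg]
    exact ⟨h1.1, Or.inl (h1.2.trans heγ)⟩
  rw [not_Sm] at hsg
  have hfy : Bd (nrm f) (nrm y) := by
    by_contra hcon
    rw [not_Bd] at hcon
    have h1 : Sm (nrm (-y)) (nrm g) := by
      rw [nrm_neg]
      exact hcon.trans_bd hsg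
    have h2 := hP.pert g (-y) hPg h1
    have h3 : g + -y = -(γ • f) := by rw [hyg]; abel
    rw [h3] at h2
    have h4 := hP.smul γ⁻¹ _ (inv_pos.2 hγ0) h2
    rw [smul_neg, smul_smul, inv_mul_cancel₀ hγ0.ne', one_smul] at h4
    exact hf2 h4
  have hy0 : y ≠ 0 := by
    rintro rfl
    obtain ⟨n, hn⟩ := hfy
    rw [abs_nrm, abs_nrm, nrm_eq_zero.2 rfl, mul_zero] at hn
    linarith
  refine ⟨hy0, ?_⟩
  by_cases hyf : Bd (nrm y) (nrm f)
  · exact Or.inl (le_antisymm ((W.e_le hy0 hf0).2 hfy) ((W.e_le hf0 hy0).2 hyf))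
  · rw [not_Bd] at hyf
    refine Or.inr ⟨?_, (W.e_lt hy0 hf0).2 hyf⟩
    have h1 : nrm y ≤ nrm (γ • f) + nrm g := by
      rw [hyg]
      exact nrm_add _ _
    have h2 := hyf.two
    rw [abs_nrm, abs_nrm] at h2
    have h3 : Bd (nrm y) (nrm g) := by
      refine ⟨2, ?_⟩
      rw [abs_nrm, abs_nrm]
      push_cast
      linarith
    have h4 : Sm (nrm (γ • f)) (nrm g) := by
      refine (Bd.of_le ?_).trans_sm (hyf.trans_bd h3)
      rw [abs_nrm, abs_nrm]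
      exact hgf
    have h5 := hP.pert g (γ • f) hPg h4
    rw [hyg, add_comm]
    exact h5

/-- Lemma B for a cone class. `hsel` is the output of `World.sel`.

Proof. For `t` in the set choose `f ∈ X` with `e f = t`. As `t₁ < e f`, `nrm f ≤ ρ₁`. `f ≠ a, b`.
`World.partner` gives `y ∈ Lnk X a b`, `y ∈ Tri a b f`; by `hsel` `nrm y ≤ ρ₁` (`y ≠ a, b`).
`lb_core`: `e y = t`, or `P y` and `e y < t`. The second is impossible: by the last condition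
`e y ≤ t₁`, but `nrm y ≤ ρ₁` and `y ≠ 0` mean `t₁ < e y` (`hgap`, the two alternatives exclude each
other because `ρ₁ < ρ₂`). So `e y = t`: the set is contained in the image of `Lnk X a b` under `e`
(`Set.encard_image_le`). -/
theorem World.lb_cone {P : F × F → Prop} (hP : ConeC P) {X : Set (F × F)} (hI : X ∈ W.I)
    (hX : KB W.K X) {t₁ : G} {ρ₁ ρ₂ : F} (hρ₁ : 0 < ρ₁) (hρ₂ : 0 < ρ₂) (hsm : Sm ρ₁ ρ₂)
    (hgap : ∀ x ∈ X, (nrm x ≤ ρ₁ ∧ (x = 0 ∨ t₁ < W.e x)) ∨ (ρ₂ ≤ nrm x ∧ x ≠ 0 ∧ W.e x ≤ t₁))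
    {a b : F × F} (haX : a ∈ X) (hbX : b ∈ X) (hab : a ≠ b) (ha : P a) (hb : P b)
    (ha2 : ρ₂ ≤ nrm a) (hb2 : ρ₂ ≤ nrm b)
    (hsel : ∀ d, nrm d ≤ ρ₁ → ∀ w ∈ X, w ∈ Tri a b d → w = a ∨ w = b ∨ nrm w ≤ ρ₁) :
    {t | t₁ < t ∧ (∃ f ∈ X, f ≠ 0 ∧ ¬ P f ∧ ¬ P (-f) ∧ W.e f = t) ∧
      ∀ w ∈ X, P w → W.e w ≤ t₁ ∨ t ≤ W.e w}.encard ≤ W.K := by
  have hρ : ρ₁ < ρ₂ := by
    have := hsm.lt
    rwa [abs_of_pos hρ₁, abs_of_pos hρ₂] at this
  have hsub : {t | t₁ < t ∧ (∃ f ∈ X, f ≠ 0 ∧ ¬ P f ∧ ¬ P (-f) ∧ W.e f = t) ∧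
      ∀ w ∈ X, P w → W.e w ≤ t₁ ∨ t ≤ W.e w} ⊆ W.e '' Lnk X a b := by
    rintro t ⟨ht, ⟨f, hfX, hf0, hf1, hf2, hft⟩, hlast⟩
    have hfn : nrm f ≤ ρ₁ := by
      rcases hgap f hfX with h | h
      · exact h.1
      · rw [hft] at h
        exact absurd h.2.2 (not_le.2 ht)
    have hfa : f ≠ a := by
      rintro rfl
      exact hf1 ha
    have hfb : f ≠ b := by
      rintro rfl
      exact hf1 hb
    obtain ⟨y, hyL, hyT⟩ := W.partner hI hX.gp haX hbX hfX hab hfa hfb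
    have hyn : nrm y ≤ ρ₁ := by
      rcases hsel f hfn y hyL.1 hyT with h | h | h
      · exact absurd h hyL.2.1
      · exact absurd h hyL.2.2.1
      · exact h
    obtain ⟨hy0, hyc⟩ := W.lb_core hP hρ₁ hρ₂ hsm ha hb ha2 hb2 hf0 hfn hf1 hf2 hyn hyT
    refine ⟨y, hyL, ?_⟩
    rcases hyc with h | ⟨h1, h2⟩
    · rw [h, hft]
    · exfalso
      have h3 : t₁ < W.e y := by
        rcases hgap y hyL.1 with h | h
        · exact h.2.resolve_left hy0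
        · exact absurd (h.1.trans hyn) (not_le.2 hρ)
      rw [hft] at h2
      rcases hlast y hyL.1 h1 with h4 | h4
      · exact absurd h4 (not_le.2 h3)
      · exact absurd h4 (not_le.2 h2)
  calc _ ≤ (W.e '' Lnk X a b).encard := Set.encard_le_encard hsub
    _ ≤ (Lnk X a b).encard := Set.encard_image_le _ _
    _ ≤ W.K := hX.deg a haX b hbX hab

end Pool.Agent.Lib.MP_8bcb9d_co.W
end

section

/-!
# World Fin: Lemma B for the classes `TT` and `UU`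
-/

set_option autoImplicit false

namespace Pool.Agent.Lib.MP_8bcb9d_co.W

variable {F G : Type} [Field F] [LinearOrder F] [IsStrictOrderedRing F]
  [AddCommGroup G] [LinearOrder G] [IsOrderedAddMonoid G] (W : World F G)

/-- swap of the coordinates -/
def sw (p : F × F) : F × F := (p.2, p.1)

theorem nrm_sw (p : F × F) : nrm (sw p) = nrm p := by
  simp [nrm, sw, max_comm]

omit [LinearOrder F] [IsStrictOrderedRing F] in
private theorem sw_eq_affine :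
    (fun p : F × F => ((0 : F) * p.1 + 1 * p.2 + 0, 1 * p.1 + 0 * p.2 + 0)) = sw := by
  funext p
  simp [sw]

/-- Proof: `I_affine`. -/
theorem World.I_sw {X : Set (F × F)} (hI : X ∈ W.I) : sw '' X ∈ W.I := by
  have h := W.I_affine hI 0 1 0 1 0 0
  rwa [sw_eq_affine] at h

/-- Proof: `KB.affine`. -/
theorem KB.sw {K : ℕ} {X : Set (F × F)} (hX : KB K X) :
    KB K (Pool.Agent.Lib.MP_8bcb9d_co.W.sw '' X) := by
  have h := hX.affine (a := 0) (b := 1) (c := 0) (a' := 1) (b' := 0) (c' := 0) (by simp)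
  rwa [sw_eq_affine] at h

/-- Lemma B for `TT`. Proof: if no `f ∈ X` has exponent `> t₁` the set is empty. Otherwise take
`ρ₁, ρ₂` from `World.gap`, `τ` = the maximum of `|sl a|`, `|sl b|` for the two points of `h2`
(infinitesimal, `TT.sl_sm`), the two points of `World.sel` (of class `TT` by `Reg.thin`), and apply
`lb_cone` with `coneTT`; for `f ≠ 0`, `¬ TT f ∧ ¬ TT (-f)` iff `UU f ∨ UU (-f)`
(`classes`, `not_TT`). -/
theorem World.LBT {X : Set (F × F)} (hI : X ∈ W.I) (hX : KB W.K X) {t₁ : G}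
    (h2 : ∃ a ∈ X, ∃ b ∈ X, a ≠ b ∧ TT a ∧ TT b ∧ W.e a ≤ t₁ ∧ W.e b ≤ t₁) :
    {t | t₁ < t ∧ (∃ f ∈ X, (UU f ∨ UU (-f)) ∧ W.e f = t) ∧
      ∀ w ∈ X, TT w → W.e w ≤ t₁ ∨ t ≤ W.e w}.encard ≤ W.K := by
  by_cases hf : ∃ f ∈ X, f ≠ 0 ∧ t₁ < W.e f
  swap
  · have hempty : {t | t₁ < t ∧ (∃ f ∈ X, (UU f ∨ UU (-f)) ∧ W.e f = t) ∧
      ∀ w ∈ X, TT w → W.e w ≤ t₁ ∨ t ≤ W.e w} = ∅ := by
      ext t
      simp only [Set.mem_setOf_eq, Set.mem_empty_iff_false, iff_false]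
      rintro ⟨h1, ⟨f, hfX, hfU, rfl⟩, -⟩
      refine hf ⟨f, hfX, ?_, h1⟩
      rcases hfU with h | h
      · exact h.ne
      · exact neg_ne_zero.1 h.ne
    rw [hempty, Set.encard_empty]
    exact zero_le
  obtain ⟨ρ₁, ρ₂, hρ₁, hρ₂, hsm, -, hgap⟩ := W.gap hI hX hf
  obtain ⟨a₀, ha₀, b₀, hb₀, hab₀, hTa, hTb, hea, heb⟩ := h2
  have hout : ∀ a ∈ X, TT a → W.e a ≤ t₁ → ρ₂ ≤ nrm a := by
    intro a ha hT he
    rcases hgap a ha with ⟨-, h | h⟩ | ⟨h, -, -⟩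
    · exact absurd h hT.ne
    · exact absurd he (not_le.2 h)
    · exact h
  have hsl : ∀ a : F × F, TT a → |a.2| = |sl a| * a.1 := by
    intro a ha
    have h1 : 0 < a.1 := ha.1
    rw [sl, abs_div, abs_of_pos h1, div_mul_cancel₀ _ h1.ne']
  obtain ⟨a, haX, b, hbX, hab, haR, hbR, ha2, hb2, hsel⟩ :=
    W.sel hI hX.gp (τ := max |sl a₀| |sl b₀|) (ρ₁ := ρ₁) (ρ₂ := ρ₂)
      (le_max_of_le_left (abs_nonneg _))
      (by
        rcases max_choice |sl a₀| |sl b₀| with h | h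
        · rw [h]
          refine (Bd.of_le ?_).trans hTa.sl_sm.bd
          rw [abs_abs]
        · rw [h]
          refine (Bd.of_le ?_).trans hTb.sl_sm.bd
          rw [abs_abs])
      hρ₁ hρ₂ hsm
      (fun x hx => by
        rcases hgap x hx with ⟨h, -⟩ | ⟨h, -, -⟩
        · exact Or.inl h
        · exact Or.inr h)
      ha₀ hb₀ hab₀
      (by
        rw [hsl a₀ hTa]
        exact mul_le_mul_of_nonneg_right (le_max_left _ _) hTa.1.le)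
      (by
        rw [hsl b₀ hTb]
        exact mul_le_mul_of_nonneg_right (le_max_right _ _) hTb.1.le)
      hTa.1 hTb.1 (hout a₀ ha₀ hTa hea) (hout b₀ hb₀ hTb heb)
  have hτsm : Sm (max |sl a₀| |sl b₀|) 1 := by
    rcases max_choice |sl a₀| |sl b₀| with h | h
    · rw [h]
      refine (Bd.of_le ?_).trans_sm hTa.sl_sm
      rw [abs_abs]
    · rw [h]
      refine (Bd.of_le ?_).trans_sm hTb.sl_sm
      rw [abs_abs]
  have hτ0 : 0 ≤ max |sl a₀| |sl b₀| := le_max_of_le_left (abs_nonneg _)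
  have haT : TT a := Reg.thin hτ0 hτsm hρ₁ hρ₂ hsm haR ha2
  have hbT : TT b := Reg.thin hτ0 hτsm hρ₁ hρ₂ hsm hbR hb2
  have h := W.lb_cone coneTT hI hX hρ₁ hρ₂ hsm hgap haX hbX hab haT hbT ha2 hb2 hsel
  refine (Set.encard_le_encard ?_).trans h
  rintro t ⟨h1, ⟨f, hfX, hfU, hft⟩, h3⟩
  refine ⟨h1, ⟨f, hfX, ?_, ?_, ?_, hft⟩, h3⟩
  · rcases hfU with h | h
    · exact h.ne
    · exact neg_ne_zero.1 h.ne
  · rcases hfU with h | h
    · exact h.not_TT.1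
    · have := h.not_TT.2.1
      rwa [neg_neg] at this
  · rcases hfU with h | h
    · exact h.not_TT.2.1
    · exact h.not_TT.1

omit [LinearOrder F] [IsStrictOrderedRing F] in
private theorem sw_sw (p : F × F) : sw (sw p) = p := rfl

omit [LinearOrder F] [IsStrictOrderedRing F] in
private theorem sw_add (p q : F × F) : sw (p + q) = sw p + sw q := rfl

omit [LinearOrder F] [IsStrictOrderedRing F] in
private theorem sw_smul (a : F) (p : F × F) : sw (a • p) = a • sw p := rfl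

omit [LinearOrder F] [IsStrictOrderedRing F] in
private theorem sw_neg (p : F × F) : sw (-p) = -sw p := rfl

omit [LinearOrder F] [IsStrictOrderedRing F] in
private theorem sw_zero : sw (0 : F × F) = 0 := rfl

private theorem coneUsw : ConeC (F := F) (fun p => UU (sw p)) where
  ne p h := by
    rintro rfl
    exact h.ne sw_zero
  add p q h h' := by
    rw [sw_add]
    exact h.add h'
  smul a p ha h := by
    rw [sw_smul]
    exact h.smul ha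
  pert p d h h' := by
    rw [sw_add]
    refine h.pert ?_
    rw [nrm_sw, nrm_sw]
    exact h'

/-- Lemma B for `UU`. Proof: let `X' = sw '' X`, `P p ↔ UU (sw p)`, i.e. `0 < p.1 ∧ Bd p.2 p.1`
(a cone class because `UU` is). Take `ρ₁, ρ₂` from `World.gap` for `X'`, `τ` = a natural number
with `|a.1| ≤ τ * a.2` for both points `a` of `h2`; the two points of `World.sel` for `X'` satisfy
`P` by `Reg.fat`. `lb_cone` for `X'`; `f ≠ 0` is off `±P` iff `sw f` is in `±TT`. -/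
theorem World.LBU {X : Set (F × F)} (hI : X ∈ W.I) (hX : KB W.K X) {t₁ : G}
    (h2 : ∃ a ∈ X, ∃ b ∈ X, a ≠ b ∧ UU a ∧ UU b ∧ W.e a ≤ t₁ ∧ W.e b ≤ t₁) :
    {t | t₁ < t ∧ (∃ f ∈ X, (TT f ∨ TT (-f)) ∧ W.e f = t) ∧
      ∀ w ∈ X, UU w → W.e w ≤ t₁ ∨ t ≤ W.e w}.encard ≤ W.K := by
  have hesw : ∀ p : F × F, W.e (sw p) = W.e p := fun p => by rw [World.e, World.e, nrm_sw]
  by_cases hf : ∃ f ∈ X, f ≠ 0 ∧ t₁ < W.e f
  swap
  · have hempty : {t | t₁ < t ∧ (∃ f ∈ X, (TT f ∨ TT (-f)) ∧ W.e f = t) ∧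
      ∀ w ∈ X, UU w → W.e w ≤ t₁ ∨ t ≤ W.e w} = ∅ := by
      ext t
      simp only [Set.mem_setOf_eq, Set.mem_empty_iff_false, iff_false]
      rintro ⟨h1, ⟨f, hfX, hfU, rfl⟩, -⟩
      refine hf ⟨f, hfX, ?_, h1⟩
      rcases hfU with h | h
      · exact h.ne
      · exact neg_ne_zero.1 h.ne
    rw [hempty, Set.encard_empty]
    exact zero_le
  have hI' := W.I_sw hI
  have hX' := hX.sw
  have hf' : ∃ f ∈ sw '' X, f ≠ 0 ∧ t₁ < W.e f := by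
    obtain ⟨f, hfX, hf0, hft⟩ := hf
    refine ⟨sw f, ⟨f, hfX, rfl⟩, ?_, by rw [hesw]; exact hft⟩
    intro h0
    apply hf0
    have := congrArg sw h0
    rwa [sw_sw, sw_zero] at this
  obtain ⟨ρ₁, ρ₂, hρ₁, hρ₂, hsm, -, hgap⟩ := W.gap hI' hX' hf'
  obtain ⟨a₀, ha₀, b₀, hb₀, hab₀, hUa, hUb, hea, heb⟩ := h2
  have hout : ∀ a ∈ X, UU a → W.e a ≤ t₁ → ρ₂ ≤ nrm (sw a) := by
    intro a ha hT he
    rcases hgap (sw a) ⟨a, ha, rfl⟩ with ⟨-, h | h⟩ | ⟨h, -, -⟩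
    · have := congrArg sw h
      rw [sw_sw, sw_zero] at this
      exact absurd this hT.ne
    · rw [hesw] at h
      exact absurd he (not_le.2 h)
    · exact h
  obtain ⟨n, hn⟩ := hUa.2
  obtain ⟨m, hm⟩ := hUb.2
  rw [abs_of_pos hUa.1] at hn
  rw [abs_of_pos hUb.1] at hm
  have hn0 : (0 : F) ≤ n := Nat.cast_nonneg n
  have hm0 : (0 : F) ≤ m := Nat.cast_nonneg m
  have hτ0 : (0 : F) ≤ ((n + m : ℕ) : F) := Nat.cast_nonneg _
  have hτb : Bd (((n + m : ℕ) : F)) 1 := Bd.nat _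
  obtain ⟨a, haX, b, hbX, hab, haR, hbR, ha2, hb2, hsel⟩ :=
    W.sel hI' hX'.gp (τ := ((n + m : ℕ) : F)) (ρ₁ := ρ₁) (ρ₂ := ρ₂) (a₀ := sw a₀) (b₀ := sw b₀)
      hτ0 hτb hρ₁ hρ₂ hsm
      (fun x hx => by
        rcases hgap x hx with ⟨h, -⟩ | ⟨h, -, -⟩
        · exact Or.inl h
        · exact Or.inr h)
      ⟨a₀, ha₀, rfl⟩ ⟨b₀, hb₀, rfl⟩
      (fun h => hab₀ (by
        have := congrArg sw h
        rwa [sw_sw, sw_sw] at this))
      (by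
        show |a₀.1| ≤ ((n + m : ℕ) : F) * a₀.2
        push_cast
        have := mul_nonneg hm0 hUa.1.le
        linarith)
      (by
        show |b₀.1| ≤ ((n + m : ℕ) : F) * b₀.2
        push_cast
        have := mul_nonneg hn0 hUb.1.le
        linarith)
      hUa.1 hUb.1 (hout a₀ ha₀ hUa hea) (hout b₀ hb₀ hUb heb)
  have haT : UU (sw a) := Reg.fat hτ0 hτb hρ₁ hρ₂ hsm haR ha2
  have hbT : UU (sw b) := Reg.fat hτ0 hτb hρ₁ hρ₂ hsm hbR hb2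
  have h := W.lb_cone coneUsw hI' hX' hρ₁ hρ₂ hsm hgap haX hbX hab haT hbT ha2 hb2 hsel
  refine (Set.encard_le_encard ?_).trans h
  rintro t ⟨h1, ⟨f, hfX, hfU, hft⟩, h3⟩
  refine ⟨h1, ⟨sw f, ⟨f, hfX, rfl⟩, ?_, ?_, ?_, by rw [hesw]; exact hft⟩, ?_⟩
  · intro h0
    have h0' := congrArg sw h0
    rw [sw_sw, sw_zero] at h0'
    rcases hfU with h | h
    · exact h.ne h0'
    · exact neg_ne_zero.1 h.ne h0'
  · show ¬ UU (sw (sw f))
    rw [sw_sw]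
    rcases hfU with h | h
    · exact h.not_UU.1
    · have := h.not_UU.2.1
      rwa [neg_neg] at this
  · show ¬ UU (sw (-sw f))
    rw [← sw_neg, sw_sw]
    rcases hfU with h | h
    · exact h.not_UU.2.1
    · exact h.not_UU.1
  · rintro _ ⟨w, hw, rfl⟩ hP
    rw [hesw]
    exact h3 w hw hP

end Pool.Agent.Lib.MP_8bcb9d_co.W
end
end
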