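import Mathlib
import Pool.Agent.Lib.MP_8bcb9d_co.W.G1c
import Pool.Agent.Lib.MP_8bcb9d_co.W.D2

section

section

/-!
# World Fin: calculus of finite nets
-/

set_option autoImplicit false

namespace Pool.Agent.Lib.MP_8bcb9d_co.W

variable {F G : Type} [Field F] [LinearOrder F] [IsStrictOrderedRing F]
  [AddCommGroup G] [LinearOrder G] [IsOrderedAddMonoid G] (W : World F G)

/-- symmetry and transitivity of being in one cell -/
theorem World.cell_symm {y : G} {p q : F × F} (h : p = q ∨ y ≤ W.e (p - q)) :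
    q = p ∨ y ≤ W.e (q - p) := by
  rcases h with h | h
  · exact Or.inl h.symm
  · right
    have h1 : q - p = -(p - q) := by abel
    rw [h1, W.e_neg]
    exact h

/-- Proof: `p - r = (p - q) + (q - r)`; the norm of the sum is at most twice the larger norm. -/
theorem World.cell_trans {y : G} {p q r : F × F} (h : p = q ∨ y ≤ W.e (p - q))
    (h' : q = r ∨ y ≤ W.e (q - r)) : p = r ∨ y ≤ W.e (p - r) := by
  rcases h with rfl | h
  · exact h'
  rcases h' with rfl | h'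
  · exact Or.inr h
  by_cases hpr : p = r
  · exact Or.inl hpr
  right
  by_cases hpq : p = q
  · rw [hpq]
    exact h'
  by_cases hqr : q = r
  · rw [← hqr]
    exact h
  have n1 : nrm (p - q) ≠ 0 := fun h0 => hpq (sub_eq_zero.1 (nrm_eq_zero.1 h0))
  have n2 : nrm (q - r) ≠ 0 := fun h0 => hqr (sub_eq_zero.1 (nrm_eq_zero.1 h0))
  have n3 : nrm (p - r) ≠ 0 := fun h0 => hpr (sub_eq_zero.1 (nrm_eq_zero.1 h0))
  have htri := nrm_triangle p q r
  rcases le_total (W.e (p - q)) (W.e (q - r)) with hle | hle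
  · have h1 : Bd (nrm (q - r)) (nrm (p - q)) := (W.v_le _ _ n1 n2).1 hle
    have h2 : Bd (nrm (p - r)) (nrm (p - q)) := by
      refine Bd.trans (Bd.of_le ?_) ((Bd.refl (nrm (p - q))).add h1)
      rw [abs_nrm, abs_of_nonneg (add_nonneg (nrm_nonneg _) (nrm_nonneg _))]
      exact htri
    exact h.trans ((W.v_le _ _ n1 n3).2 h2)
  · have h1 : Bd (nrm (p - q)) (nrm (q - r)) := (W.v_le _ _ n2 n1).1 hle
    have h2 : Bd (nrm (p - r)) (nrm (q - r)) := by
      refine Bd.trans (Bd.of_le ?_) (h1.add (Bd.refl (nrm (q - r))))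
      rw [abs_nrm, abs_of_nonneg (add_nonneg (nrm_nonneg _) (nrm_nonneg _))]
      exact htri
    exact h'.trans ((W.v_le _ _ n2 n3).2 h2)

variable {W}

theorem FinNet.mono {A : Set (F × F)} {y y' : G} (h : W.FinNet A y) (hy : y' ≤ y) :
    W.FinNet A y' := by
  obtain ⟨Z, hZ, hZA, h⟩ := h
  refine ⟨Z, hZ, hZA, fun p hp => ?_⟩
  obtain ⟨z, hz, h1⟩ := h p hp
  exact ⟨z, hz, h1.imp_right fun h2 => hy.trans h2⟩

theorem FinNet.of_finite {A : Set (F × F)} (h : A.Finite) (y : G) : W.FinNet A y := by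
  exact ⟨A, h, subset_rfl, fun p hp => ⟨p, hp, Or.inl rfl⟩⟩

/-- A finite coloring such that points of one color are in one cell. Proof: for each color that
occurs choose a point of that color. -/
theorem FinNet.of_map {α : Type} {A : Set (F × F)} {y : G} {Z : Set α} (hZ : Z.Finite)
    (g : F × F → α) (hg : ∀ p ∈ A, g p ∈ Z)
    (h : ∀ p ∈ A, ∀ q ∈ A, g p = g q → p = q ∨ y ≤ W.e (p - q)) : W.FinNet A y := by
  classical
  have hch : ∀ c : α, ∃ q : F × F, (∃ p ∈ A, g p = c) → q ∈ A ∧ g q = c := by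
    intro c
    by_cases h : ∃ p ∈ A, g p = c
    · obtain ⟨p, hp, hpc⟩ := h
      exact ⟨p, fun _ => ⟨hp, hpc⟩⟩
    · exact ⟨0, fun h' => absurd h' h⟩
  choose r hr using hch
  refine ⟨r '' (g '' A), ?_, ?_, ?_⟩
  · refine Set.Finite.image _ (hZ.subset ?_)
    rintro c ⟨p, hp, rfl⟩
    exact hg p hp
  · rintro q ⟨c, ⟨p, hp, rfl⟩, rfl⟩
    exact (hr (g p) ⟨p, hp, rfl⟩).1
  · intro p hp
    refine ⟨r (g p), ⟨g p, ⟨p, hp, rfl⟩, rfl⟩, ?_⟩
    have h1 := hr (g p) ⟨p, hp, rfl⟩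
    exact h p hp _ h1.1 h1.2.symm

/-- Finite unions. Proof: union of the nets. -/
theorem FinNet.biUnion {A : Set (F × F)} {y : G} {Z : Set (F × F)} (hZ : Z.Finite)
    (C : F × F → Set (F × F)) (hC : ∀ z ∈ Z, W.FinNet (C z) y) (hsub : ∀ z ∈ Z, C z ⊆ A)
    (hA : ∀ p ∈ A, ∃ z ∈ Z, p ∈ C z) : W.FinNet A y := by
  classical
  choose N hN using hC
  refine ⟨⋃ z : Z, N z z.2, ?_, ?_, ?_⟩
  · have := hZ.to_subtype
    exact Set.finite_iUnion fun z => (hN z z.2).1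
  · intro q hq
    obtain ⟨z, hz⟩ := Set.mem_iUnion.1 hq
    exact hsub z z.2 ((hN z z.2).2.1 hz)
  · intro p hp
    obtain ⟨z, hz, hpz⟩ := hA p hp
    obtain ⟨q, hq, h1⟩ := (hN z hz).2.2 p hpz
    exact ⟨q, Set.mem_iUnion.2 ⟨⟨z, hz⟩, hq⟩, h1⟩

/-- Images under maps which do not decrease the exponents of differences. -/
theorem FinNet.image {A : Set (F × F)} {y : G} (g : F × F → F × F)
    (hg : ∀ p ∈ A, ∀ q ∈ A, p ≠ q → g p = g q ∨ W.e (p - q) ≤ W.e (g p - g q))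
    (h : W.FinNet A y) : W.FinNet (g '' A) y := by
  obtain ⟨Z, hZ, hZA, h⟩ := h
  refine ⟨g '' Z, hZ.image g, Set.image_mono hZA, ?_⟩
  rintro _ ⟨p, hp, rfl⟩
  obtain ⟨z, hz, h1⟩ := h p hp
  refine ⟨g z, ⟨z, hz, rfl⟩, ?_⟩
  by_cases hpz : p = z
  · exact Or.inl (by rw [hpz])
  · rcases h1 with h1 | h1
    · exact absurd h1 hpz
    · rcases hg p hp z (hZA hz) hpz with h2 | h2
      · exact Or.inl h2
      · exact Or.inr (h1.trans h2)

/-- Preimages under maps which do not increase the exponents of differences. -/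
theorem FinNet.of_image {A : Set (F × F)} {y : G} (g : F × F → F × F)
    (hg : ∀ p ∈ A, ∀ q ∈ A, p ≠ q → g p ≠ g q ∧ W.e (g p - g q) ≤ W.e (p - q))
    (h : W.FinNet (g '' A) y) : W.FinNet A y := by
  classical
  obtain ⟨Z, hZ, hZA, h⟩ := h
  have hch : ∀ c : F × F, ∃ q : F × F, c ∈ g '' A → q ∈ A ∧ g q = c := by
    intro c
    by_cases h : c ∈ g '' A
    · obtain ⟨p, hp, hpc⟩ := h
      exact ⟨p, fun _ => ⟨hp, hpc⟩⟩
    · exact ⟨0, fun h' => absurd h' h⟩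
  choose r hr using hch
  refine ⟨r '' Z, hZ.image r, ?_, ?_⟩
  · rintro q ⟨c, hc, rfl⟩
    exact (hr c (hZA hc)).1
  · intro p hp
    obtain ⟨c, hc, h1⟩ := h (g p) ⟨p, hp, rfl⟩
    refine ⟨r c, ⟨c, hc, rfl⟩, ?_⟩
    have h2 := hr c (hZA hc)
    by_cases hpr : p = r c
    · exact Or.inl hpr
    · have h3 := hg p hp (r c) h2.1 hpr
      rw [h2.2] at h3
      rcases h1 with h1 | h1
      · exact absurd h1 h3.1
      · exact Or.inr (h1.trans h3.2)

/-- An infinite `K`-bounded internal set has no finite net at some resolution.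

Proof. If `G` is trivial (`Subsingleton G`) then `v x = v 1` for all `x ≠ 0`, so all elements of `F`
are bounded and `Sm x 1` implies `x = 0` (`W.v_le`); `W.WF` gives a finite `Z` with `p = z` for each
`p ∈ X`: contradiction. Otherwise let `ρ` be as in `W.sep`, and `y` with `v ρ < y`
(`exists_gt`-type fact: a nontrivial ordered group has no largest element; e.g. take `g > 0` and
`y = v ρ + g`). If `Z` is a finite net at resolution `y`, then `p = z` or `y ≤ e (p - z)`, and the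
latter contradicts `ρ ≤ nrm (p - z)` (`v_le_of_abs`: `e (p - z) ≤ v ρ`). So `X ⊆ Z`. -/
theorem World.exists_not_finNet {X : Set (F × F)} (hI : X ∈ W.I) (hX : KB W.K X)
    (hinf : X.Infinite) : ∃ y, ¬ W.FinNet X y := by
  classical
  by_contra hcon
  push Not at hcon
  rcases subsingleton_or_nontrivial G with hG | hG
  · obtain ⟨Z, hZ, hZX, h⟩ := W.WF X hI hX
    apply hinf
    refine hZ.subset ?_
    intro p hp
    have hbd : Bd (nrm p) 1 := by
      by_cases h0 : nrm p = 0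
      · rw [h0]
        exact Bd.zero 1
      · exact (W.v_le 1 (nrm p) one_ne_zero h0).1 (le_of_eq (Subsingleton.elim _ _))
    obtain ⟨z, hz, h1⟩ := h p hp hbd
    have h2 : p = z := by
      by_contra hne
      have h3 : nrm (p - z) ≠ 0 := fun h0 => hne (sub_eq_zero.1 (nrm_eq_zero.1 h0))
      have h4 : Bd 1 (nrm (p - z)) :=
        (W.v_le (nrm (p - z)) 1 h3 one_ne_zero).1 (le_of_eq (Subsingleton.elim _ _))
      exact (not_Sm.2 h4) h1
    rw [h2]
    exact hz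
  · obtain ⟨ρ, hρ, hsep⟩ := W.sep X hI
    obtain ⟨g, hg⟩ := exists_gt (W.v ρ)
    obtain ⟨Z, hZ, hZX, h⟩ := hcon g
    apply hinf
    refine hZ.subset ?_
    intro p hp
    obtain ⟨z, hz, h1⟩ := h p hp
    by_cases hpz : p = z
    · rw [hpz]
      exact hz
    · exfalso
      rcases h1 with h1 | h1
      · exact hpz h1
      · have h2 := hsep p hp z (hZX hz) hpz
        have h3 : W.v (nrm (p - z)) ≤ W.v ρ :=
          v_le_of_abs W.isV hρ.ne' (by rw [abs_of_pos hρ, abs_nrm]; exact h2)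
        exact absurd (hg.trans_le (h1.trans h3)) (lt_irrefl _)

end Pool.Agent.Lib.MP_8bcb9d_co.W
end

section

/-!
# World Fin: both classes are syndetic
-/

set_option autoImplicit false

namespace Pool.Agent.Lib.MP_8bcb9d_co.W

/-- Counting lemma. Proof: let `Z` be the set. `Z ∩ B'` is contained in the set of `h1`: at most
`K` elements; in particular `Z ∩ B` is finite with at most `K` elements. For `t ∈ Z \ B'`
(so `t ∈ A'`) let `s` be the maximum of `t₁` and all `b ∈ B` with `t₁ < b < t`; these `b` are in `Z`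
(`w ≤ t₁ ∨ t < w` for `w ∈ A`), so the maximum exists and `s ∈ {t₁} ∪ (Z ∩ B)`. `t` is in the set
of `h2 s`: for `w ∈ B` with `w < t` either `w ≤ t₁ ≤ s` or `t₁ < w < t`, so `w ≤ s`. So `Z \ B'` is
contained in a union of at most `K + 1` sets with at most `K` elements. Total `K + (K + 1) K`. -/
theorem bbComb {G : Type} [LinearOrder G] {K : ℕ} {A A' B B' : Set G} (hA : A ⊆ A') (hB : B ⊆ B')
    {t₁ : G} (h1 : {t | t₁ < t ∧ t ∈ B' ∧ ∀ w ∈ A, w ≤ t₁ ∨ t ≤ w}.encard ≤ K)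
    (h2 : ∀ s, s = t₁ ∨ (t₁ < s ∧ s ∈ B) →
      {t | s < t ∧ t ∈ A' ∧ ∀ w ∈ B, w ≤ s ∨ t ≤ w}.encard ≤ K) :
    {t | t₁ < t ∧ (t ∈ A' ∨ t ∈ B') ∧ ∀ w ∈ A, w ≤ t₁ ∨ t < w}.encard ≤
      ((K ^ 2 + 2 * K : ℕ) : ℕ∞) := by
  classical
  set Z : Set G := {t | t₁ < t ∧ (t ∈ A' ∨ t ∈ B') ∧ ∀ w ∈ A, w ≤ t₁ ∨ t < w} with hZ
  have _ := hA
  have hZB : (Z ∩ B').encard ≤ K := by
    refine (Set.encard_le_encard ?_).trans h1
    rintro t ⟨ht, htB⟩
    exact ⟨ht.1, htB, fun w hw => (ht.2.2 w hw).imp id le_of_lt⟩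
  have hsub : Z ∩ B ⊆ Z ∩ B' := Set.inter_subset_inter_right Z hB
  have hZB2 : (Z ∩ B).encard ≤ K := (Set.encard_le_encard hsub).trans hZB
  have hfin : (Z ∩ B).Finite := Set.finite_of_encard_le_coe hZB2
  set S0 : Finset G := insert t₁ hfin.toFinset with hS0
  have hcard0 : hfin.toFinset.card ≤ K := by
    rw [hfin.encard_eq_coe_toFinset_card] at hZB2
    exact_mod_cast hZB2
  have hcard : S0.card ≤ K + 1 := (Finset.card_insert_le _ _).trans (by omega)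
  have hmem : ∀ s ∈ S0, s = t₁ ∨ (t₁ < s ∧ s ∈ B) := by
    intro s hs
    rw [hS0, Finset.mem_insert] at hs
    rcases hs with h | h
    · exact Or.inl h
    · have h' := hfin.mem_toFinset.1 h
      exact Or.inr ⟨h'.1.1, h'.2⟩
  set Ts : G → Set G := fun s => {t | s < t ∧ t ∈ A' ∧ ∀ w ∈ B, w ≤ s ∨ t ≤ w} with hTs
  have hTfin : ∀ s ∈ S0, (Ts s).Finite := fun s hs =>
    Set.finite_of_encard_le_coe (h2 s (hmem s hs))
  let T : G → Finset G := fun s => if h : (Ts s).Finite then h.toFinset else ∅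
  have hT : ∀ s ∈ S0, ∀ t, t ∈ T s ↔ t ∈ Ts s := by
    intro s hs t
    have e : T s = (hTfin s hs).toFinset := dif_pos (hTfin s hs)
    rw [e]
    exact (hTfin s hs).mem_toFinset
  have hTcard : ∀ s ∈ S0, (T s).card ≤ K := by
    intro s hs
    have e : T s = (hTfin s hs).toFinset := dif_pos (hTfin s hs)
    have h3 := h2 s (hmem s hs)
    rw [(hTfin s hs).encard_eq_coe_toFinset_card] at h3
    rw [e]
    exact_mod_cast h3
  have hdiff : Z \ B' ⊆ ↑(S0.biUnion T) := by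
    rintro t ⟨ht, htB⟩
    have htA : t ∈ A' := ht.2.1.resolve_right htB
    -- the maximum
    have hne : (S0.filter (fun s => s < t)).Nonempty :=
      ⟨t₁, Finset.mem_filter.2 ⟨Finset.mem_insert_self _ _, ht.1⟩⟩
    set s := (S0.filter (fun s => s < t)).max' hne with hs
    have hsm := Finset.max'_mem _ hne
    rw [← hs, Finset.mem_filter] at hsm
    rw [Finset.mem_coe, Finset.mem_biUnion]
    refine ⟨s, hsm.1, (hT s hsm.1 t).2 ⟨hsm.2, htA, fun w hw => ?_⟩⟩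
    have hmax : ∀ r ∈ S0, r < t → r ≤ s := fun r hr hrt =>
      Finset.le_max' (S0.filter (fun s => s < t)) r (Finset.mem_filter.2 ⟨hr, hrt⟩)
    have hts : t₁ ≤ s := hmax t₁ (Finset.mem_insert_self _ _) ht.1
    by_cases hwt : t ≤ w
    · exact Or.inr hwt
    · left
      rw [not_le] at hwt
      by_cases hw1 : w ≤ t₁
      · exact hw1.trans hts
      · rw [not_le] at hw1
        refine hmax w ?_ hwt
        refine Finset.mem_insert_of_mem (hfin.mem_toFinset.2 ⟨⟨hw1, Or.inr (hB hw), ?_⟩, hw⟩)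
        intro a ha
        exact (ht.2.2 a ha).imp id (lt_trans hwt)
  have hsplit : Z ⊆ (Z ∩ B') ∪ ↑(S0.biUnion T) := by
    intro t ht
    by_cases h : t ∈ B'
    · exact Or.inl ⟨ht, h⟩
    · exact Or.inr (hdiff ⟨ht, h⟩)
  have hbi : (S0.biUnion T).card ≤ (K + 1) * K :=
    (Finset.card_biUnion_le_card_mul _ _ _ hTcard).trans (Nat.mul_le_mul_right K hcard)
  calc Z.encard ≤ ((Z ∩ B') ∪ ↑(S0.biUnion T)).encard := Set.encard_le_encard hsplit
    _ ≤ (Z ∩ B').encard + (↑(S0.biUnion T) : Set G).encard := Set.encard_union_le _ _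
    _ ≤ (K : ℕ∞) + (((K + 1) * K : ℕ) : ℕ∞) := by
        refine add_le_add hZB ?_
        rw [Set.encard_coe_eq_coe_finsetCard]
        exact_mod_cast hbi
    _ = ((K ^ 2 + 2 * K : ℕ) : ℕ∞) := by
        rw [← Nat.cast_add]
        congr 1
        ring

variable {F G : Type} [Field F] [LinearOrder F] [IsStrictOrderedRing F]
  [AddCommGroup G] [LinearOrder G] [IsOrderedAddMonoid G] (W : World F G)

/-- Proof: `bbComb` with `A` / `A'` = exponents of the `TT` / `±TT` points, `B` / `B'` = exponents of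
the `UU` / `±UU` points; `h1` = `LBT`, `h2` = `LBU` at `s ≥ t₁`. Every `p ≠ 0` is in one of the
four classes (`classes`). -/
theorem World.BBT {X : Set (F × F)} (hI : X ∈ W.I) (hX : KB W.K X) {t₁ : G}
    (hT : ∃ a ∈ X, ∃ b ∈ X, a ≠ b ∧ TT a ∧ TT b ∧ W.e a ≤ t₁ ∧ W.e b ≤ t₁)
    (hU : ∃ a ∈ X, ∃ b ∈ X, a ≠ b ∧ UU a ∧ UU b ∧ W.e a ≤ t₁ ∧ W.e b ≤ t₁) :
    {t | t₁ < t ∧ (∃ p ∈ X, p ≠ 0 ∧ W.e p = t) ∧
      ∀ w ∈ X, TT w → W.e w ≤ t₁ ∨ t < W.e w}.encard ≤ ((W.K ^ 2 + 2 * W.K : ℕ) : ℕ∞) := by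
  have key := bbComb (K := W.K) (t₁ := t₁) (A := {t | ∃ p ∈ X, TT p ∧ W.e p = t})
    (A' := {t | ∃ p ∈ X, (TT p ∨ TT (-p)) ∧ W.e p = t}) (B := {t | ∃ p ∈ X, UU p ∧ W.e p = t})
    (B' := {t | ∃ p ∈ X, (UU p ∨ UU (-p)) ∧ W.e p = t})
    (by
      rintro t ⟨p, hp, h, he⟩
      exact ⟨p, hp, Or.inl h, he⟩)
    (by
      rintro t ⟨p, hp, h, he⟩
      exact ⟨p, hp, Or.inl h, he⟩)
    (by
      refine (Set.encard_le_encard ?_).trans (W.LBT hI hX hT)
      rintro t ⟨ht, hp, h⟩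
      exact ⟨ht, hp, fun w hw hTw => h _ ⟨w, hw, hTw, rfl⟩⟩)
    (by
      intro s hs
      have hts : t₁ ≤ s := by
        rcases hs with h | h
        · exact h.ge
        · exact h.1.le
      obtain ⟨a, ha, b, hb, hab, hUa, hUb, hea, heb⟩ := hU
      refine (Set.encard_le_encard ?_).trans (W.LBU hI hX
        ⟨a, ha, b, hb, hab, hUa, hUb, hea.trans hts, heb.trans hts⟩)
      rintro t ⟨ht, hp, h⟩
      exact ⟨ht, hp, fun w hw hUw => h _ ⟨w, hw, hUw, rfl⟩⟩)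
  refine (Set.encard_le_encard ?_).trans key
  rintro t ⟨ht, ⟨p, hp, hp0, he⟩, h⟩
  refine ⟨ht, ?_, ?_⟩
  · rcases classes hp0 with h1 | h1 | h1 | h1
    · exact Or.inl ⟨p, hp, Or.inl h1, he⟩
    · exact Or.inl ⟨p, hp, Or.inr h1, he⟩
    · exact Or.inr ⟨p, hp, Or.inl h1, he⟩
    · exact Or.inr ⟨p, hp, Or.inr h1, he⟩
  · rintro _ ⟨w, hw, hTw, rfl⟩
    exact h w hw hTw

/-- Proof: the same with the roles of `TT` and `UU` exchanged. -/
theorem World.BBU {X : Set (F × F)} (hI : X ∈ W.I) (hX : KB W.K X) {t₁ : G}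
    (hT : ∃ a ∈ X, ∃ b ∈ X, a ≠ b ∧ TT a ∧ TT b ∧ W.e a ≤ t₁ ∧ W.e b ≤ t₁)
    (hU : ∃ a ∈ X, ∃ b ∈ X, a ≠ b ∧ UU a ∧ UU b ∧ W.e a ≤ t₁ ∧ W.e b ≤ t₁) :
    {t | t₁ < t ∧ (∃ p ∈ X, p ≠ 0 ∧ W.e p = t) ∧
      ∀ w ∈ X, UU w → W.e w ≤ t₁ ∨ t < W.e w}.encard ≤ ((W.K ^ 2 + 2 * W.K : ℕ) : ℕ∞) := by
  have key := bbComb (K := W.K) (t₁ := t₁) (A := {t | ∃ p ∈ X, UU p ∧ W.e p = t})
    (A' := {t | ∃ p ∈ X, (UU p ∨ UU (-p)) ∧ W.e p = t}) (B := {t | ∃ p ∈ X, TT p ∧ W.e p = t})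
    (B' := {t | ∃ p ∈ X, (TT p ∨ TT (-p)) ∧ W.e p = t})
    (by
      rintro t ⟨p, hp, h, he⟩
      exact ⟨p, hp, Or.inl h, he⟩)
    (by
      rintro t ⟨p, hp, h, he⟩
      exact ⟨p, hp, Or.inl h, he⟩)
    (by
      refine (Set.encard_le_encard ?_).trans (W.LBU hI hX hU)
      rintro t ⟨ht, hp, h⟩
      exact ⟨ht, hp, fun w hw hUw => h _ ⟨w, hw, hUw, rfl⟩⟩)
    (by
      intro s hs
      have hts : t₁ ≤ s := by
        rcases hs with h | h
        · exact h.ge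
        · exact h.1.le
      obtain ⟨a, ha, b, hb, hab, hTa, hTb, hea, heb⟩ := hT
      refine (Set.encard_le_encard ?_).trans (W.LBT hI hX
        ⟨a, ha, b, hb, hab, hTa, hTb, hea.trans hts, heb.trans hts⟩)
      rintro t ⟨ht, hp, h⟩
      exact ⟨ht, hp, fun w hw hTw => h _ ⟨w, hw, hTw, rfl⟩⟩)
  refine (Set.encard_le_encard ?_).trans key
  rintro t ⟨ht, ⟨p, hp, hp0, he⟩, h⟩
  refine ⟨ht, ?_, ?_⟩
  · rcases classes hp0 with h1 | h1 | h1 | h1
    · exact Or.inr ⟨p, hp, Or.inl h1, he⟩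
    · exact Or.inr ⟨p, hp, Or.inr h1, he⟩
    · exact Or.inl ⟨p, hp, Or.inl h1, he⟩
    · exact Or.inl ⟨p, hp, Or.inr h1, he⟩
  · rintro _ ⟨w, hw, hUw, rfl⟩
    exact h w hw hUw

end Pool.Agent.Lib.MP_8bcb9d_co.W
end
end

section

section

/-!
# World Fin, growth: selection of many outer points, the gap at a jump, cells
-/

set_option autoImplicit false

namespace Pool.Agent.Lib.MP_8bcb9d_co.W

variable {F G : Type} [Field F] [LinearOrder F] [IsStrictOrderedRing F]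
  [AddCommGroup G] [LinearOrder G] [IsOrderedAddMonoid G] (W : World F G)

/-- The `m` points with smallest first coordinate. Proof: induction on `m`. Given `A` for `m` and
`m + 1 ≤ Q.card`, the set `S \ A` is internal (`I_diff_finite`) and nonempty (an element of `Q` is
not in `A`); let `b` be its point with smallest first coordinate (`argmin` with `a = 1`, `b = 0`);
take `insert b A`. -/
theorem World.argminM {S : Set (F × F)} (hS : S ∈ W.I) (Q : Finset (F × F))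
    (hQ : ∀ q ∈ Q, q ∈ S) (m : ℕ) (hm : m ≤ Q.card) :
    ∃ A : Finset (F × F), A.card = m ∧ (∀ a ∈ A, a ∈ S) ∧
      ∀ a ∈ A, ∀ w ∈ S, w ∉ A → a.1 ≤ w.1 := by
  classical
  induction m with
  | zero => exact ⟨∅, rfl, by simp, by simp⟩
  | succ m ih =>
    obtain ⟨A, hAc, hAS, hAw⟩ := ih (by omega)
    obtain ⟨q, hq, hqA⟩ : ∃ q ∈ Q, q ∉ A :=
      Finset.exists_mem_notMem_of_card_lt_card (by omega)
    have hI : S \ (A : Set (F × F)) ∈ W.I := W.I_diff_finite hS A.finite_toSet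
    obtain ⟨b, hb, hmin⟩ := W.argmin _ hI ⟨q, hQ q hq, by simpa using hqA⟩ 1 0
    have hbA : b ∉ A := by simpa using hb.2
    refine ⟨insert b A, by rw [Finset.card_insert_of_notMem hbA, hAc], ?_, ?_⟩
    · intro a ha
      rcases Finset.mem_insert.1 ha with rfl | h
      · exact hb.1
      · exact hAS a h
    · intro a ha w hw hwA
      have hwA' : w ∉ A := fun h => hwA (Finset.mem_insert_of_mem h)
      rcases Finset.mem_insert.1 ha with rfl | h
      · have := hmin w ⟨hw, by simpa using hwA'⟩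
        linarith
      · exact hAw a h w hw hwA'

/-- Selection of `m` outer points. Proof: `S = {w ∈ X | w ∈ Reg τ ρ₁ ∧ ρ₁ < w.1}` is internal
(`I_reg`) and contains `Q` (the points of `Q` are in `Reg τ ρ₁` since `|q.2| ≤ τ * q.1`, and outer:
`Reg.out`). Take `A` from `argminM`. Norms: `ρ₁ < a.1 ≤ nrm a`, so `ρ₂ ≤ nrm a` by `hgap`. Let
`w = x a + y d + z d'`, `w ∈ X`, `ρ₁ < nrm w`. Then `w ∈ Reg` (`Reg.tri`, `Reg.box`),
`ρ₂ ≤ nrm w`, `ρ₁ < w.1` (`Reg.out`), so `w ∈ S`. If `w ∉ A` then `a.1 ≤ w.1`; but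
`w.1 ≤ x a.1 + (y + z) ρ₁` and `ρ₁ < a.1`, so `y + z = 0` and `w = a`, contradiction. -/
theorem World.selM {X : Set (F × F)} (hI : X ∈ W.I) {τ ρ₁ ρ₂ : F} (hτ : 0 ≤ τ)
    (hτ1 : Bd τ 1) (hρ₁ : 0 < ρ₁) (hρ₂ : 0 < ρ₂) (hsm : Sm ρ₁ ρ₂)
    (hgap : ∀ x ∈ X, nrm x ≤ ρ₁ ∨ ρ₂ ≤ nrm x) (Q : Finset (F × F))
    (hQ : ∀ q ∈ Q, q ∈ X ∧ 0 < q.1 ∧ |q.2| ≤ τ * q.1 ∧ ρ₂ ≤ nrm q) (m : ℕ) (hm : m ≤ Q.card) :
    ∃ A : Finset (F × F), A.card = m ∧
      (∀ a ∈ A, a ∈ X ∧ a ∈ Reg τ ρ₁ ∧ ρ₂ ≤ nrm a ∧ ρ₁ < a.1) ∧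
      ∀ a ∈ A, ∀ d d', nrm d ≤ ρ₁ → nrm d' ≤ ρ₁ → ∀ w ∈ X, w ∈ Tri a d d' →
        w ∈ A ∨ nrm w ≤ ρ₁ := by
  have hSI := W.I_reg hI τ ρ₁
  obtain ⟨A, hAc, hAS, hAw⟩ := W.argminM hSI Q (fun q hq => by
    obtain ⟨hqX, hq1, hq2, hq3⟩ := hQ q hq
    have hqR : q ∈ Reg τ ρ₁ := by
      obtain ⟨h1, h2⟩ := abs_le.1 hq2
      have h3 : 0 ≤ τ * ρ₁ := mul_nonneg hτ hρ₁.le
      refine ⟨?_, ?_, ?_⟩
      · rw [mul_add]
        linarith
      · rw [mul_add]
        linarith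
      · linarith
    exact ⟨hqX, hqR, Reg.out hτ hτ1 hρ₁ hρ₂ hsm hqR hq3⟩) m hm
  have hA : ∀ a ∈ A, a ∈ X ∧ a ∈ Reg τ ρ₁ ∧ ρ₂ ≤ nrm a ∧ ρ₁ < a.1 := by
    intro a ha
    obtain ⟨h1, h2, h3⟩ := hAS a ha
    have h4 : ρ₁ < nrm a := h3.trans_le ((le_abs_self _).trans (abs_fst_le a))
    exact ⟨h1, h2, (hgap a h1).resolve_left (not_le.2 h4), h3⟩
  refine ⟨A, hAc, hA, ?_⟩
  intro a ha d d' hd hd' w hw hwT
  by_contra hcon
  push Not at hcon
  obtain ⟨hwA, hwn⟩ := hcon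
  obtain ⟨haX, haR, han, ha1⟩ := hA a ha
  have hwR : w ∈ Reg τ ρ₁ :=
    Reg.tri haR (Reg.box hτ hρ₁.le hd) (Reg.box hτ hρ₁.le hd') hwT
  have hwn2 : ρ₂ ≤ nrm w := (hgap w hw).resolve_left (not_le.2 hwn)
  have hw1 : ρ₁ < w.1 := Reg.out hτ hτ1 hρ₁ hρ₂ hsm hwR hwn2
  have h1 : a.1 ≤ w.1 := hAw a ha w ⟨hw, hwR, hw1⟩ hwA
  obtain ⟨x, y, z, hx, hy, hz, hsum, he⟩ := hwT
  have hf : w.1 = x * a.1 + y * d.1 + z * d'.1 := by
    rw [he]
    simp [smul_eq_mul]
  have hd1 : d.1 ≤ ρ₁ := (le_abs_self _).trans ((abs_fst_le d).trans hd)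
  have hd2 : d'.1 ≤ ρ₁ := (le_abs_self _).trans ((abs_fst_le d').trans hd')
  have h2 := mul_le_mul_of_nonneg_left hd1 hy
  have h3 := mul_le_mul_of_nonneg_left hd2 hz
  have h4 : x = 1 - y - z := by linarith
  have h5 : (y + z) * (a.1 - ρ₁) ≤ 0 := by
    rw [hf, h4] at h1
    linarith
  have h6 : y + z ≤ 0 := by
    by_contra hcon2
    push Not at hcon2
    have := mul_pos hcon2 (sub_pos.2 ha1)
    linarith
  have h7 : y = 0 := by linarith
  have h8 : z = 0 := by linarith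
  have h9 : x = 1 := by linarith
  apply hwA
  rw [he, h7, h8, h9]
  simpa using ha

/-- A common infinitesimal slope bound. Proof: induction on `Q` (start `τ = 0`), the maximum of two
infinitesimals is infinitesimal; `|q.2| = |sl q| * q.1`, `TT.sl_sm`. -/
theorem exists_slope (Q : Finset (F × F)) (hQ : ∀ q ∈ Q, TT q) :
    ∃ τ : F, 0 ≤ τ ∧ Sm τ 1 ∧ ∀ q ∈ Q, |q.2| ≤ τ * q.1 := by
  classical
  induction Q using Finset.induction_on with
  | empty => exact ⟨0, le_rfl, Sm.zero one_ne_zero, by simp⟩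
  | insert q Q _ ih =>
    obtain ⟨τ, hτ, hτs, hτq⟩ := ih (fun p hp => hQ p (Finset.mem_insert_of_mem hp))
    have hq : TT q := hQ q (Finset.mem_insert_self _ _)
    refine ⟨max τ |sl q|, le_max_of_le_left hτ, ?_, ?_⟩
    · rcases max_choice τ |sl q| with h | h
      · rw [h]
        exact hτs
      · rw [h]
        refine (Bd.of_le ?_).trans_sm hq.sl_sm
        rw [abs_abs]
    · intro p hp
      rcases Finset.mem_insert.1 hp with rfl | h
      · have h1 : 0 < p.1 := hq.1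
        have h2 : |p.2| = |sl p| * p.1 := by
          rw [sl, abs_div, abs_of_pos h1, div_mul_cancel₀ _ h1.ne']
        rw [h2]
        exact mul_le_mul_of_nonneg_right (le_max_right _ _) h1.le
      · refine (hτq p h).trans ?_
        exact mul_le_mul_of_nonneg_right (le_max_left _ _)
          (hQ p (Finset.mem_insert_of_mem h)).1.le

/-- The gap at a jump `t₁ < t₂` of consecutive exponents. Proof: `World.gap` gives `ρ, ρ₂`. The
inner part `D = {p ∈ X | p = 0 ∨ t₁ < W.e p}` is internal (`I_deep`); let `p` be its element with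
the largest norm (`argmax_nrm`), `ρ₁ = nrm p`. `D` contains a point with exponent `t₂`, so `p ≠ 0`
and (larger norm, smaller exponent) `e p ≤ t₂`; `hnext` gives `e p = t₂`. `ρ₁ ≤ ρ` (`p` is not
outer), so `Sm ρ₁ ρ₂`. -/
theorem World.gapv {X : Set (F × F)} (hI : X ∈ W.I) (hX : KB W.K X) {t₁ t₂ : G} (ht : t₁ < t₂)
    (hocc : ∃ f ∈ X, f ≠ 0 ∧ W.e f = t₂)
    (hnext : ∀ p ∈ X, p ≠ 0 → t₁ < W.e p → t₂ ≤ W.e p) :
    ∃ ρ₁ ρ₂ : F, 0 < ρ₁ ∧ 0 < ρ₂ ∧ Sm ρ₁ ρ₂ ∧ W.v ρ₁ = t₂ ∧ W.v ρ₂ = t₁ ∧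
      ∀ x ∈ X, (nrm x ≤ ρ₁ ∧ (x = 0 ∨ t₁ < W.e x)) ∨ (ρ₂ ≤ nrm x ∧ x ≠ 0 ∧ W.e x ≤ t₁) := by
  obtain ⟨f, hfX, hf0, hft⟩ := hocc
  obtain ⟨ρ, ρ₂, hρ, hρ₂, hsm, hv2, hgap⟩ := W.gap hI hX ⟨f, hfX, hf0, by rw [hft]; exact ht⟩
  have hfD : f ∈ {p ∈ X | p = 0 ∨ t₁ < W.e p} := ⟨hfX, Or.inr (by rw [hft]; exact ht)⟩
  obtain ⟨p, ⟨hpX, hpD⟩, hmax⟩ := W.argmax_nrm (W.I_deep hI hX t₁) ⟨f, hfD⟩
  have hfp : nrm f ≤ nrm p := hmax f hfD
  have hp0' : 0 < nrm p := (nrm_pos.2 hf0).trans_le hfp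
  have hp0 : p ≠ 0 := nrm_pos.1 hp0'
  have hpt1 : t₁ < W.e p := hpD.resolve_left hp0
  have hpe : W.e p = t₂ := by
    apply le_antisymm
    · rw [← hft]
      rw [W.e_le hp0 hf0]
      exact Bd.of_le (by rw [abs_nrm, abs_nrm]; exact hfp)
    · exact hnext p hpX hp0 hpt1
  have hpρ : nrm p ≤ ρ := by
    rcases hgap p hpX with ⟨h, -⟩ | ⟨-, -, h⟩
    · exact h
    · exact absurd h (not_le.2 hpt1)
  refine ⟨nrm p, ρ₂, hp0', hρ₂, ?_, hpe, hv2, ?_⟩
  · exact (Bd.of_le (by rw [abs_nrm, abs_of_pos hρ]; exact hpρ)).trans_sm hsm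
  · intro x hx
    rcases hgap x hx with ⟨-, h⟩ | h
    · exact Or.inl ⟨hmax x ⟨hx, h⟩, h⟩
    · exact Or.inr h

/-- Pigeonhole in the cells of a finite net. Proof: let `Z` be the net, `m = k * Z.ncard + 1`;
choose for each `a ∈ A` a net point `f a ∈ Z` with `a = f a ∨ y ≤ e (a - f a)`;
`Finset.exists_lt_card_fiber_of_mul_lt_card_of_maps_to` gives a fibre with more than `k` elements,
take a subset `V` with `k + 1` elements. Two points of the same cell: `a - a' = (a - z) - (a' - z)`,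
so `nrm (a - a')` is at most twice the larger of the two norms, `e` is the value of the norm
(`W.e_le`, `Bd`). -/
theorem World.cell {X : Set (F × F)} {y : G} (h : W.FinNet X y) (k : ℕ) :
    ∃ m : ℕ, ∀ A : Finset (F × F), (∀ a ∈ A, a ∈ X) → m ≤ A.card →
      ∃ V ⊆ A, V.card = k + 1 ∧ ∀ a ∈ V, ∀ a' ∈ V, a = a' ∨ y ≤ W.e (a - a') := by
  classical
  obtain ⟨Z, hZf, hZX, hZ⟩ := h
  refine ⟨k * Z.ncard + 1, fun A hA hAc => ?_⟩
  have hex : ∀ a : F × F, ∃ z, a ∈ X → z ∈ Z ∧ (a = z ∨ y ≤ W.e (a - z)) := by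
    intro a
    by_cases ha : a ∈ X
    · obtain ⟨z, hz, h1⟩ := hZ a ha
      exact ⟨z, fun _ => ⟨hz, h1⟩⟩
    · exact ⟨0, fun h => absurd h ha⟩
  choose f hf using hex
  have hcard : hZf.toFinset.card * k < A.card := by
    rw [← Set.ncard_eq_toFinset_card Z hZf, mul_comm]
    omega
  obtain ⟨z, hz, hfib⟩ := Finset.exists_lt_card_fiber_of_mul_lt_card_of_maps_to
    (f := f) (s := A) (t := hZf.toFinset) (n := k)
    (fun a ha => hZf.mem_toFinset.2 (hf a (hA a ha)).1) hcard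
  obtain ⟨V, hV, hVc⟩ := Finset.exists_subset_card_eq (Nat.succ_le_of_lt hfib)
  refine ⟨V, hV.trans (Finset.filter_subset _ _), hVc, ?_⟩
  have key : ∀ a ∈ V, a = z ∨ y ≤ W.e (a - z) := by
    intro a ha
    have h1 := Finset.mem_filter.1 (hV ha)
    have h2 := (hf a (hA a h1.1)).2
    rwa [h1.2] at h2
  intro a ha a' ha'
  by_cases haa : a = a'
  · exact Or.inl haa
  right
  by_cases h1 : a = z
  · have h2 := (key a' ha').resolve_left (fun h => haa (h1.trans h.symm))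
    rw [h1, ← W.e_neg, neg_sub]
    exact h2
  by_cases h2 : a' = z
  · rw [h2]
    exact (key a ha).resolve_left h1
  have e1 := (key a ha).resolve_left h1
  have e2 := (key a' ha').resolve_left h2
  have n1 : a - z ≠ 0 := sub_ne_zero.2 h1
  have n2 : a' - z ≠ 0 := sub_ne_zero.2 h2
  have n3 : a - a' ≠ 0 := sub_ne_zero.2 haa
  have e3 : nrm (a - a') ≤ nrm (a - z) + nrm (a' - z) := by
    have := nrm_triangle a z a'
    rwa [nrm_sub_comm z a'] at this
  rcases le_total (nrm (a - z)) (nrm (a' - z)) with h | h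
  · refine e2.trans ((W.e_le n2 n3).2 ⟨2, ?_⟩)
    rw [abs_nrm, abs_nrm]
    push_cast
    linarith
  · refine e1.trans ((W.e_le n1 n3).2 ⟨2, ?_⟩)
    rw [abs_nrm, abs_nrm]
    push_cast
    linarith

end Pool.Agent.Lib.MP_8bcb9d_co.W
end

section

/-!
# World Fin: Lemma DL (an isolated cluster sees the outer points in few classes of directions)
-/

set_option autoImplicit false

namespace Pool.Agent.Lib.MP_8bcb9d_co.W

variable {F G : Type} [Field F] [LinearOrder F] [IsStrictOrderedRing F]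
  [AddCommGroup G] [LinearOrder G] [IsOrderedAddMonoid G] (W : World F G)

private theorem World.g3_bd {e₂ : G} {ρ : F} (hρ : 0 < ρ) (hρv : W.v ρ = e₂) {p : F × F}
    (hp : p = 0 ∨ e₂ ≤ W.e p) : Bd (nrm p) ρ := by
  rcases eq_or_ne p 0 with h0 | h0
  · rw [h0, nrm_eq_zero.2 rfl]
    exact Bd.zero _
  · rcases hp with h | h
    · exact absurd h h0
    · rw [← hρv] at h
      exact (W.v_le _ _ hρ.ne' (nrm_pos.2 h0).ne').1 h

/-- The geometric core: `x` is a far `UU` point, `y` a far point of the triangle `p q x` with `p, q`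
in the cluster. Then `y` is `UU` and the inverse slopes of `x` and `y` agree at precision `e₂ - e₁`.

Proof. `y = α p + β q + γ x`, `y - γ x = d` with `nrm d ≤ nrm p + nrm q`, and `d`'s norm is
infinitely smaller than `nrm y` (`p = 0` or `e₂ ≤ e p`, `e y ≤ e₁ < e₂`; use a `ρ` with `v ρ = e₂`).
So `γ ≠ 0` (otherwise `y = d`), `γ x = y - d` and `y = γ x + d` is `UU` by `pert` and `smul`
(`Sm (nrm d) (nrm (γ x))`). `y.1 / y.2 - x.1 / x.2 = cr y x / (y.2 * x.2)` and `cr y x = cr d x`, so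
`|...| ≤ 2 nrm d * nrm x / (y.2 x.2)`; `Bd (nrm x) x.2`, `Bd (nrm y) y.2`, so this is a bounded
multiple of `nrm d / nrm y`, whose value is `≥ e₂ - e₁`. -/
theorem World.dl_core {e₁ e₂ : G} (h12 : e₁ < e₂) {p q x y : F × F} (hp : p = 0 ∨ e₂ ≤ W.e p)
    (hq : q = 0 ∨ e₂ ≤ W.e q) (hx : UU x) (hy0 : y ≠ 0) (hy : W.e y ≤ e₁) (hyt : y ∈ Tri p q x) :
    UU y ∧ Near W.v (e₂ - e₁) (y.1 / y.2) (x.1 / x.2) := by
  obtain ⟨α, β, γ, hα, hβ, hγ, hsum, hye⟩ := hyt
  obtain ⟨ρ, hρ, hρv⟩ := W.v_surj e₂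
  obtain ⟨d, hd⟩ : ∃ d, d = α • p + β • q := ⟨_, rfl⟩
  have hyd : y = γ • x + d := by rw [hye, hd, add_comm]
  have hdρ : Bd (nrm d) ρ := by
    refine (Bd.of_le ?_).trans ((W.g3_bd hρ hρv hp).add (W.g3_bd hρ hρv hq))
    rw [abs_nrm, abs_of_nonneg (add_nonneg (nrm_nonneg p) (nrm_nonneg q)), hd]
    refine (nrm_add _ _).trans ?_
    rw [nrm_smul, nrm_smul, abs_of_nonneg hα, abs_of_nonneg hβ]
    have h1 := mul_le_mul_of_nonneg_right (by linarith : α ≤ 1) (nrm_nonneg p)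
    have h2 := mul_le_mul_of_nonneg_right (by linarith : β ≤ 1) (nrm_nonneg q)
    linarith
  have hρy : Sm ρ (nrm y) := by
    rw [← W.v_lt (nrm_pos.2 hy0).ne' hρ.ne', hρv]
    exact lt_of_le_of_lt hy h12
  have hdy : Sm (nrm d) (nrm y) := hdρ.trans_sm hρy
  have hγ0 : 0 < γ := by
    refine lt_of_le_of_ne hγ fun h0 => ?_
    rw [← h0, zero_smul, zero_add] at hyd
    rw [← hyd] at hdy
    exact lt_irrefl _ hdy.lt
  have hyγ : Bd (nrm y) (nrm (γ • x)) := by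
    refine ⟨2, ?_⟩
    rw [abs_nrm, abs_nrm]
    have h1 := hdy.two
    rw [abs_nrm, abs_nrm] at h1
    have h2 := nrm_add (γ • x) d
    rw [← hyd] at h2
    push_cast
    linarith
  have hUy : UU y := by
    rw [hyd]
    exact (hx.smul hγ0).pert (hdy.trans_bd hyγ)
  refine ⟨hUy, ?_⟩
  have hx2 := hx.1.ne'
  have hy2 := hUy.1.ne'
  have hcr : x.1 / x.2 - y.1 / y.2 = cr x d / (x.2 * y.2) := by
    have h1 : cr x y = cr x d := by
      rw [hyd, cr_add_right, cr_smul_right, cr_self, mul_zero, zero_add]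
    rw [← h1, div_sub_div _ _ hx2 hy2]
    unfold cr
    congr 1
  by_cases hc0 : cr x d = 0
  · left
    rw [hc0, zero_div] at hcr
    exact sub_eq_zero.1 hcr
  · right
    rw [hcr, W.v_div hc0 (mul_ne_zero hx2 hy2), W.v_mul _ _ hx2 hy2, ← W.e_UU hx, ← W.e_UU hUy]
    have hxn := (nrm_pos.2 hx.ne).ne'
    have h1 : W.v (nrm x * ρ) ≤ W.v (cr x d) := by
      refine (W.v_le _ _ (mul_ne_zero hxn hρ.ne') hc0).2 ?_
      refine Bd.trans (y := nrm x * nrm d) ⟨2, ?_⟩ ((Bd.refl _).mul hdρ)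
      rw [abs_mul, abs_nrm, abs_nrm]
      push_cast
      exact cr_abs_le x d
    rw [W.v_mul _ _ hxn hρ.ne', hρv] at h1
    have h2 : W.e x + e₂ ≤ W.v (cr x d) := h1
    have h3 : e₂ - e₁ ≤ W.e x + e₂ - (W.e x + W.e y) := by
      rw [add_sub_add_left_eq_sub]
      exact sub_le_sub_left hy _
    exact h3.trans (sub_le_sub_right h2 _)

/-- one side -/
private theorem World.g3_side {X : Set (F × F)} (hI : X ∈ W.I) (hX : KB W.K X) {e₁ e₂ : G}
    (h12 : e₁ < e₂) (hgap : ∀ x ∈ X, x ≠ 0 → W.e x ≤ e₁ ∨ e₂ ≤ W.e x)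
    {p q : F × F} (hpX : p ∈ X) (hqX : q ∈ X) (hqp : q ≠ p) (hp : p = 0 ∨ e₂ ≤ W.e p)
    (hq : q = 0 ∨ e₂ ≤ W.e q) (Q : Finset (F × F)) (hQ : ∀ x ∈ Q, x ∈ X ∧ UU x ∧ W.e x ≤ e₁)
    (hside : ∀ x ∈ Q, ∀ y ∈ X, ∀ t : F, 0 < t → cr (q - p) (y - p) = t * cr (q - p) (x - p) →
      ¬ (y = 0 ∨ e₂ ≤ W.e y))
    (hsep : ∀ q ∈ Q, ∀ q' ∈ Q, q ≠ q' → ¬ Near W.v (e₂ - e₁) (q.1 / q.2) (q'.1 / q'.2)) :
    Q.card ≤ W.K := by
  classical
  have hex : ∀ x : F × F, ∃ y : F × F, x ∈ Q → y ∈ Lnk X p q ∧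
      Near W.v (e₂ - e₁) (y.1 / y.2) (x.1 / x.2) := by
    intro x
    by_cases hx : x ∈ Q
    · obtain ⟨hxX, hxU, hxe⟩ := hQ x hx
      have hxD : ¬ (x = 0 ∨ e₂ ≤ W.e x) := by
        rintro (h | h)
        · exact hxU.ne h
        · exact absurd (h12.trans_le (h.trans hxe)) (lt_irrefl _)
      have hxp : x ≠ p := by
        rintro rfl
        exact hxD hp
      have hxq : x ≠ q := by
        rintro rfl
        exact hxD hq
      obtain ⟨y, hyL, hyT⟩ := W.partner hI hX.gp hpX hqX hxX hqp.symm hxp hxq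
      have hyT' := hyT
      obtain ⟨α, β, γ, hα, hβ, hγ, hsum, hye⟩ := hyT'
      have h1 := Tri.cr_eq hsum hye
      have h2 : cr (q - p) (y - p) ≠ 0 :=
        hX.gp p hpX q hqX y hyL.1 hqp.symm hyL.2.1.symm hyL.2.2.1.symm
      have hγ0 : 0 < γ := by
        refine lt_of_le_of_ne hγ fun h0 => h2 ?_
        rw [h1, ← h0, zero_mul]
      have hyD := hside x hx y hyL.1 γ hγ0 h1
      push Not at hyD
      have hye' : W.e y ≤ e₁ := by
        rcases hgap y hyL.1 hyD.1 with h | h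
        · exact h
        · exact absurd h (not_le.2 hyD.2)
      exact ⟨y, fun _ => ⟨hyL, (W.dl_core h12 hp hq hxU hyD.1 hye' hyT).2⟩⟩
    · exact ⟨0, fun h => absurd h hx⟩
  choose f hf using hex
  have hinj : Set.InjOn f (Q : Set (F × F)) := by
    intro a ha b hb hab
    by_contra hne
    refine hsep a ha b hb hne ?_
    have h1 := (hf a ha).2
    have h2 := (hf b hb).2
    rw [← hab] at h2
    exact near_trans W.isV (near_symm W.isV h1) h2
  have hsub : ((Q.image f : Finset (F × F)) : Set (F × F)) ⊆ Lnk X p q := by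
    intro y hy
    rw [Finset.coe_image] at hy
    obtain ⟨x, hx, rfl⟩ := hy
    exact (hf x hx).1
  have h3 := (Set.encard_le_encard hsub).trans (hX.deg p hpX q hqX hqp.symm)
  rw [Set.encard_coe_eq_coe_finsetCard, Finset.card_image_of_injOn hinj] at h3
  exact_mod_cast h3

/-- Lemma DL for `UU`. Proof. `D = {p ∈ X | p = 0 ∨ e₂ ≤ e p}` is internal (`I_deep'`) and has two
points; `W.hull` gives `p, q, r ∈ D`, `p` highest. Let `x ∈ Q`. `p.2 < x.2` (`x` is `UU` and farther).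
Claim: `cr (q - p) (x - p) < 0` or `0 < cr (r - p) (x - p)`. Otherwise: if `q = r` both are `0`,
contradiction to `GP` (`x ≠ p, q` as `x` is not in `D`). If `q ≠ r`: `0 ≤ cr (q - p) (r - p)` and
`≠ 0` by `GP`, and `cr (q-p) (r-p) * (x.2 - p.2) = cr (x-p) (r-p) * (q.2 - p.2) +
cr (q-p) (x-p) * (r.2 - p.2) ≤ 0`, contradiction. So `Q = Q₁ ∪ Q₂` (strictly beyond the edge `p q`,
resp. `p r`), and it is enough to show `Q₁.card ≤ K` (same for `Q₂`). For `x ∈ Q₁` take the partner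
`y ∈ Lnk X p q`, `y ∈ Tri p q x` (`World.partner`). `y = α p + β q + γ x` with `0 < γ` (else
`y, p, q` collinear), so `cr (q - p) (y - p) < 0` and `y ∉ D`; so `y ≠ 0`, `e y ≤ e₁`. By `dl_core`
the inverse slopes of `x` and `y` are near; two different `x, x' ∈ Q₁` with the same `y` would be
near each other (`near_trans`, `near_symm`). So `x ↦ y` is injective from `Q₁` to `Lnk X p q`, which
has `encard ≤ K`. -/
theorem World.DLU {X : Set (F × F)} (hI : X ∈ W.I) (hX : KB W.K X) {e₁ e₂ : G} (h12 : e₁ < e₂)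
    (hgap : ∀ x ∈ X, x ≠ 0 → W.e x ≤ e₁ ∨ e₂ ≤ W.e x)
    (hD : ∃ p ∈ X, ∃ q ∈ X, p ≠ q ∧ (p = 0 ∨ e₂ ≤ W.e p) ∧ (q = 0 ∨ e₂ ≤ W.e q))
    (Q : Finset (F × F)) (hQ : ∀ q ∈ Q, q ∈ X ∧ UU q ∧ W.e q ≤ e₁)
    (hsep : ∀ q ∈ Q, ∀ q' ∈ Q, q ≠ q' → ¬ Near W.v (e₂ - e₁) (q.1 / q.2) (q'.1 / q'.2)) :
    Q.card ≤ 2 * W.K := by
  classical
  have hDI := W.I_deep' hI hX e₂
  obtain ⟨a, haX, b, hbX, hab, ha, hb⟩ := hD
  obtain ⟨p, ⟨hpX, hp⟩, q, ⟨hqX, hq⟩, r, ⟨hrX, hr⟩, hqp, hrp, htop, hleft, hright⟩ :=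
    W.hull _ hDI ⟨a, ⟨haX, ha⟩, b, ⟨hbX, hb⟩, hab⟩
  obtain ⟨ρ, hρ, hρv⟩ := W.v_surj e₂
  have hcov : ∀ x ∈ Q, cr (q - p) (x - p) < 0 ∨ 0 < cr (r - p) (x - p) := by
    intro x hx
    obtain ⟨hxX, hxU, hxe⟩ := hQ x hx
    have hxD : ¬ (x = 0 ∨ e₂ ≤ W.e x) := by
      rintro (h | h)
      · exact hxU.ne h
      · exact absurd (h12.trans_le (h.trans hxe)) (lt_irrefl _)
    have hxp : x ≠ p := by
      rintro rfl
      exact hxD hp
    have hxq : x ≠ q := by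
      rintro rfl
      exact hxD hq
    have hp2 : p.2 < x.2 := by
      have h1 : Sm ρ (nrm x) := by
        rw [← W.v_lt (nrm_pos.2 hxU.ne).ne' hρ.ne', hρv]
        exact lt_of_le_of_lt hxe h12
      have h2 : Sm (nrm p) x.2 := ((W.g3_bd hρ hρv hp).trans_sm h1).trans_bd hxU.nrm_bd
      have h3 := h2.lt
      rw [abs_nrm, abs_of_pos hxU.1] at h3
      exact (le_abs_self _).trans_lt ((abs_snd_le p).trans_lt h3)
    by_contra hcon
    push Not at hcon
    obtain ⟨h1, h2⟩ := hcon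
    by_cases hqr : q = r
    · rw [← hqr] at h2
      exact hX.gp p hpX q hqX x hxX hqp.symm hxp.symm hxq.symm (le_antisymm h2 h1)
    · have h3 : 0 ≤ cr (q - p) (r - p) := hleft r ⟨hrX, hr⟩
      have h4 : cr (q - p) (r - p) ≠ 0 := hX.gp p hpX q hqX r hrX hqp.symm hrp.symm hqr
      have h5 : 0 < cr (q - p) (r - p) := lt_of_le_of_ne h3 h4.symm
      have h6 : cr (q - p) (r - p) * (x.2 - p.2) =
          -(cr (r - p) (x - p) * (q.2 - p.2)) + cr (q - p) (x - p) * (r.2 - p.2) := by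
        simp only [cr, Prod.fst_sub, Prod.snd_sub]
        ring
      have h7 := mul_pos h5 (sub_pos.2 hp2)
      have h8 : 0 ≤ cr (r - p) (x - p) * (q.2 - p.2) :=
        mul_nonneg_of_nonpos_of_nonpos h2 (sub_nonpos.2 (htop q ⟨hqX, hq⟩))
      have h9 : cr (q - p) (x - p) * (r.2 - p.2) ≤ 0 :=
        mul_nonpos_of_nonneg_of_nonpos h1 (sub_nonpos.2 (htop r ⟨hrX, hr⟩))
      linarith
  have c1 := W.g3_side hI hX h12 hgap hpX hqX hqp hp hq
    (Q.filter (fun x => cr (q - p) (x - p) < 0))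
    (fun x hx => hQ x (Finset.mem_filter.1 hx).1)
    (by
      intro x hx y hy t ht he hyD
      have h1 := hleft y ⟨hy, hyD⟩
      rw [he] at h1
      have h2 := mul_neg_of_pos_of_neg ht (Finset.mem_filter.1 hx).2
      exact absurd h1 (not_le.2 h2))
    (fun x hx x' hx' => hsep x (Finset.mem_filter.1 hx).1 x' (Finset.mem_filter.1 hx').1)
  have c2 := W.g3_side hI hX h12 hgap hpX hrX hrp hp hr
    (Q.filter (fun x => 0 < cr (r - p) (x - p)))
    (fun x hx => hQ x (Finset.mem_filter.1 hx).1)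
    (by
      intro x hx y hy t ht he hyD
      have h1 := hright y ⟨hy, hyD⟩
      rw [he] at h1
      have h2 := mul_pos ht (Finset.mem_filter.1 hx).2
      exact absurd h1 (not_le.2 h2))
    (fun x hx x' hx' => hsep x (Finset.mem_filter.1 hx).1 x' (Finset.mem_filter.1 hx').1)
  have hsub : Q ⊆ Q.filter (fun x => cr (q - p) (x - p) < 0) ∪
      Q.filter (fun x => 0 < cr (r - p) (x - p)) := by
    intro x hx
    rw [Finset.mem_union, Finset.mem_filter, Finset.mem_filter]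
    rcases hcov x hx with h | h
    · exact Or.inl ⟨hx, h⟩
    · exact Or.inr ⟨hx, h⟩
  have h1 := (Finset.card_le_card hsub).trans (Finset.card_union_le _ _)
  omega

/-- Lemma DL for `TT`. Proof: `DLU` for `sw '' X` and `Q.image sw`: `TT q` implies `UU (sw q)`. -/
theorem World.DLT {X : Set (F × F)} (hI : X ∈ W.I) (hX : KB W.K X) {e₁ e₂ : G} (h12 : e₁ < e₂)
    (hgap : ∀ x ∈ X, x ≠ 0 → W.e x ≤ e₁ ∨ e₂ ≤ W.e x)
    (hD : ∃ p ∈ X, ∃ q ∈ X, p ≠ q ∧ (p = 0 ∨ e₂ ≤ W.e p) ∧ (q = 0 ∨ e₂ ≤ W.e q))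
    (Q : Finset (F × F)) (hQ : ∀ q ∈ Q, q ∈ X ∧ TT q ∧ W.e q ≤ e₁)
    (hsep : ∀ q ∈ Q, ∀ q' ∈ Q, q ≠ q' → ¬ Near W.v (e₂ - e₁) (sl q) (sl q')) :
    Q.card ≤ 2 * W.K := by
  classical
  have hinj : Function.Injective (sw : F × F → F × F) := by
    intro a b h
    exact Prod.ext (congrArg Prod.snd h) (congrArg Prod.fst h)
  have he : ∀ p : F × F, W.e (sw p) = W.e p := fun p => by rw [World.e, World.e, nrm_sw]
  have h0 : ∀ p : F × F, sw p = 0 ↔ p = 0 := by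
    intro p
    constructor
    · intro h
      exact Prod.ext (congrArg Prod.snd h) (congrArg Prod.fst h)
    · rintro rfl
      rfl
  obtain ⟨p, hp, q, hq, hpq, hp', hq'⟩ := hD
  have h := W.DLU (W.I_sw hI) hX.sw h12 (by
      rintro _ ⟨x, hx, rfl⟩ hx0
      rw [he]
      exact hgap x hx fun h1 => hx0 ((h0 x).2 h1))
    ⟨sw p, ⟨p, hp, rfl⟩, sw q, ⟨q, hq, rfl⟩, fun h1 => hpq (hinj h1), by rwa [h0, he],
      by rwa [h0, he]⟩ (Q.image sw) (by
      intro x hx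
      obtain ⟨y, hy, rfl⟩ := Finset.mem_image.1 hx
      obtain ⟨h1, h2, h3⟩ := hQ y hy
      refine ⟨⟨y, h1, rfl⟩, ⟨h2.1, h2.2.bd⟩, ?_⟩
      rw [he]
      exact h3) (by
      intro x hx x' hx' hne
      obtain ⟨y, hy, rfl⟩ := Finset.mem_image.1 hx
      obtain ⟨y', hy', rfl⟩ := Finset.mem_image.1 hx'
      exact hsep y hy y' hy' fun h1 => hne (by rw [h1]))
  rwa [Finset.card_image_of_injective _ hinj] at h

end Pool.Agent.Lib.MP_8bcb9d_co.W
end

section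

/-!
# World Fin: the frame of a class
-/

set_option autoImplicit false

namespace Pool.Agent.Lib.MP_8bcb9d_co.W

variable {F G : Type} [Field F] [LinearOrder F] [IsStrictOrderedRing F]
  [AddCommGroup G] [LinearOrder G] [IsOrderedAddMonoid G] (W : World F G)

/-- the frame of the class of `ω` at precision `k`, with swapped coordinates: points of the class
become `UU`, `UU` points become `TT` -/
def frm (k ω : F) (p : F × F) : F × F := ((p.2 - ω * p.1) / k, p.1)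

private theorem frm_eq_affine (k ω : F) :
    (frm k ω : F × F → F × F) = fun p => (-(ω / k) * p.1 + k⁻¹ * p.2 + 0, 1 * p.1 + 0 * p.2 + 0) := by
  funext p
  refine Prod.ext ?_ ?_
  · change (p.2 - ω * p.1) / k = -(ω / k) * p.1 + k⁻¹ * p.2 + 0
    ring
  · change p.1 = 1 * p.1 + 0 * p.2 + 0
    ring

/-- Proof: `I_affine`. -/
theorem World.I_frm {X : Set (F × F)} (hI : X ∈ W.I) (k ω : F) : frm k ω '' X ∈ W.I := by
  rw [frm_eq_affine]
  exact W.I_affine hI _ _ _ _ _ _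

/-- Proof: `KB.affine`. -/
theorem KB.frm {K : ℕ} {X : Set (F × F)} (hX : KB K X) {k ω : F} (hk : k ≠ 0) :
    KB K (Pool.Agent.Lib.MP_8bcb9d_co.W.frm k ω '' X) := by
  rw [frm_eq_affine]
  refine hX.affine ?_
  have := inv_ne_zero hk
  intro h
  apply this
  linarith

theorem frm_inj {k ω : F} (hk : k ≠ 0) {p q : F × F} (h : frm k ω p = frm k ω q) : p = q := by
  have h1 : p.1 = q.1 := congrArg Prod.snd h
  have h2 : (p.2 - ω * p.1) / k = (q.2 - ω * q.1) / k := congrArg Prod.fst h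
  rw [div_left_inj' hk, h1] at h2
  exact Prod.ext h1 (by linarith)

theorem frm_zero (k ω : F) : frm k ω 0 = 0 := by
  simp [frm]

/-- If `κ > 0` and some `TT` point has slope near `ω`, then `ω` is infinitesimal. Proof: `sl p` is
infinitesimal and `v (sl p - ω) ≥ κ > 0 = v 1` means `Sm (sl p - ω) 1`. -/
theorem World.near_sm {κ : G} {ω : F} (hκ : 0 < κ) {p : F × F} (hp : TT p)
    (h : Near W.v κ ω (sl p)) : Sm ω 1 := by
  rcases eq_or_ne (sl p) ω with h0 | h0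
  · rw [← h0]; exact hp.sl_sm
  · rcases h with h | h
    · exact absurd h h0
    · have h1 : Sm (sl p - ω) 1 := by
        rw [← W.v_lt one_ne_zero (sub_ne_zero.2 h0), W.v_one]
        exact hκ.trans_le h
      have h2 := hp.sl_sm.sub h1
      rwa [sub_sub_cancel] at h2

private theorem World.bd_of_near {κ : G} {k ω σ : F} (hk : 0 < k) (hkκ : W.v k = κ)
    (h : Near W.v κ ω σ) : Bd (σ - ω) k := by
  rcases h with h | h
  · rw [h, sub_self]; exact Bd.zero k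
  · rcases eq_or_ne (σ - ω) 0 with h0 | h0
    · rw [h0]; exact Bd.zero k
    · rwa [← W.v_le _ _ hk.ne' h0, hkκ]

private theorem World.near_of_bd {κ : G} {k ω σ : F} (hk : 0 < k) (hkκ : W.v k = κ)
    (h : Bd (σ - ω) k) : Near W.v κ ω σ := by
  rcases eq_or_ne (σ - ω) 0 with h0 | h0
  · exact Or.inl (sub_eq_zero.1 h0)
  · right
    rwa [← hkκ, W.v_le _ _ hk.ne' h0]

/-- Points of the class become `UU` with the same exponent. Proof:
`(p.2 - ω p.1) / k = (sl p - ω) / k * p.1` and `Bd (sl p - ω) k`. -/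
theorem World.frm_near {κ : G} {k ω : F} (hk : 0 < k) (hkκ : W.v k = κ) {p : F × F} (hp : TT p)
    (h : Near W.v κ ω (sl p)) : UU (frm k ω p) ∧ W.e (frm k ω p) = W.e p := by
  have h1 := W.bd_of_near hk hkκ h
  have hU : UU (frm k ω p) := by
    refine ⟨hp.1, ?_⟩
    change Bd ((p.2 - ω * p.1) / k) p.1
    apply Bd.of_mul_left hk.ne'
    have h2 : k * ((p.2 - ω * p.1) / k) = (sl p - ω) * p.1 := by
      have := hp.1.ne'
      unfold sl
      field_simp
    rw [h2]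
    exact h1.mul (Bd.refl _)
  refine ⟨hU, ?_⟩
  rw [W.e_UU hU, W.e_TT hp]
  rfl

/-- Conversely. Proof: `|p.2 - ω p.1| ≤ n k p.1`, so `p.2` is infinitely smaller than `p.1`, and
`|sl p - ω| ≤ n k`. -/
theorem World.frm_UU {κ : G} {k ω : F} (hk : 0 < k) (hkκ : W.v k = κ) (hκ : 0 < κ)
    (hω : Sm ω 1) {p : F × F} (h : UU (frm k ω p)) : TT p ∧ Near W.v κ ω (sl p) := by
  obtain ⟨h1, h2⟩ := h
  change 0 < p.1 at h1
  change Bd ((p.2 - ω * p.1) / k) p.1 at h2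
  have hk1 : Sm k 1 := by
    rw [← W.v_lt one_ne_zero hk.ne', W.v_one, hkκ]
    exact hκ
  have h3 : Bd (p.2 - ω * p.1) (k * p.1) := by
    have h4 := (Bd.refl k).mul h2
    rwa [mul_div_cancel₀ _ hk.ne'] at h4
  have h4 : Sm (p.2 - ω * p.1) p.1 := by
    refine h3.trans_sm ?_
    have h5 := hk1.mul_bd (Bd.refl p.1) h1.ne'
    rwa [one_mul] at h5
  have h5 : Sm (ω * p.1) p.1 := by
    have h6 := hω.mul_bd (Bd.refl p.1) h1.ne'
    rwa [one_mul] at h6
  refine ⟨⟨h1, ?_⟩, ?_⟩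
  · have h6 := h4.add h5
    rwa [sub_add_cancel] at h6
  · apply W.near_of_bd hk hkκ
    apply Bd.of_mul_left h1.ne'
    have h6 : p.1 * (sl p - ω) = p.2 - ω * p.1 := by
      have := h1.ne'
      unfold sl
      field_simp
    rw [h6, mul_comm p.1 k]
    exact h3

/-- `UU` points become `TT`, exponent minus `κ`. Proof: `Sm (ω p.1) p.2`, so
`v (p.2 - ω p.1) = v p.2`, and `Sm p.1 (p.2 / k)`. -/
theorem World.frm_TT {κ : G} {k ω : F} (hk : 0 < k) (hkκ : W.v k = κ) (hκ : 0 < κ)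
    (hω : Sm ω 1) {p : F × F} (h : UU p) : TT (frm k ω p) ∧ W.e (frm k ω p) = W.e p - κ := by
  have hk1 : Sm k 1 := by
    rw [← W.v_lt one_ne_zero hk.ne', W.v_one, hkκ]
    exact hκ
  have h1 : Sm (-(ω * p.1)) p.2 := by
    have h2 := (hω.mul_bd h.2 h.1.ne').neg
    rwa [one_mul] at h2
  have h2 : p.2 - ω * p.1 = p.2 + -(ω * p.1) := sub_eq_add_neg _ _
  have h3 : 0 < p.2 - ω * p.1 := by
    have h4 := h1.lt
    rw [abs_neg, abs_of_pos h.1] at h4
    have h5 := le_abs_self (ω * p.1)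
    linarith
  have hT : TT (frm k ω p) := by
    refine ⟨div_pos h3 hk, ?_⟩
    change Sm p.1 ((p.2 - ω * p.1) / k)
    apply Sm.of_mul_left hk.ne'
    rw [mul_div_cancel₀ _ hk.ne', h2]
    refine Sm.trans_bd ?_ (Bd.add_right_of_sm h1)
    have h4 := hk1.mul_bd h.2 h.1.ne'
    rwa [one_mul] at h4
  refine ⟨hT, ?_⟩
  rw [W.e_TT hT, W.e_UU h]
  change W.v ((p.2 - ω * p.1) / k) = _
  rw [W.v_div h3.ne' hk.ne', hkκ, h2, W.v_add_sm h1]

/-- inverse slopes in the frame -/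
theorem frm_slope {k ω : F} (hk : k ≠ 0) {p : F × F} (hp : p.1 ≠ 0) :
    (frm k ω p).1 / (frm k ω p).2 = (sl p - ω) / k := by
  unfold frm sl
  field_simp

end Pool.Agent.Lib.MP_8bcb9d_co.W
end

section

/-!
# World Fin: one step of the path
-/

set_option autoImplicit false

namespace Pool.Agent.Lib.MP_8bcb9d_co.W

variable {F G : Type} [Field F] [LinearOrder F] [IsStrictOrderedRing F]
  [AddCommGroup G] [LinearOrder G] [IsOrderedAddMonoid G] (W : World F G)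

private theorem p2_nrm_tri {a b c w z : F × F} {r : F} (ha : nrm (a - z) ≤ r)
    (hb : nrm (b - z) ≤ r) (hc : nrm (c - z) ≤ r) (hw : w ∈ Tri a b c) : nrm (w - z) ≤ r := by
  obtain ⟨x, y, t, hx, hy, ht, hs, rfl⟩ := hw
  have h1 : x • a + y • b + t • c - z = x • (a - z) + y • (b - z) + t • (c - z) := by
    have h2 : z = x • z + y • z + t • z := by
      rw [← add_smul, ← add_smul, hs, one_smul]
    calc x • a + y • b + t • c - z = x • a + y • b + t • c - (x • z + y • z + t • z) := by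
          rw [← h2]
      _ = _ := by
          rw [smul_sub, smul_sub, smul_sub]
          abel
  rw [h1]
  have h3 := nrm_add (x • (a - z) + y • (b - z)) (t • (c - z))
  have h4 := nrm_add (x • (a - z)) (y • (b - z))
  rw [nrm_smul, abs_of_nonneg ht] at h3
  rw [nrm_smul, nrm_smul, abs_of_nonneg hx, abs_of_nonneg hy] at h4
  have h5 := mul_le_mul_of_nonneg_left ha hx
  have h6 := mul_le_mul_of_nonneg_left hb hy
  have h7 := mul_le_mul_of_nonneg_left hc ht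
  have h8 : x * r + y * r + t * r = r := by rw [← add_mul, ← add_mul, hs, one_mul]
  linarith

private theorem p2_translate {A : Set (F × F)} (hI : A ∈ W.I) (z : F × F) :
    (fun p : F × F => p - z) '' A ∈ W.I := by
  have h := W.I_affine hI 1 0 (-z.1) 0 1 (-z.2)
  convert h using 1
  refine Set.image_congr fun p _ => ?_
  apply Prod.ext
  · simp only [Prod.fst_sub]
    ring
  · simp only [Prod.snd_sub]
    ring

private theorem p2_translate_kb {K : ℕ} {A : Set (F × F)} (hA : KB K A) (z : F × F) :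
    KB K ((fun p : F × F => p - z) '' A) := by
  have h := hA.affine (a := 1) (b := 0) (c := -z.1) (a' := 0) (b' := 1) (c' := -z.2)
    (by rw [mul_one, mul_zero, sub_zero]; exact one_ne_zero)
  convert h using 1
  refine Set.image_congr fun p _ => ?_
  apply Prod.ext
  · simp only [Prod.fst_sub]
    ring
  · simp only [Prod.snd_sub]
    ring

private theorem p2_sm_nrm {p : F × F} {ρ : F} (h1 : Sm p.1 ρ) (h2 : Sm p.2 ρ) :
    Sm (nrm p) ρ := by
  rcases le_total |p.1| |p.2| with h | h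
  · have e : nrm p = |p.2| := max_eq_right h
    rw [e]
    exact (Bd.of_le (by rw [abs_abs])).trans_sm h2
  · have e : nrm p = |p.1| := max_eq_left h
    rw [e]
    exact (Bd.of_le (by rw [abs_abs])).trans_sm h1

/-- A cluster is a window. Proof: `gap_small` for the translate of `A` by `-z` (`I_affine`,
`KB.affine`) gives `n > 0` such that `n * nrm (p - z) ≤ ρ` implies `Sm (nrm (p - z)) ρ` for `p ∈ A`;
so the cluster is `{p ∈ A | nrm (p - z) ≤ ρ / n}`: `I_box`, and `KB.window` with the box (convexity of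
the norm). -/
theorem World.cluster {A : Set (F × F)} (hI : A ∈ W.I) (hA : KB W.K A) {ρ : F} (hρ : 0 < ρ)
    (z : F × F) :
    {p ∈ A | Sm (nrm (p - z)) ρ} ∈ W.I ∧ KB W.K {p ∈ A | Sm (nrm (p - z)) ρ} := by
  obtain ⟨n, hn, h⟩ := W.gap_small (p2_translate W hI z) (p2_translate_kb hA z) hρ
  have hn' : (0 : F) < n := by exact_mod_cast hn
  have he : {p ∈ A | Sm (nrm (p - z)) ρ} = {p ∈ A | nrm (p - z) ≤ ρ / n} := by
    ext p
    simp only [Set.mem_setOf_eq]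
    refine and_congr_right fun hp => ?_
    constructor
    · intro h1
      have h2 := h1 n
      rw [abs_nrm, abs_of_pos hρ] at h2
      rw [le_div_iff₀ hn', mul_comm]
      exact h2.le
    · intro h1
      rw [le_div_iff₀ hn', mul_comm] at h1
      exact h (p - z) ⟨p, hp, rfl⟩ h1
  rw [he]
  refine ⟨W.I_box hI z _, ?_⟩
  have h2 := hA.window (C := {p : F × F | nrm (p - z) ≤ ρ / n})
    (fun a ha b hb c hc w hw => p2_nrm_tri ha hb hc hw)
  exact h2

/-- A state of the path: `A` is an internal part of `X` of diameter `ρ` which decides the finiteness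
of nets. -/
structure PSt (X A : Set (F × F)) (ρ : F) : Prop where
  int : A ∈ W.I
  kb : KB W.K A
  sub : A ⊆ X
  star : ∀ y, W.FinNet A y → W.FinNet X y
  pos : 0 < ρ
  dia : ∀ p ∈ A, ∀ q ∈ A, Bd (nrm (p - q)) ρ
  far : ∀ p ∈ A, ∃ q ∈ A, Bd ρ (nrm (p - q))

variable {W}

/-- Proof: otherwise `A` has finite nets at all resolutions (`FinNet.of_finite`), and so has `X`. -/
theorem PSt.inf {X A : Set (F × F)} {ρ : F} (hX : ∃ y, ¬ W.FinNet X y) (h : PSt W X A ρ) :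
    A.Infinite := by
  obtain ⟨y, hy⟩ := hX
  intro hA
  exact hy (h.star y (FinNet.of_finite hA y))

/-- The radius of an infinite internal set. Proof: fix `a ∈ A`; the translate `A - a` is internal;
let `ρ = nrm (q₀ - a)` be the largest norm in it (`argmax_nrm`); `0 < ρ` as `A` has a second point.
`nrm (p - q) ≤ 2 ρ`; and `ρ = nrm (q₀ - a) ≤ nrm (p - q₀) + nrm (p - a)`, so one of the two is at least
`ρ / 2`. -/
theorem exists_radius {A : Set (F × F)} (hI : A ∈ W.I) (hinf : A.Infinite) :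
    ∃ ρ : F, 0 < ρ ∧ (∀ p ∈ A, ∀ q ∈ A, Bd (nrm (p - q)) ρ) ∧
      ∀ p ∈ A, ∃ q ∈ A, Bd ρ (nrm (p - q)) := by
  obtain ⟨a, ha⟩ := hinf.nonempty
  obtain ⟨b, hb, hab⟩ := hinf.exists_notMem_finite (Set.finite_singleton a)
  rw [Set.mem_singleton_iff] at hab
  obtain ⟨_, ⟨q₀, hq₀, rfl⟩, hmax⟩ := W.argmax_nrm (p2_translate W hI a) ⟨_, a, ha, rfl⟩
  have hmax' : ∀ p ∈ A, nrm (p - a) ≤ nrm (q₀ - a) := fun p hp => hmax _ ⟨p, hp, rfl⟩
  have hpos : 0 < nrm (q₀ - a) :=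
    (nrm_pos.2 (sub_ne_zero.2 hab)).trans_le (hmax' b hb)
  refine ⟨nrm (q₀ - a), hpos, ?_, ?_⟩
  · intro p hp q hq
    refine ⟨2, ?_⟩
    have h1 := nrm_triangle p a q
    rw [nrm_sub_comm a q] at h1
    have h2 := hmax' p hp
    have h3 := hmax' q hq
    rw [abs_nrm, abs_nrm]
    push_cast
    linarith
  · intro p hp
    have h1 := nrm_triangle q₀ p a
    rw [nrm_sub_comm q₀ p] at h1
    rcases le_total (nrm (p - q₀)) (nrm (p - a)) with h | h
    · refine ⟨a, ha, 2, ?_⟩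
      rw [abs_nrm, abs_nrm]
      push_cast
      linarith
    · refine ⟨q₀, hq₀, 2, ?_⟩
      rw [abs_nrm, abs_nrm]
      push_cast
      linarith

/-- Some cluster decides the finiteness of nets.

Proof. `WF_aniso` for `A` with centre a point of `A` and both radii `ρ` gives (by `dia`) a finite set
`Z ⊆ A` such that each `p ∈ A` satisfies `Sm (nrm (p - z)) ρ` for some `z ∈ Z`. Let
`C z = {p ∈ A | Sm (nrm (p - z)) ρ}`. Suppose no `C z`, `z ∈ Z`, has the property `star`: for each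
`z ∈ Z` there is `y z` with `FinNet (C z) (y z)` and not `FinNet X (y z)`. `Z` is nonempty; let
`y₀ = y z₀` be the smallest of the `y z`. By `FinNet.mono` all `C z` have finite nets at `y₀`, so
`A` has (`FinNet.biUnion`), so `X` has (`h.star`): contradiction. -/
theorem PSt.exists_cluster {X A : Set (F × F)} {ρ : F} (hX : ∃ y, ¬ W.FinNet X y)
    (h : PSt W X A ρ) :
    ∃ z ∈ A, ∀ y, W.FinNet {p ∈ A | Sm (nrm (p - z)) ρ} y → W.FinNet X y := by
  classical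
  obtain ⟨a, ha⟩ := (h.inf hX).nonempty
  obtain ⟨Z, hZf, hZA, hZ⟩ := W.WF_aniso h.int h.kb h.pos h.pos a
  have hcov : ∀ p ∈ A, ∃ z ∈ Z, Sm (nrm (p - z)) ρ := by
    intro p hp
    have h1 := h.dia p hp a ha
    obtain ⟨z, hz, h2, h3⟩ := hZ p hp
      ((Bd.of_le (by rw [abs_nrm]; exact abs_fst_le (p - a))).trans h1)
      ((Bd.of_le (by rw [abs_nrm]; exact abs_snd_le (p - a))).trans h1)
    exact ⟨z, hz, p2_sm_nrm h2 h3⟩
  by_contra hcon
  push Not at hcon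
  have hch : ∀ z : F × F, ∃ y : G, z ∈ A →
      W.FinNet {p ∈ A | Sm (nrm (p - z)) ρ} y ∧ ¬ W.FinNet X y := by
    intro z
    by_cases hz : z ∈ A
    · obtain ⟨y, hy⟩ := hcon z hz
      exact ⟨y, fun _ => hy⟩
    · exact ⟨0, fun h' => absurd h' hz⟩
  choose y hy using hch
  obtain ⟨z₁, hz₁, -⟩ := hcov a ha
  obtain ⟨z₀, hz₀, hmin⟩ := hZf.toFinset.exists_min_image y ⟨z₁, hZf.mem_toFinset.2 hz₁⟩
  rw [hZf.mem_toFinset] at hz₀
  refine (hy z₀ (hZA hz₀)).2 (h.star _ ?_)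
  refine FinNet.biUnion hZf (fun z => {p ∈ A | Sm (nrm (p - z)) ρ}) ?_ ?_ ?_
  · intro z hz
    exact FinNet.mono (hy z (hZA hz)).1 (hmin z (hZf.mem_toFinset.2 hz))
  · intro z _ p hp
    exact hp.1
  · intro p hp
    obtain ⟨z, hz, h1⟩ := hcov p hp
    exact ⟨z, hz, hp, h1⟩

/-- One step. Proof: `exists_cluster`, `World.cluster`; the cluster is infinite (as in `PSt.inf`), so
it has a radius `ρ'` (`exists_radius`); `Sm ρ' ρ` because `Bd ρ' (nrm (p - q))` for two points of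
the cluster, and `nrm (p - q) ≤ nrm (p - z) + nrm (q - z)`. -/
theorem PSt.step {X A : Set (F × F)} {ρ : F} (hX : ∃ y, ¬ W.FinNet X y) (h : PSt W X A ρ) :
    ∃ (A' : Set (F × F)) (ρ' : F) (z : F × F), PSt W X A' ρ' ∧ Sm ρ' ρ ∧
      A' = {p ∈ A | Sm (nrm (p - z)) ρ} := by
  obtain ⟨z, hz, hstar⟩ := h.exists_cluster hX
  obtain ⟨hint, hkb⟩ := W.cluster h.int h.kb h.pos z
  have hinf : {p ∈ A | Sm (nrm (p - z)) ρ}.Infinite := by
    obtain ⟨y, hy⟩ := hX
    intro hA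
    exact hy (hstar y (FinNet.of_finite hA y))
  obtain ⟨ρ', hρ', hdia, hfar⟩ := exists_radius hint hinf
  refine ⟨_, ρ', z, ⟨hint, hkb, fun p hp => h.sub hp.1, hstar, hρ', hdia, hfar⟩, ?_, rfl⟩
  obtain ⟨p, hp⟩ := hinf.nonempty
  obtain ⟨q, hq, h1⟩ := hfar p hp
  refine h1.trans_sm ?_
  have h2 := nrm_triangle p z q
  rw [nrm_sub_comm z q] at h2
  have h3 : Bd (nrm (p - q)) (nrm (p - z) + nrm (q - z)) := by
    refine Bd.of_le ?_
    rw [abs_nrm, abs_of_nonneg (add_nonneg (nrm_nonneg _) (nrm_nonneg _))]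
    exact h2
  exact h3.trans_sm (hp.2.add hq.2)

end Pool.Agent.Lib.MP_8bcb9d_co.W
end

section

/-!
# World Fin: the path
-/

set_option autoImplicit false

namespace Pool.Agent.Lib.MP_8bcb9d_co.W

variable {F G : Type} [Field F] [LinearOrder F] [IsStrictOrderedRing F]
  [AddCommGroup G] [LinearOrder G] [IsOrderedAddMonoid G]

/-- The result: the exponents around the origin, and their deep parts decide the finiteness of
nets. -/
structure Path (W : World F G) (X : Set (F × F)) (s : ℕ → G) : Prop where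
  int : X ∈ W.I
  kb : KB W.K X
  zero : (0 : F × F) ∈ X
  mono : StrictMono s
  occ : ∀ j, ∃ p ∈ X, p ≠ 0 ∧ W.e p = s j
  all : ∀ p ∈ X, p ≠ 0 → (∃ j, W.e p = s j) ∨ ∀ j, s j < W.e p
  star : ∀ n y, W.FinNet {p ∈ X | p = 0 ∨ s n < W.e p} y → W.FinNet X y
  net : ∀ n, W.FinNet X (s n)

/-- a nested sequence of clusters around `ξ` -/
structure Tower (W : World F G) (X : Set (F × F)) (A : ℕ → Set (F × F)) (ρ : ℕ → F)
    (ξ : F × F) : Prop where
  mem : ξ ∈ X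
  zero : A 0 = X
  st : ∀ n, PSt W X (A n) (ρ n)
  lt : ∀ n, Sm (ρ (n + 1)) (ρ n)
  succ : ∀ n, A (n + 1) = {p ∈ A n | Sm (nrm (p - ξ)) (ρ n)}

variable {W : World F G}

/-- auxiliary -/
theorem p3_sm_add {a b : F × F} {r : F} (h : Sm (nrm a) r) (h' : Sm (nrm b) r) :
    Sm (nrm (a + b)) r := by
  refine (Bd.of_le ?_).trans_sm (h.add h')
  rw [abs_nrm, abs_of_nonneg (add_nonneg (nrm_nonneg a) (nrm_nonneg b))]
  exact nrm_add a b

/-- auxiliary -/
theorem p3_sm_sub {a b : F × F} {r : F} (h : Sm (nrm a) r) (h' : Sm (nrm b) r) :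
    Sm (nrm (a - b)) r := by
  rw [sub_eq_add_neg]
  refine p3_sm_add h ?_
  rwa [nrm_neg]

/-- auxiliary -/
theorem p3_sm_iff {p ξ : F × F} {r : F} (hr : 0 < r) :
    Sm (nrm (p - ξ)) r ↔ p = ξ ∨ W.v r < W.e (p - ξ) := by
  rcases eq_or_ne p ξ with hc | hc
  · subst hc
    simp only [true_or, iff_true]
    rw [sub_self, nrm_eq_zero.2 rfl]
    exact Sm.zero hr.ne'
  · rw [or_iff_right hc]
    exact (W.v_lt hr.ne' (nrm_pos.2 (sub_ne_zero.2 hc)).ne').symm

/-- Proof: `World.exists_not_finNet`; dependent choice with `PSt.step`, starting with `A 0 = X`,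
`ρ 0 = ρ₀`; `W.sat` (all `A n` are infinite, so nonempty) gives `ξ ∈ A n` for all `n`. As
`ξ ∈ A (n + 1)`, `Sm (nrm (ξ - z n)) (ρ n)`, so for all `p`: `Sm (nrm (p - z n)) (ρ n)` iff
`Sm (nrm (p - ξ)) (ρ n)` (`p - z n = (p - ξ) + (ξ - z n)`). -/
theorem exists_tower {X : Set (F × F)} (hI : X ∈ W.I) (hX : KB W.K X) (hinf : X.Infinite)
    {ρ₀ : F} (hρ₀ : 0 < ρ₀) (hdia : ∀ p ∈ X, ∀ q ∈ X, Bd (nrm (p - q)) ρ₀)
    (hfar : ∀ p ∈ X, ∃ q ∈ X, Bd ρ₀ (nrm (p - q))) :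
    ∃ (A : ℕ → Set (F × F)) (ρ : ℕ → F) (ξ : F × F), ρ 0 = ρ₀ ∧ Tower W X A ρ ξ := by
  classical
  have hne := W.exists_not_finNet hI hX hinf
  have h0 : PSt W X X ρ₀ := ⟨hI, hX, subset_rfl, fun y h => h, hρ₀, hdia, hfar⟩
  let S : Type := {s : Set (F × F) × F // PSt W X s.1 s.2}
  have hstep : ∀ s : S, ∃ (t : S) (z : F × F), Sm t.1.2 s.1.2 ∧
      t.1.1 = {p ∈ s.1.1 | Sm (nrm (p - z)) s.1.2} := by
    intro s
    obtain ⟨A', ρ', z, h1, h2, h3⟩ := s.2.step hne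
    exact ⟨⟨(A', ρ'), h1⟩, z, h2, h3⟩
  choose f z hf1 hf2 using hstep
  let q : ℕ → S := fun n => Nat.rec ⟨(X, ρ₀), h0⟩ (fun _ s => f s) n
  have hq : ∀ n, q (n + 1) = f (q n) := fun n => rfl
  obtain ⟨ξ, hξ⟩ := W.sat (fun n => (q n).1.1) (fun n => (q n).2.int)
    (fun n => ((q n).2.inf hne).nonempty) (fun n => by
      rw [hq, hf2]
      exact fun p hp => hp.1)
  refine ⟨fun n => (q n).1.1, fun n => (q n).1.2, ξ, rfl, hξ 0, rfl, fun n => (q n).2,
    fun n => ?_, fun n => ?_⟩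
  · rw [hq]
    exact hf1 _
  · have h1 : ξ ∈ (q (n + 1)).1.1 := hξ (n + 1)
    change (q (n + 1)).1.1 = _
    rw [hq, hf2] at h1 ⊢
    ext p
    constructor
    · rintro ⟨hp, h2⟩
      refine ⟨hp, ?_⟩
      have h3 := p3_sm_sub h2 h1.2
      rwa [sub_sub_sub_cancel_right] at h3
    · rintro ⟨hp, h2⟩
      refine ⟨hp, ?_⟩
      have h3 := p3_sm_add h2 h1.2
      rwa [sub_add_sub_cancel] at h3

/-- Proof: induction (`Sm 0 (ρ n)`). -/
theorem Tower.mem_all {X : Set (F × F)} {A : ℕ → Set (F × F)} {ρ : ℕ → F} {ξ : F × F}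
    (h : Tower W X A ρ ξ) (n : ℕ) : ξ ∈ A n := by
  induction n with
  | zero => rw [h.zero]; exact h.mem
  | succ n ih =>
    rw [h.succ]
    refine ⟨ih, ?_⟩
    rw [sub_self, nrm_eq_zero.2 rfl]
    exact Sm.zero (h.st n).pos.ne'

theorem Tower.mono {X : Set (F × F)} {A : ℕ → Set (F × F)} {ρ : ℕ → F} {ξ : F × F}
    (h : Tower W X A ρ ξ) : StrictMono fun n => W.v (ρ n) := by
  refine strictMono_nat_of_lt_succ fun n => ?_
  exact (W.v_lt (h.st n).pos.ne' (h.st (n + 1)).pos.ne').2 (h.lt n)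

/-- Proof: `PSt.dia` for `p` and `ξ`. -/
theorem Tower.le {X : Set (F × F)} {A : ℕ → Set (F × F)} {ρ : ℕ → F} {ξ : F × F}
    (h : Tower W X A ρ ξ) {n : ℕ} {p : F × F} (hp : p ∈ A n) (hne : p ≠ ξ) :
    W.v (ρ n) ≤ W.e (p - ξ) := by
  have h1 := (h.st n).dia p hp ξ (h.mem_all n)
  exact (W.v_le _ _ (h.st n).pos.ne' (nrm_pos.2 (sub_ne_zero.2 hne)).ne').2 h1

/-- Proof: `⊆` from `succ` (`Sm (nrm (p - ξ)) (ρ n)` iff `p = ξ` or `v (ρ n) < e (p - ξ)`) and
`PSt.sub`. `⊇`: `p ∈ A n` for such `p`: for `n = 0` clear, for `n = m + 1` by induction, because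
`v (ρ m) < v (ρ n)`. -/
theorem Tower.eq {X : Set (F × F)} {A : ℕ → Set (F × F)} {ρ : ℕ → F} {ξ : F × F}
    (h : Tower W X A ρ ξ) (n : ℕ) :
    A (n + 1) = {p ∈ X | p = ξ ∨ W.v (ρ n) < W.e (p - ξ)} := by
  have key : ∀ m, ∀ p ∈ X, (p = ξ ∨ W.v (ρ m) < W.e (p - ξ)) → p ∈ A m := by
    intro m
    induction m with
    | zero => intro p hp _; rw [h.zero]; exact hp
    | succ m ih =>
      intro p hp hc
      have hc' : p = ξ ∨ W.v (ρ m) < W.e (p - ξ) := by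
        rcases hc with hc | hc
        · exact Or.inl hc
        · exact Or.inr ((h.mono (Nat.lt_succ_self m)).trans hc)
      rw [h.succ]
      exact ⟨ih p hp hc', (p3_sm_iff (h.st m).pos).2 hc'⟩
  ext p
  constructor
  · intro hp
    have h1 := (h.st (n + 1)).sub hp
    rw [h.succ] at hp
    exact ⟨h1, (p3_sm_iff (h.st n).pos).1 hp.2⟩
  · rintro ⟨hp, hc⟩
    rw [h.succ]
    exact ⟨key n p hp hc, (p3_sm_iff (h.st n).pos).2 hc⟩

/-- Proof: `PSt.far` for `ξ` and `Tower.le`. -/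
theorem Tower.occ {X : Set (F × F)} {A : ℕ → Set (F × F)} {ρ : ℕ → F} {ξ : F × F}
    (h : Tower W X A ρ ξ) (n : ℕ) : ∃ p ∈ X, p ≠ ξ ∧ W.e (p - ξ) = W.v (ρ n) := by
  obtain ⟨q, hq, hb⟩ := (h.st n).far ξ (h.mem_all n)
  have hpos := (h.st n).pos
  have hne : q ≠ ξ := by
    rintro rfl
    obtain ⟨k, hk⟩ := hb
    rw [sub_self, nrm_eq_zero.2 rfl, abs_zero, mul_zero, abs_nonpos_iff] at hk
    exact hpos.ne' hk
  refine ⟨q, (h.st n).sub hq, hne, le_antisymm ?_ (h.le hq hne)⟩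
  rw [nrm_sub_comm] at hb
  exact (W.v_le _ _ (nrm_pos.2 (sub_ne_zero.2 hne)).ne' hpos.ne').2 hb

/-- Proof: otherwise let `n` be the smallest index with `e (p - ξ) ≤ v (ρ n)`; then `p ∈ A n`
(`Tower.eq`, or `n = 0`) and `Tower.le` gives equality. -/
theorem Tower.all {X : Set (F × F)} {A : ℕ → Set (F × F)} {ρ : ℕ → F} {ξ : F × F}
    (h : Tower W X A ρ ξ) {p : F × F} (hp : p ∈ X) (hne : p ≠ ξ) :
    (∃ n, W.e (p - ξ) = W.v (ρ n)) ∨ ∀ n, W.v (ρ n) < W.e (p - ξ) := by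
  classical
  by_cases hall : ∀ n, W.v (ρ n) < W.e (p - ξ)
  · exact Or.inr hall
  · left
    push Not at hall
    have hmin : ∀ m < Nat.find hall, W.v (ρ m) < W.e (p - ξ) := fun m hm =>
      not_le.1 (Nat.find_min hall hm)
    have hle := Nat.find_spec hall
    have hpA : p ∈ A (Nat.find hall) := by
      rcases Nat.eq_zero_or_pos (Nat.find hall) with h0 | h0
      · rw [h0, h.zero]; exact hp
      · obtain ⟨m, hm⟩ := Nat.exists_eq_succ_of_ne_zero h0.ne'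
        rw [hm, Nat.succ_eq_add_one, h.eq]
        exact ⟨hp, Or.inr (hmin m (by rw [hm]; exact Nat.lt_succ_self m))⟩
    exact ⟨Nat.find hall, le_antisymm hle (h.le hpA hne)⟩

/-- The path. Proof: `exists_tower`, `s n = v (ρ n)`; the translate of `X` by `-ξ` is internal and
`K`-bounded (`I_affine`, `KB.affine`); `star`: `FinNet` is invariant under the translation
(`FinNet.image` with `p ↦ p + ξ` from the translate of `A (n + 1)`, which is the given set by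
`Tower.eq`), `PSt.star`, and `FinNet.image` with `p ↦ p - ξ`. `net`: `A n` has the net `{ξ}` at
resolution `s n` (`Tower.le`), so `X` has a finite net (`PSt.star`), so the translate. -/
theorem World.path {X : Set (F × F)} (hI : X ∈ W.I) (hX : KB W.K X) (hinf : X.Infinite)
    {ρ₀ : F} (hρ₀ : 0 < ρ₀) (hdia : ∀ p ∈ X, ∀ q ∈ X, Bd (nrm (p - q)) ρ₀)
    (hfar : ∀ p ∈ X, ∃ q ∈ X, Bd ρ₀ (nrm (p - q))) :
    ∃ ξ ∈ X, ∃ s : ℕ → G, s 0 = W.v ρ₀ ∧ Path W ((fun p => p - ξ) '' X) s := by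
  obtain ⟨A, ρ, ξ, h0, h⟩ := exists_tower hI hX hinf hρ₀ hdia hfar
  have hfun : (fun p : F × F => (1 * p.1 + 0 * p.2 + -ξ.1, 0 * p.1 + 1 * p.2 + -ξ.2)) =
      fun p => p - ξ := by
    funext p
    apply Prod.ext <;> simp <;> ring
  have himg : ∀ (B : Set (F × F)) (y : G), W.FinNet B y → W.FinNet ((fun p => p - ξ) '' B) y := by
    intro B y hB
    refine FinNet.image _ (fun p _ q _ _ => Or.inr ?_) hB
    rw [sub_sub_sub_cancel_right]
  refine ⟨ξ, h.mem, fun n => W.v (ρ n), congrArg W.v h0, ?_, ?_, ⟨ξ, h.mem, sub_self ξ⟩, h.mono, ?_, ?_,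
    ?_, ?_⟩
  · have h1 := W.I_affine hI 1 0 (-ξ.1) 0 1 (-ξ.2)
    rwa [hfun] at h1
  · have h1 := hX.affine (a := 1) (b := 0) (c := -ξ.1) (a' := 0) (b' := 1) (c' := -ξ.2)
      (by norm_num)
    rwa [hfun] at h1
  · intro j
    obtain ⟨p, hp, hne, he⟩ := h.occ j
    exact ⟨p - ξ, ⟨p, hp, rfl⟩, sub_ne_zero.2 hne, he⟩
  · rintro p' ⟨p, hp, rfl⟩ hne
    have hne' : p ≠ ξ := fun hc => hne (by simp [hc])
    rcases h.all hp hne' with ⟨n, hn⟩ | hn
    · exact Or.inl ⟨n, hn⟩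
    · exact Or.inr hn
  · intro n y hnet
    have h1 : {p ∈ (fun p => p - ξ) '' X | p = 0 ∨ W.v (ρ n) < W.e p} =
        (fun p => p - ξ) '' A (n + 1) := by
      rw [h.eq n]
      ext p'
      constructor
      · rintro ⟨⟨p, hp, rfl⟩, hc⟩
        refine ⟨p, ⟨hp, ?_⟩, rfl⟩
        rcases hc with hc | hc
        · exact Or.inl (sub_eq_zero.1 hc)
        · exact Or.inr hc
      · rintro ⟨p, ⟨hp, hc⟩, rfl⟩
        refine ⟨⟨p, hp, rfl⟩, ?_⟩
        rcases hc with hc | hc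
        · exact Or.inl (sub_eq_zero.2 hc)
        · exact Or.inr hc
    rw [h1] at hnet
    have h2 : W.FinNet (A (n + 1)) y := by
      refine FinNet.of_image (fun p => p - ξ) (fun p _ q _ hpq => ⟨?_, ?_⟩) hnet
      · intro hc
        exact hpq (sub_left_injective hc)
      · rw [sub_sub_sub_cancel_right]
    exact himg X y ((h.st (n + 1)).star y h2)
  · intro n
    refine himg X _ ((h.st n).star _ ⟨{ξ}, Set.finite_singleton ξ, ?_, ?_⟩)
    · intro p hp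
      rw [Set.mem_singleton_iff.1 hp]
      exact h.mem_all n
    · intro p hp
      refine ⟨ξ, rfl, ?_⟩
      rcases eq_or_ne p ξ with hc | hc
      · exact Or.inl hc
      · exact Or.inr (h.le hp hc)

end Pool.Agent.Lib.MP_8bcb9d_co.W
end

section

/-!
# World Fin: from a spine to its combinatorial data, part 1
-/

set_option autoImplicit false

namespace Pool.Agent.Lib.MP_8bcb9d_co.W

variable {F G : Type} [Field F] [LinearOrder F] [IsStrictOrderedRing F]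
  [AddCommGroup G] [LinearOrder G] [IsOrderedAddMonoid G]

/-- (shell index, slope) of the `TT` points -/
def TPset (W : World F G) (X : Set (F × F)) (s : ℕ → G) : Set (ℕ × F) :=
  {p | ∃ z ∈ X, TT z ∧ W.e z = s p.1 ∧ sl z = p.2}

/-- indices of the shells with a `UU` point -/
def UIset (W : World F G) (X : Set (F × F)) (s : ℕ → G) : Set ℕ :=
  {i | ∃ z ∈ X, UU z ∧ W.e z = s i}

variable {W : World F G} {X : Set (F × F)} {s : ℕ → G}

/-- Two different `TT` points have different slopes. Proof: otherwise `0, z, w` are collinear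
(`sl_sub`), contradiction to `GP`. -/
theorem Spine.sl_inj (h : Spine W X s) {z w : F × F} (hz : z ∈ X) (hw : w ∈ X) (hzT : TT z)
    (hwT : TT w) (hsl : sl z = sl w) : z = w := by
  by_contra hne
  have h1 := h.kb.gp 0 h.zero z hz w hw hzT.ne.symm hwT.ne.symm hne
  rw [sub_zero, sub_zero] at h1
  have h2 := sl_sub hzT.1.ne' hwT.1.ne'
  rw [hsl, sub_self] at h2
  have h3 : z.1 * w.1 ≠ 0 := mul_ne_zero hzT.1.ne' hwT.1.ne'
  exact h1 ((div_eq_zero_iff.1 h2.symm).resolve_right h3)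

/-- The hypotheses `T2`, `U2` at a larger exponent. -/
theorem Spine.T2' (h : Spine W X s) {t : G} (ht : s 0 ≤ t) :
    ∃ a ∈ X, ∃ b ∈ X, a ≠ b ∧ TT a ∧ TT b ∧ W.e a ≤ t ∧ W.e b ≤ t := by
  obtain ⟨a, ha, b, hb, hab, hTa, hTb, hea, heb⟩ := h.T2
  exact ⟨a, ha, b, hb, hab, hTa, hTb, by rw [hea]; exact ht, by rw [heb]; exact ht⟩

theorem Spine.U2' (h : Spine W X s) {t : G} (ht : s 0 ≤ t) :
    ∃ a ∈ X, ∃ b ∈ X, a ≠ b ∧ UU a ∧ UU b ∧ W.e a ≤ t ∧ W.e b ≤ t := by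
  obtain ⟨a, ha, b, hb, hab, hTa, hTb, hea, heb⟩ := h.U2
  exact ⟨a, ha, b, hb, hab, hTa, hTb, by rw [hea]; exact ht, by rw [heb]; exact ht⟩

/-- auxiliary: a block of `K2` shells is not contained in a set with at most `K ^ 2 + 2 K`
exponents -/
private theorem g9a_block (h : Spine W X s) (i : ℕ) {T : Set G}
    (hT : T.encard ≤ ((W.K ^ 2 + 2 * W.K : ℕ) : ℕ∞))
    (hall : ∀ l, i < l → l ≤ i + K2 W.K → s l ∈ T) : False := by
  have h1 : s '' (↑(Finset.Icc (i + 1) (i + K2 W.K)) : Set ℕ) ⊆ T := by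
    rintro _ ⟨l, hl, rfl⟩
    have hl' : l ∈ Finset.Icc (i + 1) (i + K2 W.K) := hl
    rw [Finset.mem_Icc] at hl'
    exact hall l (by omega) hl'.2
  have h2 := (Set.encard_le_encard h1).trans hT
  rw [h.mono.injective.encard_image, Set.encard_coe_eq_coe_finsetCard, Nat.card_Icc] at h2
  have h3 : i + K2 W.K + 1 - (i + 1) ≤ W.K ^ 2 + 2 * W.K := by exact_mod_cast h2
  unfold K2 at h3
  omega

/-- Proof: otherwise `s (i+1), ..., s (i + K2)` are all in the set of `World.BBT` at `t₁ = s i`: for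
a `TT` point `w`, `e w` is some `s j` with `j ≤ i` or `i + K2 < j`, or larger than all `s j`
(`h.all`). That set has at most `K² + 2 K < K2 K` elements. -/
theorem Spine.hT (h : Spine W X s) (i : ℕ) :
    ∃ j σ, i < j ∧ j ≤ i + K2 W.K ∧ (j, σ) ∈ TPset W X s := by
  by_contra hcon
  push Not at hcon
  have h0 : s 0 ≤ s i := h.mono.monotone (Nat.zero_le i)
  refine g9a_block h i (W.BBT h.int h.kb (h.T2' h0) (h.U2' h0)) ?_
  intro l hil hlK
  obtain ⟨p, hp, hp0, hpe⟩ := h.occ l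
  refine ⟨h.mono hil, ⟨p, hp, hp0, hpe⟩, ?_⟩
  intro w hw hwT
  rcases h.all w hw hwT.ne with ⟨j, hj⟩ | hj
  · rcases le_or_gt j i with hji | hji
    · left
      rw [hj]
      exact h.mono.monotone hji
    · right
      rw [hj]
      apply h.mono
      by_contra hlj
      exact hcon j (sl w) hji (by omega) ⟨w, hw, hwT, hj, rfl⟩
  · right
    exact hj l

/-- Proof: the same with `World.BBU`. -/
theorem Spine.hU (h : Spine W X s) (i : ℕ) :
    ∃ j, i < j ∧ j ≤ i + K2 W.K ∧ j ∈ UIset W X s := by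
  by_contra hcon
  push Not at hcon
  have h0 : s 0 ≤ s i := h.mono.monotone (Nat.zero_le i)
  refine g9a_block h i (W.BBU h.int h.kb (h.T2' h0) (h.U2' h0)) ?_
  intro l hil hlK
  obtain ⟨p, hp, hp0, hpe⟩ := h.occ l
  refine ⟨h.mono hil, ⟨p, hp, hp0, hpe⟩, ?_⟩
  intro w hw hwU
  rcases h.all w hw hwU.ne with ⟨j, hj⟩ | hj
  · rcases le_or_gt j i with hji | hji
    · left
      rw [hj]
      exact h.mono.monotone hji
    · right
      rw [hj]
      apply h.mono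
      by_contra hlj
      exact hcon j hji (by omega) ⟨w, hw, hwU, hj⟩
  · right
    exact hj l

/-- Proof: `T2` and `sl_inj`. -/
theorem Spine.two (h : Spine W X s) :
    ∃ σ τ : F, σ ≠ τ ∧ (0, σ) ∈ TPset W X s ∧ (0, τ) ∈ TPset W X s := by
  obtain ⟨a, ha, b, hb, hab, hTa, hTb, hea, heb⟩ := h.T2
  exact ⟨sl a, sl b, fun hs => hab (h.sl_inj ha hb hTa hTb hs), ⟨a, ha, hTa, hea, rfl⟩,
    ⟨b, hb, hTb, heb, rfl⟩⟩

/-- Proof: the injective map `s` sends the set into the set of `World.LBU` at `t₁ = s i`. -/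
theorem Spine.tu (h : Spine W X s) (i : ℕ) :
    {j | i < j ∧ (∃ σ, (j, σ) ∈ TPset W X s) ∧ ∀ l, i < l → l < j → l ∉ UIset W X s}.encard
      ≤ W.K := by
  have h0 : s 0 ≤ s i := h.mono.monotone (Nat.zero_le i)
  have h1 := W.LBU h.int h.kb (h.U2' h0)
  rw [← h.mono.injective.encard_image]
  refine (Set.encard_le_encard ?_).trans h1
  rintro _ ⟨j, ⟨hij, ⟨σ, z, hz, hzT, hze, -⟩, hl⟩, rfl⟩
  refine ⟨h.mono hij, ⟨z, hz, Or.inl hzT, hze⟩, ?_⟩
  intro w hw hwU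
  rcases h.all w hw hwU.ne with ⟨l, hwl⟩ | hwl
  · rcases le_or_gt l i with hli | hli
    · left
      rw [hwl]
      exact h.mono.monotone hli
    · right
      rw [hwl]
      apply h.mono.monotone
      by_contra hlj
      exact hl l hli (by omega) ⟨w, hw, hwU, hwl⟩
  · right
    exact (hwl j).le

end Pool.Agent.Lib.MP_8bcb9d_co.W
end
end
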