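import Mathlib
import Pool.Agent.Lib.MP_8bcb9d_co.W.KBp
import Pool.Agent.Lib.MP_8bcb9d_co.W.D2

section

/-!
# World Fin, growth: the chart of a viewer
-/

set_option autoImplicit false

namespace Pool.Agent.Lib.MP_8bcb9d_co.W

variable {F : Type} [Field F] [LinearOrder F] [IsStrictOrderedRing F]

/-- the denominator of the chart -/
def vn (a : F × F) : F × F × F := (-(1 / a.1), 0, 1)

/-- The chart of the viewer `a`: second coordinate = height at which the line through `a` and `z`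
meets the second axis. -/
def vw (a : F × F) : F × F → F × F := pj (1, 0, 0) (-(a.2 / a.1), 1, 0) (vn a)

theorem vw_det (a : F × F) : det3 (1, 0, 0) (-(a.2 / a.1), 1, 0) (vn a) = 1 := by
  simp [det3, vn]

omit [LinearOrder F] [IsStrictOrderedRing F] in
private theorem d3_lin {a z : F × F} (ha : a.1 ≠ 0) : lin (vn a) z = (a.1 - z.1) / a.1 := by
  simp only [lin, vn]
  field_simp
  ring

/-- `lin (vn a) z = (a.1 - z.1) / a.1` -/
theorem vn_pos {a z : F × F} (ha : 0 < a.1) (hz : z.1 < a.1) : 0 < lin (vn a) z := by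
  rw [d3_lin ha.ne']
  exact div_pos (sub_pos.2 hz) ha

omit [LinearOrder F] [IsStrictOrderedRing F] in
private theorem d3_vw {a z : F × F} (ha : a.1 ≠ 0) (hz : a.1 - z.1 ≠ 0) :
    (vw a z).1 = z.1 * a.1 / (a.1 - z.1) ∧
      (vw a z).2 = (z.2 * a.1 - z.1 * a.2) / (a.1 - z.1) := by
  have h1 : (vw a z).1 = lin (1, 0, 0) z / lin (vn a) z := rfl
  have h2 : (vw a z).2 = lin (-(a.2 / a.1), 1, 0) z / lin (vn a) z := rfl
  rw [h1, h2, d3_lin ha]
  simp only [lin]
  constructor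
  · field_simp
    ring
  · field_simp
    ring

/-- Proof: `(vw a z).2 = (z.2 * a.1 - z.1 * a.2) / (a.1 - z.1)`; `field_simp`, `ring`. -/
theorem vw_cr {a z z' : F × F} (ha : 0 < a.1) (hz : z.1 < a.1) (hz' : z'.1 < a.1) :
    cr (z - a) (z' - a) =
      (a.1 - z.1) * (a.1 - z'.1) * ((vw a z).2 - (vw a z').2) / a.1 := by
  have h1 : a.1 - z.1 ≠ 0 := (sub_pos.2 hz).ne'
  have h2 : a.1 - z'.1 ≠ 0 := (sub_pos.2 hz').ne'
  have h3 : a.1 ≠ 0 := ha.ne'
  rw [(d3_vw h3 h1).2, (d3_vw h3 h2).2]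
  simp only [cr, Prod.fst_sub, Prod.snd_sub]
  field_simp
  ring

/-- orientation is preserved (`pj_cr`, `vw_det`) -/
theorem vw_cr3 {a x y z : F × F} (ha : 0 < a.1) (hx : x.1 < a.1) (hy : y.1 < a.1)
    (hz : z.1 < a.1) (h : 0 ≤ cr (vw a y - vw a x) (vw a z - vw a x)) :
    0 ≤ cr (y - x) (z - x) := by
  have h1 := vn_pos ha hx
  have h2 := vn_pos ha hy
  have h3 := vn_pos ha hz
  have h4 := pj_cr (l := (1, 0, 0)) (m := (-(a.2 / a.1), 1, 0)) h1 h2 h3
  rw [vw_det, one_mul] at h4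
  have h5 : 0 ≤ cr (y - x) (z - x) / (lin (vn a) x * lin (vn a) y * lin (vn a) z) := by
    rw [← h4]
    exact h
  have h6 : 0 < lin (vn a) x * lin (vn a) y * lin (vn a) z := mul_pos (mul_pos h1 h2) h3
  have h7 := mul_nonneg h5 h6.le
  rwa [div_mul_cancel₀ _ h6.ne'] at h7

private theorem d3_bounds {a z : F × F} {ρ₁ : F} (ha : 2 * ρ₁ < a.1) (hz : nrm z ≤ ρ₁) :
    0 < a.1 ∧ a.1 ≤ 2 * (a.1 - z.1) ∧ a.1 - z.1 ≤ 2 * a.1 ∧ z.1 < a.1 := by
  have h1 := abs_fst_le z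
  have h2 := le_abs_self z.1
  have h3 := neg_abs_le z.1
  have h4 := nrm_nonneg z
  refine ⟨?_, ?_, ?_, ?_⟩ <;> linarith

/-- Proof: `(vw a z).1 = z.1 * a.1 / (a.1 - z.1)` and `a.1 ≤ 2 * (a.1 - z.1)`. -/
theorem vw_fst {a z : F × F} {ρ₁ : F} (ha : 2 * ρ₁ < a.1) (hz : nrm z ≤ ρ₁) :
    Bd (vw a z).1 ρ₁ := by
  obtain ⟨h0, h1, h2, h3⟩ := d3_bounds ha hz
  refine ⟨2, ?_⟩
  rw [(d3_vw h0.ne' (by linarith : 0 < a.1 - z.1).ne').1, abs_div,
    abs_of_pos (by linarith : 0 < a.1 - z.1), div_le_iff₀ (by linarith), abs_mul, abs_of_pos h0]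
  have h4 := abs_fst_le z
  have h5 : 0 ≤ ρ₁ := (nrm_nonneg z).trans hz
  rw [abs_of_nonneg h5]
  push_cast
  have h6 : |z.1| * a.1 ≤ ρ₁ * a.1 := mul_le_mul_of_nonneg_right (h4.trans hz) h0.le
  have h7 : ρ₁ * a.1 ≤ ρ₁ * (2 * (a.1 - z.1)) := mul_le_mul_of_nonneg_left h1 h5
  linarith

/-- Proof: `vw_cr`; `a.1 ≤ 2 * (a.1 - z.1) ≤ 4 * a.1`, the same for `z'`. -/
theorem vw_bd {a z z' : F × F} {ρ₁ ε : F} (ha : 2 * ρ₁ < a.1) (hρ₁ : 0 < ρ₁) (hz : nrm z ≤ ρ₁)
    (hz' : nrm z' ≤ ρ₁) (hε : 0 < ε) (h : Bd ((vw a z).2 - (vw a z').2) ε) :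
    Bd (cr (z - a) (z' - a)) (ε * a.1) := by
  obtain ⟨h0, h1, h2, h3⟩ := d3_bounds ha hz
  obtain ⟨-, h1', h2', h3'⟩ := d3_bounds ha hz'
  obtain ⟨n, hn⟩ := h
  refine ⟨4 * n, ?_⟩
  rw [vw_cr h0 h3 h3', abs_div, abs_mul, abs_mul, abs_of_pos h0,
    abs_of_pos (by linarith : 0 < a.1 - z.1), abs_of_pos (by linarith : 0 < a.1 - z'.1),
    div_le_iff₀ h0, abs_mul, abs_of_pos hε, abs_of_pos h0]
  rw [abs_of_pos hε] at hn
  push_cast
  have hn0 : (0 : F) ≤ n := Nat.cast_nonneg n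
  calc (a.1 - z.1) * (a.1 - z'.1) * |(vw a z).2 - (vw a z').2| ≤
      (2 * a.1) * (2 * a.1) * (n * ε) := by
        refine mul_le_mul (mul_le_mul h2 h2' (by linarith) (by linarith)) hn (abs_nonneg _)
          (by positivity)
    _ = 4 * n * (ε * a.1) * a.1 := by ring

/-- If the level of `z` is above the level of `z'` by much more than `ε`, then the same is true for
every viewer `b` near `a`.

Proof. `cr (z - b) (z' - b) = cr (z - a) (z' - a) + cr (a - b) (z' - z)`. The first term is positive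
and `Sm (ε * a.1)` of it (`vw_cr`, the three factors as in `vw_bd`), the second one is, in absolute
value, at most `4 * nrm (a - b) * ρ₁` (`cr_abs_le`), which is `O (ε * a.1)`. -/
theorem vw_pos {a b z z' : F × F} {ρ₁ ε : F} (ha : 2 * ρ₁ < a.1) (hρ₁ : 0 < ρ₁)
    (hz : nrm z ≤ ρ₁) (hz' : nrm z' ≤ ρ₁) (hε : 0 < ε) (hlt : (vw a z').2 < (vw a z).2)
    (hsm : Sm ε ((vw a z).2 - (vw a z').2)) (hb : Bd (nrm (a - b) * ρ₁) (ε * a.1)) :
    0 < cr (z - b) (z' - b) := by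
  obtain ⟨h0, h1, h2, h3⟩ := d3_bounds ha hz
  obtain ⟨-, h1', h2', h3'⟩ := d3_bounds ha hz'
  obtain ⟨m, hm⟩ := hb
  have hΔ : 0 < (vw a z).2 - (vw a z').2 := sub_pos.2 hlt
  obtain ⟨Δ, hΔd⟩ : ∃ Δ, Δ = (vw a z).2 - (vw a z').2 := ⟨_, rfl⟩
  have hsplit : cr (z - b) (z' - b) = cr (z - a) (z' - a) + cr (a - b) (z' - z) := by
    simp only [cr, Prod.fst_sub, Prod.snd_sub]
    ring
  rw [hsplit, vw_cr h0 h3 h3', ← hΔd]
  rw [← hΔd] at hsm hΔ
  have hsm' := hsm (16 * m)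
  rw [abs_of_pos hε, abs_of_pos hΔ] at hsm'
  push_cast at hsm'
  -- first term
  have t1 : a.1 * Δ / 4 ≤ (a.1 - z.1) * (a.1 - z'.1) * Δ / a.1 := by
    rw [le_div_iff₀ h0]
    have e1 : a.1 / 2 * (a.1 / 2) ≤ (a.1 - z.1) * (a.1 - z'.1) :=
      mul_le_mul (by linarith) (by linarith) (by linarith) (by linarith)
    have e2 := mul_le_mul_of_nonneg_right e1 hΔ.le
    linarith
  -- second term
  have t2 : |cr (a - b) (z' - z)| ≤ 4 * (m * (ε * a.1)) := by
    refine (cr_abs_le _ _).trans ?_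
    have e1 : nrm (z' - z) ≤ 2 * ρ₁ := (nrm_sub _ _).trans (by linarith)
    have e2 : nrm (a - b) * nrm (z' - z) ≤ nrm (a - b) * (2 * ρ₁) :=
      mul_le_mul_of_nonneg_left e1 (nrm_nonneg _)
    have e3 : nrm (a - b) * ρ₁ ≤ m * (ε * a.1) := by
      have h4 := hm
      rw [abs_of_nonneg (mul_nonneg (nrm_nonneg _) hρ₁.le), abs_of_pos (mul_pos hε h0)] at h4
      exact h4
    linarith
  have t3 : 4 * (m * (ε * a.1)) < a.1 * Δ / 4 := by
    have e1 := mul_lt_mul_of_pos_left hsm' h0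
    linarith
  have t4 := neg_abs_le (cr (a - b) (z' - z))
  linarith

end Pool.Agent.Lib.MP_8bcb9d_co.W
end

section

section

/-!
# World Fin, root: finitely many positions in the projective plane
-/

set_option autoImplicit false

namespace Pool.Agent.Lib.MP_8bcb9d_co.W

variable {F G : Type} [Field F] [LinearOrder F] [IsStrictOrderedRing F]
  [AddCommGroup G] [LinearOrder G] [IsOrderedAddMonoid G] (W : World F G)

/-- the points in the direction `u` (a vector with `nrm3 u = 1`) -/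
def Clu (a b c : F × F × F) (X : Set (F × F)) (u : F × F × F) : Set (F × F) :=
  {p ∈ X | Sm (nrm3 (ap3 a b c p - nrm3 (ap3 a b c p) • u)) (nrm3 (ap3 a b c p))}

/-- One face of the cube. Proof: the window `C = {p | 0 < lin n p, |lin l p| ≤ lin n p,
|lin m p| ≤ lin n p}` is given by half planes (`I_gt`, `I_ge`; a point of `Tri a b c` is a convex
combination, so `C` is closed under `Tri`), so `X ∩ C` is internal and `K`-bounded (`KB.window`), and
so is its image under `pj l m n` (`I_pj`, `KB.proj`). All points of the image have norm `≤ 1`; `W.WF`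
gives a finite set `Z`. `Sm (lin l p / lin n p - z.1) 1` means
`Sm (lin l p - z.1 * lin n p) (lin n p)`. -/
theorem World.face {X : Set (F × F)} (hI : X ∈ W.I) (hX : KB W.K X) {l m n : F × F × F}
    (hd : det3 l m n ≠ 0) :
    ∃ Z : Set (F × F), Z.Finite ∧ (∀ z ∈ Z, nrm z ≤ 1) ∧
      ∀ p ∈ X, 0 < lin n p → |lin l p| ≤ lin n p → |lin m p| ≤ lin n p →
        ∃ z ∈ Z, Sm (lin l p - z.1 * lin n p) (lin n p) ∧ Sm (lin m p - z.2 * lin n p) (lin n p) := by
  set C : Set (F × F) := {p | 0 < lin n p ∧ |lin l p| ≤ lin n p ∧ |lin m p| ≤ lin n p} with hCdef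
  have hlin : ∀ (k : F × F × F) {a b c w : F × F} {x y z : F}, x + y + z = 1 →
      w = x • a + y • b + z • c → lin k w = x * lin k a + y * lin k b + z * lin k c := by
    intro k a b c w x y z hs hw
    have hx : x = 1 - y - z := by linarith
    subst hx
    rw [hw]
    simp only [lin, Prod.fst_add, Prod.snd_add, Prod.smul_fst, Prod.smul_snd, smul_eq_mul]
    ring
  have hCI : X ∩ C ∈ W.I := by
    have h1 := W.I_gt hI n.1 n.2.1 (-n.2.2)
    have h2 := W.I_half _ h1 (l.1 - n.1) (l.2.1 - n.2.1) (n.2.2 - l.2.2)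
    have h3 := W.I_half _ h2 (-l.1 - n.1) (-l.2.1 - n.2.1) (n.2.2 + l.2.2)
    have h4 := W.I_half _ h3 (m.1 - n.1) (m.2.1 - n.2.1) (n.2.2 - m.2.2)
    have h5 := W.I_half _ h4 (-m.1 - n.1) (-m.2.1 - n.2.1) (n.2.2 + m.2.2)
    convert h5 using 1
    ext p
    simp only [hCdef, Set.mem_inter_iff, Set.mem_setOf_eq, abs_le, lin]
    constructor
    · rintro ⟨h0, h6, ⟨h7, h8⟩, h9, h10⟩
      refine ⟨⟨⟨⟨⟨h0, ?_⟩, ?_⟩, ?_⟩, ?_⟩, ?_⟩ <;> linarith
    · rintro ⟨⟨⟨⟨⟨h0, h6⟩, h7⟩, h8⟩, h9⟩, h10⟩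
      refine ⟨h0, ?_, ⟨?_, ?_⟩, ?_, ?_⟩ <;> linarith
  have hCK : KB W.K (X ∩ C) := by
    refine hX.window ?_
    rintro a ⟨ha0, ha1, ha2⟩ b ⟨hb0, hb1, hb2⟩ c ⟨hc0, hc1, hc2⟩ w ⟨x, y, z, hx, hy, hz, hs, hw⟩
    have e1 := hlin n hs hw
    have e2 := hlin l hs hw
    have e3 := hlin m hs hw
    rw [abs_le] at ha1 ha2 hb1 hb2 hc1 hc2
    refine ⟨?_, ?_, ?_⟩
    · rw [e1]
      rcases hx.lt_or_eq with h | h
      · have := mul_pos h ha0
        have := mul_nonneg hy hb0.le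
        have := mul_nonneg hz hc0.le
        linarith
      · rcases hy.lt_or_eq with h' | h'
        · have := mul_pos h' hb0
          have := mul_nonneg hx ha0.le
          have := mul_nonneg hz hc0.le
          linarith
        · have hz1 : z = 1 := by linarith
          rw [← h, ← h', hz1]
          linarith
    · rw [e1, e2, abs_le]
      constructor
      · nlinarith [mul_nonneg hx (by linarith : (0 : F) ≤ lin n a + lin l a),
          mul_nonneg hy (by linarith : (0 : F) ≤ lin n b + lin l b),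
          mul_nonneg hz (by linarith : (0 : F) ≤ lin n c + lin l c)]
      · nlinarith [mul_nonneg hx (by linarith : (0 : F) ≤ lin n a - lin l a),
          mul_nonneg hy (by linarith : (0 : F) ≤ lin n b - lin l b),
          mul_nonneg hz (by linarith : (0 : F) ≤ lin n c - lin l c)]
    · rw [e1, e3, abs_le]
      constructor
      · nlinarith [mul_nonneg hx (by linarith : (0 : F) ≤ lin n a + lin m a),
          mul_nonneg hy (by linarith : (0 : F) ≤ lin n b + lin m b),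
          mul_nonneg hz (by linarith : (0 : F) ≤ lin n c + lin m c)]
      · nlinarith [mul_nonneg hx (by linarith : (0 : F) ≤ lin n a - lin m a),
          mul_nonneg hy (by linarith : (0 : F) ≤ lin n b - lin m b),
          mul_nonneg hz (by linarith : (0 : F) ≤ lin n c - lin m c)]
  have hYK : KB W.K (pj l m n '' (X ∩ C)) := hCK.proj hd fun p hp => hp.2.1
  have hYI := W.I_pj _ hCI l m n
  have hY1 : ∀ q ∈ pj l m n '' (X ∩ C), nrm q ≤ 1 := by
    rintro _ ⟨p, ⟨-, hp0, hp1, hp2⟩, rfl⟩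
    rw [nrm_le]
    simp only [pj]
    rw [abs_div, abs_div, abs_of_pos hp0]
    exact ⟨(div_le_one hp0).2 hp1, (div_le_one hp0).2 hp2⟩
  obtain ⟨Z, hZf, hZs, hZ⟩ := W.WF _ hYI hYK
  refine ⟨Z, hZf, fun z hz => hY1 z (hZs hz), ?_⟩
  intro p hp hp0 hp1 hp2
  have hq : pj l m n p ∈ pj l m n '' (X ∩ C) := ⟨p, ⟨hp, hp0, hp1, hp2⟩, rfl⟩
  obtain ⟨z, hz, hsm⟩ := hZ _ hq (Bd.of_le (by
    rw [abs_nrm, abs_one]
    exact hY1 _ hq))
  refine ⟨z, hz, ?_, ?_⟩
  · have h1 : Sm (lin l p / lin n p - z.1) 1 := by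
      refine Bd.trans_sm (Bd.of_le ?_) hsm
      rw [abs_nrm]
      exact abs_fst_le (pj l m n p - z)
    have h2 := h1.mul_bd (Bd.refl (lin n p)) hp0.ne'
    have h3 : (lin l p / lin n p - z.1) * lin n p = lin l p - z.1 * lin n p := by
      rw [sub_mul, div_mul_cancel₀ _ hp0.ne']
    rw [h3, one_mul] at h2
    exact h2
  · have h1 : Sm (lin m p / lin n p - z.2) 1 := by
      refine Bd.trans_sm (Bd.of_le ?_) hsm
      rw [abs_nrm]
      exact abs_snd_le (pj l m n p - z)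
    have h2 := h1.mul_bd (Bd.refl (lin n p)) hp0.ne'
    have h3 : (lin m p / lin n p - z.2) * lin n p = lin m p - z.2 * lin n p := by
      rw [sub_mul, div_mul_cancel₀ _ hp0.ne']
    rw [h3, one_mul] at h2
    exact h2

/-- If the three rows are independent, `(p, 1)` is not in the kernel. -/
theorem ap3_ne {a b c : F × F × F} (hd : det3 a b c ≠ 0) (p : F × F) : 0 < nrm3 (ap3 a b c p) := by
  by_contra hcon
  push Not at hcon
  simp only [nrm3, ap3, max_le_iff, abs_nonpos_iff] at hcon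
  obtain ⟨h1, h2, h3⟩ := hcon
  apply hd
  have h4 : det3 a b c = lin a p * (b.1 * c.2.1 - b.2.1 * c.1) -
      lin b p * (a.1 * c.2.1 - a.2.1 * c.1) + lin c p * (a.1 * b.2.1 - a.2.1 * b.1) := by
    simp only [det3, lin]
    ring
  rw [h4, h1, h2, h3]
  ring

private theorem r1_sm {x y z N : F} (hx : Sm x N) (hy : Sm y N) (hz : Sm z N) :
    Sm (nrm3 (x, y, z)) N := by
  intro n
  have h1 := hx n
  have h2 := hy n
  have h3 := hz n
  simp only [nrm3]
  rcases max_choice |x| (max |y| |z|) with h | h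
  · rw [h, abs_abs]
    exact h1
  · rw [h]
    rcases max_choice |y| |z| with h' | h'
    · rw [h', abs_abs]
      exact h2
    · rw [h', abs_abs]
      exact h3

omit W in
private theorem r1_nrm {z : F × F} (hz : nrm z ≤ 1) : |z.1| ≤ 1 ∧ |z.2| ≤ 1 := nrm_le.1 hz

/-- Finitely many directions. Proof: the six faces `(l, m, n)` =
`(b, c, a), (-b, -c, -a), (a, c, b), (-a, -c, -b), (a, b, c), (-a, -b, -c)`. For `p ∈ X` let `k` be a
coordinate of `v = ap3 a b c p` with `|v_k| = nrm3 v`, and use the face belonging to `k` and the sign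
of `v_k`: e.g. for `k = 1` and `v.1 > 0` the direction is `u = (1, z.1, z.2)`, and for `v.1 < 0` it is
`(-1, -z.1, -z.2)`... (sign: `lin (-b) p = - v.2.1` is near `z.1 * (- v.1)`). `nrm3 u = 1` because
`nrm z ≤ 1`. -/
theorem World.directions {X : Set (F × F)} (hI : X ∈ W.I) (hX : KB W.K X) {a b c : F × F × F}
    (hd : det3 a b c ≠ 0) :
    ∃ P : Set (F × F × F), P.Finite ∧ (∀ u ∈ P, nrm3 u = 1) ∧
      ∀ p ∈ X, ∃ u ∈ P, p ∈ Clu a b c X u := by
  have hneg : ∀ (k : F × F × F) (p : F × F), lin (-k) p = - lin k p := by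
    intro k p
    simp only [lin, Prod.fst_neg, Prod.snd_neg]
    ring
  have d1 : det3 b c a ≠ 0 := by
    have : det3 b c a = det3 a b c := by simp only [det3]; ring
    rwa [this]
  have d2 : det3 b c (-a) ≠ 0 := by
    have : det3 b c (-a) = - det3 a b c := by
      simp only [det3, Prod.fst_neg, Prod.snd_neg]; ring
    rw [this]
    exact neg_ne_zero.2 hd
  have d3 : det3 a c b ≠ 0 := by
    have : det3 a c b = - det3 a b c := by simp only [det3]; ring
    rw [this]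
    exact neg_ne_zero.2 hd
  have d4 : det3 a c (-b) ≠ 0 := by
    have : det3 a c (-b) = det3 a b c := by
      simp only [det3, Prod.fst_neg, Prod.snd_neg]; ring
    rwa [this]
  have d6 : det3 a b (-c) ≠ 0 := by
    have : det3 a b (-c) = - det3 a b c := by
      simp only [det3, Prod.fst_neg, Prod.snd_neg]; ring
    rw [this]
    exact neg_ne_zero.2 hd
  obtain ⟨Z1, f1, g1, k1⟩ := W.face hI hX d1
  obtain ⟨Z2, f2, g2, k2⟩ := W.face hI hX d2
  obtain ⟨Z3, f3, g3, k3⟩ := W.face hI hX d3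
  obtain ⟨Z4, f4, g4, k4⟩ := W.face hI hX d4
  obtain ⟨Z5, f5, g5, k5⟩ := W.face hI hX hd
  obtain ⟨Z6, f6, g6, k6⟩ := W.face hI hX d6
  refine ⟨(fun z : F × F => ((1 : F), z.1, z.2)) '' Z1 ∪ (fun z : F × F => (-(1 : F), z.1, z.2)) '' Z2 ∪
    (fun z : F × F => (z.1, (1 : F), z.2)) '' Z3 ∪ (fun z : F × F => (z.1, -(1 : F), z.2)) '' Z4 ∪
    (fun z : F × F => (z.1, z.2, (1 : F))) '' Z5 ∪ (fun z : F × F => (z.1, z.2, -(1 : F))) '' Z6,
    ?_, ?_, ?_⟩
  · exact (((((f1.image _).union (f2.image _)).union (f3.image _)).union (f4.image _)).union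
      (f5.image _)).union (f6.image _)
  · rintro u (((((⟨z, hz, rfl⟩ | ⟨z, hz, rfl⟩) | ⟨z, hz, rfl⟩) | ⟨z, hz, rfl⟩) | ⟨z, hz, rfl⟩) |
      ⟨z, hz, rfl⟩)
    · obtain ⟨e1, e2⟩ := r1_nrm (g1 z hz)
      simp only [nrm3, abs_one]
      exact max_eq_left (max_le e1 e2)
    · obtain ⟨e1, e2⟩ := r1_nrm (g2 z hz)
      simp only [nrm3, abs_neg, abs_one]
      exact max_eq_left (max_le e1 e2)
    · obtain ⟨e1, e2⟩ := r1_nrm (g3 z hz)
      simp only [nrm3, abs_one]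
      rw [max_eq_left e2]
      exact max_eq_right e1
    · obtain ⟨e1, e2⟩ := r1_nrm (g4 z hz)
      simp only [nrm3, abs_neg, abs_one]
      rw [max_eq_left e2]
      exact max_eq_right e1
    · obtain ⟨e1, e2⟩ := r1_nrm (g5 z hz)
      simp only [nrm3, abs_one]
      rw [max_eq_right e2]
      exact max_eq_right e1
    · obtain ⟨e1, e2⟩ := r1_nrm (g6 z hz)
      simp only [nrm3, abs_neg, abs_one]
      rw [max_eq_right e2]
      exact max_eq_right e1
  · intro p hp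
    have hN := ap3_ne hd p
    set N := nrm3 (ap3 a b c p) with hNdef
    have hN' : N = max |lin a p| (max |lin b p| |lin c p|) := rfl
    have la : |lin a p| ≤ N := by rw [hN']; exact le_max_left _ _
    have lb : |lin b p| ≤ N := by
      rw [hN']; exact le_max_of_le_right (le_max_left _ _)
    have lc : |lin c p| ≤ N := by
      rw [hN']; exact le_max_of_le_right (le_max_right _ _)
    have hcase : N = |lin a p| ∨ N = |lin b p| ∨ N = |lin c p| := by
      rw [hN']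
      rcases max_choice |lin a p| (max |lin b p| |lin c p|) with h | h
      · exact Or.inl h
      · rw [h]
        rcases max_choice |lin b p| |lin c p| with h' | h'
        · exact Or.inr (Or.inl h')
        · exact Or.inr (Or.inr h')
    have key : ∀ u : F × F × F, Sm (lin a p - N * u.1) N → Sm (lin b p - N * u.2.1) N →
        Sm (lin c p - N * u.2.2) N → p ∈ Clu a b c X u := by
      intro u h1 h2 h3
      refine ⟨hp, ?_⟩
      exact r1_sm h1 h2 h3
    have h0 : ∀ x : F, x = N → Sm (x - N * 1) N := by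
      rintro x rfl
      rw [mul_one, sub_self]
      exact Sm.zero hN.ne'
    have h0' : ∀ x : F, -x = N → Sm (x - N * (-1)) N := by
      intro x hx
      rw [← hx]
      have : x - -x * -1 = 0 := by ring
      rw [this]
      rw [hx]
      exact Sm.zero hN.ne'
    have hcm : ∀ {x y : F}, Sm (x - y * N) N → Sm (x - N * y) N := by
      intro x y h
      rwa [mul_comm N y]
    rcases hcase with h | h | h
    · rcases le_total 0 (lin a p) with hs | hs
      · rw [abs_of_nonneg hs] at h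
        obtain ⟨z, hz, e1, e2⟩ := k1 p hp (by rw [← h]; exact hN) (by rw [← h]; exact lb)
          (by rw [← h]; exact lc)
        rw [← h] at e1 e2
        exact ⟨(1, z.1, z.2), by
          left; left; left; left; left
          exact ⟨z, hz, rfl⟩, key _ (h0 _ h.symm) (hcm e1) (hcm e2)⟩
      · rw [abs_of_nonpos hs] at h
        have e0 := hneg a p
        rw [← h] at e0
        obtain ⟨z, hz, e1, e2⟩ := k2 p hp (by rw [e0]; exact hN) (by rw [e0]; exact lb)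
          (by rw [e0]; exact lc)
        rw [e0] at e1 e2
        exact ⟨(-1, z.1, z.2), by
          left; left; left; left; right
          exact ⟨z, hz, rfl⟩, key _ (h0' _ h.symm) (hcm e1) (hcm e2)⟩
    · rcases le_total 0 (lin b p) with hs | hs
      · rw [abs_of_nonneg hs] at h
        obtain ⟨z, hz, e1, e2⟩ := k3 p hp (by rw [← h]; exact hN) (by rw [← h]; exact la)
          (by rw [← h]; exact lc)
        rw [← h] at e1 e2
        exact ⟨(z.1, 1, z.2), by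
          left; left; left; right
          exact ⟨z, hz, rfl⟩, key _ (hcm e1) (h0 _ h.symm) (hcm e2)⟩
      · rw [abs_of_nonpos hs] at h
        have e0 := hneg b p
        rw [← h] at e0
        obtain ⟨z, hz, e1, e2⟩ := k4 p hp (by rw [e0]; exact hN) (by rw [e0]; exact la)
          (by rw [e0]; exact lc)
        rw [e0] at e1 e2
        exact ⟨(z.1, -1, z.2), by
          left; left; right
          exact ⟨z, hz, rfl⟩, key _ (hcm e1) (h0' _ h.symm) (hcm e2)⟩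
    · rcases le_total 0 (lin c p) with hs | hs
      · rw [abs_of_nonneg hs] at h
        obtain ⟨z, hz, e1, e2⟩ := k5 p hp (by rw [← h]; exact hN) (by rw [← h]; exact la)
          (by rw [← h]; exact lb)
        rw [← h] at e1 e2
        exact ⟨(z.1, z.2, 1), by
          left; right
          exact ⟨z, hz, rfl⟩, key _ (hcm e1) (hcm e2) (h0 _ h.symm)⟩
      · rw [abs_of_nonpos hs] at h
        have e0 := hneg c p
        rw [← h] at e0
        obtain ⟨z, hz, e1, e2⟩ := k6 p hp (by rw [e0]; exact hN) (by rw [e0]; exact la)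
          (by rw [e0]; exact lb)
        rw [e0] at e1 e2
        exact ⟨(z.1, z.2, -1), by
          right
          exact ⟨z, hz, rfl⟩, key _ (hcm e1) (hcm e2) (h0' _ h.symm)⟩

end Pool.Agent.Lib.MP_8bcb9d_co.W
end

section

/-!
# World Fin, root: three infinite clusters in general position
-/

set_option autoImplicit false

namespace Pool.Agent.Lib.MP_8bcb9d_co.W

variable {F G : Type} [Field F] [LinearOrder F] [IsStrictOrderedRing F]
  [AddCommGroup G] [LinearOrder G] [IsOrderedAddMonoid G] (W : World F G)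

theorem nrm3_nonneg (w : F × F × F) : 0 ≤ nrm3 w := le_max_of_le_left (abs_nonneg _)

omit [IsStrictOrderedRing F] in
private theorem r2_abs1 (w : F × F × F) : |w.1| ≤ nrm3 w := le_max_left _ _

omit [IsStrictOrderedRing F] in
private theorem r2_abs2 (w : F × F × F) : |w.2.1| ≤ nrm3 w :=
  le_max_of_le_right (le_max_left _ _)

omit [IsStrictOrderedRing F] in
private theorem r2_abs3 (w : F × F × F) : |w.2.2| ≤ nrm3 w :=
  le_max_of_le_right (le_max_right _ _)

theorem dot3_le (u w : F × F × F) : |dot3 u w| ≤ 3 * (nrm3 u * nrm3 w) := by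
  have h1 := mul_le_mul (r2_abs1 u) (r2_abs1 w) (abs_nonneg _) (nrm3_nonneg u)
  have h2 := mul_le_mul (r2_abs2 u) (r2_abs2 w) (abs_nonneg _) (nrm3_nonneg u)
  have h3 := mul_le_mul (r2_abs3 u) (r2_abs3 w) (abs_nonneg _) (nrm3_nonneg u)
  rw [← abs_mul] at h1 h2 h3
  have h4 := abs_add_le (u.1 * w.1 + u.2.1 * w.2.1) (u.2.2 * w.2.2)
  have h5 := abs_add_le (u.1 * w.1) (u.2.1 * w.2.1)
  unfold dot3
  linarith

/-- Proof: let `P` be the finite set of `directions`. The set of `W.iso` for `w` is infinite and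
covered by the finitely many clusters, so for some `u ∈ P` infinitely many points of it are in
`Clu a b c X u`. Let `p` be one of them, `v = ap3 a b c p`, `N = nrm3 v > 0`, `v = N u + d`,
`600 * nrm3 d < N`. `nrm3 w * N ≤ 100 |dot3 w v| ≤ 100 N |dot3 w u| + 100 * 3 * nrm3 w * nrm3 d`
(`dot3_le`) `≤ 100 N |dot3 w u| + nrm3 w * N / 2`. -/
theorem World.pick {X : Set (F × F)} (hI : X ∈ W.I) (hX : KB W.K X) {a b c : F × F × F}
    (hd : det3 a b c ≠ 0) {w : F × F × F}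
    (hw : {p ∈ X | nrm3 w * nrm3 (ap3 a b c p) ≤ 100 * |dot3 w (ap3 a b c p)|}.Infinite) :
    ∃ u : F × F × F, nrm3 u = 1 ∧ (Clu a b c X u).Infinite ∧ nrm3 w ≤ 200 * |dot3 w u| := by
  obtain ⟨P, hP, hP1, hP2⟩ := W.directions hI hX hd
  set A : Set (F × F) :=
    {p ∈ X | nrm3 w * nrm3 (ap3 a b c p) ≤ 100 * |dot3 w (ap3 a b c p)|} with hA
  obtain ⟨u, hu, hinf⟩ : ∃ u ∈ P, (A ∩ Clu a b c X u).Infinite := by
    by_contra hcon
    push Not at hcon
    refine hw ((hP.biUnion fun u hu => hcon u hu).subset ?_)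
    intro p hp
    obtain ⟨u, hu, hpu⟩ := hP2 p hp.1
    exact Set.mem_iUnion₂.2 ⟨u, hu, hp, hpu⟩
  refine ⟨u, hP1 u hu, hinf.mono Set.inter_subset_right, ?_⟩
  obtain ⟨p, hpA, hpC⟩ := hinf.nonempty
  have hN := ap3_ne hd p
  have h1 := hpA.2
  have h2 := hpC.2 600
  set v := ap3 a b c p with hv
  set N := nrm3 v with hNdef
  set d := v - N • u with hddef
  rw [abs_of_nonneg (nrm3_nonneg d), abs_of_pos hN] at h2
  have h3 : dot3 w v = N * dot3 w u + dot3 w d := by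
    simp only [hddef, dot3, Prod.fst_sub, Prod.snd_sub, Prod.smul_fst, Prod.smul_snd, smul_eq_mul]
    ring
  have h4 : |dot3 w v| ≤ N * |dot3 w u| + 3 * (nrm3 w * nrm3 d) := by
    rw [h3]
    refine (abs_add_le _ _).trans ?_
    rw [abs_mul, abs_of_pos hN]
    have := dot3_le w d
    linarith
  have h5 : nrm3 w * (600 * nrm3 d) ≤ nrm3 w * N :=
    mul_le_mul_of_nonneg_left (by exact_mod_cast h2.le) (nrm3_nonneg w)
  have h6 : nrm3 w * N ≤ 200 * |dot3 w u| * N := by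
    nlinarith
  exact le_of_mul_le_mul_right h6 hN

/-- cross product in three coordinates -/
def cross3 (u w : F × F × F) : F × F × F :=
  (u.2.1 * w.2.2 - u.2.2 * w.2.1, u.2.2 * w.1 - u.1 * w.2.2, u.1 * w.2.1 - u.2.1 * w.1)

omit [LinearOrder F] [IsStrictOrderedRing F] in
theorem dot3_cross3 (u v w : F × F × F) : dot3 (cross3 u v) w = det3 u v w := by
  simp only [dot3, cross3, det3]; ring

/-- Proof: if `|u.1| = 1` take `w = (u.2.1, -u.1, 0)` (then `dot3 w v` is minus the third coordinate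
of `cross3 u v`); if `|u.2.1| = 1` take the same `w`; if `|u.2.2| = 1` take `w = (0, u.2.2, -u.2.1)`
(`dot3 w v` is minus the first coordinate). In each case `nrm3 w = 1` because `nrm3 u = 1`. -/
theorem exists_perp {u : F × F × F} (hu : nrm3 u = 1) :
    ∃ w : F × F × F, nrm3 w = 1 ∧ ∀ v : F × F × F, |dot3 w v| ≤ nrm3 (cross3 u v) := by
  have h1 := r2_abs1 u
  have h2 := r2_abs2 u
  have h3 := r2_abs3 u
  rw [hu] at h1 h2 h3
  have h01 : (0 : F) ≤ 1 := zero_le_one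
  have hcase : (|u.1| = 1 ∨ |u.2.1| = 1) ∨ |u.2.2| = 1 := by
    have h : max |u.1| (max |u.2.1| |u.2.2|) = 1 := hu
    rcases max_choice |u.1| (max |u.2.1| |u.2.2|) with h4 | h4
    · left; left; rw [← h4, h]
    · rcases max_choice |u.2.1| |u.2.2| with h5 | h5
      · left; right; rw [← h5, ← h4, h]
      · right; rw [← h5, ← h4, h]
  rcases hcase with hc | hc
  · refine ⟨(u.2.1, -u.1, 0), ?_, fun v => ?_⟩
    · unfold nrm3
      simp only [abs_neg, abs_zero]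
      apply le_antisymm
      · exact max_le h2 (max_le h1 h01)
      · rcases hc with hc | hc
        · exact le_max_of_le_right (le_max_of_le_left hc.ge)
        · exact le_max_of_le_left hc.ge
    · have h4 : dot3 (u.2.1, -u.1, (0 : F)) v = -(cross3 u v).2.2 := by
        simp only [dot3, cross3]; ring
      rw [h4, abs_neg]
      exact r2_abs3 _
  · refine ⟨(0, u.2.2, -u.2.1), ?_, fun v => ?_⟩
    · unfold nrm3
      simp only [abs_neg, abs_zero]
      apply le_antisymm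
      · exact max_le h01 (max_le h3 h2)
      · exact le_max_of_le_right (le_max_of_le_left hc.ge)
    · have h4 : dot3 ((0 : F), u.2.2, -u.2.1) v = -(cross3 u v).1 := by
        simp only [dot3, cross3]; ring
      rw [h4, abs_neg]
      exact r2_abs1 _

private theorem r2_ne {w : F × F × F} (hw : 0 < nrm3 w) : w ≠ 0 := by
  rintro rfl
  simp [nrm3] at hw

/-- Proof: `a, b, c` from `W.iso`. `pick` with `w = (1, 0, 0)` gives `u₁`; `exists_perp` gives `w₁`;
`pick` with `w₁` gives `u₂` with `1 ≤ 200 * nrm3 (cross3 u₁ u₂)`; so `w₂ = cross3 u₁ u₂ ≠ 0` and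
`pick` gives `u₃` with `nrm3 w₂ ≤ 200 * |det3 u₁ u₂ u₃|` (`dot3_cross3`). -/
theorem World.three {X : Set (F × F)} (hI : X ∈ W.I) (hX : KB W.K X) (hinf : X.Infinite) :
    ∃ a b c : F × F × F, det3 a b c ≠ 0 ∧ ∃ u₁ u₂ u₃ : F × F × F,
      nrm3 u₁ = 1 ∧ nrm3 u₂ = 1 ∧ nrm3 u₃ = 1 ∧ 1 ≤ 40000 * |det3 u₁ u₂ u₃| ∧
      (Clu a b c X u₁).Infinite ∧ (Clu a b c X u₂).Infinite ∧ (Clu a b c X u₃).Infinite := by
  obtain ⟨a, b, c, hd, hiso⟩ := W.iso X hI hinf hX.gp
  have hw0 : nrm3 ((1, 0, 0) : F × F × F) = 1 := by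
    simp [nrm3]
  obtain ⟨u₁, hu₁, hi₁, -⟩ := W.pick hI hX hd
    (hiso (1, 0, 0) (r2_ne (by rw [hw0]; exact one_pos)))
  obtain ⟨w₁, hw₁, hp₁⟩ := exists_perp hu₁
  obtain ⟨u₂, hu₂, hi₂, h₂⟩ := W.pick hI hX hd (hiso w₁ (r2_ne (by rw [hw₁]; exact one_pos)))
  rw [hw₁] at h₂
  have h3 : 1 ≤ 200 * nrm3 (cross3 u₁ u₂) := by
    have := hp₁ u₂
    linarith
  have h4 : 0 < nrm3 (cross3 u₁ u₂) := by
    by_contra hcon
    push Not at hcon
    linarith [one_pos (α := F)]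
  obtain ⟨u₃, hu₃, hi₃, h₃⟩ := W.pick hI hX hd (hiso (cross3 u₁ u₂) (r2_ne h4))
  rw [dot3_cross3] at h₃
  refine ⟨a, b, c, hd, u₁, u₂, u₃, hu₁, hu₂, hu₃, ?_, hi₁, hi₂, hi₃⟩
  linarith

end Pool.Agent.Lib.MP_8bcb9d_co.W
end

section

/-!
# World Fin, root: the frame of three clusters
-/

set_option autoImplicit false

namespace Pool.Agent.Lib.MP_8bcb9d_co.W

variable {F G : Type} [Field F] [LinearOrder F] [IsStrictOrderedRing F]
  [AddCommGroup G] [LinearOrder G] [IsOrderedAddMonoid G] (W : World F G)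

/-- the row `g.1 a + g.2.1 b + g.2.2 c` -/
def row3 (a b c g : F × F × F) : F × F × F := g.1 • a + g.2.1 • b + g.2.2 • c

omit [LinearOrder F] [IsStrictOrderedRing F] in
theorem lin_row3 (a b c g : F × F × F) (p : F × F) :
    lin (row3 a b c g) p = dot3 g (ap3 a b c p) := by
  simp only [lin, row3, dot3, ap3, Prod.fst_add, Prod.snd_add, Prod.smul_fst, Prod.smul_snd,
    smul_eq_mul]
  ring

omit [LinearOrder F] [IsStrictOrderedRing F] in
/-- multiplicativity of the determinant; `ring` -/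
theorem det3_row3 (a b c g h k : F × F × F) :
    det3 (row3 a b c g) (row3 a b c h) (row3 a b c k) = det3 g h k * det3 a b c := by
  simp only [det3, row3, Prod.fst_add, Prod.snd_add, Prod.smul_fst, Prod.smul_snd, smul_eq_mul]
  ring

omit [IsStrictOrderedRing F] in
theorem nrm3_le_iff {w : F × F × F} {r : F} :
    nrm3 w ≤ r ↔ |w.1| ≤ r ∧ |w.2.1| ≤ r ∧ |w.2.2| ≤ r := by
  unfold nrm3
  rw [max_le_iff, max_le_iff]

/-- The dual basis. Proof: `δ = det3 u₁ u₂ u₃`, `g₁ = δ⁻¹ • cross3 u₂ u₃`,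
`g₂ = δ⁻¹ • cross3 u₃ u₁`, `g₃ = δ⁻¹ • cross3 u₁ u₂`; the norms are at most `2 * 40000`;
`det3 g₂ g₃ (g₁ + g₂ + g₃) = det3 g₁ g₂ g₃ = δ⁻¹` (identity
`det3 (cross3 u₂ u₃) (cross3 u₃ u₁) (cross3 u₁ u₂) = δ ^ 2`). -/
theorem dual_basis {u₁ u₂ u₃ : F × F × F} (h1 : nrm3 u₁ = 1) (h2 : nrm3 u₂ = 1)
    (h3 : nrm3 u₃ = 1) (hd : 1 ≤ 40000 * |det3 u₁ u₂ u₃|) :
    ∃ g₁ g₂ g₃ : F × F × F, nrm3 g₁ ≤ 80000 ∧ nrm3 g₂ ≤ 80000 ∧ nrm3 g₃ ≤ 80000 ∧
      dot3 g₁ u₁ = 1 ∧ dot3 g₁ u₂ = 0 ∧ dot3 g₁ u₃ = 0 ∧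
      dot3 g₂ u₁ = 0 ∧ dot3 g₂ u₂ = 1 ∧ dot3 g₂ u₃ = 0 ∧
      dot3 g₃ u₁ = 0 ∧ dot3 g₃ u₂ = 0 ∧ dot3 g₃ u₃ = 1 ∧
      det3 g₂ g₃ (g₁ + g₂ + g₃) ≠ 0 := by
  have hδ0 : 0 < |det3 u₁ u₂ u₃| := by
    by_contra h
    push Not at h
    nlinarith
  have hδ : det3 u₁ u₂ u₃ ≠ 0 := abs_pos.1 hδ0
  have hinv : |(det3 u₁ u₂ u₃)⁻¹| ≤ 40000 := by
    rw [abs_inv, inv_le_comm₀ hδ0 (by norm_num)]
    rw [inv_le_iff_one_le_mul₀ (by norm_num)]
    linarith
  have hnorm : ∀ u v : F × F × F, nrm3 u = 1 → nrm3 v = 1 →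
      nrm3 ((det3 u₁ u₂ u₃)⁻¹ • cross3 u v) ≤ 80000 := by
    intro u v hu hv
    have hu' := nrm3_le_iff.1 hu.le
    have hv' := nrm3_le_iff.1 hv.le
    have key : ∀ a b c d : F, |a| ≤ 1 → |b| ≤ 1 → |c| ≤ 1 → |d| ≤ 1 →
        |(det3 u₁ u₂ u₃)⁻¹ * (a * b - c * d)| ≤ 80000 := by
      intro a b c d ha hb hc hd
      rw [abs_mul]
      have h1 : |a * b - c * d| ≤ 2 := by
        have h2 := abs_sub (a * b) (c * d)
        rw [abs_mul, abs_mul] at h2
        have h3 := mul_le_mul ha hb (abs_nonneg _) zero_le_one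
        have h4 := mul_le_mul hc hd (abs_nonneg _) zero_le_one
        linarith
      calc |(det3 u₁ u₂ u₃)⁻¹| * |a * b - c * d| ≤ 40000 * 2 :=
            mul_le_mul hinv h1 (abs_nonneg _) (by norm_num)
        _ = 80000 := by norm_num
    refine nrm3_le_iff.2 ⟨?_, ?_, ?_⟩
    · exact key _ _ _ _ hu'.2.1 hv'.2.2 hu'.2.2 hv'.2.1
    · exact key _ _ _ _ hu'.2.2 hv'.1 hu'.1 hv'.2.2
    · exact key _ _ _ _ hu'.1 hv'.2.1 hu'.2.1 hv'.1
  have hdot : ∀ u v w : F × F × F, dot3 ((det3 u₁ u₂ u₃)⁻¹ • cross3 u v) w =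
      (det3 u₁ u₂ u₃)⁻¹ * det3 u v w := by
    intro u v w
    generalize (det3 u₁ u₂ u₃)⁻¹ = t
    simp only [dot3, cross3, det3, Prod.smul_fst, Prod.smul_snd, smul_eq_mul]
    ring
  refine ⟨(det3 u₁ u₂ u₃)⁻¹ • cross3 u₂ u₃, (det3 u₁ u₂ u₃)⁻¹ • cross3 u₃ u₁,
    (det3 u₁ u₂ u₃)⁻¹ • cross3 u₁ u₂, hnorm _ _ h2 h3, hnorm _ _ h3 h1, hnorm _ _ h1 h2,
    ?_, ?_, ?_, ?_, ?_, ?_, ?_, ?_, ?_, ?_⟩
  · rw [hdot, ← mul_inv_cancel₀ hδ, mul_comm]
    congr 1
    simp only [det3]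
    ring
  · rw [hdot]
    apply mul_eq_zero_of_right
    simp only [det3]
    ring
  · rw [hdot]
    apply mul_eq_zero_of_right
    simp only [det3]
    ring
  · rw [hdot]
    apply mul_eq_zero_of_right
    simp only [det3]
    ring
  · rw [hdot, ← mul_inv_cancel₀ hδ, mul_comm]
    congr 1
    simp only [det3]
    ring
  · rw [hdot]
    apply mul_eq_zero_of_right
    simp only [det3]
    ring
  · rw [hdot]
    apply mul_eq_zero_of_right
    simp only [det3]
    ring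
  · rw [hdot]
    apply mul_eq_zero_of_right
    simp only [det3]
    ring
  · rw [hdot, inv_mul_cancel₀ hδ]
  · have h4 : det3 ((det3 u₁ u₂ u₃)⁻¹ • cross3 u₃ u₁) ((det3 u₁ u₂ u₃)⁻¹ • cross3 u₁ u₂)
        ((det3 u₁ u₂ u₃)⁻¹ • cross3 u₂ u₃ + (det3 u₁ u₂ u₃)⁻¹ • cross3 u₃ u₁ +
          (det3 u₁ u₂ u₃)⁻¹ • cross3 u₁ u₂) =
        (det3 u₁ u₂ u₃)⁻¹ ^ 3 * det3 u₁ u₂ u₃ ^ 2 := by
      generalize (det3 u₁ u₂ u₃)⁻¹ = t
      simp only [det3, cross3, Prod.fst_add, Prod.snd_add, Prod.smul_fst, Prod.smul_snd,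
        smul_eq_mul]
      ring
    rw [h4]
    exact mul_ne_zero (pow_ne_zero _ (inv_ne_zero hδ)) (pow_ne_zero _ hδ)

/-- A coordinate of a point of a cluster. Proof: `v = ap3 a b c p = N u + d`, `N = nrm3 v`,
`lin (row3 a b c g) p = dot3 g v = N * dot3 g u + dot3 g d` and `|dot3 g d| ≤ 3 * 80000 * nrm3 d`
(`dot3_le`), `Sm (nrm3 d) N`. -/
theorem clu_coord {a b c : F × F × F} {X : Set (F × F)} {u g : F × F × F} (hg : nrm3 g ≤ 80000)
    {p : F × F} (hp : p ∈ Clu a b c X u) :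
    Sm (lin (row3 a b c g) p - dot3 g u * nrm3 (ap3 a b c p)) (nrm3 (ap3 a b c p)) := by
  have h1 : lin (row3 a b c g) p - dot3 g u * nrm3 (ap3 a b c p) =
      dot3 g (ap3 a b c p - nrm3 (ap3 a b c p) • u) := by
    rw [lin_row3]
    simp only [dot3, Prod.fst_sub, Prod.snd_sub, Prod.smul_fst, Prod.smul_snd, smul_eq_mul]
    ring
  rw [h1]
  refine Bd.trans_sm ?_ hp.2
  refine ⟨240000, ?_⟩
  refine (dot3_le _ _).trans ?_
  rw [abs_of_nonneg (nrm3_nonneg _)]
  have h2 := mul_le_mul_of_nonneg_right hg (nrm3_nonneg (ap3 a b c p - nrm3 (ap3 a b c p) • u))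
  push_cast
  linarith

private theorem r3_I_gt {W : World F G} {S : Set (F × F)} (hS : S ∈ W.I) (g : F × F × F) :
    {p ∈ S | 0 < lin g p} ∈ W.I := by
  convert W.I_gt hS g.1 g.2.1 (-g.2.2) using 1
  ext p
  simp only [Set.mem_sep_iff, lin]
  constructor
  · rintro ⟨h1, h2⟩
    exact ⟨h1, by linarith⟩
  · rintro ⟨h1, h2⟩
    exact ⟨h1, by linarith⟩

private theorem r3_I_ge {W : World F G} {S : Set (F × F)} (hS : S ∈ W.I) (g : F × F × F) :
    {p ∈ S | 0 ≤ lin g p} ∈ W.I := by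
  convert W.I_ge hS g.1 g.2.1 (-g.2.2) using 1
  ext p
  simp only [Set.mem_sep_iff, lin]
  constructor
  · rintro ⟨h1, h2⟩
    exact ⟨h1, by linarith⟩
  · rintro ⟨h1, h2⟩
    exact ⟨h1, by linarith⟩

private theorem r3_lin_tri {g : F × F × F} {p q s w : F × F} {x y z : F} (h : x + y + z = 1)
    (hw : w = x • p + y • q + z • s) : lin g w = x * lin g p + y * lin g q + z * lin g s := by
  subst hw
  have hx : x = 1 - y - z := by linarith
  subst hx
  simp only [lin, Prod.fst_add, Prod.snd_add, Prod.smul_fst, Prod.smul_snd, smul_eq_mul]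
  ring

private theorem r3_tri_nonneg {g : F × F × F} {p q s w : F × F} (hp : 0 ≤ lin g p)
    (hq : 0 ≤ lin g q) (hs : 0 ≤ lin g s) (hw : w ∈ Tri p q s) : 0 ≤ lin g w := by
  obtain ⟨x, y, z, hx, hy, hz, hsum, he⟩ := hw
  rw [r3_lin_tri hsum he]
  positivity

private theorem r3_tri_pos {g : F × F × F} {p q s w : F × F} (hp : 0 < lin g p)
    (hq : 0 < lin g q) (hs : 0 < lin g s) (hw : w ∈ Tri p q s) : 0 < lin g w := by
  obtain ⟨x, y, z, hx, hy, hz, hsum, he⟩ := hw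
  rw [r3_lin_tri hsum he]
  have h1 : 0 < x ∨ 0 < y ∨ 0 < z := by
    by_contra hcon
    push Not at hcon
    linarith [hcon.1, hcon.2.1, hcon.2.2]
  rcases h1 with h1 | h1 | h1 <;> positivity

private theorem r3_sm_nrm {x y e f : F} (hx : Sm (x - e) 1) (hy : Sm (y - f) 1) :
    Sm (nrm ((x, y) - (e, f) : F × F)) 1 := by
  have h0 : nrm ((x, y) - (e, f) : F × F) = max |x - e| |y - f| := rfl
  rw [h0]
  rcases le_total |x - e| |y - f| with h | h
  · rw [max_eq_right h]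
    intro k
    rw [abs_abs]
    exact hy k
  · rw [max_eq_left h]
    intro k
    rw [abs_abs]
    exact hx k

private theorem r3_div {x S : F} (hS : S ≠ 0) (h : Sm x S) : Sm (x / S) 1 := by
  apply Sm.of_mul_left hS
  rw [mul_div_cancel₀ _ hS, mul_one]
  exact h

private theorem r3_calc {N A1 A2 A3 e1 e2 e3 : F} (hN : 0 < N) (he1 : 0 ≤ e1) (he2 : 0 ≤ e2)
    (he3 : 0 ≤ e3) (hsum : e1 + e2 + e3 = 1) (h1 : Sm (A1 - e1 * N) N) (h2 : Sm (A2 - e2 * N) N)
    (h3 : Sm (A3 - e3 * N) N) :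
    0 < A1 + A2 + A3 ∧ 0 ≤ 10 * A1 + (A1 + A2 + A3) ∧ 0 ≤ 10 * A2 + (A1 + A2 + A3) ∧
      0 ≤ 10 * A3 + (A1 + A2 + A3) ∧ Sm (A2 / (A1 + A2 + A3) - e2) 1 ∧
      Sm (A3 / (A1 + A2 + A3) - e3) 1 := by
  have hs : Sm (A1 + A2 + A3 - N) N := by
    have := (h1.add h2).add h3
    have e : A1 - e1 * N + (A2 - e2 * N) + (A3 - e3 * N) = A1 + A2 + A3 - N := by
      linear_combination (-N) * hsum
    rwa [e] at this
  have k1 := h1 100
  have k2 := h2 100
  have k3 := h3 100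
  have k4 := hs 100
  rw [abs_of_pos hN] at k1 k2 k3 k4
  push_cast at k1 k2 k3 k4
  have l1 := neg_abs_le (A1 - e1 * N)
  have l2 := neg_abs_le (A2 - e2 * N)
  have l3 := neg_abs_le (A3 - e3 * N)
  have l4 := neg_abs_le (A1 + A2 + A3 - N)
  have m1 := mul_nonneg he1 hN.le
  have m2 := mul_nonneg he2 hN.le
  have m3 := mul_nonneg he3 hN.le
  have hpos : 0 < A1 + A2 + A3 := by linarith
  have hbd : Bd N (A1 + A2 + A3) := by
    refine ⟨2, ?_⟩
    rw [abs_of_pos hN, abs_of_pos hpos]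
    push_cast
    linarith
  have key : ∀ A e : F, 0 ≤ e → e ≤ 1 → Sm (A - e * N) N → Sm (A / (A1 + A2 + A3) - e) 1 := by
    intro A e he he' hA
    have h4 : Sm (e * (A1 + A2 + A3 - N)) N := by
      refine Bd.trans_sm (Bd.of_le ?_) hs
      rw [abs_mul, abs_of_nonneg he]
      nlinarith [abs_nonneg (A1 + A2 + A3 - N)]
    have h5 : Sm (A - e * (A1 + A2 + A3)) (A1 + A2 + A3) := by
      have h6 := (hA.sub h4).trans_bd hbd
      have e5 : A - e * N - e * (A1 + A2 + A3 - N) = A - e * (A1 + A2 + A3) := by ring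
      rwa [e5] at h6
    have h7 := r3_div hpos.ne' h5
    rwa [sub_div, mul_div_cancel_right₀ _ hpos.ne'] at h7
  refine ⟨hpos, by linarith, by linarith, by linarith, key A2 e2 he2 (by linarith) h2,
    key A3 e3 he3 (by linarith) h3⟩

/-- The root. Proof: `World.three`, `dual_basis`. Let `r i = row3 a b c (g i)`,
`l = r 2`, `m = r 3`, `n = r 1 + r 2 + r 3 = row3 a b c (g₁ + g₂ + g₃)`; `det3 l m n ≠ 0`
(`det3_row3`). The window `C = {p | 0 < lin n p, 0 ≤ 10 * lin (r i) p + lin n p for i = 1, 2, 3}` is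
given by half planes; `Y = pj l m n '' (X ∩ C)`; internal and `K`-bounded (`I_gt`, `I_ge`, `I_pj`,
`KB.window`, `KB.proj`). For `p ∈ C` the numbers `x = lin l p / lin n p`, `y = lin m p / lin n p`,
`1 - x - y = lin (r 1) p / lin n p` are `≥ -1/10`, so `|x|, |y| ≤ 4`.

Cluster of `u₁`: for `p ∈ Clu a b c X u₁`, `N = nrm3 (ap3 a b c p) > 0` (`Sm.ne`): `lin (r 1) p` is
`N` and `lin (r 2) p`, `lin (r 3) p` are `0` up to infinitely small multiples of `N`
(`clu_coord`), so `lin n p` is `N` up to an infinitely small multiple of `N`, `p ∈ C`, and the image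
`(lin l p / lin n p, lin m p / lin n p)` is infinitesimal. `pj l m n` is injective on `C` (`pj_inj`),
so infinitely many points of `Y` are near `(0, 0)`. Similarly `u₂` gives `(1, 0)` and `u₃` gives
`(0, 1)`. -/
theorem World.root {X : Set (F × F)} (hI : X ∈ W.I) (hX : KB W.K X) (hinf : X.Infinite) :
    ∃ Y ∈ W.I, KB W.K Y ∧ (∀ p ∈ Y, nrm p ≤ 4) ∧ {p ∈ Y | Sm (nrm p) 1}.Infinite ∧
      {p ∈ Y | Sm (nrm (p - (1, 0))) 1}.Infinite ∧
      {p ∈ Y | Sm (nrm (p - (0, 1))) 1}.Infinite := by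
  obtain ⟨a, b, c, hd, u₁, u₂, u₃, hu1, hu2, hu3, hdu, hi1, hi2, hi3⟩ := W.three hI hX hinf
  obtain ⟨g₁, g₂, g₃, n1, n2, n3, d11, d12, d13, d21, d22, d23, d31, d32, d33, hg⟩ :=
    dual_basis hu1 hu2 hu3 hdu
  have hn : ∀ p : F × F, lin (row3 a b c (g₁ + g₂ + g₃)) p =
      lin (row3 a b c g₁) p + lin (row3 a b c g₂) p + lin (row3 a b c g₃) p := by
    intro p
    simp only [lin_row3, dot3, Prod.fst_add, Prod.snd_add]
    ring
  have hdet : det3 (row3 a b c g₂) (row3 a b c g₃) (row3 a b c (g₁ + g₂ + g₃)) ≠ 0 := by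
    rw [det3_row3]
    exact mul_ne_zero hg hd
  set r1 := row3 a b c g₁ with hr1
  set r2 := row3 a b c g₂ with hr2
  set r3 := row3 a b c g₃ with hr3
  set n := row3 a b c (g₁ + g₂ + g₃) with hnn
  have h10 : ∀ (r : F × F × F) (p : F × F), lin ((10 : F) • r + n) p = 10 * lin r p + lin n p := by
    intro r p
    simp only [lin, Prod.fst_add, Prod.snd_add, Prod.smul_fst, Prod.smul_snd, smul_eq_mul]
    ring
  let C : Set (F × F) := {p | 0 < lin n p ∧ 0 ≤ 10 * lin r1 p + lin n p ∧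
    0 ≤ 10 * lin r2 p + lin n p ∧ 0 ≤ 10 * lin r3 p + lin n p}
  have hXC : X ∩ C ∈ W.I := by
    have h1 := r3_I_gt (W := W) hI n
    have h2 := r3_I_ge (W := W) h1 ((10 : F) • r1 + n)
    have h3 := r3_I_ge (W := W) h2 ((10 : F) • r2 + n)
    have h4 := r3_I_ge (W := W) h3 ((10 : F) • r3 + n)
    convert h4 using 1
    ext p
    simp only [Set.mem_inter_iff, h10, C, Set.mem_ofPred_eq]
    tauto
  have hCw : ∀ p ∈ C, ∀ q ∈ C, ∀ s ∈ C, Tri p q s ⊆ C := by
    intro p hp q hq s hs w hw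
    refine ⟨r3_tri_pos hp.1 hq.1 hs.1 hw, ?_, ?_, ?_⟩
    · rw [← h10]
      exact r3_tri_nonneg (by rw [h10]; exact hp.2.1) (by rw [h10]; exact hq.2.1)
        (by rw [h10]; exact hs.2.1) hw
    · rw [← h10]
      exact r3_tri_nonneg (by rw [h10]; exact hp.2.2.1) (by rw [h10]; exact hq.2.2.1)
        (by rw [h10]; exact hs.2.2.1) hw
    · rw [← h10]
      exact r3_tri_nonneg (by rw [h10]; exact hp.2.2.2) (by rw [h10]; exact hq.2.2.2)
        (by rw [h10]; exact hs.2.2.2) hw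
  have hclu : ∀ u : F × F × F, ∀ e1 e2 e3 : F, 0 ≤ e1 → 0 ≤ e2 → 0 ≤ e3 → e1 + e2 + e3 = 1 →
      dot3 g₁ u = e1 → dot3 g₂ u = e2 → dot3 g₃ u = e3 → (Clu a b c X u).Infinite →
      {p ∈ pj r2 r3 n '' (X ∩ C) | Sm (nrm (p - (e2, e3))) 1}.Infinite := by
    intro u e1 e2 e3 he1 he2 he3 hsum hu1 hu2 hu3 hinfu
    have hmem : ∀ p ∈ Clu a b c X u, p ∈ C ∧ Sm (nrm (pj r2 r3 n p - (e2, e3))) 1 := by
      intro p hp
      have c1 := clu_coord n1 hp
      have c2 := clu_coord n2 hp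
      have c3 := clu_coord n3 hp
      rw [hu1] at c1
      rw [hu2] at c2
      rw [hu3] at c3
      have hN : 0 < nrm3 (ap3 a b c p) := lt_of_le_of_ne (nrm3_nonneg _) (Ne.symm c1.ne)
      have h1 := r3_calc hN he1 he2 he3 hsum c1 c2 c3
      rw [← hn] at h1
      exact ⟨⟨h1.1, h1.2.1, h1.2.2.1, h1.2.2.2.1⟩, r3_sm_nrm h1.2.2.2.2.1 h1.2.2.2.2.2⟩
    have hinj : Set.InjOn (pj r2 r3 n) (Clu a b c X u) := by
      intro p hp q hq hpq
      exact pj_inj hdet (hmem p hp).1.1 (hmem q hq).1.1 hpq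
    refine (hinfu.image hinj).mono ?_
    rintro _ ⟨p, hp, rfl⟩
    exact ⟨⟨p, ⟨hp.1, (hmem p hp).1⟩, rfl⟩, (hmem p hp).2⟩
  refine ⟨pj r2 r3 n '' (X ∩ C), W.I_pj _ hXC _ _ _,
    (hX.window hCw).proj hdet (fun p hp => hp.2.1), ?_, ?_, ?_, ?_⟩
  · rintro _ ⟨p, hp, rfl⟩
    obtain ⟨h0, h1, h2, h3⟩ := hp.2
    have hn' := hn p
    rw [nrm_le]
    have e1 : -(1 / 10 : F) ≤ lin r2 p / lin n p := by
      rw [le_div_iff₀ h0]
      linarith
    have e2 : -(1 / 10 : F) ≤ lin r3 p / lin n p := by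
      rw [le_div_iff₀ h0]
      linarith
    have e3 : lin r2 p / lin n p ≤ 2 := by
      rw [div_le_iff₀ h0]
      linarith
    have e4 : lin r3 p / lin n p ≤ 2 := by
      rw [div_le_iff₀ h0]
      linarith
    constructor
    · show |lin r2 p / lin n p| ≤ 4
      rw [abs_le]
      constructor <;> linarith
    · show |lin r3 p / lin n p| ≤ 4
      rw [abs_le]
      constructor <;> linarith
  · have h := hclu u₁ 1 0 0 zero_le_one le_rfl le_rfl (by ring) d11 d21 d31 hi1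
    have h0 : ((0 : F), (0 : F)) = 0 := rfl
    simpa only [h0, sub_zero] using h
  · exact hclu u₂ 0 1 0 le_rfl zero_le_one le_rfl (by ring) d12 d22 d32 hi2
  · exact hclu u₃ 0 0 1 le_rfl le_rfl zero_le_one (by ring) d13 d23 d33 hi3

end Pool.Agent.Lib.MP_8bcb9d_co.W
end
end
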