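import Mathlib
import Pool.Agent.Lib.MP_8bcb9d_co.W.G9a
import Pool.Agent.Lib.MP_8bcb9d_co.W.D2
import Pool.Agent.Lib.MP_8bcb9d_co.W.R3
import Pool.Agent.Lib.MP_8bcb9d_co.W.D4
import Pool.Agent.Lib.MP_8bcb9d_co.W.C11

section

/-!
# World Fin, growth: the inner part seen from outer points has finitely many levels
-/

set_option autoImplicit false

namespace Pool.Agent.Lib.MP_8bcb9d_co.W

variable {F G : Type} [Field F] [LinearOrder F] [IsStrictOrderedRing F]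
  [AddCommGroup G] [LinearOrder G] [IsOrderedAddMonoid G] (W : World F G)

/-- The inner part. Proof: `I_box` at `0`; `KB.window` with the box `{w | nrm w ≤ ρ}` (convexity of
the maximum norm). -/
theorem World.inner {X : Set (F × F)} (hI : X ∈ W.I) (hX : KB W.K X) (ρ : F) :
    {z ∈ X | nrm z ≤ ρ} ∈ W.I ∧ KB W.K {z ∈ X | nrm z ≤ ρ} := by
  constructor
  · have h := W.I_box hI 0 ρ
    simp only [sub_zero] at h
    exact h
  · refine hX.window (C := {z | nrm z ≤ ρ}) ?_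
    intro a ha b hb c hc w hw
    obtain ⟨x, y, z, hx, hy, hz, hs, rfl⟩ := hw
    have ha' : nrm a ≤ ρ := ha
    have hb' : nrm b ≤ ρ := hb
    have hc' : nrm c ≤ ρ := hc
    show nrm (x • a + y • b + z • c) ≤ ρ
    have h1 := nrm_add (x • a + y • b) (z • c)
    have h2 := nrm_add (x • a) (y • b)
    rw [nrm_smul, abs_of_nonneg hz] at h1
    rw [nrm_smul, nrm_smul, abs_of_nonneg hx, abs_of_nonneg hy] at h2
    have h3 := mul_le_mul_of_nonneg_left ha' hx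
    have h4 := mul_le_mul_of_nonneg_left hb' hy
    have h5 := mul_le_mul_of_nonneg_left hc' hz
    have h6 : x * ρ + y * ρ + z * ρ = ρ := by rw [← add_mul, ← add_mul, hs, one_mul]
    linarith

/-- The image of the inner part in the chart of a viewer. Proof: `inner`, `I_pj`, `KB.proj`
(`vw_det`, `vn_pos`: `z.1 ≤ nrm z ≤ ρ₁ < a.1`). -/
theorem World.inner_vw {X : Set (F × F)} (hI : X ∈ W.I) (hX : KB W.K X) {a : F × F} {ρ₁ : F}
    (hρ₁ : 0 < ρ₁) (ha : 2 * ρ₁ < a.1) :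
    vw a '' {z ∈ X | nrm z ≤ ρ₁} ∈ W.I ∧ KB W.K (vw a '' {z ∈ X | nrm z ≤ ρ₁}) := by
  obtain ⟨h1, h2⟩ := W.inner hI hX ρ₁
  refine ⟨W.I_pj _ h1 _ _ _, h2.proj (by rw [vw_det]; exact one_ne_zero) ?_⟩
  rintro p ⟨-, hp⟩
  refine vn_pos (by linarith) ?_
  have h3 := (le_abs_self p.1).trans (abs_fst_le p)
  linarith

/-- Size of the distance of two viewers of one cell. Proof: if `a = b` the left side is `0`.
Otherwise `y ≤ e (a - b) = v (nrm (a - b))`, so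
`v (ε * ρ₂) = y + v ρ₁ ≤ v (nrm (a - b) * ρ₁)` (`W.v_mul`), i.e. `Bd (nrm (a - b) * ρ₁) (ε * ρ₂)`
(`W.v_le`), and `ρ₂ ≤ A`. -/
theorem World.cell_bd {a b : F × F} {y : G} (h : a = b ∨ y ≤ W.e (a - b)) {ρ₁ ρ₂ ε A : F}
    (hρ₁ : 0 < ρ₁) (hρ₂ : 0 < ρ₂) (hε : 0 < ε) (hv : W.v ε = y + (W.v ρ₁ - W.v ρ₂))
    (hA : ρ₂ ≤ A) : Bd (nrm (a - b) * ρ₁) (ε * A) := by
  rcases eq_or_ne a b with h0 | h0
  · rw [h0, sub_self, nrm_eq_zero.2 rfl, zero_mul]
    exact Bd.zero _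
  · have h1 := h.resolve_left h0
    have hn : nrm (a - b) ≠ 0 := (nrm_pos.2 (sub_ne_zero.2 h0)).ne'
    have h2 : W.v (ε * ρ₂) ≤ W.v (nrm (a - b) * ρ₁) := by
      rw [W.v_mul _ _ hε.ne' hρ₂.ne', W.v_mul _ _ hn hρ₁.ne', hv]
      have h3 : y + (W.v ρ₁ - W.v ρ₂) + W.v ρ₂ = y + W.v ρ₁ := by abel
      rw [h3]
      exact add_le_add_left h1 _
    have h4 := (W.v_le _ _ (mul_pos hε hρ₂).ne' (mul_ne_zero hn hρ₁.ne')).1 h2
    refine h4.trans (Bd.of_le ?_)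
    rw [abs_of_pos (mul_pos hε hρ₂), abs_of_pos (mul_pos hε (hρ₂.trans_le hA))]
    exact mul_le_mul_of_nonneg_left hA hε.le

/-- The heart of the growth lemma: an infinite chain of classes of levels, seen from the viewer
`a₀`, is impossible if there are `K + 1` viewers in the cell of `a₀`, among finitely many outer
points `A` which are the only outer points in the triangles of a viewer and two inner points.

Proof. Let `D` be the inner part, `Y = vw a₀ '' D`. Choose `z i, z' i ∈ D` with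
`vw a₀ (z i) = x i`, `vw a₀ (z' i) = x' i` (`Edge.mem`). Apply `count_edges` with `z`, `z'`, `D`.
`hleft`: `d.1 ≤ nrm d ≤ ρ₁ < a.1`. `hpos`, `hord`: `vw_pos` with `Edge.lt`, `Edge.sm` resp. `hord`,
and `cell_bd` with `A = a₀.1 = nrm a₀`. `hclean`: let `w ∈ D`, `w ∈ Tri a (z i) (z' i)`; apply
`Edge.clean` to `r = vw a₀ w`. First case: `w` is below `z i` by much more than `ε`, so
`0 < cr (z i - a) (w - a)` (`vw_pos`), but `tri_signs` says `0 ≤ cr (w - a) (z i - a)`. Second case: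
`0 < cr (w - a) (z' i - a)`, but `0 ≤ cr (z' i - a) (w - a)`. Third case: `vw_cr3` and
`edge_clean`. -/
theorem World.no_chain {X : Set (F × F)} (hX : KB W.K X) {ρ₁ ρ₂ ε : F}
    (hρ₁ : 0 < ρ₁) (hρ₂ : 0 < ρ₂) (hε : 0 < ε) {y : G}
    (hv : W.v ε = y + (W.v ρ₁ - W.v ρ₂)) (A V : Finset (F × F)) (hVA : V ⊆ A)
    (hV : V.card = W.K + 1) (hA : ∀ a ∈ A, a ∈ X ∧ TT a ∧ 2 * ρ₁ < a.1 ∧ ρ₂ ≤ nrm a)
    (hsel : ∀ a ∈ A, ∀ d d', nrm d ≤ ρ₁ → nrm d' ≤ ρ₁ → ∀ w ∈ X, w ∈ Tri a d d' →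
      w ∈ A ∨ nrm w ≤ ρ₁)
    (hcell : ∀ a ∈ V, ∀ a' ∈ V, a = a' ∨ y ≤ W.e (a - a')) {a₀ : F × F} (ha₀ : a₀ ∈ V)
    (x x' : ℕ → F × F) (hE : ∀ i, Edge (vw a₀ '' {z ∈ X | nrm z ≤ ρ₁}) ε (x i) (x' i))
    (hord : ∀ i j, i < j → (x' i).2 < (x j).2 ∧ Sm ε ((x j).2 - (x' i).2)) : False := by
  choose z hz hzx using fun i => (hE i).mem
  choose z' hz' hzx' using fun i => (hE i).mem'
  obtain ⟨ha₀X, ha₀T, ha₀1, ha₀2⟩ := hA a₀ (hVA ha₀)
  rw [ha₀T.nrm_eq] at ha₀2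
  have hbd : ∀ a ∈ V, Bd (nrm (a₀ - a) * ρ₁) (ε * a₀.1) := fun a ha =>
    W.cell_bd (hcell a₀ ha₀ a ha) hρ₁ hρ₂ hε hv ha₀2
  have hpos : ∀ a ∈ V, ∀ i, 0 < cr (z' i - a) (z i - a) := by
    intro a ha i
    refine vw_pos ha₀1 hρ₁ (hz' i).2 (hz i).2 hε ?_ ?_ (hbd a ha)
    · rw [hzx, hzx']
      exact (hE i).lt
    · rw [hzx, hzx']
      exact (hE i).sm
  refine count_edges hX A V hVA hV (fun a ha => (hA a ha).1)
    (D := {z ∈ X | nrm z ≤ ρ₁}) (fun d hd => hd.1) ?_ ?_ z z' hz hz' hpos ?_ ?_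
  · intro a ha d hd d' hd' w hw hwt
    rcases hsel a (hVA ha) d d' hd.2 hd'.2 w hw hwt with h | h
    · exact Or.inl h
    · exact Or.inr ⟨hw, h⟩
  · intro a ha d hd
    have h1 := (le_abs_self d.1).trans ((abs_fst_le d).trans hd.2)
    have h2 := (hA a (hVA ha)).2.2.1
    linarith
  · intro a ha i j hij
    refine vw_pos ha₀1 hρ₁ (hz j).2 (hz' i).2 hε ?_ ?_ (hbd a ha)
    · rw [hzx, hzx']
      exact (hord i j hij).1
    · rw [hzx, hzx']
      exact (hord i j hij).2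
  · intro a ha i w hw hwt
    obtain ⟨s1, s2⟩ := tri_signs (hpos a ha i) hwt
    rcases (hE i).clean (vw a₀ w) ⟨w, hw, rfl⟩ with h | h | h
    · exfalso
      have h1 : 0 < cr (z i - a) (w - a) := by
        refine vw_pos ha₀1 hρ₁ (hz i).2 hw.2 hε ?_ ?_ (hbd a ha)
        · rw [hzx]
          exact h.1
        · rw [hzx]
          exact h.2
      rw [cr_comm] at h1
      linarith
    · exfalso
      have h1 : 0 < cr (w - a) (z' i - a) := by
        refine vw_pos ha₀1 hρ₁ hw.2 (hz' i).2 hε ?_ ?_ (hbd a ha)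
        · rw [hzx']
          exact h.1
        · rw [hzx']
          exact h.2
      rw [cr_comm] at h1
      linarith
    · have hlt : ∀ p ∈ {z ∈ X | nrm z ≤ ρ₁}, p.1 < a₀.1 := by
        rintro p ⟨-, hp⟩
        have h1 := (le_abs_self p.1).trans ((abs_fst_le p).trans hp)
        linarith
      rw [← hzx, ← hzx'] at h
      exact edge_clean hX.gp (hz i).1 (hz' i).1 hw.1 (hpos a ha i) hwt
        (vw_cr3 (by linarith) (hlt _ (hz i)) (hlt _ (hz' i)) (hlt _ hw) h)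

end Pool.Agent.Lib.MP_8bcb9d_co.W
end

section

/-!
# World Fin, growth: finitely many levels
-/

set_option autoImplicit false

namespace Pool.Agent.Lib.MP_8bcb9d_co.W

variable {F G : Type} [Field F] [LinearOrder F] [IsStrictOrderedRing F]
  [AddCommGroup G] [LinearOrder G] [IsOrderedAddMonoid G] (W : World F G)

/-- Finitely many levels. Proof. `W.cell hy W.K` gives `m`. Take `m` of the infinitely many outer
`TT` points (`Set.Infinite.exists_subset_card_eq`), `τ` from `exists_slope`, `A` from `selM` (all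
`a ∈ A` are `TT` by `Reg.thin`, so `nrm a = a.1`, and `2 ρ₁ < ρ₂ ≤ a.1` by `Sm.two`), `V ⊆ A` from
`cell`, `a₀ ∈ V`. Let `D` be the inner part, `Y = vw a₀ '' D` (`inner_vw`), first coordinates
`O(ρ₁)` (`vw_fst`). If finitely many points `Z ⊆ Y` represent all levels: for `z ∈ D` let `f z` be
such a representative; if `f z = f z'` then the levels of `z`, `z'` differ by `O(ε)` (`Bd.sub`), and
`vw_bd` gives the claim. Otherwise `chain` and `no_chain`. -/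
theorem World.growT {X : Set (F × F)} (hI : X ∈ W.I) (hX : KB W.K X) {ρ₁ ρ₂ ε : F}
    (hρ₁ : 0 < ρ₁) (hρ₂ : 0 < ρ₂) (hsm : Sm ρ₁ ρ₂) (hε : 0 < ε)
    (hgap : ∀ x ∈ X, nrm x ≤ ρ₁ ∨ ρ₂ ≤ nrm x)
    (hinf : {a ∈ X | TT a ∧ ρ₂ ≤ nrm a}.Infinite) {y : G} (hy : W.FinNet X y)
    (hv : W.v ε = y + (W.v ρ₁ - W.v ρ₂)) :
    ∃ a ∈ X, TT a ∧ ρ₂ ≤ nrm a ∧ ∃ (Z : Set (F × F)) (f : F × F → F × F), Z.Finite ∧
      (∀ z ∈ X, nrm z ≤ ρ₁ → f z ∈ Z) ∧
      ∀ z ∈ X, ∀ z' ∈ X, nrm z ≤ ρ₁ → nrm z' ≤ ρ₁ → f z = f z' →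
        Bd (cr (z - a) (z' - a)) (ε * nrm a) := by
  classical
  obtain ⟨m, hm⟩ := W.cell hy W.K
  obtain ⟨Q, hQs, hQc⟩ := hinf.exists_subset_card_eq m
  have hQ' : ∀ q ∈ Q, q ∈ X ∧ TT q ∧ ρ₂ ≤ nrm q := fun q hq => hQs hq
  obtain ⟨τ, hτ, hτs, hτq⟩ := exists_slope Q (fun q hq => (hQ' q hq).2.1)
  obtain ⟨A, hAc, hA, hsel⟩ := W.selM hI hτ hτs.bd hρ₁ hρ₂ hsm hgap Q
    (fun q hq => ⟨(hQ' q hq).1, (hQ' q hq).2.1.1, hτq q hq, (hQ' q hq).2.2⟩) m hQc.ge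
  have h2 : 2 * ρ₁ < ρ₂ := by
    have := hsm.two
    rwa [abs_of_pos hρ₁, abs_of_pos hρ₂] at this
  have hA' : ∀ a ∈ A, a ∈ X ∧ TT a ∧ 2 * ρ₁ < a.1 ∧ ρ₂ ≤ nrm a := by
    intro a ha
    obtain ⟨h3, h4, h5, -⟩ := hA a ha
    have hT : TT a := Reg.thin hτ hτs hρ₁ hρ₂ hsm h4 h5
    refine ⟨h3, hT, ?_, h5⟩
    rw [hT.nrm_eq] at h5
    linarith
  obtain ⟨V, hVA, hVc, hcell⟩ := hm A (fun a ha => (hA a ha).1) hAc.ge
  have hVne : V.Nonempty := by
    rw [← Finset.card_pos, hVc]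
    omega
  obtain ⟨a₀, ha₀⟩ := hVne
  obtain ⟨ha₀X, ha₀T, ha₀1, ha₀n⟩ := hA' a₀ (hVA ha₀)
  obtain ⟨hYI, hYK⟩ := W.inner_vw hI hX hρ₁ ha₀1
  have hb : ∀ p ∈ vw a₀ '' {z ∈ X | nrm z ≤ ρ₁}, Bd p.1 ρ₁ := by
    rintro _ ⟨z, hz, rfl⟩
    exact vw_fst ha₀1 hz.2
  by_cases hN : ∃ Z : Set (F × F), Z.Finite ∧ Z ⊆ vw a₀ '' {z ∈ X | nrm z ≤ ρ₁} ∧
      ∀ p ∈ vw a₀ '' {z ∈ X | nrm z ≤ ρ₁}, ∃ z ∈ Z, Bd (p.2 - z.2) ε
  · obtain ⟨Z, hZf, -, hZ⟩ := hN
    have hex : ∀ z : F × F, ∃ w : F × F, (z ∈ X ∧ nrm z ≤ ρ₁) →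
        w ∈ Z ∧ Bd ((vw a₀ z).2 - w.2) ε := by
      intro z
      by_cases hz : z ∈ X ∧ nrm z ≤ ρ₁
      · obtain ⟨w, hw, h3⟩ := hZ (vw a₀ z) ⟨z, hz, rfl⟩
        exact ⟨w, fun _ => ⟨hw, h3⟩⟩
      · exact ⟨0, fun h => absurd h hz⟩
    choose f hf using hex
    refine ⟨a₀, ha₀X, ha₀T, ha₀n, Z, f, hZf, fun z hz hzn => (hf z ⟨hz, hzn⟩).1, ?_⟩
    intro z hz z' hz' hzn hzn' hff
    have e1 := (hf z ⟨hz, hzn⟩).2
    have e2 := (hf z' ⟨hz', hzn'⟩).2
    rw [← hff] at e2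
    have e3 := e1.sub e2
    rw [sub_sub_sub_cancel_right] at e3
    rw [ha₀T.nrm_eq]
    exact vw_bd ha₀1 hρ₁ hzn hzn' hε e3
  · exfalso
    obtain ⟨x, x', hE, hord⟩ := W.chain hYI hYK hρ₁ hε hb hN
    exact W.no_chain hX hρ₁ hρ₂ hε hv A V hVA hVc hA' hsel hcell ha₀ x x' hE hord

end Pool.Agent.Lib.MP_8bcb9d_co.W
end

section

/-!
# World Fin: Lemma B, BB and DL in the frame of a class
-/

set_option autoImplicit false

namespace Pool.Agent.Lib.MP_8bcb9d_co.W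

variable {F G : Type} [Field F] [LinearOrder F] [IsStrictOrderedRing F]
  [AddCommGroup G] [LinearOrder G] [IsOrderedAddMonoid G] (W : World F G)

/-- two points of the class of `ω` with exponent `≤ t` -/
def World.Two (X : Set (F × F)) (κ : G) (ω : F) (t : G) : Prop :=
  ∃ p ∈ X, ∃ q ∈ X, p ≠ q ∧ TT p ∧ TT q ∧ Near W.v κ ω (sl p) ∧ Near W.v κ ω (sl q) ∧
    W.e p ≤ t ∧ W.e q ≤ t

/-- Proof. Take `k > 0` with `v k = κ`, `X' = frm k ω '' X`. `LBU` for `X'` and `t₁` (the images of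
the two points of `h2` are `UU` with the same exponents). The map `l ↦ l - κ` is injective and sends
the set into the set of `LBU`: for a `UU` point `p` with `e p = l`, `frm k ω p` is `TT` with exponent
`l - κ > t₁`; a `UU` point of `X'` is `frm k ω w` with `w` in the class and `e (frm k ω w) = e w`
(`frm_UU`, `frm_near`), and `l ≤ e w + κ` is `l - κ ≤ e w`. -/
theorem World.Bk {X : Set (F × F)} (hI : X ∈ W.I) (hX : KB W.K X) {κ t₁ : G} {ω : F} (hκ : 0 < κ)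
    (h2 : W.Two X κ ω t₁) :
    {l | t₁ + κ < l ∧ (∃ p ∈ X, UU p ∧ W.e p = l) ∧
      ∀ z ∈ X, TT z → Near W.v κ ω (sl z) → W.e z ≤ t₁ ∨ l ≤ W.e z + κ}.encard ≤ W.K := by
  obtain ⟨k, hk, hkκ⟩ := W.v_surj κ
  obtain ⟨p, hp, q, hq, hpq, hTp, hTq, hNp, hNq, hep, heq⟩ := h2
  have hω : Sm ω 1 := W.near_sm hκ hTp hNp
  have hp' := W.frm_near hk hkκ hTp hNp
  have hq' := W.frm_near hk hkκ hTq hNq
  have key := W.LBU (W.I_frm hI k ω) (KB.frm hX (ω := ω) hk.ne') (t₁ := t₁)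
    ⟨frm k ω p, ⟨p, hp, rfl⟩, frm k ω q, ⟨q, hq, rfl⟩, fun h => hpq (frm_inj hk.ne' h), hp'.1, hq'.1,
      hp'.2.le.trans hep, hq'.2.le.trans heq⟩
  refine (Set.encard_le_encard_of_injOn (f := fun l => l - κ) ?_ ?_).trans key
  · rintro l ⟨hl, ⟨x, hx, hUx, hex⟩, h⟩
    have hx' := W.frm_TT hk hkκ hκ hω hUx
    refine ⟨lt_sub_iff_add_lt.2 hl, ⟨frm k ω x, ⟨x, hx, rfl⟩, Or.inl hx'.1, ?_⟩, ?_⟩
    · rw [hx'.2, hex]
    · rintro _ ⟨z, hz, rfl⟩ hUz
      obtain ⟨hTz, hNz⟩ := W.frm_UU hk hkκ hκ hω hUz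
      rw [(W.frm_near hk hkκ hTz hNz).2]
      exact (h z hz hTz hNz).imp id sub_le_iff_le_add.2
  · intro a _ b _ hab
    exact sub_left_injective hab

/-- Proof. `BBU` for `X' = frm k ω '' X` at `t₁`: two `UU` points of `X'` from `h2`, two `TT` points
of `X'` from `hU` (`frm_TT`: exponent `≤ t₁ + κ - κ`). Points `p' ≠ 0` of `X'` are `frm k ω p` with
`p ≠ 0`; `UU` points of `X'` come from points of the class. -/
theorem World.BBk {X : Set (F × F)} (hI : X ∈ W.I) (hX : KB W.K X) {κ t₁ : G} {k ω : F}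
    (hκ : 0 < κ) (hk : 0 < k) (hkκ : W.v k = κ) (h2 : W.Two X κ ω t₁)
    (hU : ∃ a ∈ X, ∃ b ∈ X, a ≠ b ∧ UU a ∧ UU b ∧ W.e a ≤ t₁ + κ ∧ W.e b ≤ t₁ + κ) :
    {t | t₁ < t ∧ (∃ p ∈ X, p ≠ 0 ∧ W.e (frm k ω p) = t) ∧
      ∀ z ∈ X, TT z → Near W.v κ ω (sl z) → W.e z ≤ t₁ ∨ t < W.e z}.encard ≤
        ((W.K ^ 2 + 2 * W.K : ℕ) : ℕ∞) := by
  obtain ⟨p, hp, q, hq, hpq, hTp, hTq, hNp, hNq, hep, heq⟩ := h2
  obtain ⟨a, ha, b, hb, hab, hUa, hUb, hea, heb⟩ := hU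
  have hω : Sm ω 1 := W.near_sm hκ hTp hNp
  have hp' := W.frm_near hk hkκ hTp hNp
  have hq' := W.frm_near hk hkκ hTq hNq
  have ha' := W.frm_TT hk hkκ hκ hω hUa
  have hb' := W.frm_TT hk hkκ hκ hω hUb
  have key := W.BBU (W.I_frm hI k ω) (KB.frm hX (ω := ω) hk.ne') (t₁ := t₁)
    ⟨frm k ω a, ⟨a, ha, rfl⟩, frm k ω b, ⟨b, hb, rfl⟩, fun h => hab (frm_inj hk.ne' h), ha'.1, hb'.1,
      by rw [ha'.2]; exact sub_le_iff_le_add.2 hea, by rw [hb'.2]; exact sub_le_iff_le_add.2 heb⟩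
    ⟨frm k ω p, ⟨p, hp, rfl⟩, frm k ω q, ⟨q, hq, rfl⟩, fun h => hpq (frm_inj hk.ne' h), hp'.1, hq'.1,
      hp'.2.le.trans hep, hq'.2.le.trans heq⟩
  refine (Set.encard_le_encard ?_).trans key
  rintro t ⟨ht, ⟨x, hx, hx0, hex⟩, h⟩
  refine ⟨ht, ⟨frm k ω x, ⟨x, hx, rfl⟩, ?_, hex⟩, ?_⟩
  · intro h0
    exact hx0 (frm_inj hk.ne' (h0.trans (frm_zero k ω).symm))
  · rintro _ ⟨z, hz, rfl⟩ hUz
    obtain ⟨hTz, hNz⟩ := W.frm_UU hk hkκ hκ hω hUz
    rw [(W.frm_near hk hkκ hTz hNz).2]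
    exact h z hz hTz hNz

/-- Proof. `DLU` for `X' = frm k ω '' X` and `Q.image (frm k ω)` (`frm_inj`: same cardinality). The
two points of `hD` are `0 = frm k ω 0` and `frm k ω p`. Slopes: `frm_slope`, the difference of two
inverse slopes in the frame is `(sl q' - sl q) / k`, so nearness at precision `e₂ - e₁` in the frame
is nearness of `sl` at precision `κ + (e₂ - e₁)`. -/
theorem World.DLk {X : Set (F × F)} (hI : X ∈ W.I) (hX : KB W.K X) {κ e₁ e₂ : G} {k ω : F}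
    (hκ : 0 < κ) (hk : 0 < k) (hkκ : W.v k = κ) (h12 : e₁ < e₂) (h0 : (0 : F × F) ∈ X)
    (hgap : ∀ p ∈ X, p ≠ 0 → W.e (frm k ω p) ≤ e₁ ∨ e₂ ≤ W.e (frm k ω p))
    (hp : ∃ p ∈ X, p ≠ 0 ∧ e₂ ≤ W.e (frm k ω p))
    (Q : Finset (F × F)) (hQ : ∀ q ∈ Q, q ∈ X ∧ TT q ∧ Near W.v κ ω (sl q) ∧ W.e q ≤ e₁)
    (hsep : ∀ q ∈ Q, ∀ q' ∈ Q, q ≠ q' → ¬ Near W.v (κ + (e₂ - e₁)) (sl q) (sl q')) :
    Q.card ≤ 2 * W.K := by
  classical
  have _ := hκ
  have hinj : Function.Injective (frm k ω) := fun a b h => frm_inj hk.ne' h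
  rw [← Finset.card_image_of_injective Q hinj]
  obtain ⟨p, hpX, hp0, hpe⟩ := hp
  have hp0' : frm k ω p ≠ 0 := fun h => hp0 (frm_inj hk.ne' (h.trans (frm_zero k ω).symm))
  refine W.DLU (W.I_frm hI k ω) (KB.frm hX (ω := ω) hk.ne') h12 ?_ ?_ (Q.image (frm k ω)) ?_ ?_
  · rintro _ ⟨x, hx, rfl⟩ hx0
    refine hgap x hx ?_
    rintro rfl
    exact hx0 (frm_zero k ω)
  · exact ⟨0, ⟨0, h0, frm_zero k ω⟩, frm k ω p, ⟨p, hpX, rfl⟩, hp0'.symm, Or.inl rfl, Or.inr hpe⟩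
  · intro q hq
    obtain ⟨x, hx, rfl⟩ := Finset.mem_image.1 hq
    obtain ⟨h1, h2, h3, h4⟩ := hQ x hx
    have h5 := W.frm_near hk hkκ h2 h3
    exact ⟨⟨x, h1, rfl⟩, h5.1, h5.2.le.trans h4⟩
  · intro q hq q' hq' hne hN
    obtain ⟨x, hx, rfl⟩ := Finset.mem_image.1 hq
    obtain ⟨y, hy, rfl⟩ := Finset.mem_image.1 hq'
    have hxy : x ≠ y := fun h => hne (by rw [h])
    obtain ⟨h1, h2, -, -⟩ := hQ x hx
    obtain ⟨h1', h2', -, -⟩ := hQ y hy
    rw [frm_slope hk.ne' h2.1.ne', frm_slope hk.ne' h2'.1.ne'] at hN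
    apply hsep x hx y hy hxy
    by_cases heq : sl y = sl x
    · exact Or.inl heq
    · right
      rcases hN with hN | hN
      · exfalso
        apply heq
        have h6 := (div_left_inj' hk.ne').1 hN
        exact sub_left_injective h6
      · have h7 : (sl y - ω) / k - (sl x - ω) / k = (sl y - sl x) / k := by ring
        rw [h7, W.v_div (sub_ne_zero.2 heq) hk.ne', hkκ] at hN
        have h8 := le_sub_iff_add_le.1 hN
        rwa [add_comm] at h8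

end Pool.Agent.Lib.MP_8bcb9d_co.W
end

section

/-!
# World Fin: linear change of the frame of a path
-/

set_option autoImplicit false

namespace Pool.Agent.Lib.MP_8bcb9d_co.W

variable {F G : Type} [Field F] [LinearOrder F] [IsStrictOrderedRing F]
  [AddCommGroup G] [LinearOrder G] [IsOrderedAddMonoid G] {W : World F G}

/-- The linear map `M p = (a p.1 + b p.2, a' p.1 + b' p.2)` is injective and preserves exponents
(`h1`, `h2`, `W.v_eq`), so all properties of a path are preserved. Proof: `I_affine`, `KB.affine`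
with `c = c' = 0`; `e (M p) = e p` for `p ≠ 0`, `M p = 0` iff `p = 0` (`h2`); `star`, `net`:
`FinNet.image` and `FinNet.of_image` (differences: `M p - M q = M (p - q)`). -/
theorem Path.lin {X : Set (F × F)} {s : ℕ → G} (h : Path W X s) {a b a' b' : F}
    (hd : a * b' - b * a' ≠ 0)
    (h1 : ∀ p : F × F, Bd (nrm (a * p.1 + b * p.2, a' * p.1 + b' * p.2)) (nrm p))
    (h2 : ∀ p : F × F, Bd (nrm p) (nrm (a * p.1 + b * p.2, a' * p.1 + b' * p.2))) :
    Path W ((fun p : F × F => (a * p.1 + b * p.2, a' * p.1 + b' * p.2)) '' X) s := by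
  set M : F × F → F × F := fun p => (a * p.1 + b * p.2, a' * p.1 + b' * p.2) with hM
  have hsub : ∀ p q : F × F, M p - M q = M (p - q) := by
    intro p q
    simp only [hM]
    ext
    · simp only [Prod.fst_sub, Prod.snd_sub]
      ring
    · simp only [Prod.fst_sub, Prod.snd_sub]
      ring
  have h0 : M 0 = 0 := by
    simp only [hM]
    ext <;> simp
  have hz : ∀ p : F × F, p ≠ 0 → M p ≠ 0 := by
    intro p hp hMp
    obtain ⟨n, hn⟩ := h2 p
    have h3 : nrm (M p) = 0 := nrm_eq_zero.2 hMp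
    change |nrm p| ≤ (n : F) * |nrm (M p)| at hn
    rw [h3, abs_zero, mul_zero, abs_nrm] at hn
    exact absurd (nrm_pos.2 hp) (not_lt.2 hn)
  have he : ∀ p : F × F, p ≠ 0 → W.e (M p) = W.e p := fun p hp =>
    W.v_eq (nrm_pos.2 (hz p hp)).ne' (nrm_pos.2 hp).ne' (h1 p) (h2 p)
  have hinj : ∀ p q : F × F, p ≠ q → M p ≠ M q := by
    intro p q hpq hMpq
    apply hz (p - q) (sub_ne_zero.2 hpq)
    rw [← hsub, hMpq, sub_self]
  have hfun : (fun p : F × F => (a * p.1 + b * p.2 + 0, a' * p.1 + b' * p.2 + 0)) = M := by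
    funext p
    simp [hM]
  have himg : ∀ A : Set (F × F), ∀ y : G, W.FinNet A y → W.FinNet (M '' A) y := by
    intro A y hA
    refine FinNet.image M (fun p _ q _ hpq => Or.inr ?_) hA
    rw [hsub, he _ (sub_ne_zero.2 hpq)]
  have hofimg : ∀ A : Set (F × F), ∀ y : G, W.FinNet (M '' A) y → W.FinNet A y := by
    intro A y hA
    refine FinNet.of_image M (fun p _ q _ hpq => ⟨hinj p q hpq, ?_⟩) hA
    rw [hsub, he _ (sub_ne_zero.2 hpq)]
  refine ⟨?_, ?_, ⟨0, h.zero, h0⟩, h.mono, ?_, ?_, ?_, fun n => himg X _ (h.net n)⟩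
  · have h3 := W.I_affine h.int a b 0 a' b' 0
    rwa [hfun] at h3
  · have h3 := h.kb.affine (a := a) (b := b) (c := 0) (a' := a') (b' := b') (c' := 0) hd
    rwa [hfun] at h3
  · intro j
    obtain ⟨p, hp, hp0, hpe⟩ := h.occ j
    exact ⟨M p, ⟨p, hp, rfl⟩, hz p hp0, by rw [he p hp0, hpe]⟩
  · rintro _ ⟨p, hp, rfl⟩ hp0
    have hp0' : p ≠ 0 := by
      rintro rfl
      exact hp0 h0
    rw [he p hp0']
    exact h.all p hp hp0'
  · intro n y hy
    apply himg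
    apply h.star n y
    apply hofimg
    convert hy using 1
    ext q
    constructor
    · rintro ⟨p, ⟨hp, hp'⟩, rfl⟩
      refine ⟨⟨p, hp, rfl⟩, ?_⟩
      by_cases hp0 : p = 0
      · left
        rw [hp0, h0]
      · right
        rw [he p hp0]
        exact hp'.resolve_left hp0
    · rintro ⟨⟨p, hp, rfl⟩, hp'⟩
      refine ⟨p, ⟨hp, ?_⟩, rfl⟩
      by_cases hp0 : p = 0
      · exact Or.inl hp0
      · right
        rw [← he p hp0]
        exact hp'.resolve_left (hz p hp0)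

/-- Two clusters in different directions become a `TT` and a swapped `TT` cluster.

Proof. `δ = cr d d' ≥ 1/3`, `M p = (cr p d' / δ, cr d p / δ)`, that is `a = d'.2 / δ`,
`b = -d'.1 / δ`, `a' = -d.2 / δ`, `b' = d.1 / δ`, determinant `1 / δ`. `M d = (1, 0)`,
`M d' = (0, 1)`, `p = (M p).1 • d + (M p).2 • d'`; so `nrm (M p) ≤ 30 * nrm p` (`cr_abs_le`) and
`nrm p ≤ 10 * nrm (M p)`. If `Sm (nrm (p - d)) 1` then `M p = (1, 0) + M (p - d)`, with the second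
term infinitesimal, so `M p` is `TT` of exponent `v 1 = 0` (`TT.pert`, `e_add_sm`, `v_one`).
Similarly for `d'`. `M` is injective, so the images of infinite sets are infinite. -/
theorem Path.frame2 {X : Set (F × F)} {s : ℕ → G} (h : Path W X s) (hs : s 0 = 0)
    {d d' : F × F} (hd : nrm d ≤ 5) (hd' : nrm d' ≤ 5) (hc : 1 ≤ 3 * cr d d')
    (h1 : {p ∈ X | Sm (nrm (p - d)) 1}.Infinite)
    (h2 : {p ∈ X | Sm (nrm (p - d')) 1}.Infinite) :
    ∃ X' : Set (F × F), Path W X' s ∧ {p ∈ X' | TT p ∧ W.e p = s 0}.Infinite ∧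
      {p ∈ X' | TT (sw p) ∧ W.e p = s 0}.Infinite := by
  obtain ⟨δ, hδ⟩ : ∃ δ : F, δ = cr d d' := ⟨_, rfl⟩
  rw [← hδ] at hc
  have hδ0 : 0 < δ := by linarith
  have hδi : 0 < δ⁻¹ := inv_pos.2 hδ0
  have hδ3 : δ⁻¹ ≤ 3 := by
    rw [inv_le_comm₀ hδ0 (by norm_num)]
    have : (3 : F)⁻¹ * 3 = 1 := by norm_num
    nlinarith
  have hcr : δ = d.1 * d'.2 - d.2 * d'.1 := hδ
  set M : F × F → F × F := fun p =>
    (d'.2 * δ⁻¹ * p.1 + -(d'.1 * δ⁻¹) * p.2, -(d.2 * δ⁻¹) * p.1 + d.1 * δ⁻¹ * p.2) with hM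
  have hM1 : ∀ p : F × F, (M p).1 = δ⁻¹ * cr p d' := by
    intro p
    simp only [hM, cr]
    ring
  have hM2 : ∀ p : F × F, (M p).2 = δ⁻¹ * cr d p := by
    intro p
    simp only [hM, cr]
    ring
  have hadd : ∀ p q : F × F, M (p + q) = M p + M q := by
    intro p q
    simp only [hM]
    ext
    · simp only [Prod.fst_add, Prod.snd_add]
      ring
    · simp only [Prod.fst_add, Prod.snd_add]
      ring
  have hMd : M d = (1, 0) := by
    refine Prod.ext ?_ ?_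
    · rw [hM1, ← hδ]
      exact inv_mul_cancel₀ hδ0.ne'
    · rw [hM2, cr_self, mul_zero]
  have hMd' : M d' = (0, 1) := by
    refine Prod.ext ?_ ?_
    · rw [hM1, cr_self, mul_zero]
    · rw [hM2, ← hδ]
      exact inv_mul_cancel₀ hδ0.ne'
  have hup : ∀ p : F × F, nrm (M p) ≤ 30 * nrm p := by
    intro p
    have hp := nrm_nonneg p
    have hn := nrm_nonneg d
    have hn' := nrm_nonneg d'
    refine nrm_le.2 ⟨?_, ?_⟩
    · rw [hM1, abs_mul, abs_of_pos hδi]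
      have h3 := cr_abs_le p d'
      have h4 : nrm p * nrm d' ≤ nrm p * 5 := mul_le_mul_of_nonneg_left hd' hp
      have h5 : δ⁻¹ * |cr p d'| ≤ 3 * |cr p d'| := mul_le_mul_of_nonneg_right hδ3 (abs_nonneg _)
      linarith
    · rw [hM2, abs_mul, abs_of_pos hδi]
      have h3 := cr_abs_le d p
      have h4 : nrm d * nrm p ≤ 5 * nrm p := mul_le_mul_of_nonneg_right hd hp
      have h5 : δ⁻¹ * |cr d p| ≤ 3 * |cr d p| := mul_le_mul_of_nonneg_right hδ3 (abs_nonneg _)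
      linarith
  have hrep : ∀ p : F × F, p = (M p).1 • d + (M p).2 • d' := by
    intro p
    have hδn : δ ≠ 0 := hδ0.ne'
    refine Prod.ext ?_ ?_
    · rw [hM1, hM2]
      simp only [cr, Prod.fst_add, Prod.smul_fst, smul_eq_mul]
      field_simp
      rw [hcr]
      ring
    · rw [hM1, hM2]
      simp only [cr, Prod.snd_add, Prod.smul_snd, smul_eq_mul]
      field_simp
      rw [hcr]
      ring
  have hlow : ∀ p : F × F, nrm p ≤ 10 * nrm (M p) := by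
    intro p
    have h3 : nrm p ≤ nrm ((M p).1 • d) + nrm ((M p).2 • d') := by
      conv_lhs => rw [hrep p]
      exact nrm_add _ _
    rw [nrm_smul, nrm_smul] at h3
    have h4 := abs_fst_le (M p)
    have h5 := abs_snd_le (M p)
    have h6 : |(M p).1| * nrm d ≤ nrm (M p) * 5 :=
      mul_le_mul h4 hd (nrm_nonneg _) (nrm_nonneg _)
    have h7 : |(M p).2| * nrm d' ≤ nrm (M p) * 5 :=
      mul_le_mul h5 hd' (nrm_nonneg _) (nrm_nonneg _)
    linarith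
  have hB1 : ∀ p : F × F, Bd (nrm (M p)) (nrm p) := by
    intro p
    refine ⟨30, ?_⟩
    rw [abs_nrm, abs_nrm]
    exact_mod_cast hup p
  have hB2 : ∀ p : F × F, Bd (nrm p) (nrm (M p)) := by
    intro p
    refine ⟨10, ?_⟩
    rw [abs_nrm, abs_nrm]
    exact_mod_cast hlow p
  have hinj : Function.Injective M := by
    intro p q hpq
    rw [hrep p, hrep q, hpq]
  have hdet : d'.2 * δ⁻¹ * (d.1 * δ⁻¹) - -(d'.1 * δ⁻¹) * -(d.2 * δ⁻¹) ≠ 0 := by
    have h3 : d'.2 * δ⁻¹ * (d.1 * δ⁻¹) - -(d'.1 * δ⁻¹) * -(d.2 * δ⁻¹) = δ * δ⁻¹ * δ⁻¹ := by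
      rw [show δ * δ⁻¹ * δ⁻¹ = (d.1 * d'.2 - d.2 * d'.1) * δ⁻¹ * δ⁻¹ by rw [← hcr]]
      ring
    rw [h3, mul_inv_cancel₀ hδ0.ne', one_mul]
    exact hδi.ne'
  have hn10 : nrm ((1, 0) : F × F) = 1 := by simp [nrm]
  have hn01 : nrm ((0, 1) : F × F) = 1 := by simp [nrm]
  have hTT : TT ((1, 0) : F × F) := ⟨one_pos, Sm.zero one_ne_zero⟩
  refine ⟨M '' X, h.lin hdet hB1 hB2, ?_, ?_⟩
  · refine (h1.image hinj.injOn).mono ?_
    rintro _ ⟨p, ⟨hp, hps⟩, rfl⟩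
    have h3 : M p = (1, 0) + M (p - d) := by
      rw [← hMd, ← hadd, add_sub_cancel]
    have h4 : Sm (nrm (M (p - d))) (nrm ((1, 0) : F × F)) := by
      rw [hn10]
      exact (hB1 _).trans_sm hps
    refine ⟨⟨p, hp, rfl⟩, ?_, ?_⟩
    · rw [h3]
      exact hTT.pert h4
    · rw [h3, (W.e_add_sm h4).2, World.e, hn10, W.v_one, hs]
  · refine (h2.image hinj.injOn).mono ?_
    rintro _ ⟨p, ⟨hp, hps⟩, rfl⟩
    have h3 : M p = (0, 1) + M (p - d') := by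
      rw [← hMd', ← hadd, add_sub_cancel]
    have h4 : Sm (nrm (M (p - d'))) (nrm ((0, 1) : F × F)) := by
      rw [hn01]
      exact (hB1 _).trans_sm hps
    have h5 : Sm (nrm (sw (M (p - d')))) (nrm ((1, 0) : F × F)) := by
      rw [nrm_sw, hn10]
      rwa [hn01] at h4
    refine ⟨⟨p, hp, rfl⟩, ?_, ?_⟩
    · have h6 : sw (M p) = (1, 0) + sw (M (p - d')) := by
        rw [h3]
        simp [sw]
      rw [h6]
      exact hTT.pert h5
    · rw [h3, (W.e_add_sm h4).2, World.e, hn01, W.v_one, hs]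

/-- Proof. Let `e₀ = (0,0)`, `e₁ = (1,0)`, `e₂ = (0,1)`, and apply `World.path` with `ρ₀ = 1`
(`nrm (p - q) ≤ 8`; `hfar`: take `q` in the cluster at `e₀` and `q'` in the cluster at `e₁`:
`nrm (q - q') ≥ 1/2`, so one of `nrm (p - q)`, `nrm (p - q')` is at least `1/4`). It gives `ξ`, `s`,
`s 0 = v 1 = 0`. Let `d i = e i - ξ` (`nrm (d i) ≤ 5`). The translate has infinitely many points near
each `d i`. `cr (d 0) (d 1) + cr (d 1) (d 2) + cr (d 2) (d 0) = 1`, so one of the three is at least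
`1/3`; apply `frame2`. -/
theorem World.exists_path {Y : Set (F × F)} (hI : Y ∈ W.I) (hY : KB W.K Y)
    (hn : ∀ p ∈ Y, nrm p ≤ 4) (h0 : {p ∈ Y | Sm (nrm p) 1}.Infinite)
    (h1 : {p ∈ Y | Sm (nrm (p - (1, 0))) 1}.Infinite)
    (h2 : {p ∈ Y | Sm (nrm (p - (0, 1))) 1}.Infinite) :
    ∃ (X : Set (F × F)) (s : ℕ → G), Path W X s ∧ {p ∈ X | TT p ∧ W.e p = s 0}.Infinite ∧
      {p ∈ X | TT (sw p) ∧ W.e p = s 0}.Infinite := by
  have hinf : Y.Infinite := h0.mono fun p hp => hp.1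
  have hdia : ∀ p ∈ Y, ∀ q ∈ Y, Bd (nrm (p - q)) 1 := by
    intro p hp q hq
    refine ⟨8, ?_⟩
    have h3 := nrm_sub p q
    have h4 := hn p hp
    have h5 := hn q hq
    rw [abs_nrm, abs_one]
    push_cast
    linarith
  obtain ⟨q, hqY, hq⟩ := h0.nonempty
  obtain ⟨q', hqY', hq'⟩ := h1.nonempty
  have hn10 : nrm ((1, 0) : F × F) = 1 := by simp [nrm]
  have hn01 : nrm ((0, 1) : F × F) = 1 := by simp [nrm]
  have hfar : ∀ p ∈ Y, ∃ q ∈ Y, Bd 1 (nrm (p - q)) := by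
    intro p _
    have h3 : 4 * nrm q < 1 := by
      have h4 := hq 4
      rw [abs_nrm, abs_one] at h4
      exact_mod_cast h4
    have h3' : 4 * nrm (q' - (1, 0)) < 1 := by
      have h4 := hq' 4
      rw [abs_nrm, abs_one] at h4
      exact_mod_cast h4
    have h5 : 1 ≤ nrm (p - q) + nrm q + nrm (p - q') + nrm (q' - (1, 0)) := by
      have h7 : ((1, 0) : F × F) = ((p - q) + q) - ((p - q') + (q' - (1, 0))) := by
        abel
      have h8 := nrm_sub ((p - q) + q) ((p - q') + (q' - (1, 0)))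
      rw [← h7, hn10] at h8
      have h9 := nrm_add (p - q) q
      have h10 := nrm_add (p - q') (q' - (1, 0))
      linarith
    by_cases h6 : 1 ≤ 4 * nrm (p - q)
    · refine ⟨q, hqY, 4, ?_⟩
      rw [abs_nrm, abs_one]
      exact_mod_cast h6
    · refine ⟨q', hqY', 4, ?_⟩
      rw [abs_nrm, abs_one]
      push_cast
      push Not at h6
      linarith
  obtain ⟨ξ, hξ, s, hs, hP⟩ := W.path hI hY hinf one_pos hdia hfar
  rw [W.v_one] at hs
  have hξ4 := hn ξ hξ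
  have hcl : ∀ e : F × F, {p ∈ Y | Sm (nrm (p - e)) 1}.Infinite →
      {p ∈ (fun p => p - ξ) '' Y | Sm (nrm (p - (e - ξ))) 1}.Infinite := by
    intro e he
    refine (he.image (f := fun p => p - ξ) ?_).mono ?_
    · intro x _ y _ hxy
      exact sub_left_injective hxy
    · rintro _ ⟨p, ⟨hp, hps⟩, rfl⟩
      refine ⟨⟨p, hp, rfl⟩, ?_⟩
      have h3 : p - ξ - (e - ξ) = p - e := by abel
      change Sm (nrm (p - ξ - (e - ξ))) 1
      rw [h3]
      exact hps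
  have hc0 := hcl 0 (by simpa only [sub_zero] using h0)
  have hc1 := hcl (1, 0) h1
  have hc2 := hcl (0, 1) h2
  have hb0 : nrm ((0 : F × F) - ξ) ≤ 5 := by
    rw [zero_sub, nrm_neg]
    linarith
  have hb1 : nrm ((1, 0) - ξ) ≤ 5 := by
    have h3 := nrm_sub ((1, 0) : F × F) ξ
    rw [hn10] at h3
    linarith
  have hb2 : nrm ((0, 1) - ξ) ≤ 5 := by
    have h3 := nrm_sub ((0, 1) : F × F) ξ
    rw [hn01] at h3
    linarith
  have hsum : cr ((0 : F × F) - ξ) ((1, 0) - ξ) + cr ((1, 0) - ξ) ((0, 1) - ξ) +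
      cr ((0, 1) - ξ) ((0 : F × F) - ξ) = 1 := by
    simp only [cr, Prod.fst_sub, Prod.snd_sub, Prod.fst_zero, Prod.snd_zero]
    ring
  by_cases hA : 1 ≤ 3 * cr ((0 : F × F) - ξ) ((1, 0) - ξ)
  · obtain ⟨X', h4, h5, h6⟩ := hP.frame2 hs hb0 hb1 hA hc0 hc1
    exact ⟨X', s, h4, h5, h6⟩
  · by_cases hB : 1 ≤ 3 * cr ((1, 0) - ξ) ((0, 1) - ξ)
    · obtain ⟨X', h4, h5, h6⟩ := hP.frame2 hs hb1 hb2 hB hc1 hc2
      exact ⟨X', s, h4, h5, h6⟩
    · have hC : 1 ≤ 3 * cr ((0, 1) - ξ) ((0 : F × F) - ξ) := by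
        push Not at hA hB
        linarith
      obtain ⟨X', h4, h5, h6⟩ := hP.frame2 hs hb2 hb0 hC hc2 hc0
      exact ⟨X', s, h4, h5, h6⟩

end Pool.Agent.Lib.MP_8bcb9d_co.W
end

section

/-!
# World Fin: splitting of a class
-/

set_option autoImplicit false

namespace Pool.Agent.Lib.MP_8bcb9d_co.W

/-- A window of length `κ` with at most `M` elements of `S` contains a free interval of length
`≥ κ / (M + 1)`. Proof: induction on `M` for half-open windows `[e, e')` of arbitrary length, or: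
the elements of `S` in the window are finitely many; sort them; the `M + 1` gaps between
consecutive elements (including the ends `e`, `e + κ`) have sum `κ`, so one gap `g` satisfies
`κ ≤ (M + 1) • g`, and it is positive. -/
theorem gapPig {G : Type} [AddCommGroup G] [LinearOrder G] [IsOrderedAddMonoid G] {S : Set G}
    {e κ : G} (hκ : 0 < κ) {M : ℕ} (hS : {x ∈ S | e ≤ x ∧ x < e + κ}.encard ≤ M) :
    ∃ e₁ e₂ : G, e ≤ e₁ ∧ e₁ < e₂ ∧ e₂ ≤ e + κ ∧ κ ≤ (M + 1) • (e₂ - e₁) ∧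
      ∀ x ∈ S, x ≤ e₁ ∨ e₂ ≤ x := by
  induction M generalizing e κ with
  | zero =>
    have h0 : {x ∈ S | e ≤ x ∧ x < e + κ} = ∅ := by
      rw [← Set.encard_eq_zero]
      exact le_antisymm (by simpa using hS) (zero_le)
    refine ⟨e, e + κ, le_rfl, lt_add_of_pos_right e hκ, le_rfl, ?_, ?_⟩
    · simp
    · intro x hx
      by_contra hcon
      push Not at hcon
      have h1 : x ∈ {x ∈ S | e ≤ x ∧ x < e + κ} := ⟨hx, hcon.1.le, hcon.2⟩
      rw [h0] at h1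
      exact h1
  | succ M ih =>
    set Wd : Set G := {x ∈ S | e ≤ x ∧ x < e + κ} with hWd
    have hfin : Wd.Finite := Set.finite_of_encard_le_coe hS
    rcases Wd.eq_empty_or_nonempty with h0 | hne
    · obtain ⟨e₁, e₂, a1, a2, a3, a4, a5⟩ := ih hκ (by
        change Wd.encard ≤ _
        rw [h0, Set.encard_empty]
        exact zero_le)
      refine ⟨e₁, e₂, a1, a2, a3, a4.trans ?_, a5⟩
      exact nsmul_le_nsmul_left (sub_nonneg.2 a2.le) (by omega)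
    obtain ⟨a, ha, hamax⟩ := hfin.exists_maximal hne
    have hmax : ∀ b ∈ Wd, b ≤ a := fun b hb => by
      rcases le_total a b with h | h
      · exact hamax hb h
      · exact h
    have haS : a ∈ S := ha.1
    have hea : e ≤ a := ha.2.1
    have hae : a < e + κ := ha.2.2
    have hlast : ∀ x ∈ S, x ≤ a ∨ e + κ ≤ x := by
      intro x hx
      by_contra hcon
      push Not at hcon
      have h1 : x ∈ Wd := ⟨hx, hea.trans hcon.1.le, hcon.2⟩
      exact absurd (hmax x h1) (not_le.2 hcon.1)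
    rcases hea.eq_or_lt with hea' | hea'
    · refine ⟨a, e + κ, hea, hae, le_rfl, ?_, hlast⟩
      have h1 : e + κ - a = κ := by rw [← hea', add_sub_cancel_left]
      rw [h1]
      calc κ = 1 • κ := (one_nsmul κ).symm
        _ ≤ (M + 1 + 1) • κ := nsmul_le_nsmul_left hκ.le (by omega)
    · have hκ' : 0 < a - e := sub_pos.2 hea'
      have hsub : {x ∈ S | e ≤ x ∧ x < e + (a - e)} ⊆ Wd \ {a} := by
        rintro x ⟨hx, hx1, hx2⟩
        rw [add_sub_cancel] at hx2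
        exact ⟨⟨hx, hx1, hx2.trans hae⟩, fun h => (ne_of_lt hx2) h⟩
      have hcard : {x ∈ S | e ≤ x ∧ x < e + (a - e)}.encard ≤ M := by
        have h1 := Set.encard_le_encard hsub
        have h2 := Set.encard_sdiff_singleton_add_one ha
        have h3 : (Wd \ {a}).encard + 1 ≤ (M : ℕ∞) + 1 := by
          rw [h2]
          exact_mod_cast hS
        have h4 : (Wd \ {a}).encard ≤ (M : ℕ∞) :=
          (ENat.add_le_add_iff_right (by simp)).1 h3
        exact h1.trans h4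
      obtain ⟨e₁, e₂, a1, a2, a3, a4, a5⟩ := ih hκ' hcard
      rw [add_sub_cancel] at a3
      rcases le_total (e + κ - a) (e₂ - e₁) with hc | hc
      · refine ⟨e₁, e₂, a1, a2, a3.trans hae.le, ?_, a5⟩
        have h1 : κ = (a - e) + (e + κ - a) := by abel
        rw [succ_nsmul]
        calc κ = (a - e) + (e + κ - a) := h1
          _ ≤ _ := add_le_add a4 hc
      · refine ⟨a, e + κ, hea, hae, le_rfl, ?_, hlast⟩
        have h1 : κ = (a - e) + (e + κ - a) := by abel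
        have h2 : (M + 1) • (e₂ - e₁) ≤ (M + 1) • (e + κ - a) := nsmul_le_nsmul_right hc _
        rw [succ_nsmul]
        calc κ = (a - e) + (e + κ - a) := h1
          _ ≤ _ := add_le_add (a4.trans h2) le_rfl

private theorem encard_biUnion_le' {α β : Type} (T : Finset α) (B : α → Set β) (N : ℕ)
    (hB : ∀ s ∈ T, (B s).encard ≤ N) : (⋃ s ∈ T, B s).encard ≤ ((T.card * N : ℕ) : ℕ∞) := by
  classical
  induction T using Finset.induction_on with
  | empty => simp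
  | insert a T ha ih =>
    rw [Finset.set_biUnion_insert, Finset.card_insert_of_notMem ha]
    refine (Set.encard_union_le _ _).trans ?_
    have h1 := hB a (Finset.mem_insert_self a T)
    have h2 := ih fun s hs => hB s (Finset.mem_insert_of_mem hs)
    refine (add_le_add h1 h2).trans (le_of_eq ?_)
    push_cast
    ring

variable {F G : Type} [Field F] [LinearOrder F] [IsStrictOrderedRing F]
  [AddCommGroup G] [LinearOrder G] [IsOrderedAddMonoid G] (W : World F G)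

/-- Few frame-shells in a window with few shells of the class. Proof: let `Cs` be the (finite) set
of `h5`. For `t'` in the set on the left, `t' ∉ Cs`, let `s` be the maximum of `t` and the elements
of `Cs` below `t'`. `t'` is in the set of `BBk` at `s`: for `z` in the class: if `e z ≤ t'` then
`e z ≤ t ≤ s` or `e ≤ e z < t'` (`≠` because `t' ∉ Cs`), so `e z ∈ Cs` and `e z ≤ s`. `BBk` applies
because `t ≤ s`. So the set is contained in the union of `Cs` and at most `m + 1` sets with at most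
`K² + 2 K` elements. -/
theorem World.count_frame {X : Set (F × F)} (hI : X ∈ W.I) (hX : KB W.K X) {κ t e : G} {k ω : F}
    {m : ℕ} (hκ : 0 < κ) (hk : 0 < k) (hkκ : W.v k = κ) (hte : t < e) (h2 : W.Two X κ ω t)
    (hU : ∃ a ∈ X, ∃ b ∈ X, a ≠ b ∧ UU a ∧ UU b ∧ W.e a ≤ t + κ ∧ W.e b ≤ t + κ)
    (h3 : ∀ z ∈ X, TT z → Near W.v κ ω (sl z) → W.e z ≤ t ∨ e ≤ W.e z)
    (h5 : {s | (∃ z ∈ X, TT z ∧ Near W.v κ ω (sl z) ∧ W.e z = s) ∧ e ≤ s ∧ s < e + κ}.encard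
      ≤ m) :
    {t' | (∃ p ∈ X, p ≠ 0 ∧ W.e (frm k ω p) = t') ∧ e ≤ t' ∧ t' < e + κ}.encard ≤
      (((m + 1) * (W.K ^ 2 + 2 * W.K) + m : ℕ) : ℕ∞) := by
  classical
  set Cs : Set G := {s | (∃ z ∈ X, TT z ∧ Near W.v κ ω (sl z) ∧ W.e z = s) ∧ e ≤ s ∧ s < e + κ}
    with hCs
  have hfin : Cs.Finite := Set.finite_of_encard_le_coe h5
  set Cf : Finset G := hfin.toFinset with hCf
  have hmem : ∀ s, s ∈ Cf ↔ s ∈ Cs := fun s => hfin.mem_toFinset
  have hcard : Cf.card ≤ m := by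
    have h1 : Cs.encard = (Cf.card : ℕ∞) := hfin.encard_eq_coe_toFinset_card
    rw [h1] at h5
    exact_mod_cast h5
  set T : Finset G := insert t Cf with hT
  have hTcard : T.card ≤ m + 1 := (Finset.card_insert_le _ _).trans (by omega)
  set B : G → Set G := fun s => {t' | s < t' ∧ (∃ p ∈ X, p ≠ 0 ∧ W.e (frm k ω p) = t') ∧
      ∀ z ∈ X, TT z → Near W.v κ ω (sl z) → W.e z ≤ s ∨ t' < W.e z} with hB
  have hts : ∀ s ∈ T, t ≤ s := by
    intro s hs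
    rcases Finset.mem_insert.1 hs with h | h
    · exact h.ge
    · exact (hte.trans_le ((hmem s).1 h).2.1).le
  have hBcard : ∀ s ∈ T, (B s).encard ≤ ((W.K ^ 2 + 2 * W.K : ℕ) : ℕ∞) := by
    intro s hs
    have h1 := hts s hs
    refine W.BBk hI hX hκ hk hkκ ?_ ?_
    · obtain ⟨p, hp, q, hq, a1, a2, a3, a4, a5, a6, a7⟩ := h2
      exact ⟨p, hp, q, hq, a1, a2, a3, a4, a5, a6.trans h1, a7.trans h1⟩
    · obtain ⟨a, ha, b, hb, a1, a2, a3, a4, a5⟩ := hU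
      exact ⟨a, ha, b, hb, a1, a2, a3, a4.trans (add_le_add_left h1 κ),
        a5.trans (add_le_add_left h1 κ)⟩
  have hsub : {t' | (∃ p ∈ X, p ≠ 0 ∧ W.e (frm k ω p) = t') ∧ e ≤ t' ∧ t' < e + κ} ⊆
      Cs ∪ ⋃ s ∈ T, B s := by
    rintro t' ⟨hp, h1, h2'⟩
    by_cases hC : t' ∈ Cs
    · exact Or.inl hC
    right
    set T' : Finset G := T.filter (fun s => s < t') with hT'
    have htT' : t ∈ T' := Finset.mem_filter.2 ⟨Finset.mem_insert_self _ _, hte.trans_le h1⟩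
    have hne : T'.Nonempty := ⟨t, htT'⟩
    set s : G := T'.max' hne with hs
    have hsT' : s ∈ T' := Finset.max'_mem T' hne
    have hsmax : ∀ x ∈ T', x ≤ s := fun x hx => Finset.le_max' T' x hx
    obtain ⟨hsT, hst⟩ := Finset.mem_filter.1 hsT'
    rw [Set.mem_iUnion₂]
    refine ⟨s, hsT, hst, hp, ?_⟩
    intro z hz hz1 hz2
    rcases h3 z hz hz1 hz2 with h | h
    · exact Or.inl (h.trans (hsmax t htT'))
    · by_cases h4 : t' < W.e z
      · exact Or.inr h4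
      · left
        push Not at h4
        have h6 : W.e z ∈ Cs := ⟨⟨z, hz, hz1, hz2, rfl⟩, h, h4.trans_lt h2'⟩
        have h7 : W.e z ≠ t' := fun h8 => hC (h8 ▸ h6)
        exact hsmax _ (Finset.mem_filter.2 ⟨Finset.mem_insert_of_mem ((hmem _).2 h6),
          lt_of_le_of_ne h4 h7⟩)
  refine (Set.encard_le_encard hsub).trans ((Set.encard_union_le _ _).trans ?_)
  refine (add_le_add h5 (encard_biUnion_le' T B _ hBcard)).trans ?_
  have h6 : m + T.card * (W.K ^ 2 + 2 * W.K) ≤ (m + 1) * (W.K ^ 2 + 2 * W.K) + m := by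
    have := Nat.mul_le_mul_right (W.K ^ 2 + 2 * W.K) hTcard
    omega
  exact_mod_cast h6

/-- Proof. `k > 0` with `v k = κ`. `count_frame` and `gapPig` (with
`M = (m + 1) * (K² + 2 K) + m`) give `e₁ < e₂` in `[e, e + κ]`; `δ = e₂ - e₁`. `DLk`: the point `z`
of `h4` satisfies `e₂ ≤ e + κ ≤ e z = e (frm k ω z)` (`frm_near`). -/
theorem World.split {X : Set (F × F)} (hI : X ∈ W.I) (hX : KB W.K X) (h0 : (0 : F × F) ∈ X)
    {κ t e : G} {ω : F} {m : ℕ} (hκ : 0 < κ) (hte : t < e) (h2 : W.Two X κ ω t)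
    (hU : ∃ a ∈ X, ∃ b ∈ X, a ≠ b ∧ UU a ∧ UU b ∧ W.e a ≤ t + κ ∧ W.e b ≤ t + κ)
    (h3 : ∀ z ∈ X, TT z → Near W.v κ ω (sl z) → W.e z ≤ t ∨ e ≤ W.e z)
    (h4 : ∃ z ∈ X, TT z ∧ Near W.v κ ω (sl z) ∧ e + κ ≤ W.e z)
    (h5 : {s | (∃ z ∈ X, TT z ∧ Near W.v κ ω (sl z) ∧ W.e z = s) ∧ e ≤ s ∧ s < e + κ}.encard
      ≤ m) :
    ∃ δ : G, 0 < δ ∧ δ ≤ κ ∧ κ ≤ ((m + 1) * (W.K ^ 2 + 2 * W.K) + m + 1) • δ ∧
      ∀ Q : Finset (F × F), (∀ q ∈ Q, q ∈ X ∧ TT q ∧ Near W.v κ ω (sl q) ∧ W.e q ≤ t) →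
        (∀ q ∈ Q, ∀ q' ∈ Q, q ≠ q' → ¬ Near W.v (κ + δ) (sl q) (sl q')) → Q.card ≤ 2 * W.K := by
  obtain ⟨k, hk, hkκ⟩ := W.v_surj κ
  have hcount := W.count_frame hI hX hκ hk hkκ hte h2 hU h3 h5
  obtain ⟨e₁, e₂, a1, a2, a3, a4, a5⟩ :=
    gapPig (S := {t' | ∃ p ∈ X, p ≠ 0 ∧ W.e (frm k ω p) = t'}) (e := e) hκ hcount
  refine ⟨e₂ - e₁, sub_pos.2 a2, ?_, a4, ?_⟩
  · have h6 := sub_le_sub a3 a1
    rwa [add_sub_cancel_left] at h6
  · intro Q hQ hsep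
    refine W.DLk (ω := ω) hI hX hκ hk hkκ a2 h0 ?_ ?_ Q ?_ hsep
    · intro p hp hp0
      exact a5 _ ⟨p, hp, hp0, rfl⟩
    · obtain ⟨z, hz, hz1, hz2, hz3⟩ := h4
      refine ⟨z, hz, ?_, ?_⟩
      · rintro rfl
        exact lt_irrefl _ hz1.1
      · rw [(W.frm_near hk hkκ hz1 hz2).2]
        exact a3.trans hz3
    · intro q hq
      obtain ⟨b1, b2, b3, b4⟩ := hQ q hq
      exact ⟨b1, b2, b3, b4.trans (hte.le.trans a1)⟩

end Pool.Agent.Lib.MP_8bcb9d_co.W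
end

section

/-!
# World Fin: the growth lemma
-/

set_option autoImplicit false

namespace Pool.Agent.Lib.MP_8bcb9d_co.W

variable {F G : Type} [Field F] [LinearOrder F] [IsStrictOrderedRing F]
  [AddCommGroup G] [LinearOrder G] [IsOrderedAddMonoid G] (W : World F G)

/-- Two inner points of the same level, seen from a far `TT` point.

Proof. `d = z' - z`. `cr (z - a) (z' - a) = cr (z - a) d = (z.1 - a.1) * d.2 - (z.2 - a.2) * d.1`
(`cr_self`). `nrm a = a.1`; `Sm z.1 a.1`, `Sm z.2 a.1` (`|z.i| ≤ ρ₁`, `Sm ρ₁ ρ₂`, `ρ₂ ≤ a.1`) and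
`Sm a.2 a.1`. Suppose `¬ Bd d.2 ε`, i.e. `Sm ε d.2`. Then
`Sm (cr (z - a) (z' - a)) (a.1 * d.2)`, so `Bd (a.1 * d.2) ((z.2 - a.2) * d.1)` (a sum of two terms
one of which is infinitely smaller than the result), and `Sm ((z.2 - a.2) * d.1) (a.1 * d.1)` (if
`d.1 ≠ 0`; `d.1 = 0` is impossible), hence `Sm (a.1 * d.2) (a.1 * d.1)`, cancel `a.1`. -/
theorem same_level {a z z' : F × F} {ρ₁ ρ₂ ε : F} (ha : TT a) (hρ₂ : ρ₂ ≤ nrm a)
    (h2 : 0 < ρ₂) (hsm : Sm ρ₁ ρ₂) (hz : nrm z ≤ ρ₁) (hz' : nrm z' ≤ ρ₁) (hε : 0 < ε)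
    (h : Bd (cr (z - a) (z' - a)) (ε * nrm a)) :
    Bd (z'.2 - z.2) ε ∨ Sm (z'.2 - z.2) (z'.1 - z.1) := by
  by_contra hcon
  push Not at hcon
  obtain ⟨h1, h3⟩ := hcon
  rw [not_Bd] at h1
  rw [not_Sm] at h3
  have ha1 : 0 < a.1 := ha.1
  rw [ha.nrm_eq] at h hρ₂
  have hd2 : z'.2 - z.2 ≠ 0 := h1.ne
  have hρ : Sm ρ₁ a.1 := hsm.trans_bd (Bd.of_le (by rwa [abs_of_pos h2, abs_of_pos ha1]))
  have hz1 : Sm z.1 a.1 :=
    (Bd.of_le (((abs_fst_le z).trans hz).trans (le_abs_self ρ₁))).trans_sm hρ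
  have hz2 : Sm z.2 a.1 :=
    (Bd.of_le (((abs_snd_le z).trans hz).trans (le_abs_self ρ₁))).trans_sm hρ
  have hw : Sm (z.2 - a.2) a.1 := hz2.sub ha.2
  have hu : Bd a.1 (z.1 - a.1) := by
    have e1 : Sm z.1 (-a.1) := hz1.neg_right
    have e2 := Bd.add_right_of_sm e1
    have e3 : -a.1 + z.1 = z.1 - a.1 := by ring
    rw [e3] at e2
    have e4 := e2.neg
    rwa [neg_neg] at e4
  have k1 : Sm ((z.2 - a.2) * (z'.1 - z.1)) (a.1 * (z'.2 - z.2)) := hw.mul_bd h3 hd2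
  have k2 : Sm (ε * a.1) (a.1 * (z'.2 - z.2)) := by
    rw [mul_comm ε]
    exact (Bd.refl a.1).mul_sm h1 ha1.ne'
  have k3 := (h.trans_sm k2).add k1
  have k4 : cr (z - a) (z' - a) + (z.2 - a.2) * (z'.1 - z.1) =
      (z.1 - a.1) * (z'.2 - z.2) := by
    simp only [cr, Prod.fst_sub, Prod.snd_sub]
    ring
  rw [k4] at k3
  have k5 : Bd (a.1 * (z'.2 - z.2)) ((z.1 - a.1) * (z'.2 - z.2)) := hu.mul (Bd.refl _)
  exact lt_irrefl _ (k5.trans_sm k3).lt

/-- The growth lemma in terms of radii.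

Proof. `growT` for `X` gives `a, Z, f`. `growT` for `sw '' X` (`I_sw`, `KB.sw`, `nrm_sw`,
`FinNet.image` with `e (sw p - sw q) = e (p - q)`) gives `b, Z', f'`. Color a point `z` of the inner
part by `(f z, f' (sw z)) ∈ Z ×ˢ Z'` and use `FinNet.of_map`: let `z, z'` have the same color.
`same_level` for `a, z, z'` gives `Bd d.2 ε ∨ Sm d.2 d.1` and `same_level` for `b, sw z, sw z'` gives
`Bd d.1 ε ∨ Sm d.1 d.2` (`d = z' - z`). The two second alternatives exclude each other, so (if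
`Sm d.2 d.1` and `Bd d.1 ε` then `Bd d.2 ε`, and so on) `Bd (nrm d) ε`; if `d ≠ 0` then
`v ε ≤ v (nrm d) = e (z' - z)`. -/
theorem World.grow_core {X : Set (F × F)} (hI : X ∈ W.I) (hX : KB W.K X) {ρ₁ ρ₂ ε : F}
    (hρ₁ : 0 < ρ₁) (hρ₂ : 0 < ρ₂) (hsm : Sm ρ₁ ρ₂) (hε : 0 < ε)
    (hgap : ∀ x ∈ X, nrm x ≤ ρ₁ ∨ ρ₂ ≤ nrm x)
    (hT : {a ∈ X | TT a ∧ ρ₂ ≤ nrm a}.Infinite)
    (hU : {a ∈ X | TT (sw a) ∧ ρ₂ ≤ nrm a}.Infinite) {y : G} (hy : W.FinNet X y)
    (hv : W.v ε = y + (W.v ρ₁ - W.v ρ₂)) : W.FinNet {z ∈ X | nrm z ≤ ρ₁} (W.v ε) := by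
  obtain ⟨a, haX, haT, ha2, Z, f, hZ, hfZ, hf⟩ :=
    W.growT hI hX hρ₁ hρ₂ hsm hε hgap hT hy hv
  have hinf' : {a ∈ sw '' X | TT a ∧ ρ₂ ≤ nrm a}.Infinite := by
    have hinj : Function.Injective (sw : F × F → F × F) := by
      intro p q h
      have := congrArg sw h
      exact this
    have h1 := hU.image (f := sw) hinj.injOn
    refine h1.mono ?_
    rintro _ ⟨p, ⟨hp, hp1, hp2⟩, rfl⟩
    exact ⟨⟨p, hp, rfl⟩, hp1, by rw [nrm_sw]; exact hp2⟩
  have hgap' : ∀ x ∈ sw '' X, nrm x ≤ ρ₁ ∨ ρ₂ ≤ nrm x := by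
    rintro _ ⟨p, hp, rfl⟩
    rw [nrm_sw]
    exact hgap p hp
  have hy' : W.FinNet (sw '' X) y := by
    refine FinNet.image sw (fun p _ q _ _ => Or.inr ?_) hy
    have e1 : sw p - sw q = sw (p - q) := rfl
    rw [e1, World.e, World.e, nrm_sw]
  obtain ⟨b, hbX, hbT, hb2, Z', f', hZ', hfZ', hf'⟩ :=
    W.growT (W.I_sw hI) hX.sw hρ₁ hρ₂ hsm hε hgap' hinf' hy' hv
  refine FinNet.of_map (hZ.prod hZ') (fun z => (f z, f' (sw z))) ?_ ?_
  · rintro p ⟨hp, hp1⟩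
    exact ⟨hfZ p hp hp1, hfZ' (sw p) ⟨p, hp, rfl⟩ (by rw [nrm_sw]; exact hp1)⟩
  · rintro z ⟨hz, hz1⟩ z' ⟨hz', hz1'⟩ hzz
    have c1 : f z = f z' := congrArg Prod.fst hzz
    have c2 : f' (sw z) = f' (sw z') := congrArg Prod.snd hzz
    have h1 := same_level haT ha2 hρ₂ hsm hz1 hz1' hε (hf z hz z' hz' hz1 hz1' c1)
    have h2 : Bd (z'.1 - z.1) ε ∨ Sm (z'.1 - z.1) (z'.2 - z.2) :=
      same_level (z := sw z) (z' := sw z') hbT hb2 hρ₂ hsm (by rw [nrm_sw]; exact hz1)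
        (by rw [nrm_sw]; exact hz1') hε
        (hf' (sw z) ⟨z, hz, rfl⟩ (sw z') ⟨z', hz', rfl⟩ (by rw [nrm_sw]; exact hz1)
          (by rw [nrm_sw]; exact hz1') c2)
    have h3 : Bd (z'.1 - z.1) ε ∧ Bd (z'.2 - z.2) ε := by
      rcases h1 with h1 | h1
      · rcases h2 with h2 | h2
        · exact ⟨h2, h1⟩
        · exact ⟨h2.bd.trans h1, h1⟩
      · rcases h2 with h2 | h2
        · exact ⟨h2, h1.bd.trans h2⟩
        · exact absurd (h1.lt.trans h2.lt) (lt_irrefl _)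
    have h4 : Bd (nrm (z - z')) ε := by
      rw [nrm_sub_comm]
      rcases max_choice |(z' - z).1| |(z' - z).2| with h | h
      · rw [nrm, h]
        exact (Bd.of_le (by rw [abs_abs]; exact le_refl _)).trans h3.1
      · rw [nrm, h]
        exact (Bd.of_le (by rw [abs_abs]; exact le_refl _)).trans h3.2
    by_cases h0 : z = z'
    · exact Or.inl h0
    · refine Or.inr ?_
      rw [World.e, W.v_le ε _ hε.ne' (nrm_pos.2 (sub_ne_zero.2 h0)).ne']
      exact h4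

/-- The growth lemma. Proof: `gapv`, `W.v_surj`, `grow_core`; by the gap the two inner parts
`{p ∈ X | p = 0 ∨ t₁ < e p}` and `{p ∈ X | nrm p ≤ ρ₁}` are equal (`ρ₁ < ρ₂`), and the points with
`e a ≤ t₁`, `a ≠ 0`, are outer (`TT.ne`). -/
theorem World.grow {X : Set (F × F)} (hI : X ∈ W.I) (hX : KB W.K X) {t₁ t₂ : G} (ht : t₁ < t₂)
    (hocc : ∃ f ∈ X, f ≠ 0 ∧ W.e f = t₂)
    (hnext : ∀ p ∈ X, p ≠ 0 → t₁ < W.e p → t₂ ≤ W.e p)
    (hT : {a ∈ X | TT a ∧ W.e a ≤ t₁}.Infinite)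
    (hU : {a ∈ X | TT (sw a) ∧ W.e a ≤ t₁}.Infinite) {y : G} (hy : W.FinNet X y) :
    W.FinNet {p ∈ X | p = 0 ∨ t₁ < W.e p} (y + (t₂ - t₁)) := by
  obtain ⟨ρ₁, ρ₂, hρ₁, hρ₂, hsm, hv1, hv2, hgap⟩ := W.gapv hI hX ht hocc hnext
  obtain ⟨ε, hε, hvε⟩ := W.v_surj (y + (t₂ - t₁))
  have hρ : ρ₁ < ρ₂ := by
    have := hsm.lt
    rwa [abs_of_pos hρ₁, abs_of_pos hρ₂] at this
  have hout : ∀ a ∈ X, a ≠ 0 → W.e a ≤ t₁ → ρ₂ ≤ nrm a := by
    intro a ha h0 he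
    rcases hgap a ha with ⟨-, h | h⟩ | ⟨h, -, -⟩
    · exact absurd h h0
    · exact absurd he (not_le.2 h)
    · exact h
  have heq : {p ∈ X | p = 0 ∨ t₁ < W.e p} = {z ∈ X | nrm z ≤ ρ₁} := by
    ext p
    simp only [Set.mem_setOf_eq]
    constructor
    · rintro ⟨hp, h⟩
      refine ⟨hp, ?_⟩
      rcases hgap p hp with h' | ⟨-, h0, h'⟩
      · exact h'.1
      · rcases h with h | h
        · exact absurd h h0
        · exact absurd h' (not_le.2 h)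
    · rintro ⟨hp, h⟩
      refine ⟨hp, ?_⟩
      rcases hgap p hp with h' | ⟨h', -, -⟩
      · exact h'.2
      · exact absurd (h'.trans h) (not_le.2 hρ)
  rw [heq, ← hvε]
  refine W.grow_core hI hX hρ₁ hρ₂ hsm hε ?_ ?_ ?_ hy (by rw [hvε, hv1, hv2])
  · intro x hx
    rcases hgap x hx with h | h
    · exact Or.inl h.1
    · exact Or.inr h.1
  · refine hT.mono ?_
    rintro a ⟨ha, haT, hea⟩
    exact ⟨ha, haT, hout a ha haT.ne hea⟩
  · refine hU.mono ?_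
    rintro a ⟨ha, haT, hea⟩
    refine ⟨ha, haT, hout a ha ?_ hea⟩
    rintro rfl
    exact haT.ne rfl

end Pool.Agent.Lib.MP_8bcb9d_co.W
end

section

/-!
# World Fin: from a spine to its combinatorial data, part 2
-/

set_option autoImplicit false

namespace Pool.Agent.Lib.MP_8bcb9d_co.W

variable {F G : Type} [Field F] [LinearOrder F] [IsStrictOrderedRing F]
  [AddCommGroup G] [LinearOrder G] [IsOrderedAddMonoid G]
  {W : World F G} {X : Set (F × F)} {s : ℕ → G}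

/-- Proof: `World.N3` with `l = s j`, `l' = s j'`, `s₀ = s i₀`; the injective map `s` sends the set
into the set of `N3`. A `TT` point `w` with `s i₀ ≤ e w < s j'` has `e w = s l` with
`i₀ ≤ l < j'` (`h.all`). -/
theorem Spine.n3 (h : Spine W X s) (κ : G) (ω : F) (i₀ j j' : ℕ) (_h0 : i₀ ≤ j)
    (hj : j ∈ UIset W X s) (hj' : j' ∈ UIset W X s) (hjj : j < j')
    (hcons : ∀ l, j < l → l < j' → l ∉ UIset W X s)
    (habove : ∀ l σ, (l, σ) ∈ TPset W X s → i₀ ≤ l → l < j' → ¬ Above W.v κ ω σ) :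
    {i | i₀ ≤ i ∧ i < j ∧ s j' < s i + κ ∧ ∃ σ, (i, σ) ∈ TPset W X s ∧ Near W.v κ ω σ}.encard
      ≤ W.K := by
  have key := W.N3 h.int h.kb (l := s j) (l' := s j') (κ := κ) (s₀ := s i₀) (ω := ω)
    (h.mono hjj) hj hj'
    (by
      intro r hr hU
      rcases h.all r hr hU.ne with ⟨l, hl⟩ | hl
      · rw [hl]
        by_cases h1 : l ≤ j
        · exact Or.inl (h.mono.monotone h1)
        · by_cases h2 : j' ≤ l
          · exact Or.inr (h.mono.monotone h2)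
          · exact absurd ⟨r, hr, hU, hl⟩ (hcons l (not_le.1 h1) (not_le.1 h2))
      · exact Or.inr (hl j').le)
    (by
      intro w hw hT h1 h2
      rcases h.all w hw hT.ne with ⟨l, hl⟩ | hl
      · rw [hl] at h1 h2
        exact habove l (sl w) ⟨w, hw, hT, hl, rfl⟩ (h.mono.le_iff_le.1 h1) (h.mono.lt_iff_lt.1 h2)
      · exact absurd h2 (not_lt.2 (hl j').le))
  refine (Set.encard_le_encard_of_injOn (f := s) ?_ h.mono.injective.injOn).trans key
  rintro i ⟨h1, h2, h3, σ, ⟨z, hz, hT, he, hs⟩, hN⟩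
  have hs' : sl z = σ := hs
  exact ⟨h.mono.monotone h1, h.mono h2, h3, z, hz, hT, he, by rw [hs']; exact hN⟩

/-- two points of the class, index form and point form -/
theorem Spine.two_iff (h : Spine W X s) (κ : G) (ω : F) (t : G)
    (h2 : ∃ p ∈ TPset W X s, ∃ q ∈ TPset W X s, p ≠ q ∧ Near W.v κ ω p.2 ∧ Near W.v κ ω q.2 ∧
      s p.1 ≤ t ∧ s q.1 ≤ t) : W.Two X κ ω t := by
  obtain ⟨p, ⟨z, hz, hTz, hez, hsz⟩, q, ⟨w, hw, hTw, hew, hsw⟩, hpq, hNp, hNq, hp, hq⟩ := h2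
  refine ⟨z, hz, w, hw, ?_, hTz, hTw, by rw [hsz]; exact hNp, by rw [hsw]; exact hNq,
    by rw [hez]; exact hp, by rw [hew]; exact hq⟩
  rintro rfl
  apply hpq
  refine Prod.ext (h.mono.injective (hez.symm.trans hew)) (hsz.symm.trans hsw)

/-- Proof: `World.Bk` with `t₁ = t` (`two_iff`); the injective map `s` sends the set into the set of
`Bk`. For a point `z` of the class: if `e z = s i` use the hypothesis for `(i, sl z)`; if `e z` is
larger than all `s i` then `s j ≤ e z ≤ e z + κ`. -/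
theorem Spine.bk (h : Spine W X s) (κ : G) (ω : F) (t : G) (hκ : 0 < κ)
    (h2 : ∃ p ∈ TPset W X s, ∃ q ∈ TPset W X s, p ≠ q ∧ Near W.v κ ω p.2 ∧ Near W.v κ ω q.2 ∧
      s p.1 ≤ t ∧ s q.1 ≤ t) :
    {j | j ∈ UIset W X s ∧ t + κ < s j ∧
      ∀ i σ, (i, σ) ∈ TPset W X s → Near W.v κ ω σ → s i ≤ t ∨ s j ≤ s i + κ}.encard ≤ W.K := by
  have key := W.Bk h.int h.kb hκ (h.two_iff κ ω t h2)
  refine (Set.encard_le_encard_of_injOn (f := s) ?_ h.mono.injective.injOn).trans key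
  rintro j ⟨hj, h1, h3⟩
  refine ⟨h1, hj, fun z hz hT hN => ?_⟩
  rcases h.all z hz hT.ne with ⟨i, hi⟩ | hi
  · rw [hi]
    exact h3 i (sl z) ⟨z, hz, hT, hi, rfl⟩ hN
  · right
    exact (hi j).le.trans (le_add_of_nonneg_right hκ.le)

end Pool.Agent.Lib.MP_8bcb9d_co.W
end

section

/-!
# World Fin: from a spine to its combinatorial data, part 3
-/

set_option autoImplicit false

namespace Pool.Agent.Lib.MP_8bcb9d_co.W

variable {F G : Type} [Field F] [LinearOrder F] [IsStrictOrderedRing F]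
  [AddCommGroup G] [LinearOrder G] [IsOrderedAddMonoid G]
  {W : World F G} {X : Set (F × F)} {s : ℕ → G}

/-- Lift of a finite set of pairs (index, slope) to points. Proof: choice; injectivity because the
pair is determined by the point (`s` is injective). -/
theorem Spine.lift (h : Spine W X s) (Q : Finset (ℕ × F)) (hQ : ∀ q ∈ Q, q ∈ TPset W X s) :
    ∃ (Q' : Finset (F × F)) (f : F × F → ℕ × F), Q'.card = Q.card ∧ Set.InjOn f Q' ∧
      ∀ z ∈ Q', z ∈ X ∧ TT z ∧ f z ∈ Q ∧ W.e z = s (f z).1 ∧ sl z = (f z).2 := by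
  classical
  have H : ∀ q : ℕ × F, ∃ z : F × F, q ∈ Q → z ∈ X ∧ TT z ∧ W.e z = s q.1 ∧ sl z = q.2 := by
    intro q
    by_cases hq : q ∈ Q
    · obtain ⟨z, hz⟩ := hQ q hq
      exact ⟨z, fun _ => hz⟩
    · exact ⟨0, fun h' => absurd h' hq⟩
  choose g hg using H
  have hinj : Set.InjOn g Q := by
    intro q hq q' hq' hE
    obtain ⟨-, -, h1, h2⟩ := hg q hq
    obtain ⟨-, -, h3, h4⟩ := hg q' hq'
    rw [hE] at h1 h2
    exact Prod.ext (h.mono.injective (h1.symm.trans h3)) (h2.symm.trans h4)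
  have hf : ∀ z ∈ Q.image g, Function.invFunOn g (Q : Set (ℕ × F)) z ∈ Q ∧
      g (Function.invFunOn g (Q : Set (ℕ × F)) z) = z := by
    intro z hz
    obtain ⟨q, hq, hqz⟩ := Finset.mem_image.1 hz
    have hex : ∃ a ∈ (Q : Set (ℕ × F)), g a = z := ⟨q, hq, hqz⟩
    exact ⟨Function.invFunOn_mem hex, Function.invFunOn_eq hex⟩
  refine ⟨Q.image g, Function.invFunOn g (Q : Set (ℕ × F)), Finset.card_image_of_injOn hinj, ?_, ?_⟩
  · intro z hz z' hz' hE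
    have h1 := (hf z hz).2
    have h2 := (hf z' hz').2
    rw [← h1, ← h2, hE]
  · intro z hz
    obtain ⟨h1, h2⟩ := hf z hz
    obtain ⟨h3, h4, h5, h6⟩ := hg _ h1
    rw [h2] at h3 h4 h5 h6
    exact ⟨h3, h4, h1, h5, h6⟩

/-- Proof: `World.DLT` with `e₁ = s j`, `e₂ = s (j+1)` (`h.all`); the two points of `hD` are `0` and
a point with exponent `s (j+1)` (`h.occ`); `lift`. -/
theorem Spine.dl (h : Spine W X s) (j : ℕ) (Q : Finset (ℕ × F))
    (hQ : ∀ q ∈ Q, q ∈ TPset W X s ∧ q.1 ≤ j)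
    (hsep : ∀ q ∈ Q, ∀ q' ∈ Q, q ≠ q' → ¬ Near W.v (s (j + 1) - s j) q.2 q'.2) :
    Q.card ≤ 2 * W.K := by
  obtain ⟨Q', f, hc, hinj, hf⟩ := h.lift Q fun q hq => (hQ q hq).1
  rw [← hc]
  refine W.DLT h.int h.kb (h.mono (Nat.lt_succ_self j)) ?_ ?_ Q' ?_ ?_
  · intro x hx hx0
    rcases h.all x hx hx0 with ⟨i, hi⟩ | hi
    · rw [hi]
      rcases Nat.lt_or_ge j i with hji | hji
      · exact Or.inr (h.mono.monotone hji)
      · exact Or.inl (h.mono.monotone hji)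
    · exact Or.inr (hi (j + 1)).le
  · obtain ⟨p, hp, hp0, hep⟩ := h.occ (j + 1)
    exact ⟨0, h.zero, p, hp, hp0.symm, Or.inl rfl, Or.inr hep.ge⟩
  · intro z hz
    obtain ⟨h1, h2, h3, h4, -⟩ := hf z hz
    refine ⟨h1, h2, ?_⟩
    rw [h4]
    exact h.mono.monotone (hQ _ h3).2
  · intro z hz z' hz' hne
    obtain ⟨-, -, h3, -, h5⟩ := hf z hz
    obtain ⟨-, -, h3', -, h5'⟩ := hf z' hz'
    rw [h5, h5']
    exact hsep _ h3 _ h3' fun hE => hne (hinj hz hz' hE)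

/-- Proof: `World.split`; `hU` from `U2'` (`s 0 ≤ t ≤ t + κ`, because `s p.1 ≤ t` for some `p`).
`h3`, `h5` in point form: a point `z` of the class has `e z = s i` for some `i`, or `e z` is larger
than all `s i`, in particular `e + κ ≤ s i₁ < e z` for the index `i₁` of `h4`. The set of exponents
of `World.split` is the image of the set of indices of `h5` under `s`. `lift` for `Q`. -/
theorem Spine.split (h : Spine W X s) (κ : G) (ω : F) (t e : G) (m : ℕ) (hκ : 0 < κ) (hte : t < e)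
    (h2 : ∃ p ∈ TPset W X s, ∃ q ∈ TPset W X s, p ≠ q ∧ Near W.v κ ω p.2 ∧ Near W.v κ ω q.2 ∧
      s p.1 ≤ t ∧ s q.1 ≤ t)
    (h3 : ∀ i σ, (i, σ) ∈ TPset W X s → Near W.v κ ω σ → s i ≤ t ∨ e ≤ s i)
    (h4 : ∃ i σ, (i, σ) ∈ TPset W X s ∧ Near W.v κ ω σ ∧ e + κ ≤ s i)
    (h5 : {i | (∃ σ, (i, σ) ∈ TPset W X s ∧ Near W.v κ ω σ) ∧ e ≤ s i ∧ s i < e + κ}.encard
      ≤ m) :
    ∃ δ : G, 0 < δ ∧ δ ≤ κ ∧ κ ≤ ((m + 1) * (W.K ^ 2 + 2 * W.K) + m + 1) • δ ∧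
      ∀ Q : Finset (ℕ × F), (∀ q ∈ Q, q ∈ TPset W X s ∧ Near W.v κ ω q.2 ∧ s q.1 ≤ t) →
        (∀ q ∈ Q, ∀ q' ∈ Q, q ≠ q' → ¬ Near W.v (κ + δ) q.2 q'.2) → Q.card ≤ 2 * W.K := by
  obtain ⟨i₁, σ₁, hT₁, hN₁, hs₁⟩ := h4
  have hbig : ∀ z : F × F, (∀ j, s j < W.e z) → e + κ < W.e z := fun z hz => hs₁.trans_lt (hz i₁)
  have h0t : s 0 ≤ t := by
    obtain ⟨p, -, -, -, -, -, -, hp, -⟩ := h2
    exact (h.mono.monotone (Nat.zero_le _)).trans hp
  obtain ⟨δ, hδ, hδκ, hκδ, hQ⟩ := W.split h.int h.kb h.zero (t := t) (e := e) (ω := ω) (m := m) hκ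
    hte (h.two_iff κ ω t h2)
    (h.U2' (h0t.trans (le_add_of_nonneg_right hκ.le)))
    (by
      intro z hz hTz hNz
      rcases h.all z hz hTz.ne with ⟨i, hi⟩ | hi
      · rw [hi]
        exact h3 i (sl z) ⟨z, hz, hTz, hi, rfl⟩ hNz
      · exact Or.inr ((le_add_of_nonneg_right hκ.le).trans (hbig z hi).le))
    (by
      obtain ⟨z, hz, hTz, hez, hsl⟩ := hT₁
      refine ⟨z, hz, hTz, ?_, ?_⟩
      · rw [hsl]; exact hN₁
      · rw [hez]; exact hs₁)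
    (by
      refine le_trans ?_ h5
      rw [← h.mono.injective.injOn.encard_image
        (s := {i | (∃ σ, (i, σ) ∈ TPset W X s ∧ Near W.v κ ω σ) ∧ e ≤ s i ∧ s i < e + κ})]
      refine Set.encard_le_encard ?_
      rintro r ⟨⟨z, hz, hTz, hNz, hez⟩, h6, h7⟩
      rcases h.all z hz hTz.ne with ⟨i, hi⟩ | hi
      · have hir : s i = r := hi.symm.trans hez
        refine ⟨i, ⟨⟨sl z, ⟨z, hz, hTz, hi, rfl⟩, hNz⟩, ?_, ?_⟩, hir⟩
        · rw [hir]; exact h6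
        · rw [hir]; exact h7
      · exfalso
        have h8 := hbig z hi
        rw [hez] at h8
        exact lt_asymm h7 h8)
  refine ⟨δ, hδ, hδκ, hκδ, ?_⟩
  intro Q hQ1 hQ2
  obtain ⟨Q', f, hc, hinj, hf⟩ := h.lift Q fun q hq => (hQ1 q hq).1
  rw [← hc]
  refine hQ Q' ?_ ?_
  · intro z hz
    obtain ⟨h6, h7, h8, h9, h10⟩ := hf z hz
    refine ⟨h6, h7, ?_, ?_⟩
    · rw [h10]; exact (hQ1 _ h8).2.1
    · rw [h9]; exact (hQ1 _ h8).2.2
  · intro z hz z' hz' hne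
    obtain ⟨-, -, h8, -, h10⟩ := hf z hz
    obtain ⟨-, -, h8', -, h10'⟩ := hf z' hz'
    rw [h10, h10']
    exact hQ2 _ h8 _ h8' fun hE => hne (hinj hz hz' hE)

end Pool.Agent.Lib.MP_8bcb9d_co.W
end

section

/-!
# World Fin: the exponents of a spine are bounded
-/

set_option autoImplicit false

namespace Pool.Agent.Lib.MP_8bcb9d_co.W

variable {F G : Type} [Field F] [LinearOrder F] [IsStrictOrderedRing F]
  [AddCommGroup G] [LinearOrder G] [IsOrderedAddMonoid G]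
  {W : World F G} {X : Set (F × F)} {s : ℕ → G}

/-- the combinatorial data of a spine -/
def Spine.comb (h : Spine W X s) : Comb F G W.K where
  v := W.v
  v_le := W.v_le
  s := s
  mono := h.mono
  TP := TPset W X s
  UI := UIset W X s
  hT := h.hT
  hU := h.hU
  two := h.two
  tu := h.tu
  n3 := h.n3
  bk := h.bk
  dl := h.dl
  split := h.split

/-- Theorem S -/
theorem Spine.bounded (h : Spine W X s) :
    ∃ k N : ℕ, ∀ j, s j ≤ s k + N • (s (k + 1) - s k) := h.comb.main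

end Pool.Agent.Lib.MP_8bcb9d_co.W
end

section

/-!
# World Fin is impossible: every `K`-bounded internal set is finite
-/

set_option autoImplicit false

namespace Pool.Agent.Lib.MP_8bcb9d_co.W

variable {F G : Type} [Field F] [LinearOrder F] [IsStrictOrderedRing F]
  [AddCommGroup G] [LinearOrder G] [IsOrderedAddMonoid G] {W : World F G}

/-- Proof: an infinite set has two different elements; a swapped `TT` point is `UU`. -/
theorem Path.spine {X : Set (F × F)} {s : ℕ → G} (h : Path W X s)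
    (hT : {p ∈ X | TT p ∧ W.e p = s 0}.Infinite)
    (hU : {p ∈ X | TT (sw p) ∧ W.e p = s 0}.Infinite) : Spine W X s where
  int := h.int
  kb := h.kb
  zero := h.zero
  mono := h.mono
  occ := h.occ
  all := h.all
  T2 := by
    obtain ⟨a, ha, b, hb, hab⟩ := hT.nontrivial
    exact ⟨a, ha.1, b, hb.1, hab, ha.2.1, hb.2.1, ha.2.2, hb.2.2⟩
  U2 := by
    obtain ⟨a, ha, b, hb, hab⟩ := hU.nontrivial
    have h1 : ∀ p : F × F, TT (sw p) → UU p := fun p hp => ⟨hp.1, hp.2.bd⟩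
    exact ⟨a, ha.1, b, hb.1, hab, h1 a ha.2.1, h1 b hb.2.1, ha.2.2, hb.2.2⟩

/-- Proof: `World.grow` with `t₁ = s k`, `t₂ = s (k + 1)` (`h.occ`, `h.all`; `s 0 ≤ s k`), then
`h.star`. -/
theorem Path.grow {X : Set (F × F)} {s : ℕ → G} (h : Path W X s)
    (hT : {p ∈ X | TT p ∧ W.e p = s 0}.Infinite)
    (hU : {p ∈ X | TT (sw p) ∧ W.e p = s 0}.Infinite) (k : ℕ) {y : G} (hy : W.FinNet X y) :
    W.FinNet X (y + (s (k + 1) - s k)) := by
  have h0 : s 0 ≤ s k := h.mono.monotone (Nat.zero_le k)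
  refine h.star k _ (W.grow h.int h.kb (h.mono (Nat.lt_succ_self k)) (h.occ (k + 1)) ?_ ?_ ?_ hy)
  · intro p hp hp0 hlt
    rcases h.all p hp hp0 with ⟨j, hj⟩ | hj
    · rw [hj] at hlt ⊢
      exact h.mono.monotone (h.mono.lt_iff_lt.1 hlt)
    · exact (hj (k + 1)).le
  · refine hT.mono ?_
    rintro p ⟨hp, hpT, hpe⟩
    exact ⟨hp, hpT, hpe.trans_le h0⟩
  · refine hU.mono ?_
    rintro p ⟨hp, hpT, hpe⟩
    exact ⟨hp, hpT, hpe.trans_le h0⟩

/-- Points with exponents `s 0 < s 1 < ...` are in different cells. Proof: let `Z` be a finite net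
at resolution `y`, `p j ∈ X` with `e (p j) = s j` (`h.occ`). The map which sends `j` to a net point
of `p j` is not injective: `i < j` with the same net point; `cell_trans`, `cell_symm`:
`p i = p j` (impossible, `s i < s j`) or `y ≤ e (p i - p j) = s i` (`e_add_sm`) `< y`. -/
theorem Path.not_net {X : Set (F × F)} {s : ℕ → G} (h : Path W X s) {y : G}
    (hy : ∀ j, s j < y) : ¬ W.FinNet X y := by
  rintro ⟨Z, hZ, -, hnet⟩
  choose p hpX hp0 hpe using h.occ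
  choose g hgZ hg using fun j => hnet (p j) (hpX j)
  obtain ⟨i, -, j, -, hij, hgij⟩ :=
    Set.infinite_univ.exists_ne_map_eq_of_mapsTo (f := g) (t := Z) (fun j _ => hgZ j) hZ
  have key : ∀ i j, i < j → g i = g j → False := by
    intro i j hlt hgg
    have h1 : p i = p j ∨ y ≤ W.e (p i - p j) := by
      refine W.cell_trans (hg i) ?_
      rw [hgg]
      exact W.cell_symm (hg j)
    have h2 : W.e (p i) < W.e (p j) := by
      rw [hpe, hpe]
      exact h.mono hlt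
    rcases h1 with h1 | h1
    · rw [h1] at h2
      exact lt_irrefl _ h2
    · have h3 : Sm (nrm (-p j)) (nrm (p i)) := by
        rw [nrm_neg]
        exact (W.e_lt (hp0 i) (hp0 j)).1 h2
      have h4 := (W.e_add_sm h3).2
      rw [← sub_eq_add_neg] at h4
      rw [h4, hpe] at h1
      exact absurd (hy i) (not_lt.2 h1)
  rcases lt_or_gt_of_ne hij with h1 | h1
  · exact key i j h1 hgij
  · exact key j i h1 hgij.symm

/-- the contradiction -/
theorem Path.absurd {X : Set (F × F)} {s : ℕ → G} (h : Path W X s)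
    (hT : {p ∈ X | TT p ∧ W.e p = s 0}.Infinite)
    (hU : {p ∈ X | TT (sw p) ∧ W.e p = s 0}.Infinite) : False := by
  obtain ⟨k, N, hkN⟩ := (h.spine hT hU).bounded
  have hJ : 0 < s (k + 1) - s k := sub_pos.2 (h.mono (Nat.lt_succ_self k))
  have h1 : ∀ n : ℕ, W.FinNet X (s k + n • (s (k + 1) - s k)) := by
    intro n
    induction n with
    | zero => simpa using h.net k
    | succ n ih =>
      have := h.grow hT hU k ih
      rwa [add_assoc, ← succ_nsmul] at this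
  refine h.not_net (fun j => ?_) (h1 (N + 1))
  have := hkN j
  rw [succ_nsmul]
  grind

/-- Every `K`-bounded internal set is finite. -/
theorem World.fin (W : World F G) : ∀ X ∈ W.I, KB W.K X → X.Finite := by
  intro X hI hX
  by_contra hinf
  obtain ⟨Y, hYI, hY, hn, h0, h1, h2⟩ := W.root hI hX hinf
  obtain ⟨X', s, h, hT, hU⟩ := World.exists_path hYI hY hn h0 h1 h2
  exact h.absurd hT hU

end Pool.Agent.Lib.MP_8bcb9d_co.W
end
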